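import Pool.Agent.Lib.MP_db622c_co.CB.Defs

/-!
# CB-BaseOF: one-factorizations of the complete graph

PROOF.  Let `e = n - 1` (odd).  Choose bijections `J ≃ Option (ZMod e)` and
`{a : A // a ≠ 0} ≃ ZMod e` (cardinalities).  On `Option (ZMod e)` the class of
`{some x, some y}` is `x + y` and the class of `{none, some x}` is `2 * x` (= `x + x`).
Injectivity: for fixed `some x`, the classes of `some y` (`y ≠ x`) are `x + y`, all different
from the class `x + x` of `none`; for fixed `none` use that `2` is a unit of `ZMod e`.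
(`e = 1`: `n = 2`, everything is trivial, the same formulas work: `ZMod 1`.)
For `e` odd: `x + x = y + y → x = y` in `ZMod e`.

`exists_OF_edges`: from any `g0` with `IsOF g0` (`n ≥ 4`): every nonzero class `i` of `g0` is a
perfect matching (for fixed `j`, `k ↦ g0 j k` is an injection, hence a bijection, from
`{k // k ≠ j}` to `{a // a ≠ 0}`).  Take `i` nonzero, a point `u1`, its partner `v1` in class `i`,
a point `u2 ≠ u1, v1` and its partner `v2`: four distinct points.  Choose a permutation `σ` of
`J` with `σ a = u1, σ c = v1, σ b = u2, σ d = v2` and the transposition `ρ = Equiv.swap i i2` of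
`A` (it fixes `0`).  Then `g j k = ρ (g0 (σ j) (σ k))`.
-/

namespace Pool.Agent.Lib.MP_db622c_co.CB

open Pool.Agent.Lib.MP_db622c_co

theorem double_inj {e : ℕ} (he : Odd e) (x y : ZMod e) (h : x + x = y + y) : x = y := by
  have h2 : IsUnit (2 : ZMod e) := by
    have := (ZMod.isUnit_iff_coprime 2 e).2 (Nat.coprime_two_left.2 he)
    simpa using this
  have h3 : (2 : ZMod e) * x = 2 * y := by
    rw [two_mul, two_mul, h]
  exact h2.mul_left_cancel h3

/-- the class of an edge of the complete graph on `Option (ZMod e)` -/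
def ofClass {e : ℕ} : Option (ZMod e) → Option (ZMod e) → ZMod e
  | none, none => 0
  | none, some x => x + x
  | some x, none => x + x
  | some x, some y => x + y

theorem ofClass_symm {e : ℕ} (p q : Option (ZMod e)) : ofClass p q = ofClass q p := by
  rcases p with _ | x <;> rcases q with _ | y <;> simp [ofClass, add_comm]

theorem ofClass_inj {e : ℕ} (he : Odd e) (p q q' : Option (ZMod e)) (hq : q ≠ p) (hq' : q' ≠ p)
    (h : ofClass p q = ofClass p q') : q = q' := by
  rcases p with _ | x
  · rcases q with _ | y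
    · exact absurd rfl hq
    · rcases q' with _ | y'
      · exact absurd rfl hq'
      · rw [double_inj he y y' h]
  · rcases q with _ | y
    · rcases q' with _ | y'
      · rfl
      · simp only [ofClass] at h
        exact absurd (by rw [add_left_cancel h]) hq'
    · rcases q' with _ | y'
      · simp only [ofClass] at h
        exact absurd (by rw [add_left_cancel h]) hq
      · simp only [ofClass] at h
        rw [add_left_cancel h]

theorem exists_OF {A J : Type*} [Zero A] [Fintype A] [Fintype J] (n : ℕ)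
    (hA : Fintype.card A = n) (hJ : Fintype.card J = n) (he : Even n) (hn : 0 < n) :
    ∃ g : J → J → A, IsOF g := by
  classical
  obtain ⟨e, rfl⟩ : ∃ e, n = e + 1 := ⟨n - 1, by omega⟩
  have heo : Odd e := by
    rcases Nat.even_or_odd e with h | h
    · exact absurd he (by
        intro h'
        exact (Nat.not_even_iff_odd.2 h.add_one) h')
    · exact h
  have : NeZero e := ⟨by rintro rfl; exact absurd heo (by decide)⟩
  have e1 : Nonempty (J ≃ Option (ZMod e)) := by
    apply Fintype.card_eq.1
    rw [Fintype.card_option, ZMod.card, hJ]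
  have e2 : Nonempty ({a : A // a ≠ 0} ≃ ZMod e) := by
    apply Fintype.card_eq.1
    rw [Fintype.card_subtype_compl, ZMod.card, hA, Fintype.card_subtype_eq]
    simp
  obtain ⟨e1⟩ := e1
  obtain ⟨e2⟩ := e2
  refine ⟨fun j k => (e2.symm (ofClass (e1 j) (e1 k))).1, ?_, ?_, ?_⟩
  · intro j k _
    exact (e2.symm (ofClass (e1 j) (e1 k))).2
  · intro j k
    rw [ofClass_symm]
  · intro j k k' hk hk' h
    have h1 : e2.symm (ofClass (e1 j) (e1 k)) = e2.symm (ofClass (e1 j) (e1 k')) :=
      Subtype.ext h
    have h2 := e2.symm.injective h1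
    exact e1.injective (ofClass_inj heo _ _ _ (fun h => hk (e1.injective h))
      (fun h => hk' (e1.injective h)) h2)

/-- in a one-factorization every point has a partner in every nonzero class -/
theorem IsOF.exists_partner {A J : Type*} [Zero A] [Fintype A] [Fintype J]
    (hc : Fintype.card A = Fintype.card J) {g : J → J → A} (hg : IsOF g) (j : J) (i : A)
    (hi : i ≠ 0) : ∃ k, k ≠ j ∧ g j k = i := by
  classical
  let f : {k : J // k ≠ j} → {a : A // a ≠ 0} := fun k => ⟨g j k.1, hg.ne j k.1 (Ne.symm k.2)⟩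
  have hf : Function.Injective f := by
    intro k k' h
    exact Subtype.ext (hg.inj j k.1 k'.1 k.2 k'.2 (congrArg Subtype.val h))
  have hb : Function.Bijective f := by
    rw [Fintype.bijective_iff_injective_and_card]
    refine ⟨hf, ?_⟩
    rw [Fintype.card_subtype_compl, Fintype.card_subtype_compl, Fintype.card_subtype_eq,
      Fintype.card_subtype_eq, hc]
  obtain ⟨k, hk⟩ := hb.2 ⟨i, hi⟩
  exact ⟨k.1, k.2, congrArg Subtype.val hk⟩

/-- a permutation with four prescribed values -/
theorem exists_perm4 {J : Type*} (a b c d u v x y : J) (hab : a ≠ b) (hac : a ≠ c) (had : a ≠ d)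
    (hbc : b ≠ c) (hbd : b ≠ d) (hcd : c ≠ d) (huv : u ≠ v) (hux : u ≠ x) (huy : u ≠ y)
    (hvx : v ≠ x) (hvy : v ≠ y) (hxy : x ≠ y) :
    ∃ σ : Equiv.Perm J, σ a = u ∧ σ b = v ∧ σ c = x ∧ σ d = y := by
  have hi1 : Function.Injective (![a, b, c, d] : Fin 4 → J) := by
    intro i j h
    fin_cases i <;> fin_cases j <;> simp_all
  have hi2 : Function.Injective (![u, v, x, y] : Fin 4 → J) := by
    intro i j h
    fin_cases i <;> fin_cases j <;> simp_all
  obtain ⟨σ, hσ⟩ := (Equiv.Perm.isMultiplyPretransitive J 4).exists_smul_eq ⟨_, hi1⟩ ⟨_, hi2⟩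
  have h : ∀ i, σ ((![a, b, c, d] : Fin 4 → J) i) = (![u, v, x, y] : Fin 4 → J) i := by
    intro i
    have := DFunLike.congr_fun hσ i
    simpa using this
  exact ⟨σ, h 0, h 1, h 2, h 3⟩

/-- a one-factorization with two prescribed edges in a prescribed class -/
theorem exists_OF_edges {A J : Type*} [Zero A] [Fintype A] [Fintype J] (n : ℕ)
    (hA : Fintype.card A = n) (hJ : Fintype.card J = n) (he : Even n) (hn : 4 ≤ n)
    (a b c d : J) (hab : a ≠ b) (hac : a ≠ c) (had : a ≠ d) (hbc : b ≠ c) (hbd : b ≠ d)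
    (hcd : c ≠ d) (i2 : A) (hi2 : i2 ≠ 0) :
    ∃ g : J → J → A, IsOF g ∧ g a c = i2 ∧ g b d = i2 := by
  classical
  obtain ⟨g0, h0⟩ := exists_OF n hA hJ he (by omega)
  have hc : Fintype.card A = Fintype.card J := by rw [hA, hJ]
  obtain ⟨v1, hv1, hg1⟩ := h0.exists_partner hc a i2 hi2
  obtain ⟨u2, hu2⟩ : ∃ u2 : J, u2 ∉ ({a, v1} : Finset J) := by
    by_contra hcon
    push Not at hcon
    have h1 : (Finset.univ : Finset J) ⊆ {a, v1} := fun x _ => hcon x
    have h2 := Finset.card_le_card h1
    have h3 : ({a, v1} : Finset J).card ≤ 2 := Finset.card_le_two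
    rw [Finset.card_univ, hJ] at h2
    omega
  have hu2a : u2 ≠ a := by
    intro h; exact hu2 (by simp [h])
  have hu2v : u2 ≠ v1 := by
    intro h; exact hu2 (by simp [h])
  obtain ⟨v2, hv2, hg2⟩ := h0.exists_partner hc u2 i2 hi2
  have hv2a : v2 ≠ a := by
    intro h
    subst h
    have h1 : g0 v2 u2 = g0 v2 v1 := by rw [h0.symm v2 u2, hg2, hg1]
    exact hu2v (h0.inj v2 u2 v1 hu2a hv1 h1)
  have hv2v : v2 ≠ v1 := by
    intro h
    subst h
    have h1 : g0 v2 u2 = g0 v2 a := by rw [h0.symm v2 u2, h0.symm v2 a, hg2, hg1]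
    exact hu2a (h0.inj v2 u2 a hu2v (Ne.symm hv1) h1)
  obtain ⟨σ, s1, s2, s3, s4⟩ := exists_perm4 a b c d a u2 v1 v2 hab hac had hbc hbd hcd
    (Ne.symm hu2a) (Ne.symm hv1) (Ne.symm hv2a) hu2v (Ne.symm hv2) (Ne.symm hv2v)
  refine ⟨fun j k => g0 (σ j) (σ k), ⟨?_, ?_, ?_⟩, ?_, ?_⟩
  · intro j k hjk
    exact h0.ne _ _ (fun h => hjk (σ.injective h))
  · intro j k
    exact h0.symm _ _
  · intro j k k' hk hk' h
    exact σ.injective (h0.inj _ _ _ (fun h => hk (σ.injective h)) (fun h => hk' (σ.injective h)) h)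
  · simp only [s1, s3]
    exact hg1
  · simp only [s2, s4]
    exact hg2

end Pool.Agent.Lib.MP_db622c_co.CB
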