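import Pool.Agent.Lib.MP_db622c_co.CB.Defs

/-!
# CB-Tens: the sign matrix of a blow-up
-/

namespace Pool.Agent.Lib.MP_db622c_co.CB

open Pool.Agent.Lib.MP_db622c_co

section field

variable {K : Type*} [Field K] [CharP K 2]

theorem add_self (x : K) : x + x = 0 := CharTwo.add_self_eq_zero x

theorem add_add_self (x y : K) : x + (x + y) = y := by
  rw [← add_assoc, add_self, zero_add]

theorem eq_of_add_eq_zero {x y : K} (h : x + y = 0) : x = y := by
  have := add_self y
  linear_combination h - this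

/-- an orientation factor: `t` on edges going up, `1 + t` on edges going down -/
theorem label_symm (t x y : K) : x + t * (x + y) = y + (1 + t) * (y + x) := by
  linear_combination -(add_self y)

end field

theorem sum_sg_gen {K : Type*} [Field K] [Fintype K] (φ : K →+ ZMod 2) (c : K) (hc : φ c = 1)
    (μ : K) (hμ : μ ≠ 0) : ∑ x : K, sg (φ (μ * x)) = 0 := by
  have h1 : ∑ x : K, sg (φ (μ * x)) = ∑ x : K, sg (φ (μ * (x + μ⁻¹ * c))) :=
    (Equiv.sum_comp (Equiv.addRight (μ⁻¹ * c)) (fun x => sg (φ (μ * x)))).symm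
  have h2 : ∀ x : K, sg (φ (μ * (x + μ⁻¹ * c))) = - sg (φ (μ * x)) := by
    intro x
    rw [mul_add, mul_inv_cancel_left₀ hμ, map_add, hc, sg_add_one]
  rw [Finset.sum_congr rfl (fun x _ => h2 x), Finset.sum_neg_distrib] at h1
  linarith

/-- the sign matrix of the blow-up by `K` -/
def tens {K A J : Type*} [Field K] (φ : K →+ ZMod 2) (S : A → J → ℤ) (a : K × A)
    (x : K × J) : ℤ :=
  sg (φ (a.1 * x.1)) * S a.2 x.2

theorem isH_tens {K A J : Type*} [Field K] [CharP K 2] [Fintype K] [Zero A] [Fintype J]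
    (φ : K →+ ZMod 2) (c : K) (hc : φ c = 1) {S : A → J → ℤ} (hS : IsH S) :
    IsH (tens φ S) := by
  refine ⟨?_, ?_, ?_⟩
  · intro a x
    unfold tens
    rcases sg_cases (φ (a.1 * x.1)) with h | h <;> rcases hS.sign a.2 x.2 with h' | h' <;>
      simp [h, h']
  · intro x
    simp [tens, hS.one, sg]
  · intro a b hab
    have h1 : ∀ x : K × J, tens φ S a x * tens φ S b x
        = sg (φ ((a.1 + b.1) * x.1)) * (S a.2 x.2 * S b.2 x.2) := by
      intro x
      rw [add_mul, map_add, sg_add]
      unfold tens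
      ring
    rw [Finset.sum_congr rfl (fun x _ => h1 x), Fintype.sum_prod_type,
      ← Finset.sum_mul_sum (s := Finset.univ) (t := Finset.univ)
        (f := fun x : K => sg (φ ((a.1 + b.1) * x))) (g := fun j : J => S a.2 j * S b.2 j)]
    by_cases h : a.1 = b.1
    · have h2 : a.2 ≠ b.2 := fun h2 => hab (Prod.ext h h2)
      rw [hS.orth _ _ h2, mul_zero]
    · have h2 : a.1 + b.1 ≠ 0 := fun h2 => h (eq_of_add_eq_zero h2)
      rw [sum_sg_gen φ c hc _ h2, zero_mul]

/-- signs at the two ends of an edge of the blow-up -/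
theorem tens_split {K A J : Type*} [Field K] [CharP K 2] (φ : K →+ ZMod 2) {S : A → J → ℤ}
    {a : K} {i : A} {x y : K} {j k : J}
    (h : sg (φ (a * (x + y))) * S i k = - S i j) :
    tens φ S (a, i) (y, k) = - tens φ S (a, i) (x, j) := by
  have h1 : y = x + (x + y) := (add_add_self x y).symm
  have h2 : sg (φ (a * y)) = sg (φ (a * x)) * sg (φ (a * (x + y))) := by
    rw [← sg_add, ← map_add, ← mul_add]
    congr 3
  show sg (φ (a * y)) * S i k = -(sg (φ (a * x)) * S i j)
  rw [h2, mul_assoc, h]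
  ring

end Pool.Agent.Lib.MP_db622c_co.CB
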