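import Pool.Agent.Lib.MP_db622c_co.CB.Defs2
import Pool.Agent.Lib.MP_db622c_co.CB.Tens

/-!
# CB-Blow: the general blow-up of a one-factorization by a field

Points `(x, j) : K × J`, classes (boards) `(a, i) : K × A`.  The class of the edge
`{(x, j), (y, k)}` depends only on `j, k` and `w = x + y`.
-/

namespace Pool.Agent.Lib.MP_db622c_co.CB

open Pool.Agent.Lib.MP_db622c_co

/-- The combinatorial data of a blow-up. -/
structure Blow {A J : Type*} [Zero A] (S : A → J → ℤ) (V : Type*) where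
  g : J → J → A
  p : A → J → J
  q : A → J → J
  L : V → J → J → A
  σ : J → J → Equiv.Perm V
  dir : A → J → Prop
  al : A → J → V
  cc : A → J → A
  hg : IsOF g
  p_ne : ∀ i j, i ≠ 0 → p i j ≠ j
  g_p : ∀ i j, i ≠ 0 → g j (p i j) = i
  q_q : ∀ i j, i ≠ 0 → q i (q i j) = j
  q_split : ∀ i j, i ≠ 0 → S i (q i j) = - S i j
  L_symm : ∀ α j k, L α j k = L α k j
  L_inj : ∀ α j k k', L α j k = L α j k' → k = k'
  σ_symm : ∀ j k, σ j k = σ k j
  dir_p : ∀ i j, i ≠ 0 → (dir i (p i j) ↔ dir i j)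
  dir_q : ∀ i j, i ≠ 0 → (dir i (q i j) ↔ dir i j)
  q_dir : ∀ i j, i ≠ 0 → dir i j → q i j = p i j
  al_p : ∀ i j, i ≠ 0 → ¬ dir i j → al i (p i j) = al i j
  al_q : ∀ i j, i ≠ 0 → ¬ dir i j → al i (q i j) = al i j
  cc_p : ∀ i j, i ≠ 0 → ¬ dir i j → cc i (p i j) = cc i j
  cc_q : ∀ i j, i ≠ 0 → ¬ dir i j → cc i (q i j) = cc i j
  al_inj : ∀ i i' j, i ≠ 0 → i' ≠ 0 → ¬ dir i j → ¬ dir i' j → al i j = al i' j → i = i'
  L_cc : ∀ i j, i ≠ 0 → ¬ dir i j → L (al i j) j (q i j) = cc i j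
  cc_split : ∀ i j, i ≠ 0 → ¬ dir i j → S (cc i j) (p i j) = - S (cc i j) j

section pack

variable {K V : Type*} [Field K] [CommGroup V]

theorem Pack.N_div (P : Pack K V) {x w : K} (hx : x ≠ 0) (hw : w ≠ 0) :
    P.N (x / w) = P.N x / P.N w := by
  have h1 := P.N_mul (x / w) w (div_ne_zero hx hw) hw
  rw [div_mul_cancel₀ x hw] at h1
  rw [h1, mul_div_assoc, div_self', mul_one]

end pack

section

variable {K V A J : Type*} [Field K] [CommGroup V] [Zero A] {S : A → J → ℤ}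

namespace Blow

variable (B : Blow S V) (P : Pack K V)

theorem g_ne {j k : J} (h : j ≠ k) : B.g j k ≠ 0 := B.hg.ne j k h

theorem p_eq {j k : J} (h : j ≠ k) : B.p (B.g j k) j = k :=
  B.hg.inj j _ _ (B.p_ne _ _ (B.g_ne h)) h.symm (B.g_p _ _ (B.g_ne h))

/-- the column of a unit -/
def col (j k : J) (w : K) : V := (B.σ j k).symm (P.N w)

/-- the class of a unit in its column -/
def cls (j k : J) (w : K) : A := B.L (B.col P j k w) j k

open Classical in
/-- the numerator of the field component of the regular board of a unit -/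
noncomputable def num (j k : J) (w : K) : K :=
  if S (B.cls P j k w) k = - S (B.cls P j k w) j then P.b (P.N w / B.col P j k w)
  else P.c (P.N w / B.col P j k w)

/-- the field component of the regular board of a unit -/
noncomputable def amp (j k : J) (w : K) : K := B.num P j k w / w

theorem num_ne (j k : J) (w : K) : B.num P j k w ≠ 0 := by
  unfold num
  split_ifs
  · exact P.b_ne _
  · exact P.c_ne _

theorem N_num (j k : J) (w : K) : P.N (B.num P j k w) = P.N w / B.col P j k w := by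
  unfold num
  split_ifs
  · exact P.N_b _
  · exact P.N_c _

theorem amp_ne (j k : J) {w : K} (hw : w ≠ 0) : B.amp P j k w ≠ 0 :=
  div_ne_zero (B.num_ne P j k w) hw

theorem N_amp (j k : J) {w : K} (hw : w ≠ 0) : P.N (B.amp P j k w) = (B.col P j k w)⁻¹ := by
  unfold amp
  rw [P.N_div (B.num_ne P j k w) hw, B.N_num, div_div, mul_comm, ← div_div, div_self', one_div]

theorem col_of_amp {j k j' k' : J} {w w' : K} (hw : w ≠ 0) (hw' : w' ≠ 0)
    (h : B.amp P j k w = B.amp P j' k' w') : B.col P j k w = B.col P j' k' w' := by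
  have h1 := B.N_amp P j k hw
  rw [h, B.N_amp P j' k' hw'] at h1
  exact (inv_injective h1).symm

theorem col_symm (j k : J) (w : K) : B.col P j k w = B.col P k j w := by
  unfold col
  rw [B.σ_symm]

theorem cls_symm (j k : J) (w : K) : B.cls P j k w = B.cls P k j w := by
  unfold cls
  rw [B.col_symm, B.L_symm]

theorem num_symm (j k : J) (w : K) : B.num P j k w = B.num P k j w := by
  unfold num
  rw [B.cls_symm P j k, B.col_symm P j k]
  have h : (S (B.cls P k j w) k = - S (B.cls P k j w) j) ↔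
      (S (B.cls P k j w) j = - S (B.cls P k j w) k) := by
    constructor <;> intro h <;> rw [h, neg_neg]
  simp only [h]

theorem amp_symm (j k : J) (w : K) : B.amp P j k w = B.amp P k j w := by
  unfold amp
  rw [B.num_symm]

theorem amp_inj (j k : J) {w w' : K} (hw : w ≠ 0) (hw' : w' ≠ 0)
    (h : B.amp P j k w = B.amp P j k w') : w = w' := by
  have h1 := B.col_of_amp P hw hw' h
  have h2 : P.N w = P.N w' := (B.σ j k).symm.injective h1
  have h3 : B.num P j k w = B.num P j k w' := by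
    unfold num cls
    rw [h1, h2]
  unfold amp at h
  rw [h3] at h
  have h4 := B.num_ne P j k w'
  rw [div_eq_div_iff hw hw'] at h
  exact (mul_left_cancel₀ h4 h).symm

/-- the unit is moved to the board `(0, i)` -/
def mv (j k : J) (w : K) (i : A) : Prop :=
  i ≠ 0 ∧ ¬ B.dir i j ∧ B.al i j = B.col P j k w ∧ B.q i j = k ∧
    B.amp P j k w = P.b (B.al i j)⁻¹

theorem mv_symm {j k : J} {w : K} {i : A} (h : B.mv P j k w i) : B.mv P k j w i := by
  obtain ⟨h0, h1, h2, h3, h4⟩ := h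
  have h5 : B.al i k = B.al i j := by rw [← h3]; exact B.al_q i j h0 h1
  refine ⟨h0, ?_, ?_, ?_, ?_⟩
  · intro hd
    rw [← h3] at hd
    exact h1 ((B.dir_q i j h0).1 hd)
  · rw [h5, h2, B.col_symm]
  · rw [← h3]; exact B.q_q i j h0
  · rw [h5, ← h4, B.amp_symm]

theorem mv_unique {j k k' : J} {w w' : K} {i i' : A} (h : B.mv P j k w i)
    (h' : B.mv P j k' w' i') (hc : B.col P j k w = B.col P j k' w') : i = i' :=
  B.al_inj i i' j h.1 h'.1 h.2.1 h'.2.1 (by rw [h.2.2.1, h'.2.2.1, hc])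

open Classical in
/-- the board of a unit -/
noncomputable def bd (j k : J) (w : K) : K × A :=
  if w = 0 then
    (if B.dir (B.g j k) j then (0, B.g j k)
      else (P.b (B.al (B.g j k) j)⁻¹, B.cc (B.g j k) j))
  else if h : ∃ i, B.mv P j k w i then (0, h.choose) else (B.amp P j k w, B.cls P j k w)

theorem bd_dir {j k : J} (hd : B.dir (B.g j k) j) : B.bd P j k 0 = (0, B.g j k) := by
  simp [bd, hd]

theorem bd_ndir {j k : J} (hd : ¬ B.dir (B.g j k) j) :
    B.bd P j k 0 = (P.b (B.al (B.g j k) j)⁻¹, B.cc (B.g j k) j) := by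
  simp [bd, hd]

theorem bd_mv {j k : J} {w : K} (hw : w ≠ 0) {i : A} (h : B.mv P j k w i) :
    B.bd P j k w = (0, i) := by
  have h1 : ∃ i, B.mv P j k w i := ⟨i, h⟩
  have h2 : h1.choose = i := B.mv_unique P h1.choose_spec h rfl
  simp only [bd, hw, if_false, h1, dif_pos, h2]

theorem bd_reg {j k : J} {w : K} (hw : w ≠ 0) (h : ∀ i, ¬ B.mv P j k w i) :
    B.bd P j k w = (B.amp P j k w, B.cls P j k w) := by
  have h1 : ¬ ∃ i, B.mv P j k w i := by push Not; exact h
  simp only [bd, hw, if_false, h1, dif_neg, not_false_eq_true]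

/-- The four kinds of units. -/
theorem bd_cases (j k : J) (w : K) (hjk : j ≠ k ∨ w ≠ 0) :
    (w = 0 ∧ j ≠ k ∧ B.dir (B.g j k) j ∧ B.bd P j k w = (0, B.g j k)) ∨
    (w = 0 ∧ j ≠ k ∧ ¬ B.dir (B.g j k) j ∧
      B.bd P j k w = (P.b (B.al (B.g j k) j)⁻¹, B.cc (B.g j k) j)) ∨
    (w ≠ 0 ∧ ∃ i, B.mv P j k w i ∧ B.bd P j k w = (0, i)) ∨
    (w ≠ 0 ∧ (∀ i, ¬ B.mv P j k w i) ∧ B.bd P j k w = (B.amp P j k w, B.cls P j k w)) := by
  by_cases hw : w = 0
  · subst hw
    have h1 : j ≠ k := by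
      rcases hjk with h | h
      · exact h
      · exact absurd rfl h
    by_cases hd : B.dir (B.g j k) j
    · exact Or.inl ⟨rfl, h1, hd, B.bd_dir P hd⟩
    · exact Or.inr (Or.inl ⟨rfl, h1, hd, B.bd_ndir P hd⟩)
  · by_cases h : ∃ i, B.mv P j k w i
    · obtain ⟨i, hi⟩ := h
      exact Or.inr (Or.inr (Or.inl ⟨hw, i, hi, B.bd_mv P hw hi⟩))
    · push Not at h
      exact Or.inr (Or.inr (Or.inr ⟨hw, h, B.bd_reg P hw h⟩))

theorem bd_symm (j k : J) (w : K) : B.bd P j k w = B.bd P k j w := by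
  by_cases hjk : j = k
  · rw [hjk]
  have hk : B.p (B.g j k) j = k := B.p_eq hjk
  have h0 := B.g_ne hjk
  rcases B.bd_cases P j k w (Or.inl hjk) with ⟨hw, -, hd, hb⟩ | ⟨hw, -, hd, hb⟩ |
    ⟨hw, i, hi, hb⟩ | ⟨hw, hi, hb⟩
  · subst hw
    rw [hb, B.bd_dir P, B.hg.symm k j]
    rw [B.hg.symm k j]
    rw [← B.dir_p _ _ h0, hk] at hd
    exact hd
  · subst hw
    have hd' : ¬ B.dir (B.g k j) k := by
      rw [B.hg.symm k j]
      rw [← B.dir_p _ _ h0, hk] at hd
      exact hd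
    rw [hb, B.bd_ndir P hd', B.hg.symm k j]
    have h1 := B.al_p _ _ h0 hd
    have h2 := B.cc_p _ _ h0 hd
    rw [hk] at h1 h2
    rw [h1, h2]
  · rw [hb, B.bd_mv P hw (B.mv_symm P hi)]
  · rw [hb, B.bd_reg P hw (fun i h => hi i (B.mv_symm P h)), B.amp_symm, B.cls_symm]

theorem bd_ne (j k : J) (w : K) (hjk : j ≠ k ∨ w ≠ 0) : B.bd P j k w ≠ 0 := by
  intro h
  rcases B.bd_cases P j k w hjk with ⟨hw, hjk, hd, hb⟩ | ⟨hw, hjk, hd, hb⟩ |
    ⟨hw, i, hi, hb⟩ | ⟨hw, hi, hb⟩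
  · rw [hb] at h
    exact B.g_ne hjk (congrArg Prod.snd h)
  · rw [hb] at h
    exact P.b_ne _ (congrArg Prod.fst h)
  · rw [hb] at h
    exact hi.1 (congrArg Prod.snd h)
  · rw [hb] at h
    exact B.amp_ne P j k hw (congrArg Prod.fst h)

theorem bd_inj (j k k' : J) (w w' : K) (h1 : j ≠ k ∨ w ≠ 0) (h2 : j ≠ k' ∨ w' ≠ 0)
    (h : B.bd P j k w = B.bd P j k' w') : k = k' ∧ w = w' := by
  have key : ∀ (k k' : J) (w w' : K) (h1 : j ≠ k ∨ w ≠ 0) (h2 : j ≠ k' ∨ w' ≠ 0)
      (h : B.bd P j k w = B.bd P j k' w'), w' = 0 → k = k' ∧ w = w' := by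
    intro k k' w w' h1 h2 h hw0
    rcases B.bd_cases P j k' w' h2 with ⟨hw', hjk', hd', hb'⟩ | ⟨hw', hjk', hd', hb'⟩ |
      ⟨hw', _, _, _⟩ | ⟨hw', _, _⟩
    · rcases B.bd_cases P j k w h1 with ⟨hw, hjk, hd, hb⟩ | ⟨hw, hjk, hd, hb⟩ |
        ⟨hw, i, hi, hb⟩ | ⟨hw, hi, hb⟩
      · rw [hb, hb'] at h
        exact ⟨B.hg.inj j _ _ hjk.symm hjk'.symm (congrArg Prod.snd h), hw.trans hw'.symm⟩
      · rw [hb, hb'] at h
        exact absurd (congrArg Prod.fst h) (P.b_ne _)
      · rw [hb, hb'] at h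
        exfalso
        have h3 : i = B.g j k' := congrArg Prod.snd h
        exact hi.2.1 (h3 ▸ hd')
      · rw [hb, hb'] at h
        exact absurd (congrArg Prod.fst h) (B.amp_ne P _ _ hw)
    · rcases B.bd_cases P j k w h1 with ⟨hw, hjk, hd, hb⟩ | ⟨hw, hjk, hd, hb⟩ |
        ⟨hw, i, hi, hb⟩ | ⟨hw, hi, hb⟩
      · rw [hb, hb'] at h
        exact absurd (congrArg Prod.fst h).symm (P.b_ne _)
      · rw [hb, hb'] at h
        have h3 : P.b (B.al (B.g j k) j)⁻¹ = P.b (B.al (B.g j k') j)⁻¹ := congrArg Prod.fst h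
        have h4 : B.al (B.g j k) j = B.al (B.g j k') j := by
          have h5 := congrArg P.N h3
          rw [P.N_b, P.N_b] at h5
          exact inv_injective h5
        have h6 := B.al_inj _ _ _ (B.g_ne hjk) (B.g_ne hjk') hd hd' h4
        exact ⟨B.hg.inj j _ _ hjk.symm hjk'.symm h6, hw.trans hw'.symm⟩
      · rw [hb, hb'] at h
        exact absurd (congrArg Prod.fst h).symm (P.b_ne _)
      · rw [hb, hb'] at h
        exfalso
        have h3 : P.b (B.al (B.g j k') j)⁻¹ = B.amp P j k w := (congrArg Prod.fst h).symm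
        have h2 : B.cc (B.g j k') j = B.cls P j k w := (congrArg Prod.snd h).symm
        have h4 : B.al (B.g j k') j = B.col P j k w := by
          have h5 := B.N_amp P j k hw
          rw [← h3, P.N_b] at h5
          exact inv_injective h5
        have h5 : B.q (B.g j k') j = k := by
          unfold cls at h2
          rw [← h4, ← B.L_cc _ j (B.g_ne hjk') hd'] at h2
          exact B.L_inj _ _ _ _ h2
        exact hi _ ⟨B.g_ne hjk', hd', h4, h5, h3.symm⟩
    · exact absurd hw0 hw'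
    · exact absurd hw0 hw'
  by_cases hw0' : w' = 0
  · exact key k k' w w' h1 h2 h hw0'
  by_cases hw0 : w = 0
  · have h3 := key k' k w' w h2 h1 h.symm hw0
    exact ⟨h3.1.symm, h3.2.symm⟩
  rcases B.bd_cases P j k' w' h2 with ⟨hw', _⟩ | ⟨hw', _⟩ |
      ⟨hw', i', hi', hb'⟩ | ⟨hw', hi', hb'⟩
  · exact absurd hw' hw0'
  · exact absurd hw' hw0'
  · rcases B.bd_cases P j k w h1 with ⟨hw, _⟩ | ⟨hw, _⟩ | ⟨hw, i, hi, hb⟩ | ⟨hw, hi, hb⟩
    · exact absurd hw hw0
    · exact absurd hw hw0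
    · rw [hb, hb'] at h
      have h3 : i = i' := congrArg Prod.snd h
      subst h3
      have h4 : k = k' := hi.2.2.2.1.symm.trans hi'.2.2.2.1
      subst h4
      refine ⟨rfl, B.amp_inj P j k hw hw' ?_⟩
      rw [hi.2.2.2.2, hi'.2.2.2.2]
    · rw [hb, hb'] at h
      exact absurd (congrArg Prod.fst h) (B.amp_ne P _ _ hw)
  · rcases B.bd_cases P j k w h1 with ⟨hw, _⟩ | ⟨hw, _⟩ | ⟨hw, i, hi, hb⟩ | ⟨hw, hi, hb⟩
    · exact absurd hw hw0
    · exact absurd hw hw0
    · rw [hb, hb'] at h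
      exact absurd (congrArg Prod.fst h).symm (B.amp_ne P _ _ hw')
    · rw [hb, hb'] at h
      have h3 : B.amp P j k w = B.amp P j k' w' := congrArg Prod.fst h
      have h4 : B.cls P j k w = B.cls P j k' w' := congrArg Prod.snd h
      have h5 := B.col_of_amp P hw hw' h3
      have h6 : k = k' := by
        unfold cls at h4
        rw [h5] at h4
        exact B.L_inj _ _ _ _ h4
      subst h6
      exact ⟨rfl, B.amp_inj P j k hw hw' h3⟩

/-- The blown-up one-factorization. -/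
noncomputable def G (x y : K × J) : K × A := B.bd P x.2 y.2 (x.1 + y.1)

variable [CharP K 2]

theorem unit_ok {x y : K × J} (h : x ≠ y) : x.2 ≠ y.2 ∨ x.1 + y.1 ≠ 0 := by
  by_contra hc
  push Not at hc
  exact h (Prod.ext (eq_of_add_eq_zero hc.2) hc.1)

theorem isOF_G : IsOF (B.G P) := by
  refine ⟨?_, ?_, ?_⟩
  · intro x y h
    exact B.bd_ne P _ _ _ (unit_ok h)
  · intro x y
    unfold G
    rw [B.bd_symm, add_comm]
  · intro x y z hy hz h
    have h1 := B.bd_inj P x.2 y.2 z.2 (x.1 + y.1) (x.1 + z.1) (unit_ok hy.symm) (unit_ok hz.symm) h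
    exact Prod.ext (add_left_cancel h1.2) h1.1

theorem sg_num {i : A} (j k : J) (w : K) (hS : ∀ a j, S a j = 1 ∨ S a j = -1)
    (hi : i = B.cls P j k w) :
    sg (P.φ (B.num P j k w)) * S i k = - S i j := by
  subst hi
  unfold num
  split_ifs with h
  · rw [P.φ_b, h]
    simp [sg]
  · rw [P.φ_c]
    have h1 := hS (B.cls P j k w) k
    have h2 := hS (B.cls P j k w) j
    have h3 : S (B.cls P j k w) k = S (B.cls P j k w) j := by
      rcases h1 with h1 | h1 <;> rcases h2 with h2 | h2 <;> rw [h1, h2] at h ⊢ <;>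
        simp at h
    rw [h3]
    simp [sg]

theorem isSplit_G (hS : ∀ a j, S a j = 1 ∨ S a j = -1) : IsSplit (tens P.φ S) (B.G P) := by
  intro x y hxy
  have hu := unit_ok hxy
  have key : ∀ (a : K) (i : A), B.bd P x.2 y.2 (x.1 + y.1) = (a, i) →
      sg (P.φ (a * (x.1 + y.1))) * S i y.2 = - S i x.2 →
      tens P.φ S (B.G P x y) y = - tens P.φ S (B.G P x y) x := by
    intro a i h1 h2
    have h3 : B.G P x y = (a, i) := h1
    rw [h3]
    exact tens_split P.φ h2
  rcases B.bd_cases P x.2 y.2 (x.1 + y.1) hu with ⟨hw, hjk, hd, hb⟩ | ⟨hw, hjk, hd, hb⟩ |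
    ⟨hw, i, hi, hb⟩ | ⟨hw, hi, hb⟩
  · refine key _ _ hb ?_
    have h1 := B.q_split _ x.2 (B.g_ne hjk)
    rw [B.q_dir _ _ (B.g_ne hjk) hd, B.p_eq hjk] at h1
    rw [zero_mul, map_zero, h1]
    simp [sg]
  · refine key _ _ hb ?_
    have h1 := B.cc_split _ x.2 (B.g_ne hjk) hd
    rw [B.p_eq hjk] at h1
    rw [hw, mul_zero, map_zero, h1]
    simp [sg]
  · refine key _ _ hb ?_
    have h1 := B.q_split _ x.2 hi.1
    rw [hi.2.2.2.1] at h1
    rw [zero_mul, map_zero, h1]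
    simp [sg]
  · refine key _ _ hb ?_
    have h1 := B.sg_num P x.2 y.2 (x.1 + y.1) hS rfl
    unfold amp
    rw [div_mul_cancel₀ _ hw]
    exact h1

end Blow

end

end Pool.Agent.Lib.MP_db622c_co.CB
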