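import Pool.Agent.Lib.MP_db622c_co.Final

/-!
# MP_db622c_co, board CB: definitions

Asymptotic existence of complete balanced Howell rotations.  Normalised Hadamard matrices
(`IsH`), one-factorizations of the complete graph on `J` whose classes are the nonzero elements
of `A` (`IsOF`), sign compatibility (`IsSplit`) and orthogonality (`IsOrth`).
-/

namespace Pool.Agent.Lib.MP_db622c_co.CB

open Pool.Agent.Lib.MP_db622c_co

/-- A normalised Hadamard matrix (when `card A = card J`): rows `A`, columns `J`, row `0` is
constant. -/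
structure IsH {A J : Type*} [Zero A] [Fintype J] (S : A → J → ℤ) : Prop where
  sign : ∀ a j, S a j = 1 ∨ S a j = -1
  one : ∀ j, S 0 j = 1
  orth : ∀ a b, a ≠ b → ∑ j, S a j * S b j = 0

/-- A one-factorization of the complete graph on `J` (when `card A = card J`): the edge
`{j, k}` lies in the class `g j k`, a nonzero element of `A`. -/
structure IsOF {A J : Type*} [Zero A] (g : J → J → A) : Prop where
  ne : ∀ j k, j ≠ k → g j k ≠ 0
  symm : ∀ j k, g j k = g k j
  inj : ∀ j k k', k ≠ j → k' ≠ j → g j k = g j k' → k = k'

/-- The row of its class has opposite signs at the two ends of every edge. -/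
def IsSplit {A J : Type*} (S : A → J → ℤ) (g : J → J → A) : Prop :=
  ∀ j k, j ≠ k → S (g j k) k = - S (g j k) j

/-- Two one-factorizations are orthogonal: two classes share at most one edge. -/
def IsOrth {A M J : Type*} (g : J → J → A) (r : J → J → M) : Prop :=
  ∀ j k j' k', j ≠ k → j' ≠ k' → g j k = g j' k' → r j k = r j' k' → j' = j ∨ j' = k

/-- There is a normalised Hadamard matrix of order `n`. -/
def HasHad (n : ℕ) : Prop :=
  ∃ (A J : Type) (_ : Zero A) (_ : Fintype A) (_ : Fintype J) (S : A → J → ℤ),
    Fintype.card A = n ∧ Fintype.card J = n ∧ IsH S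

/-- There is a normalised Hadamard matrix of order `n` with a sign compatible
one-factorization. -/
def HasSD (n : ℕ) : Prop :=
  ∃ (A J : Type) (_ : Zero A) (_ : Fintype A) (_ : Fintype J) (S : A → J → ℤ) (g : J → J → A),
    Fintype.card A = n ∧ Fintype.card J = n ∧ IsH S ∧ IsOF g ∧ IsSplit S g

/-- There is a normalised Hadamard matrix of order `n` with a sign compatible
one-factorization and a one-factorization orthogonal to it. -/
def HasPD (n : ℕ) : Prop :=
  ∃ (A J M : Type) (_ : Zero A) (_ : Zero M) (_ : Fintype A) (_ : Fintype J) (_ : Fintype M)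
    (S : A → J → ℤ) (g : J → J → A) (r : J → J → M),
    Fintype.card A = n ∧ Fintype.card J = n ∧ Fintype.card M = n ∧
      IsH S ∧ IsOF g ∧ IsOF r ∧ IsSplit S g ∧ IsOrth g r

/-- The algebraic package used in the two blow-ups: a quadratic extension `K` of a finite field
`F` of characteristic two, with its norm `N`, an element `κ` of norm one and an additive map
`φ : K → ZMod 2` with `φ = 0` on `F` and `φ κ = 1`. -/
structure Quad (F K : Type*) [Field F] [Field K] where
  ι : F →+* K
  N : K →* F
  κ : K
  φ : K →+ ZMod 2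
  N_zero : N 0 = 0
  N_ne : ∀ x, x ≠ 0 → N x ≠ 0
  N_ι : ∀ f, N (ι f) = f ^ 2
  N_κ : N κ = 1
  φ_ι : ∀ f, φ (ι f) = 0
  φ_κ : φ κ = 1

end Pool.Agent.Lib.MP_db622c_co.CB
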