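import Pool.Agent.Lib.MP_db622c_co.CB.Defs

/-!
# MP_db622c_co, board CB, second part: definitions
-/

namespace Pool.Agent.Lib.MP_db622c_co.CB

open Pool.Agent.Lib.MP_db622c_co

/-- The algebraic package used in the blow-ups: a field `K` (of characteristic two), a
homomorphism `N` of its multiplicative group onto the group `V` (the levels), an additive map
`φ : K → ZMod 2` taking both values on every level (`b D`, `c D` are elements of level `D`), and
an element `θ` with `θ` and `1 + θ` of the same level. -/
structure Pack (K V : Type*) [Field K] [CommGroup V] where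
  N : K → V
  φ : K →+ ZMod 2
  b : V → K
  c : V → K
  θ : K
  N_mul : ∀ x y, x ≠ 0 → y ≠ 0 → N (x * y) = N x * N y
  b_ne : ∀ D, b D ≠ 0
  c_ne : ∀ D, c D ≠ 0
  N_b : ∀ D, N (b D) = D
  N_c : ∀ D, N (c D) = D
  φ_b : ∀ D, φ (b D) = 0
  φ_c : ∀ D, φ (c D) = 1
  θ_ne : θ ≠ 0
  θ_ne' : 1 + θ ≠ 0
  N_θ : N (1 + θ) = N θ

/-- `μ` is a perfect matching (a fixed point free involution) of `J` whose edges lie in distinct
classes of `g`. -/
structure IsRB {A J : Type*} (g : J → J → A) (μ : J → J) : Prop where
  inv : ∀ j, μ (μ j) = j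
  ne : ∀ j, μ j ≠ j
  rb : ∀ j k, g j (μ j) = g k (μ k) → k = j ∨ k = μ j

/-- `h` is a one-factorization of the complete graph on `J` without the edges of the perfect
matching `μ`; its values at pairs `j, j` and `j, μ j` are junk. -/
structure IsHC {J X : Type*} (h : J → J → X) (μ : J → J) : Prop where
  symm : ∀ j k, h j k = h k j
  inj : ∀ j a b, a ≠ j → a ≠ μ j → b ≠ j → b ≠ μ j → h j a = h j b → a = b

/-- A symmetric Latin square `L` on `J` such that every symbol occurs either exactly twice on the
diagonal, at two points of different sides, or on exactly one edge of the perfect matching `μ`. -/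
structure IsLam {A J : Type*} (L : J → J → A) (μ : J → J) (side : J → ZMod 2) : Prop where
  symm : ∀ j k, L j k = L k j
  inj : ∀ j k k', L j k = L j k' → k = k'
  side_μ : ∀ j, side (μ j) = side j + 1
  l0 : ∀ c, ∃ j j', j ≠ j' ∧ (L j j = c ∨ L j (μ j) = c) ∧ (L j' j' = c ∨ L j' (μ j') = c)
  l1 : ∀ j k, L j j = L k k → j ≠ k → side k = side j + 1
  l2 : ∀ j k, L j (μ j) = L k (μ k) → k = j ∨ k = μ j
  l3 : ∀ j k, L j j ≠ L k (μ k)

/-- `a` is not in the block `{j, μ j}`. -/
def NB {J : Type*} (μ : J → J) (j a : J) : Prop := a ≠ j ∧ a ≠ μ j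

/-- `{j, a} = {j', a'}` -/
def SP {J : Type*} (j a j' a' : J) : Prop := (j' = j ∧ a' = a) ∨ (j' = a ∧ a' = j)

/-- A schedule: for every column `α : V` a relabelling `ρ α` of the classes of `L`, and for every
pair `{j, a}` a permutation `σ j a` of the columns, such that the round classes
`h j a + δ (σ j a α)` of the pairs of a class of `L` are distinct (`s1`); every pair has a special
column `al j a`, where its class is `g j a`, where no other pair of its class has round class
`h j a` (`s2`) and such that the round classes at the special columns are distinct on every class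
of `g` (`s3`). -/
structure Sched {A J : Type*} (V : Type*) (k : ℕ) (μ : J → J) (L g : J → J → A)
    (h : J → J → ZMod (2 * k)) where
  σ : J → J → Equiv.Perm V
  δ : V → ZMod (2 * k)
  ρ : V → Equiv.Perm A
  al : J → J → V
  σ_symm : ∀ j a, σ j a = σ a j
  σ_same : ∀ j, σ j j = 1
  σ_μ : ∀ j, σ j (μ j) = 1
  al_symm : ∀ j a, al j a = al a j
  al_inj : ∀ j a j' a', al j a = al j' a' → SP j a j' a'
  ρ_al : ∀ j a, ρ (al j a) (L j a) = g j a
  s1 : ∀ α j a j' a', NB μ j a → NB μ j' a' → L j a = L j' a' →
    h j a + δ (σ j a α) = h j' a' + δ (σ j' a' α) → SP j a j' a'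
  s2 : ∀ j a j' a', NB μ j a → NB μ j' a' → L j' a' = L j a →
    h j' a' + δ (σ j' a' (al j a)) = h j a → SP j a j' a'
  s3 : ∀ j a j' a', NB μ j a → NB μ j' a' → g j a = g j' a' →
    h j a + δ (σ j a (al j a)) = h j' a' + δ (σ j' a' (al j' a')) → SP j a j' a'

/-- There is a normalised Hadamard matrix of order `n` with a sign compatible
one-factorization that has a rainbow perfect matching. -/
def HasSR (n : ℕ) : Prop :=
  ∃ (A J : Type) (_ : Zero A) (_ : Fintype A) (_ : Fintype J) (S : A → J → ℤ) (g : J → J → A)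
    (μ : J → J),
    Fintype.card A = n ∧ Fintype.card J = n ∧ IsH S ∧ IsOF g ∧ IsSplit S g ∧ IsRB g μ

end Pool.Agent.Lib.MP_db622c_co.CB
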