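import Pool.Agent.Lib.MP_db622c_co.CB.Defs

/-!
# CB-Match: an involution that swaps the signs and commutes with a given involution

Input: `s : J → ℤ` with values `±1` and as many `+1` as `-1`, and a fixed point free involution
`p` of `J`.  Call `j` good if `s (p j) = - s j` and bad otherwise.  Output: an involution `f` with
`s (f j) = - s j` for all `j`, commuting with `p`, and equal to `p` at the good points.

PROOF.  `X` = bad points with `s = 1`, `Y` = bad points with `s = -1`; `p` maps `X` to `X` and `Y` to
`Y`, and it is a bijection from the good points with `s = 1` to the good points with `s = -1`;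
so `card X = card Y`.  Choose an equivariant bijection `h : X ≃ Y` (`h (p x) = p (h x)`): two
finite sets of the same size with fixed point free involutions are isomorphic (e.g. the
permutations have the same cycle type, or choose a lower endpoint of every pair).  Put
`f j = p j` for good `j`, `f j = h j` for `j ∈ X`, `f j = h⁻¹ j` for `j ∈ Y`.
-/

namespace Pool.Agent.Lib.MP_db622c_co.CB

open Classical in
theorem match_coord {X : Type*} [Fintype X] (p : X → X) (hp : ∀ x, p (p x) = x)
    (hp1 : ∀ x, p x ≠ x) :
    ∃ (m : ℕ) (e : X ≃ Fin m × Bool), ∀ x, e (p x) = ((e x).1, !(e x).2) := by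
  let r : Setoid X :=
    { r := fun x y => x = y ∨ y = p x
      iseqv := by
        refine ⟨fun x => Or.inl rfl, ?_, ?_⟩
        · rintro x y (h | h)
          · exact Or.inl h.symm
          · exact Or.inr (by rw [h, hp])
        · rintro x y z (h | h) (h' | h')
          · exact Or.inl (h.trans h')
          · exact Or.inr (by rw [h, h'])
          · exact Or.inr (by rw [← h', h])
          · exact Or.inl (by rw [h', h, hp]) }
  have hout : ∀ x : X, (Quotient.mk r x).out = x ∨ x = p (Quotient.mk r x).out := fun x =>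
    Quotient.mk_out (s := r) x
  have hpq : ∀ x : X, Quotient.mk r (p x) = Quotient.mk r x := fun x =>
    Quotient.sound (s := r) (Or.inr (hp x).symm)
  let e : X ≃ Quotient r × Bool :=
    { toFun := fun x => (Quotient.mk r x, decide (x = (Quotient.mk r x).out))
      invFun := fun z => if z.2 = true then z.1.out else p z.1.out
      left_inv := by
        intro x
        by_cases h : x = (Quotient.mk r x).out
        · simp only [decide_eq_true_eq]
          rw [if_pos h]
          exact h.symm
        · simp only [decide_eq_true_eq]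
          rw [if_neg h]
          rcases hout x with h' | h'
          · exact absurd h'.symm h
          · exact h'.symm
      right_inv := by
        rintro ⟨q, b⟩
        cases b
        · have h1 : Quotient.mk r (p q.out) = q := by rw [hpq, Quotient.out_eq]
          simp only [Bool.false_eq_true, if_false]
          rw [h1]
          simp [hp1]
        · have h1 : Quotient.mk r q.out = q := Quotient.out_eq q
          simp only [if_true]
          rw [h1]
          simp }
  have he : ∀ x, e (p x) = ((e x).1, !(e x).2) := by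
    intro x
    show (Quotient.mk r (p x), decide (p x = (Quotient.mk r (p x)).out)) =
      (Quotient.mk r x, !decide (x = (Quotient.mk r x).out))
    rw [hpq]
    rw [Prod.mk.injEq]
    refine ⟨rfl, ?_⟩
    rcases hout x with h | h
    · rw [h]
      simp [hp1]
    · have h1 : p x = (Quotient.mk r x).out := by rw [h, hp]; exact congrArg _ (by rw [← h])
      have h2 : x ≠ (Quotient.mk r x).out := by
        intro h3
        exact hp1 x (h1.trans h3.symm)
      simp [h1, h2]
  haveI : Fintype (Quotient r) := Fintype.ofFinite _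
  refine ⟨Fintype.card (Quotient r), e.trans ((Fintype.equivFin (Quotient r)).prodCongr (Equiv.refl Bool)), ?_⟩
  intro x
  simp only [Equiv.trans_apply, he x]
  rfl

open Classical in
theorem match_equiv {X Y : Type*} [Fintype X] [Fintype Y] (hc : Fintype.card X = Fintype.card Y)
    (p : X → X) (hp : ∀ x, p (p x) = x) (hp1 : ∀ x, p x ≠ x)
    (q : Y → Y) (hq : ∀ x, q (q x) = x) (hq1 : ∀ x, q x ≠ x) :
    ∃ h : X ≃ Y, ∀ x, h (p x) = q (h x) := by
  obtain ⟨m, e, he⟩ := match_coord p hp hp1
  obtain ⟨n, g, hg⟩ := match_coord q hq hq1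
  have h1 : Fintype.card X = m * 2 := by
    rw [Fintype.card_congr e, Fintype.card_prod, Fintype.card_fin, Fintype.card_bool]
  have h2 : Fintype.card Y = n * 2 := by
    rw [Fintype.card_congr g, Fintype.card_prod, Fintype.card_fin, Fintype.card_bool]
  have h3 : m = n := by omega
  subst h3
  refine ⟨e.trans g.symm, fun x => ?_⟩
  simp only [Equiv.trans_apply]
  rw [Equiv.symm_apply_eq, hg, Equiv.apply_symm_apply, he]

open Classical in
theorem exists_match {J : Type*} [Fintype J] (s : J → ℤ) (hs : ∀ j, s j = 1 ∨ s j = -1)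
    (hcard : (Finset.univ.filter (fun j => s j = 1)).card
      = (Finset.univ.filter (fun j => s j = -1)).card)
    (p : J → J) (hp : ∀ j, p (p j) = j) (hp1 : ∀ j, p j ≠ j) :
    ∃ f : J → J, (∀ j, f (f j) = j) ∧ (∀ j, s (f j) = - s j) ∧ (∀ j, f (p j) = p (f j)) ∧
      (∀ j, s (p j) = - s j → f j = p j) := by
  -- cardinalities
  have c1 : (Finset.univ.filter (fun j => s j = 1)).card =
      (Finset.univ.filter (fun j => s j = 1 ∧ s (p j) = 1)).card +
        (Finset.univ.filter (fun j => s j = 1 ∧ s (p j) = -1)).card := by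
    rw [← Finset.card_union_of_disjoint]
    · congr 1
      ext j
      simp only [Finset.mem_filter, Finset.mem_univ, true_and, Finset.mem_union]
      rcases hs (p j) with h | h <;> simp [h]
    · rw [Finset.disjoint_left]
      intro j h1 h2
      simp only [Finset.mem_filter, Finset.mem_univ, true_and] at h1 h2
      omega
  have c2 : (Finset.univ.filter (fun j => s j = -1)).card =
      (Finset.univ.filter (fun j => s j = -1 ∧ s (p j) = -1)).card +
        (Finset.univ.filter (fun j => s j = -1 ∧ s (p j) = 1)).card := by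
    rw [← Finset.card_union_of_disjoint]
    · congr 1
      ext j
      simp only [Finset.mem_filter, Finset.mem_univ, true_and, Finset.mem_union]
      rcases hs (p j) with h | h <;> simp [h]
    · rw [Finset.disjoint_left]
      intro j h1 h2
      simp only [Finset.mem_filter, Finset.mem_univ, true_and] at h1 h2
      omega
  have c3 : (Finset.univ.filter (fun j => s j = 1 ∧ s (p j) = -1)).card =
      (Finset.univ.filter (fun j => s j = -1 ∧ s (p j) = 1)).card := by
    refine Finset.card_nbij' p p ?_ ?_ ?_ ?_
    · intro j h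
      simp only [Finset.coe_filter, Finset.mem_univ, true_and, Set.mem_setOf_eq] at h ⊢
      rw [hp]
      exact ⟨h.2, h.1⟩
    · intro j h
      simp only [Finset.coe_filter, Finset.mem_univ, true_and, Set.mem_setOf_eq] at h ⊢
      rw [hp]
      exact ⟨h.2, h.1⟩
    · intro j _
      exact hp j
    · intro j _
      exact hp j
  have c4 : (Finset.univ.filter (fun j => s j = 1 ∧ s (p j) = 1)).card =
      (Finset.univ.filter (fun j => s j = -1 ∧ s (p j) = -1)).card := by omega
  have hc : Fintype.card {j : J // s j = 1 ∧ s (p j) = 1} =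
      Fintype.card {j : J // s j = -1 ∧ s (p j) = -1} := by
    rw [Fintype.card_subtype, Fintype.card_subtype]
    exact c4
  obtain ⟨h, hh⟩ := match_equiv hc
    (fun x => ⟨p x.1, x.2.2, by rw [hp]; exact x.2.1⟩) (fun x => Subtype.ext (hp x.1))
    (fun x hx => hp1 x.1 (congrArg Subtype.val hx))
    (fun y => ⟨p y.1, y.2.2, by rw [hp]; exact y.2.1⟩) (fun y => Subtype.ext (hp y.1))
    (fun y hy => hp1 y.1 (congrArg Subtype.val hy))
  let f : J → J := fun j =>
    if h1 : s j = 1 ∧ s (p j) = 1 then (h ⟨j, h1⟩ : J)
    else if h2 : s j = -1 ∧ s (p j) = -1 then (h.symm ⟨j, h2⟩ : J) else p j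
  have fX : ∀ (j : J) (h1 : s j = 1 ∧ s (p j) = 1), f j = (h ⟨j, h1⟩ : J) := fun j h1 => dif_pos h1
  have fY : ∀ (j : J) (h2 : s j = -1 ∧ s (p j) = -1), f j = (h.symm ⟨j, h2⟩ : J) := by
    intro j h2
    have h1 : ¬ (s j = 1 ∧ s (p j) = 1) := by omega
    show (if h1 : s j = 1 ∧ s (p j) = 1 then (h ⟨j, h1⟩ : J)
      else if h2 : s j = -1 ∧ s (p j) = -1 then (h.symm ⟨j, h2⟩ : J) else p j) = _
    rw [dif_neg h1, dif_pos h2]
  have fG : ∀ j : J, s (p j) = - s j → f j = p j := by
    intro j h3
    have h1 : ¬ (s j = 1 ∧ s (p j) = 1) := by omega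
    have h2 : ¬ (s j = -1 ∧ s (p j) = -1) := by omega
    show (if h1 : s j = 1 ∧ s (p j) = 1 then (h ⟨j, h1⟩ : J)
      else if h2 : s j = -1 ∧ s (p j) = -1 then (h.symm ⟨j, h2⟩ : J) else p j) = _
    rw [dif_neg h1, dif_neg h2]
  have hcases : ∀ j : J, (s j = 1 ∧ s (p j) = 1) ∨ (s j = -1 ∧ s (p j) = -1) ∨ s (p j) = - s j := by
    intro j
    rcases hs j with h1 | h1 <;> rcases hs (p j) with h2 | h2 <;> omega
  refine ⟨f, ?_, ?_, ?_, fG⟩
  · intro j
    rcases hcases j with h1 | h2 | h3
    · rw [fX j h1, fY _ (h ⟨j, h1⟩).2]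
      simp
    · rw [fY j h2, fX _ (h.symm ⟨j, h2⟩).2]
      simp
    · have h4 : s (p (p j)) = - s (p j) := by rw [hp]; omega
      rw [fG j h3, fG (p j) h4, hp]
  · intro j
    rcases hcases j with h1 | h2 | h3
    · rw [fX j h1, (h ⟨j, h1⟩).2.1, h1.1]
    · rw [fY j h2, (h.symm ⟨j, h2⟩).2.1, h2.1]
      norm_num
    · rw [fG j h3, h3]
  · intro j
    rcases hcases j with h1 | h2 | h3
    · have h1' : s (p j) = 1 ∧ s (p (p j)) = 1 := ⟨h1.2, by rw [hp]; exact h1.1⟩
      rw [fX j h1, fX (p j) h1']
      exact congrArg Subtype.val (hh ⟨j, h1⟩)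
    · have h2' : s (p j) = -1 ∧ s (p (p j)) = -1 := ⟨h2.2, by rw [hp]; exact h2.1⟩
      rw [fY j h2, fY (p j) h2']
      have h5 := hh (h.symm ⟨j, h2⟩)
      rw [Equiv.apply_symm_apply] at h5
      have h6 := (Equiv.symm_apply_eq h).mpr h5.symm
      exact congrArg Subtype.val h6
    · have h4 : s (p (p j)) = - s (p j) := by rw [hp]; omega
      rw [fG j h3, fG (p j) h4]

end Pool.Agent.Lib.MP_db622c_co.CB
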