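import Pool.Agent.Lib.MP_db622c_co.CB.Defs2
import Pool.Agent.Lib.MP_db622c_co.CB.BaseOF
import Pool.Agent.Lib.MP_db622c_co.CB.Match

/-!
# CB-HC: a one-factorization containing a given perfect matching as a class

PROOF.  Let `e = 2 k + 1` and `X = Option (ZMod e)` with the class function `ofClass` of
`CB.BaseOF` (`ofClass_symm`, `ofClass_inj`).  Its class `0` has the partner function `ν`:
`ν none = some 0`, `ν (some 0) = none`, `ν (some x) = some (- x)` for `x ≠ 0`; it is a fixed point
free involution (`x + x = 0` implies `x = 0` by `double_inj`).  `ofClass p q = 0` and `q ≠ p` imply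
`q = ν p` (`ofClass_inj`, as `ofClass p (ν p) = 0`).
`match_equiv` (`CB.Match`) gives `β : J ≃ X` with `β (μ j) = ν (β j)` for all `j`
(`card J = 2 k + 2 = card X`).  The nonzero elements of `ZMod e` are `2 k` many: choose an injection
(bijection) `f : {x : ZMod e // x ≠ 0} ≃ ZMod (2 k)` and put
`h j a = if hx : ofClass (β j) (β a) ≠ 0 then f ⟨_, hx⟩ else 0`.
Symmetric: clear.  For `a ≠ j`, `a ≠ μ j` we have `β a ≠ β j`, `β a ≠ ν (β j)`, so
`ofClass (β j) (β a) ≠ 0`; injectivity follows from that of `f`, `ofClass_inj` and `β`.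
-/

namespace Pool.Agent.Lib.MP_db622c_co.CB

open Pool.Agent.Lib.MP_db622c_co

private def nuHC {e : ℕ} : Option (ZMod e) → Option (ZMod e)
  | none => some 0
  | some x => if x = 0 then none else some (-x)

private theorem nuHC_inv {e : ℕ} (p : Option (ZMod e)) : nuHC (nuHC p) = p := by
  rcases p with _ | x
  · simp [nuHC]
  · by_cases hx : x = 0
    · subst hx; simp [nuHC]
    · have h1 : nuHC (some x) = some (-x) := by simp [nuHC, hx]
      rw [h1]
      simp [nuHC, hx]

private theorem nuHC_ne {e : ℕ} (he : Odd e) (p : Option (ZMod e)) : nuHC p ≠ p := by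
  rcases p with _ | x
  · simp [nuHC]
  · by_cases hx : x = 0
    · subst hx; simp [nuHC]
    · have h1 : nuHC (some x) = some (-x) := by simp [nuHC, hx]
      rw [h1]
      intro h
      have h2 : -x = x := Option.some.inj h
      apply hx
      apply double_inj he x 0
      have : x + x = 0 := by
        nth_rewrite 1 [← h2]
        simp
      simpa using this

private theorem ofClass_nuHC {e : ℕ} (p : Option (ZMod e)) : ofClass p (nuHC p) = 0 := by
  rcases p with _ | x
  · simp [nuHC, ofClass]
  · by_cases hx : x = 0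
    · subst hx; simp [nuHC, ofClass]
    · have h1 : nuHC (some x) = some (-x) := by simp [nuHC, hx]
      rw [h1]
      simp [ofClass]

theorem exists_hc {J : Type*} [Fintype J] (k : ℕ) (hk : 1 ≤ k) (hJ : Fintype.card J = 2 * k + 2)
    (μ : J → J) (hμ : ∀ j, μ (μ j) = j) (hμ' : ∀ j, μ j ≠ j) :
    ∃ h : J → J → ZMod (2 * k), IsHC h μ := by
  classical
  obtain ⟨e, he⟩ : ∃ e, e = 2 * k + 1 := ⟨_, rfl⟩
  have heo : Odd e := ⟨k, he⟩
  have : NeZero e := ⟨by omega⟩
  have : NeZero (2 * k) := ⟨by omega⟩
  have hcX : Fintype.card J = Fintype.card (Option (ZMod e)) := by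
    rw [Fintype.card_option, ZMod.card, hJ, he]
  obtain ⟨β, hβ⟩ := match_equiv hcX μ hμ hμ' (nuHC (e := e)) nuHC_inv (nuHC_ne heo)
  have hcf : Fintype.card {x : ZMod e // x ≠ 0} = Fintype.card (ZMod (2 * k)) := by
    rw [Fintype.card_subtype_compl, ZMod.card, ZMod.card, Fintype.card_subtype_eq]
    omega
  let f : {x : ZMod e // x ≠ 0} ≃ ZMod (2 * k) := Fintype.equivOfCardEq hcf
  refine ⟨fun j a => if hx : ofClass (β j) (β a) ≠ 0 then f ⟨_, hx⟩ else 0, ?_, ?_⟩
  · intro j a
    simp only [ofClass_symm (β j) (β a)]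
  · intro j a b ha ha' hb hb' h
    have key : ∀ c, c ≠ j → c ≠ μ j → ofClass (β j) (β c) ≠ 0 := by
      intro c hc hc' h0
      apply hc'
      apply β.injective
      rw [hβ]
      apply ofClass_inj heo (β j) (β c) (nuHC (β j)) (fun h => hc (β.injective h))
        (nuHC_ne heo _)
      rw [h0, ofClass_nuHC]
    have hA := key a ha ha'
    have hB := key b hb hb'
    simp only [dif_pos hA, dif_pos hB] at h
    have h1 := f.injective h
    have h2 : ofClass (β j) (β a) = ofClass (β j) (β b) := congrArg Subtype.val h1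
    exact β.injective (ofClass_inj heo (β j) (β a) (β b) (fun h => ha (β.injective h))
      (fun h => hb (β.injective h)) h2)

end Pool.Agent.Lib.MP_db622c_co.CB
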