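import Mathlib

/-!
# CB-Paley: the matrices `E_ε x y = χ (x + y) + [x + y = 0] ε` over `ZMod p`

`χ = quadraticChar (ZMod p)`, `p` an odd prime, `J` the all-one matrix, `L = J - 2 • 1`.
Facts: `∑ x, χ x = 0`; for `c ≠ 0`: `∑ z, χ z * χ (z + c) = -1`
(`χ z χ (z + c) = χ (1 + c / z)` for `z ≠ 0`, and `1 + c / z` runs through everything except `1`).
Substituting: for `x ≠ y`: `∑ z, χ (x + z) * χ (z + y) = -1`, for `x = y` it is `p - 1`.
`(E_ε * E_δ) x y = ∑ z, χ (x + z) χ (z + y) + δ χ (x - y) + ε χ (y - x) + ε δ [x = y]`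
(the terms `z = -y` and `z = -x`).  `χ (-1) = -1` for `p ≡ 3 mod 4` and `χ (-1) = 1` for
`p ≡ 1 mod 4`.
-/

namespace Pool.Agent.Lib.MP_db622c_co.CB

/-- the all-one matrix -/
def Jm (p : ℕ) : Matrix (ZMod p) (ZMod p) ℤ := Matrix.of fun _ _ => 1

/-- `J - 2` -/
def Lm (p : ℕ) : Matrix (ZMod p) (ZMod p) ℤ := Matrix.of fun x y => if x = y then -1 else 1

/-- the Paley matrix in Hankel form, with the sign `ε` on the antidiagonal -/
def Em (p : ℕ) [Fact p.Prime] (ε : ℤ) : Matrix (ZMod p) (ZMod p) ℤ :=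
  Matrix.of fun x y => if x + y = 0 then ε else quadraticChar (ZMod p) (x + y)

variable (p : ℕ) [Fact p.Prime]

/-- the antidiagonal permutation matrix -/
def Km : Matrix (ZMod p) (ZMod p) ℤ := Matrix.of fun x y => if x + y = 0 then 1 else 0

/-- the character part -/
def Xm : Matrix (ZMod p) (ZMod p) ℤ := Matrix.of fun x y => quadraticChar (ZMod p) (x + y)

theorem Em_eq (ε : ℤ) : Em p ε = Xm p + ε • Km p := by
  ext x y
  simp only [Em, Xm, Km, Matrix.of_apply, Matrix.add_apply, Matrix.smul_apply, smul_eq_mul]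
  split_ifs with h
  · rw [h, quadraticChar_zero]; ring
  · ring

omit [Fact p.Prime] in
theorem Lm_eq : Lm p = Jm p - (2 : ℤ) • 1 := by
  ext x y
  simp only [Lm, Jm, Matrix.of_apply, Matrix.sub_apply, Matrix.smul_apply, smul_eq_mul, Matrix.one_apply]
  split_ifs with h <;> ring

theorem ringChar_ne (hp : p ≠ 2) : ringChar (ZMod p) ≠ 2 := by
  rw [ZMod.ringChar_zmod_n]; exact hp

theorem sum_shift (hp : p ≠ 2) (x : ZMod p) : ∑ z : ZMod p, quadraticChar (ZMod p) (x + z) = 0 := by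
  have := quadraticChar_sum_zero (F := ZMod p) (ringChar_ne p hp)
  rw [← this]
  exact Fintype.sum_equiv (Equiv.addLeft x) _ _ (fun z => rfl)

theorem neg_one_sq : quadraticChar (ZMod p) (-1) * quadraticChar (ZMod p) (-1) = 1 := by
  have h : (-1 : ZMod p) ≠ 0 := neg_ne_zero.2 one_ne_zero
  have := quadraticChar_sq_one h
  rwa [pow_two] at this

theorem sum_corr (hp : p ≠ 2) {c : ZMod p} (hc : c ≠ 0) :
    ∑ z : ZMod p, quadraticChar (ZMod p) z * quadraticChar (ZMod p) (z + c) = -1 := by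
  have h1 : jacobiSum (quadraticChar (ZMod p)) (quadraticChar (ZMod p))⁻¹ = - quadraticChar (ZMod p) (-1) :=
    jacobiSum_nontrivial_inv (quadraticChar_ne_one (ringChar_ne p hp))
  rw [(quadraticChar_isQuadratic (ZMod p)).inv, jacobiSum] at h1
  have hc' : (-c : ZMod p) ≠ 0 := neg_ne_zero.2 hc
  have h2 : ∑ z : ZMod p, quadraticChar (ZMod p) z * quadraticChar (ZMod p) (z + c) =
      ∑ x : ZMod p, quadraticChar (ZMod p) (-1) * (quadraticChar (ZMod p) x * quadraticChar (ZMod p) (1 - x)) := by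
    refine (Fintype.sum_equiv (Equiv.mulLeft₀ (-c) hc') _ _ (fun x => ?_)).symm
    have e1 : (Equiv.mulLeft₀ (-c) hc') x = -1 * (c * x) := by
      simp
    have e2 : (-1 * (c * x) + c : ZMod p) = c * (1 - x) := by ring
    rw [e1, e2, map_mul, map_mul, map_mul]
    have h3 := quadraticChar_sq_one (F := ZMod p) hc
    rw [pow_two] at h3
    linear_combination (-(quadraticChar (ZMod p) (-1) * (quadraticChar (ZMod p) x * quadraticChar (ZMod p) (1 - x)))) * h3
  rw [h2, ← Finset.mul_sum, h1, mul_neg, neg_one_sq]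

theorem sum_self : ∑ z : ZMod p, quadraticChar (ZMod p) z * quadraticChar (ZMod p) z = (p : ℤ) - 1 := by
  have h1 : ∀ z : ZMod p, quadraticChar (ZMod p) z * quadraticChar (ZMod p) z = if z = 0 then 0 else 1 := by
    intro z
    split_ifs with h
    · rw [h, quadraticChar_zero]; ring
    · have := quadraticChar_sq_one (F := ZMod p) h
      rwa [pow_two] at this
  rw [Finset.sum_congr rfl (fun z _ => h1 z)]
  have h2 : ∀ z : ZMod p, (if z = 0 then (0 : ℤ) else 1) = 1 - (if z = 0 then 1 else 0) := by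
    intro z; split_ifs <;> rfl
  rw [Finset.sum_congr rfl (fun z _ => h2 z), Finset.sum_sub_distrib, Finset.sum_ite_eq']
  simp [ZMod.card]

theorem Xm_mul_Xm (hp : p ≠ 2) : Xm p * Xm p = (p : ℤ) • 1 - Jm p := by
  ext x y
  simp only [Xm, Jm, Matrix.mul_apply, Matrix.of_apply, Matrix.sub_apply, Matrix.smul_apply, smul_eq_mul,
    Matrix.one_apply]
  have h1 : ∑ z : ZMod p, quadraticChar (ZMod p) (x + z) * quadraticChar (ZMod p) (z + y) =
      ∑ z : ZMod p, quadraticChar (ZMod p) z * quadraticChar (ZMod p) (z + (y - x)) := by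
    refine Fintype.sum_equiv (Equiv.addLeft x) _ _ (fun z => ?_)
    simp only [Equiv.coe_addLeft]
    rw [show x + z + (y - x) = z + y by ring]
  rw [h1]
  split_ifs with h
  · subst h
    simp only [sub_self, add_zero]
    rw [sum_self]; ring
  · rw [sum_corr p hp (sub_ne_zero.2 (fun e => h e.symm))]; ring

theorem Xm_mul_Km (x y : ZMod p) : (Xm p * Km p) x y = quadraticChar (ZMod p) (x - y) := by
  simp only [Xm, Km, Matrix.mul_apply, Matrix.of_apply]
  rw [Finset.sum_eq_single (-y)]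
  · rw [if_pos (by ring), mul_one, ← sub_eq_add_neg]
  · intro z _ hz
    rw [if_neg (fun h => hz (eq_neg_of_add_eq_zero_left h)), mul_zero]
  · intro h; exact absurd (Finset.mem_univ _) h

theorem Km_mul_Xm (x y : ZMod p) : (Km p * Xm p) x y = quadraticChar (ZMod p) (y - x) := by
  simp only [Xm, Km, Matrix.mul_apply, Matrix.of_apply]
  rw [Finset.sum_eq_single (-x)]
  · rw [if_pos (by ring), one_mul, neg_add_eq_sub]
  · intro z _ hz
    rw [if_neg (fun h => hz (eq_neg_of_add_eq_zero_right h)), zero_mul]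
  · intro h; exact absurd (Finset.mem_univ _) h

theorem Km_mul_Km : Km p * Km p = 1 := by
  ext x y
  simp only [Km, Matrix.mul_apply, Matrix.of_apply, Matrix.one_apply]
  rw [Finset.sum_eq_single (-x)]
  · rw [if_pos (by ring), one_mul]
    by_cases h : x = y
    · rw [if_pos h, if_pos (by rw [h]; ring)]
    · rw [if_neg h, if_neg]
      intro h2
      exact h (by linear_combination -h2)
  · intro z _ hz
    rw [if_neg (fun h => hz (eq_neg_of_add_eq_zero_right h)), zero_mul]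
  · intro h; exact absurd (Finset.mem_univ _) h

theorem Em_mul_Em (hp : p ≠ 2) (ε δ : ℤ) : Em p ε * Em p δ =
    ((p : ℤ) • 1 - Jm p) + δ • (Xm p * Km p) + ε • (Km p * Xm p) + (ε * δ) • 1 := by
  rw [Em_eq, Em_eq, add_mul, mul_add, mul_add, Xm_mul_Xm p hp]
  simp only [Matrix.smul_mul, Matrix.mul_smul, Km_mul_Km, smul_smul]
  rw [mul_comm δ ε]
  abel

theorem Em_entry (ε : ℤ) (hε : ε = 1 ∨ ε = -1) (x y : ZMod p) :
    Em p ε x y = 1 ∨ Em p ε x y = -1 := by
  simp only [Em, Matrix.of_apply]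
  split_ifs with h
  · exact hε
  · exact quadraticChar_dichotomy h

theorem Em_transpose (ε : ℤ) : (Em p ε).transpose = Em p ε := by
  ext x y
  simp only [Em, Matrix.of_apply, Matrix.transpose_apply, add_comm y x]

theorem Jm_mul_Jm : Jm p * Jm p = (p : ℤ) • Jm p := by
  ext x y
  simp [Jm, Matrix.mul_apply, ZMod.card]

theorem Lm_mul_Lm : Lm p * Lm p = ((p : ℤ) - 4) • Jm p + (4 : ℤ) • 1 := by
  rw [Lm_eq, sub_mul, mul_sub, mul_sub, Jm_mul_Jm]
  simp only [Matrix.smul_mul, Matrix.mul_smul, mul_one, one_mul, smul_smul]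
  module

theorem Jm_mul_Lm : Jm p * Lm p = Lm p * Jm p := by
  rw [Lm_eq, sub_mul, mul_sub]
  simp only [Matrix.smul_mul, Matrix.mul_smul, mul_one, one_mul]

theorem Jm_mul_Xm (hp : p ≠ 2) : Jm p * Xm p = 0 := by
  ext x y
  simp only [Jm, Xm, Matrix.mul_apply, Matrix.of_apply, one_mul, Matrix.zero_apply]
  rw [← sum_shift p hp y]
  exact Finset.sum_congr rfl (fun z _ => by rw [add_comm])

theorem Xm_mul_Jm (hp : p ≠ 2) : Xm p * Jm p = 0 := by
  ext x y
  simp only [Jm, Xm, Matrix.mul_apply, Matrix.of_apply, mul_one, Matrix.zero_apply]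
  exact sum_shift p hp x

theorem Jm_mul_Km : Jm p * Km p = Jm p := by
  ext x y
  simp only [Jm, Km, Matrix.mul_apply, Matrix.of_apply, one_mul]
  rw [Finset.sum_eq_single (-y)]
  · rw [if_pos (by ring)]
  · intro z _ hz
    rw [if_neg (fun h => hz (eq_neg_of_add_eq_zero_left h))]
  · intro h; exact absurd (Finset.mem_univ _) h

theorem Km_mul_Jm : Km p * Jm p = Jm p := by
  ext x y
  simp only [Jm, Km, Matrix.mul_apply, Matrix.of_apply, mul_one]
  rw [Finset.sum_eq_single (-x)]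
  · rw [if_pos (by ring)]
  · intro z _ hz
    rw [if_neg (fun h => hz (eq_neg_of_add_eq_zero_right h))]
  · intro h; exact absurd (Finset.mem_univ _) h

theorem Jm_mul_Em (hp : p ≠ 2) (ε : ℤ) : Jm p * Em p ε = Em p ε * Jm p := by
  rw [Em_eq, mul_add, add_mul, Jm_mul_Xm p hp, Xm_mul_Jm p hp, Matrix.mul_smul, Matrix.smul_mul,
    Jm_mul_Km, Km_mul_Jm]

theorem Lm_mul_Em (hp : p ≠ 2) (ε : ℤ) : Lm p * Em p ε = Em p ε * Lm p := by
  rw [Lm_eq, sub_mul, mul_sub, Jm_mul_Em p hp]
  simp only [Matrix.smul_mul, Matrix.mul_smul, mul_one, one_mul]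

theorem Em_mul_Em_three (hp : p % 4 = 3) :
    Em p 1 * Em p 1 = ((p : ℤ) + 1) • 1 - Jm p := by
  have hp2 : p ≠ 2 := by rintro rfl; norm_num at hp
  have h0 : quadraticChar (ZMod p) (-1) = -1 := by
    rw [quadraticChar_neg_one_iff_not_isSquare, FiniteField.isSquare_neg_one_iff, ZMod.card]
    exact not_not.2 hp
  have h : Xm p * Km p + Km p * Xm p = 0 := by
    ext x y
    rw [Matrix.add_apply, Xm_mul_Km, Km_mul_Xm, Matrix.zero_apply, show y - x = -1 * (x - y) by ring,
      map_mul, h0]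
    ring
  rw [Em_mul_Em p hp2, one_smul, one_smul, mul_one, add_assoc ((p : ℤ) • 1 - Jm p), h]
  module

theorem Em_mul_Em_one (hp : p % 4 = 1) :
    Em p 1 * Em p 1 + Em p (-1) * Em p (-1) = (2 * ((p : ℤ) + 1)) • 1 - (2 : ℤ) • Jm p := by
  have hp2 : p ≠ 2 := by rintro rfl; norm_num at hp
  rw [Em_mul_Em p hp2, Em_mul_Em p hp2]
  module

theorem Em_comm_one (hp : p % 4 = 1) : Em p 1 * Em p (-1) = Em p (-1) * Em p 1 := by
  have hp2 : p ≠ 2 := by rintro rfl; norm_num at hp
  have h0 : quadraticChar (ZMod p) (-1) = 1 := by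
    have h1 : (-1 : ZMod p) ≠ 0 := neg_ne_zero.2 one_ne_zero
    rw [quadraticChar_one_iff_isSquare h1, FiniteField.isSquare_neg_one_iff, ZMod.card]
    omega
  have h : Xm p * Km p = Km p * Xm p := by
    ext x y
    rw [Xm_mul_Km, Km_mul_Xm, show y - x = -1 * (x - y) by ring, map_mul, h0, one_mul]
  rw [Em_mul_Em p hp2, Em_mul_Em p hp2, h]
  module

end Pool.Agent.Lib.MP_db622c_co.CB
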