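import Pool.Agent.Lib.MP_db622c_co.CB.Plug
import Pool.Agent.Lib.MP_db622c_co.CB.Paley

/-!
# CB-HadPrime: Hadamard matrices of order `2 ^ s * p`, `p` an odd prime, `4 ≤ 2 ^ s ≤ p ^ 3`

PROOF.  `plug` (Plug.lean) with the design of `exists_od3` / `exists_od4` (OD.lean) and the matrices
`Jm, Em 1, Lm` resp. `Em 1, Em (-1), Jm, Lm` (Paley.lean).

`p ≡ 3 mod 4`, `p ≥ 7`: `u = (p + 1) / 4 ≥ 2`.  Choose the least `s ≥ 2` with
`(u - 1) ^ 2 ≤ 2 ^ (s - 2)`, write `2 ^ (s - 2) = (u - 1) * T + a` with `a < u - 1 ≤ T` (division with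
remainder), `c = T - a`, so `u a + (u - 1) c = 2 ^ (s - 2)`, i.e. `(p + 1) a + (p - 3) c = 2 ^ s`;
`b = p a + (p - 4) c`, `a + b + c = 2 ^ s`; weights `a, b, c` for `J, E_1, L`:
`a p J + b ((p + 1) 1 - J) + c ((p - 4) J + 4 1) = (b (p + 1) + 4 c) 1 = 2 ^ s p 1`.
`2 ^ s ≤ p ^ 3` by minimality (`2 ^ (s - 2) < 2 (u - 1) ^ 2` or `s = 2`).
`p = 3`: `a = 1, b = 3, c = 0`, `s = 2`.

`p ≡ 1 mod 4`: `u = (p + 1) / 2` odd, `u ≥ 3`.  Choose the least `s ≥ 3` with `u ^ 2 ≤ 2 ^ (s - 2)`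
(so `2 ^ (s - 2) < 2 u ^ 2`, `2 ^ s < 2 (p + 1) ^ 2 ≤ p ^ 3`).
`a = 2 ^ (s - 3) % (u - 2)`, so `u - 2` divides `2 ^ (s - 2) - 2 a = 2 (2 ^ (s - 3) - a)`;
`T = (2 ^ (s - 2) - 2 a) / (u - 2) ≥ a` (because `a u ≤ u ^ 2 ≤ 2 ^ (s - 2)`), `c = T - a`:
`u a + (u - 2) c = 2 ^ (s - 2)`, i.e. `(p + 1) (2 a) + (p - 3) (2 c) = 2 ^ s`;
`b = p a + (p - 4) c`; weights `b, b, 2 a, 2 c` for `E_1, E_{-1}, J, L`; `2 b + 2 a + 2 c = 2 ^ s`:
`b (2 (p + 1) 1 - 2 J) + 2 a p J + 2 c ((p - 4) J + 4 1) = (2 b (p + 1) + 8 c) 1 = 2 ^ s p 1`.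
-/

namespace Pool.Agent.Lib.MP_db622c_co.CB

/-- a power of two between `x` and `2 x` -/
private theorem hp_pow (x : ℕ) (hx : 0 < x) : ∃ j, 1 ≤ j ∧ x ≤ 2 ^ j ∧ 2 ^ j ≤ 2 * x := by
  refine ⟨Nat.log 2 x + 1, by omega, (Nat.lt_pow_succ_log_self (by norm_num) x).le, ?_⟩
  rw [pow_succ, mul_comm]
  exact Nat.mul_le_mul_left 2 (Nat.pow_log_le_self 2 hx.ne')

/-- the weights for `p ≡ 3 mod 4` -/
private theorem hp_arith3 (p : ℕ) (h3 : p % 4 = 3) :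
    ∃ s a b c : ℕ, 2 ≤ s ∧ 2 ^ s ≤ p ^ 3 ∧ a + b + c = 2 ^ s ∧
      (b : ℤ) = p * a + ((p : ℤ) - 4) * c := by
  obtain ⟨m, hm⟩ : ∃ m, p = 4 * m + 3 := ⟨p / 4, by omega⟩
  subst hm
  rcases Nat.eq_zero_or_pos m with h | h
  · subst h
    exact ⟨2, 1, 3, 0, le_rfl, by norm_num, by norm_num, by norm_num⟩
  · obtain ⟨j, hj1, hj2, hj3⟩ := hp_pow (m ^ 2) (by positivity)
    have hT : m * (2 ^ j / m) + 2 ^ j % m = 2 ^ j := Nat.div_add_mod _ _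
    have ha : 2 ^ j % m < m := Nat.mod_lt _ h
    have hmT : m ≤ 2 ^ j / m := by
      rw [Nat.le_div_iff_mul_le h, ← pow_two]
      exact hj2
    obtain ⟨a, haa⟩ : ∃ a, a = 2 ^ j % m := ⟨_, rfl⟩
    obtain ⟨T, hTT⟩ : ∃ T, T = 2 ^ j / m := ⟨_, rfl⟩
    rw [← haa, ← hTT] at hT
    rw [← haa] at ha
    rw [← hTT] at hmT
    obtain ⟨c, hc⟩ : ∃ c, T = a + c := ⟨T - a, by omega⟩
    subst hc
    refine ⟨j + 2, a, (4 * m + 3) * a + (4 * m - 1) * c, c, by omega, ?_, ?_, ?_⟩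
    · calc 2 ^ (j + 2) = 4 * 2 ^ j := by rw [pow_add]; ring
        _ ≤ 4 * (2 * m ^ 2) := Nat.mul_le_mul_left 4 hj3
        _ ≤ (4 * m + 3) ^ 3 := by nlinarith [sq_nonneg m]
    · obtain ⟨n, rfl⟩ : ∃ n, m = n + 1 := ⟨m - 1, by omega⟩
      have e : 4 * (n + 1) - 1 = 4 * n + 3 := by omega
      rw [e, pow_add, ← hT]
      ring
    · obtain ⟨n, rfl⟩ : ∃ n, m = n + 1 := ⟨m - 1, by omega⟩
      have e : 4 * (n + 1) - 1 = 4 * n + 3 := by omega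
      rw [e]
      push_cast
      ring

/-- the weights for `p ≡ 1 mod 4` -/
private theorem hp_arith1 (p : ℕ) (h1 : p % 4 = 1) (h5 : 5 ≤ p) :
    ∃ t a b c : ℕ, 1 ≤ t ∧ 2 ^ (t + 1) ≤ p ^ 3 ∧ 2 * b + 2 * a + 2 * c = 2 ^ (t + 1) ∧
      (b : ℤ) = p * a + ((p : ℤ) - 4) * c := by
  -- `p = 4 n + 5`, `u = 2 n + 3`, `m = u - 2 = 2 n + 1`
  obtain ⟨n, hn⟩ : ∃ n, p = 4 * n + 5 := ⟨(p - 5) / 4, by omega⟩
  subst hn
  obtain ⟨j, hj1, hj2, hj3⟩ := hp_pow ((2 * n + 3) ^ 2) (by positivity)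
  obtain ⟨i, rfl⟩ : ∃ i, j = i + 1 := ⟨j - 1, by omega⟩
  have hm : 0 < 2 * n + 1 := by omega
  have hT : (2 * n + 1) * (2 ^ i / (2 * n + 1)) + 2 ^ i % (2 * n + 1) = 2 ^ i := Nat.div_add_mod _ _
  have ha : 2 ^ i % (2 * n + 1) < 2 * n + 1 := Nat.mod_lt _ hm
  obtain ⟨a, haa⟩ : ∃ a, a = 2 ^ i % (2 * n + 1) := ⟨_, rfl⟩
  obtain ⟨T, hTT⟩ : ∃ T, T = 2 ^ i / (2 * n + 1) := ⟨_, rfl⟩
  rw [← haa, ← hTT] at hT
  rw [← haa] at ha
  have hQ : 2 ^ (i + 1) = 2 * ((2 * n + 1) * T + a) := by rw [pow_succ, ← hT]; ring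
  -- `2 T ≥ a`
  have hTa : a ≤ 2 * T := by
    by_contra hlt
    push Not at hlt
    have h4 : (2 * n + 1) * (2 * T) ≤ (2 * n + 1) * (2 * n) := Nat.mul_le_mul_left _ (by omega)
    have h5' : 2 ^ (i + 1) ≤ (2 * n + 1) * (2 * n) + 2 * (2 * n) := by
      rw [hQ]
      have h6 : 2 * ((2 * n + 1) * T + a) = (2 * n + 1) * (2 * T) + 2 * a := by ring
      omega
    nlinarith
  obtain ⟨c, hc⟩ : ∃ c, 2 * T = a + c := ⟨2 * T - a, by omega⟩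
  refine ⟨i + 2, a, (4 * n + 5) * a + (4 * n + 1) * c, c, by omega, ?_, ?_, ?_⟩
  · calc 2 ^ (i + 2 + 1) = 4 * 2 ^ (i + 1) := by rw [show i + 2 + 1 = (i + 1) + 2 by ring, pow_add]; ring
      _ ≤ 4 * (2 * (2 * n + 3) ^ 2) := Nat.mul_le_mul_left 4 hj3
      _ ≤ (4 * n + 5) ^ 3 := by nlinarith [sq_nonneg n, pow_pos (show 0 < n + 1 by omega) 3]
  · have h7 : 2 ^ (i + 2 + 1) = 4 * 2 ^ (i + 1) := by
      rw [show i + 2 + 1 = (i + 1) + 2 by ring, pow_add]; ring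
    rw [h7, hQ]
    have h8 : 2 * ((2 * n + 1) * T + a) = (2 * n + 1) * (a + c) + 2 * a := by
      rw [← hc]; ring
    rw [h8]
    ring
  · push_cast
    ring

private theorem hp_three (p : ℕ) [hp : Fact p.Prime] (h3 : p % 4 = 3) :
    ∃ s : ℕ, 2 ≤ s ∧ 2 ^ s ≤ p ^ 3 ∧
      ∃ (ι : Type) (_ : Fintype ι) (_ : DecidableEq ι) (H : Matrix ι ι ℤ),
        Fintype.card ι = 2 ^ s * p ∧ IsHad H := by
  have hp2 : p ≠ 2 := by rintro rfl; norm_num at h3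
  obtain ⟨s, a, b, c, hs, hsp, habc, hb⟩ := hp_arith3 p h3
  obtain ⟨ι, _, _, M, hcard, hM⟩ := exists_od3 s a b c habc
  refine ⟨s, hs, hsp, ι × ZMod p, inferInstance, inferInstance, _, ?_,
    plug ![a, b, c] M hM ![Jm p, Em p 1, Lm p] ?_ ?_ ?_ ?_⟩
  · rw [Fintype.card_prod, hcard, ZMod.card]
  · intro i
    fin_cases i
    · intro x y; left; rfl
    · exact fun x y => Em_entry p 1 (Or.inl rfl) x y
    · intro x y
      show (if x = y then (-1 : ℤ) else 1) = 1 ∨ (if x = y then (-1 : ℤ) else 1) = -1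
      split_ifs
      · right; rfl
      · left; rfl
  · intro i
    fin_cases i
    · rfl
    · exact Em_transpose p 1
    · ext x y
      show (if y = x then (-1 : ℤ) else 1) = (if x = y then (-1 : ℤ) else 1)
      simp only [eq_comm]
  · intro i k
    fin_cases i <;> fin_cases k
    · rfl
    · exact Jm_mul_Em p hp2 1
    · exact Jm_mul_Lm p
    · exact (Jm_mul_Em p hp2 1).symm
    · rfl
    · exact (Lm_mul_Em p hp2 1).symm
    · exact (Jm_mul_Lm p).symm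
    · exact Lm_mul_Em p hp2 1
    · rfl
  · rw [Fin.sum_univ_three, hcard, ZMod.card]
    show (a : ℤ) • (Jm p * Jm p) + (b : ℤ) • (Em p 1 * Em p 1) + (c : ℤ) • (Lm p * Lm p) =
      ((2 ^ s * p : ℕ) : ℤ) • 1
    rw [Jm_mul_Jm, Em_mul_Em_three p h3, Lm_mul_Lm]
    have h2s : ((2 ^ s * p : ℕ) : ℤ) = (b : ℤ) * (p + 1) + 4 * c := by
      rw [Nat.cast_mul, ← habc]
      push_cast
      linear_combination -hb
    rw [h2s]
    have : (a : ℤ) * p - b + c * (p - 4) = 0 := by linear_combination -hb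
    have h0 : ((a : ℤ) * p - b + c * (p - 4)) • Jm p = 0 := by rw [this, zero_smul]
    calc (a : ℤ) • ((p : ℤ) • Jm p) + (b : ℤ) • (((p : ℤ) + 1) • (1 : Matrix (ZMod p) (ZMod p) ℤ) - Jm p) +
          (c : ℤ) • (((p : ℤ) - 4) • Jm p + (4 : ℤ) • 1)
        = ((a : ℤ) * p - b + c * (p - 4)) • Jm p +
          ((b : ℤ) * (p + 1) + 4 * c) • (1 : Matrix (ZMod p) (ZMod p) ℤ) := by module
      _ = _ := by rw [h0, zero_add]

private theorem hp_one (p : ℕ) [hp : Fact p.Prime] (h1 : p % 4 = 1) :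
    ∃ s : ℕ, 2 ≤ s ∧ 2 ^ s ≤ p ^ 3 ∧
      ∃ (ι : Type) (_ : Fintype ι) (_ : DecidableEq ι) (H : Matrix ι ι ℤ),
        Fintype.card ι = 2 ^ s * p ∧ IsHad H := by
  have hp2 : p ≠ 2 := by rintro rfl; norm_num at h1
  have hp5 : 5 ≤ p := by
    have := hp.out.two_le
    by_contra hlt
    interval_cases p <;> omega
  obtain ⟨t, a, b, c, ht, hsp, habc, hb⟩ := hp_arith1 p h1 hp5
  obtain ⟨ι, _, _, M, hcard, hM⟩ := exists_od4 t a b c habc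
  refine ⟨t + 1, by omega, hsp, ι × ZMod p, inferInstance, inferInstance, _, ?_,
    plug ![b, b, 2 * a, 2 * c] M hM ![Em p 1, Em p (-1), Jm p, Lm p] ?_ ?_ ?_ ?_⟩
  · rw [Fintype.card_prod, hcard, ZMod.card]
  · intro i
    fin_cases i
    · exact fun x y => Em_entry p 1 (Or.inl rfl) x y
    · exact fun x y => Em_entry p (-1) (Or.inr rfl) x y
    · intro x y; left; rfl
    · intro x y
      show (if x = y then (-1 : ℤ) else 1) = 1 ∨ (if x = y then (-1 : ℤ) else 1) = -1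
      split_ifs
      · right; rfl
      · left; rfl
  · intro i
    fin_cases i
    · exact Em_transpose p 1
    · exact Em_transpose p (-1)
    · rfl
    · ext x y
      show (if y = x then (-1 : ℤ) else 1) = (if x = y then (-1 : ℤ) else 1)
      simp only [eq_comm]
  · intro i k
    fin_cases i <;> fin_cases k
    · rfl
    · exact Em_comm_one p h1
    · exact (Jm_mul_Em p hp2 1).symm
    · exact (Lm_mul_Em p hp2 1).symm
    · exact (Em_comm_one p h1).symm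
    · rfl
    · exact (Jm_mul_Em p hp2 (-1)).symm
    · exact (Lm_mul_Em p hp2 (-1)).symm
    · exact Jm_mul_Em p hp2 1
    · exact Jm_mul_Em p hp2 (-1)
    · rfl
    · exact Jm_mul_Lm p
    · exact Lm_mul_Em p hp2 1
    · exact Lm_mul_Em p hp2 (-1)
    · exact (Jm_mul_Lm p).symm
    · rfl
  · rw [Fin.sum_univ_four, hcard, ZMod.card]
    show (b : ℤ) • (Em p 1 * Em p 1) + (b : ℤ) • (Em p (-1) * Em p (-1)) +
      ((2 * a : ℕ) : ℤ) • (Jm p * Jm p) + ((2 * c : ℕ) : ℤ) • (Lm p * Lm p) =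
      ((2 ^ (t + 1) * p : ℕ) : ℤ) • 1
    rw [← smul_add, Em_mul_Em_one p h1, Jm_mul_Jm, Lm_mul_Lm]
    have h2s : ((2 ^ (t + 1) * p : ℕ) : ℤ) = 2 * (b : ℤ) * (p + 1) + 8 * c := by
      rw [Nat.cast_mul, ← habc]
      push_cast
      linear_combination -2 * hb
    rw [h2s]
    have : 2 * (a : ℤ) * p - 2 * b + 2 * c * (p - 4) = 0 := by linear_combination -2 * hb
    have h0 : (2 * (a : ℤ) * p - 2 * b + 2 * c * (p - 4)) • Jm p = 0 := by rw [this, zero_smul]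
    push_cast
    calc (b : ℤ) • ((2 * ((p : ℤ) + 1)) • (1 : Matrix (ZMod p) (ZMod p) ℤ) - (2 : ℤ) • Jm p) +
          (2 * (a : ℤ)) • ((p : ℤ) • Jm p) +
          (2 * (c : ℤ)) • (((p : ℤ) - 4) • Jm p + (4 : ℤ) • 1)
        = (2 * (a : ℤ) * p - 2 * b + 2 * c * (p - 4)) • Jm p +
          (2 * (b : ℤ) * (p + 1) + 8 * c) • (1 : Matrix (ZMod p) (ZMod p) ℤ) := by module
      _ = _ := by rw [h0, zero_add]

theorem exists_had_prime (p : ℕ) (hp : p.Prime) (h2 : p ≠ 2) :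
    ∃ s : ℕ, 2 ≤ s ∧ 2 ^ s ≤ p ^ 3 ∧
      ∃ (ι : Type) (_ : Fintype ι) (_ : DecidableEq ι) (H : Matrix ι ι ℤ),
        Fintype.card ι = 2 ^ s * p ∧ IsHad H := by
  have : Fact p.Prime := ⟨hp⟩
  rcases hp.eq_two_or_odd with h | h
  · exact absurd h h2
  · have h4 : p % 4 = 1 ∨ p % 4 = 3 := by omega
    rcases h4 with h4 | h4
    · exact hp_one p h4
    · exact hp_three p h4

end Pool.Agent.Lib.MP_db622c_co.CB
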