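import Pool.Agent.Lib.MP_db622c_co.CB.Defs
import Pool.Agent.Lib.MP_db622c_co.CB.HadPrime

/-!
# CB-HadAll: Hadamard matrices of order `2 ^ s * m` for every odd `m ≥ 3`, `4 ≤ 2 ^ s ≤ m ^ 3`

PROOF.  Induction over the prime factors (`Nat.recOnMul`/strong induction with `Nat.minFac`): for a
prime `exists_had_prime`; for `m = m₁ m₂` the Kronecker product of two Hadamard matrices is one, of
order `2 ^ (s₁ + s₂) * (m₁ * m₂)`, and `2 ^ (s₁ + s₂) ≤ m₁ ^ 3 * m₂ ^ 3`.
Normalisation: from `IsHad H` (`ι` nonempty, choose `i₀ : ι`) to `IsH` with `A = J = ι`, the zero of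
`A` being `i₀`: `S a j = H i₀ j * H a j`.  (`Zero ι := ⟨i₀⟩` is a local instance.)
-/

namespace Pool.Agent.Lib.MP_db622c_co.CB

open Pool.Agent.Lib.MP_db622c_co

theorem hasHad_of_isHad {ι : Type} [Fintype ι] [DecidableEq ι] [Nonempty ι] {H : Matrix ι ι ℤ}
    (h : IsHad H) : HasHad (Fintype.card ι) := by
  obtain ⟨h1, h2⟩ := h
  obtain ⟨i₀⟩ := ‹Nonempty ι›
  have hsq : ∀ x y, H x y * H x y = 1 := fun x y => by
    rcases h1 x y with e | e <;> rw [e] <;> norm_num
  letI z : Zero ι := ⟨i₀⟩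
  refine ⟨ι, ι, z, inferInstance, inferInstance, fun a j => H i₀ j * H a j, rfl, rfl, ?_, ?_, ?_⟩
  · intro a j
    rcases h1 i₀ j with e | e <;> rcases h1 a j with e' | e' <;> rw [e, e'] <;> norm_num
  · intro j
    exact hsq i₀ j
  · intro a b hab
    have h3 : (H * H.transpose) a b = 0 := by
      rw [h2, Matrix.smul_apply, Matrix.one_apply_ne hab, smul_zero]
    rw [Matrix.mul_apply] at h3
    rw [← h3]
    refine Finset.sum_congr rfl fun j _ => ?_
    rw [Matrix.transpose_apply]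
    have h4 := hsq i₀ j
    calc H i₀ j * H a j * (H i₀ j * H b j) = H i₀ j * H i₀ j * (H a j * H b j) := by ring
      _ = H a j * H b j := by rw [h4, one_mul]

private theorem isHad_kron {ι κ : Type} [Fintype ι] [DecidableEq ι] [Fintype κ] [DecidableEq κ]
    {H : Matrix ι ι ℤ} {K : Matrix κ κ ℤ} (hH : IsHad H) (hK : IsHad K) :
    IsHad (Matrix.kroneckerMap (fun a b => a * b) H K) := by
  refine ⟨?_, ?_⟩
  · rintro ⟨x, x'⟩ ⟨y, y'⟩
    rw [Matrix.kroneckerMap_apply]
    rcases hH.1 x y with e | e <;> rcases hK.1 x' y' with e' | e' <;> rw [e, e'] <;> norm_num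
  · rw [← Matrix.kroneckerMap_transpose]
    have h1 := Matrix.mul_kronecker_mul H H.transpose K K.transpose
    rw [← h1, hH.2, hK.2]
    ext ⟨x, x'⟩ ⟨y, y'⟩
    rw [Matrix.kroneckerMap_apply, Matrix.smul_apply, Matrix.smul_apply, Matrix.smul_apply,
      Fintype.card_prod]
    by_cases hx : x = y
    · by_cases hx' : x' = y'
      · rw [hx, hx', Matrix.one_apply_eq, Matrix.one_apply_eq, Matrix.one_apply_eq]
        push_cast
        simp only [smul_eq_mul, mul_one]
      · rw [Matrix.one_apply_ne hx', Matrix.one_apply_ne fun h => hx' (Prod.ext_iff.1 h).2]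
        simp
    · rw [Matrix.one_apply_ne hx, Matrix.one_apply_ne fun h => hx (Prod.ext_iff.1 h).1]
      simp

private theorem exists_had_odd (m : ℕ) (hm : Odd m) (h3 : 3 ≤ m) :
    ∃ s : ℕ, 2 ≤ s ∧ 2 ^ s ≤ m ^ 3 ∧
      ∃ (ι : Type) (_ : Fintype ι) (_ : DecidableEq ι) (H : Matrix ι ι ℤ),
        Fintype.card ι = 2 ^ s * m ∧ IsHad H := by
  induction m using Nat.strong_induction_on with
  | _ m ih =>
    by_cases hp : m.Prime
    · refine exists_had_prime m hp ?_
      rintro rfl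
      exact absurd hm (by decide)
    · have h1 : m ≠ 1 := by omega
      have hpm := Nat.minFac_prime h1
      obtain ⟨k, hk⟩ := Nat.minFac_dvd m
      have hk0 : k ≠ 0 := by
        rintro rfl
        rw [mul_zero] at hk
        omega
      have hk1 : k ≠ 1 := by
        rintro rfl
        rw [mul_one] at hk
        exact hp (hk ▸ hpm)
      have hodd : Odd m.minFac ∧ Odd k := by
        rw [hk] at hm
        exact Nat.odd_mul.1 hm
      have hp2 : m.minFac ≠ 2 := by
        intro h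
        rw [h] at hodd
        exact absurd hodd.1 (by decide)
      have hk2 : k ≠ 2 := by
        rintro rfl
        exact absurd hodd.2 (by decide)
      have hk3 : 3 ≤ k := by omega
      have hkm : k < m := by
        have h5 := hpm.two_le
        have h6 : 2 * k ≤ m.minFac * k := Nat.mul_le_mul_right k h5
        rw [← hk] at h6
        omega
      obtain ⟨s₁, hs₁, hb₁, ι₁, f₁, d₁, H₁, c₁, hH₁⟩ := exists_had_prime m.minFac hpm hp2
      obtain ⟨s₂, hs₂, hb₂, ι₂, f₂, d₂, H₂, c₂, hH₂⟩ := ih k hkm hodd.2 hk3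
      refine ⟨s₁ + s₂, by omega, ?_, ι₁ × ι₂, inferInstance, inferInstance,
        Matrix.kroneckerMap (fun a b => a * b) H₁ H₂, ?_, isHad_kron hH₁ hH₂⟩
      · calc 2 ^ (s₁ + s₂) = 2 ^ s₁ * 2 ^ s₂ := pow_add _ _ _
          _ ≤ m.minFac ^ 3 * k ^ 3 := Nat.mul_le_mul hb₁ hb₂
          _ = (m.minFac * k) ^ 3 := (mul_pow _ _ _).symm
          _ = m ^ 3 := by rw [← hk]
      · rw [Fintype.card_prod, c₁, c₂]
        calc 2 ^ s₁ * m.minFac * (2 ^ s₂ * k) = 2 ^ (s₁ + s₂) * (m.minFac * k) := by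
              rw [pow_add]
              ring
          _ = 2 ^ (s₁ + s₂) * m := by rw [← hk]

theorem exists_hasHad (m : ℕ) (hm : Odd m) (h3 : 3 ≤ m) :
    ∃ s : ℕ, 2 ≤ s ∧ 2 ^ s ≤ m ^ 3 ∧ HasHad (2 ^ s * m) := by
  obtain ⟨s, hs, hb, ι, f, d, H, hc, hH⟩ := exists_had_odd m hm h3
  have : Nonempty ι := by
    rw [← Fintype.card_pos_iff, hc]
    have : 0 < m := by omega
    positivity
  refine ⟨s, hs, hb, ?_⟩
  rw [← hc]
  exact hasHad_of_isHad hH

end Pool.Agent.Lib.MP_db622c_co.CB
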