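import Pool.Agent.Lib.MP_db622c_co.CB.LamPow
import Pool.Agent.Lib.MP_db622c_co.CB.Match

/-!
# CB-LamProd: the symmetric Latin square with sides, order `2 ^ s * m`

PROOF.  `exists_lam`.  Let `L₁, μ₁, side₁` on `J₁ = Option (ZMod (2 ^ s - 1))` be as in `lam_pow`
(`card J₁ = 2 ^ s`).  On `J₂ = J₁ × ZMod m` (`m` odd) put `L₂ (j, y) (k, z) = (L₁ j k, y + z)`,
`μ₂ (j, y) = (μ₁ j, y)`, `side₂ (j, y) = side₁ j`: `IsLam L₂ μ₂ side₂`:
`l0` for `(c, z)`: take `y` with `y + y = z` (`m` odd) and the two points `(j, y)`, `(j', y)`;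
`l1`: `(L₁ j j, y + y) = (L₁ k k, z + z)` gives `y = z` (`double_inj` of `CB.BaseOF`), so `j ≠ k`;
`l2`: `(L₁ j (μ₁ j), y + y) = ...` gives `y = z` and `k = j` or `k = μ₁ j`; `l3`: first component.
Transport: `match_equiv` (`CB.Match`) gives `β : J ≃ J₂` with `β (μ j) = μ₂ (β j)`; choose
`f : A₂ ≃ A` (`A₂ = Option (ZMod (2 ^ s - 1)) × ZMod m`, of the same card); put
`L j k = f (L₂ (β j) (β k))`, `side j = side₂ (β j)`.
-/

namespace Pool.Agent.Lib.MP_db622c_co.CB

open Pool.Agent.Lib.MP_db622c_co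

theorem exists_lam {A J : Type*} [Fintype A] [Fintype J] (s m : ℕ) (hs : Odd s) (h3 : 3 ≤ s)
    (hm : Odd m) (hA : Fintype.card A = 2 ^ s * m) (hJ : Fintype.card J = 2 ^ s * m)
    (μ : J → J) (hμ : ∀ j, μ (μ j) = j) (hμ' : ∀ j, μ j ≠ j) :
    ∃ (L : J → J → A) (side : J → ZMod 2), IsLam L μ side := by
  classical
  obtain ⟨L₁, μ₁, side₁, hi₁, hn₁, hL₁⟩ := lam_pow s hs h3
  have h8 : 8 ≤ 2 ^ s := by
    calc 8 = 2 ^ 3 := by norm_num
      _ ≤ 2 ^ s := Nat.pow_le_pow_right (by norm_num) h3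
  have : NeZero (2 ^ s - 1) := ⟨by omega⟩
  have : NeZero m := ⟨by rcases hm with ⟨r, rfl⟩; omega⟩
  let J₂ := Option (ZMod (2 ^ s - 1)) × ZMod m
  let L₂ : J₂ → J₂ → J₂ := fun p q => (L₁ p.1 q.1, p.2 + q.2)
  let μ₂ : J₂ → J₂ := fun p => (μ₁ p.1, p.2)
  let side₂ : J₂ → ZMod 2 := fun p => side₁ p.1
  have hi₂ : ∀ p, μ₂ (μ₂ p) = p := fun p => by simp [μ₂, hi₁]
  have hn₂ : ∀ p, μ₂ p ≠ p := fun p h => hn₁ p.1 (congrArg Prod.fst h)
  have hc₂ : Fintype.card J₂ = 2 ^ s * m := by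
    have : Fintype.card J₂ = Fintype.card (Option (ZMod (2 ^ s - 1))) * Fintype.card (ZMod m) :=
      Fintype.card_prod _ _
    rw [this, Fintype.card_option, ZMod.card, ZMod.card]
    congr 1
    omega
  -- halves in `ZMod m`
  have hhalf : ∀ z : ZMod m, ∃ y, y + y = z := by
    have h2 : IsUnit (2 : ZMod m) := by
      have := (ZMod.isUnit_iff_coprime 2 m).2 (Nat.coprime_two_left.2 hm)
      simpa using this
    obtain ⟨u, hu⟩ := h2.exists_right_inv
    intro z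
    exact ⟨u * z, by linear_combination z * hu⟩
  have hL₂ : IsLam L₂ μ₂ side₂ := by
    refine ⟨?_, ?_, ?_, ?_, ?_, ?_, ?_⟩
    · intro p q
      simp only [L₂, hL₁.symm p.1 q.1, add_comm p.2 q.2]
    · intro p q q' h
      have h1 : L₁ p.1 q.1 = L₁ p.1 q'.1 := congrArg Prod.fst h
      have h2 : p.2 + q.2 = p.2 + q'.2 := congrArg Prod.snd h
      exact Prod.ext (hL₁.inj _ _ _ h1) (add_left_cancel h2)
    · intro p
      exact hL₁.side_μ p.1
    · rintro ⟨c, z⟩
      obtain ⟨y, hy⟩ := hhalf z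
      obtain ⟨j, j', hjj, h1, h2⟩ := hL₁.l0 c
      refine ⟨(j, y), (j', y), fun h => hjj (congrArg Prod.fst h), ?_, ?_⟩
      · rcases h1 with h1 | h1
        · left; simp only [L₂, h1, hy]
        · right; simp only [L₂, μ₂, h1, hy]
      · rcases h2 with h2 | h2
        · left; simp only [L₂, h2, hy]
        · right; simp only [L₂, μ₂, h2, hy]
    · intro p q h hpq
      have h1 : L₁ p.1 p.1 = L₁ q.1 q.1 := congrArg Prod.fst h
      have h2 : p.2 + p.2 = q.2 + q.2 := congrArg Prod.snd h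
      have h3 := double_inj hm _ _ h2
      exact hL₁.l1 _ _ h1 (fun h4 => hpq (Prod.ext h4 h3))
    · intro p q h
      have h1 : L₁ p.1 (μ₁ p.1) = L₁ q.1 (μ₁ q.1) := congrArg Prod.fst h
      have h2 : p.2 + p.2 = q.2 + q.2 := congrArg Prod.snd h
      have h3 := double_inj hm _ _ h2
      rcases hL₁.l2 _ _ h1 with h4 | h4
      · left; exact Prod.ext h4 h3.symm
      · right; exact Prod.ext h4 h3.symm
    · intro p q h
      exact hL₁.l3 p.1 q.1 (congrArg Prod.fst h)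
  obtain ⟨β, hβ⟩ := match_equiv (hJ.trans hc₂.symm) μ hμ hμ' μ₂ hi₂ hn₂
  let f : J₂ ≃ A := Fintype.equivOfCardEq (hc₂.trans hA.symm)
  refine ⟨fun j k => f (L₂ (β j) (β k)), fun j => side₂ (β j), ?_, ?_, ?_, ?_, ?_, ?_, ?_⟩
  · intro j k
    simp only [hL₂.symm (β j) (β k)]
  · intro j k k' h
    exact β.injective (hL₂.inj _ _ _ (f.injective h))
  · intro j
    simp only [hβ]
    exact hL₂.side_μ _
  · intro c
    obtain ⟨j, j', hjj, h1, h2⟩ := hL₂.l0 (f.symm c)
    refine ⟨β.symm j, β.symm j', fun h => hjj (β.symm.injective h), ?_, ?_⟩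
    · rcases h1 with h1 | h1
      · left; simp [h1]
      · right; simp [hβ, h1]
    · rcases h2 with h2 | h2
      · left; simp [h2]
      · right; simp [hβ, h2]
  · intro j k h hjk
    exact hL₂.l1 _ _ (f.injective h) (fun h => hjk (β.injective h))
  · intro j k h
    have h1 := f.injective h
    simp only [hβ] at h1
    rcases hL₂.l2 _ _ h1 with h2 | h2
    · left; exact β.injective h2
    · right; exact β.injective (by rw [hβ]; exact h2)
  · intro j k h
    have h1 := f.injective h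
    simp only [hβ] at h1
    exact hL₂.l3 _ _ h1

end Pool.Agent.Lib.MP_db622c_co.CB
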