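import Pool.Agent.Lib.MP_db622c_co.CB.Defs

/-!
# CB-QuadEx: existence of the algebraic package, and of the mates

PROOF of `exists_quad`.  `F := GaloisField 2 r`, `K := FiniteField.Extension F 2 2`
(Mathlib/FieldTheory/Finite/Extension.lean: field, algebra over `F`, `finrank F K = 2`),
`ι := algebraMap F K`, `N := Algebra.norm F` (`Algebra.norm_algebraMap`: `N (ι f) = f ^ 2`;
`N x ≠ 0` for `x ≠ 0` since `N` is multiplicative and `N 1 = 1`).
`κ`: as `card Kˣ = q² - 1 > q - 1 = card Fˣ` the norm is not injective on nonzero elements, so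
`N u = N v` with `u ≠ v`, both nonzero; `κ := u / v ≠ 1`, `N κ = 1`.  `κ ∉ F`: if `κ = ι f` then
`f ^ 2 = N κ = 1`, so `f = 1` (characteristic two), contradiction.
`φ`: `K` is a `ZMod 2`-vector space and the range of `ι` a subspace which does not contain `κ`;
use `Submodule.exists_dual_map_eq_bot_of_notMem` (see `ParamsEx.exists_params` for the same
argument) to get a `ZMod 2`-linear `φ` with `φ = 0` on the range of `ι` and `φ κ ≠ 0`, i.e. `= 1`.

PROOF of `mate_of_card`: `mate_galois t ht : Mate (GaloisField 2 t)` and `Mate.transport` along an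
additive equivalence (both are `ZMod 2`-vector spaces with `2 ^ t` elements,
`LinearEquiv.ofFinrankEq`, cf. `mate_galois`).

PROOF of `exists_func`: `K` a finite field of characteristic two with at least four elements has
an additive map `φ : K → ZMod 2` with `φ 1 = 0` and `φ c = 1` for some `c ≠ 0, 1`
(take `c ∉ {0, 1}` = the span of `1`).
-/

namespace Pool.Agent.Lib.MP_db622c_co.CB

open Pool.Agent.Lib.MP_db622c_co

/-- A vector outside a subspace is separated from it by an additive functional. -/
private theorem QuadEx_sep {V : Type*} [AddCommGroup V] [Module (ZMod 2) V]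
    (W : Submodule (ZMod 2) V) (c : V) (hc : c ∉ W) :
    ∃ φ : V →+ ZMod 2, (∀ x ∈ W, φ x = 0) ∧ φ c = 1 := by
  obtain ⟨f, hf1, hf2⟩ := Submodule.exists_dual_map_eq_bot_of_notMem hc inferInstance
  refine ⟨f.toAddMonoidHom, ?_, ?_⟩
  · intro x hx
    have : f x ∈ Submodule.map f W := Submodule.mem_map_of_mem hx
    rw [hf2] at this
    exact (Submodule.mem_bot _).mp this
  · rcases zmod2_cases (f c) with h | h
    · exact absurd h hf1
    · exact h

theorem exists_quad (r : ℕ) (hr : 1 ≤ r) :
    ∃ (F K : Type) (_ : Field F) (_ : Field K) (_ : Fintype F) (_ : Fintype K)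
      (_ : CharP F 2) (_ : CharP K 2),
      Fintype.card F = 2 ^ r ∧ Fintype.card K = 2 ^ (2 * r) ∧ Nonempty (Quad F K) := by
  classical
  let F := GaloisField 2 r
  let K := FiniteField.Extension F 2 2
  let : Fintype F := Fintype.ofFinite _
  let : Fintype K := Fintype.ofFinite _
  have hF : Fintype.card F = 2 ^ r := by
    rw [← Nat.card_eq_fintype_card, GaloisField.card 2 r (by omega)]
  have hK : Fintype.card K = 2 ^ (2 * r) := by
    rw [← Nat.card_eq_fintype_card, FiniteField.natCard_extension, Nat.card_eq_fintype_card, hF,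
      ← pow_mul, mul_comm]
  have hinj : Function.Injective (algebraMap F K) := (algebraMap F K).injective
  have hcK : CharP K 2 := charP_of_injective_algebraMap hinj 2
  have hfr : Module.finrank F K = 2 := FiniteField.finrank_extension F 2 2
  let N : K →* F := Algebra.norm F
  have hNι : ∀ f : F, N (algebraMap F K f) = f ^ 2 := by
    intro f
    show Algebra.norm F (algebraMap F K f) = f ^ 2
    rw [Algebra.norm_algebraMap, hfr]
  have hN0 : N 0 = 0 := by
    have := hNι 0
    rwa [map_zero, zero_pow (by norm_num)] at this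
  have hNne : ∀ x : K, x ≠ 0 → N x ≠ 0 := by
    intro x hx h0
    have h1 : N (x * x⁻¹) = 0 := by rw [map_mul, h0, zero_mul]
    rw [mul_inv_cancel₀ hx, map_one] at h1
    exact one_ne_zero h1
  obtain ⟨κ, hκ1, hNκ⟩ : ∃ κ : K, κ ≠ 1 ∧ N κ = 1 := by
    have hlt : Fintype.card Fˣ < Fintype.card Kˣ := by
      rw [Fintype.card_units, Fintype.card_units, hF, hK]
      have h1 : 2 ^ r < 2 ^ (2 * r) := Nat.pow_lt_pow_right (by norm_num) (by omega)
      have h2 : 0 < 2 ^ r := by positivity
      omega
    obtain ⟨u, v, huv, h⟩ := Fintype.exists_ne_map_eq_of_card_lt (Units.map N) hlt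
    refine ⟨((u * v⁻¹ : Kˣ) : K), ?_, ?_⟩
    · intro h1
      exact huv (mul_inv_eq_one.mp (Units.ext h1))
    · have h1 : Units.map N (u * v⁻¹) = 1 := by rw [map_mul, map_inv, h, mul_inv_cancel]
      have h2 := congrArg Units.val h1
      exact h2
  have hκF : ∀ f : F, algebraMap F K f ≠ κ := by
    intro f hf
    have h1 : f ^ 2 = 1 := by rw [← hNι f, hf, hNκ]
    have h2 : f = 1 := by
      have h3 : (f - 1) ^ 2 = 0 := by
        have h4 : (2 : F) = 0 := CharTwo.two_eq_zero
        linear_combination h1 + (1 - f) * h4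
      exact sub_eq_zero.mp (pow_eq_zero_iff (by norm_num) |>.mp h3)
    rw [h2, map_one] at hf
    exact hκ1 hf.symm
  let : Algebra (ZMod 2) K := ZMod.algebra K 2
  let : Algebra (ZMod 2) F := ZMod.algebra F 2
  obtain ⟨φ, hφ0, hφ1⟩ := QuadEx_sep
    (LinearMap.range ((algebraMap F K).toAddMonoidHom.toZModLinearMap 2)) κ (by
      rintro ⟨f, hf⟩
      exact hκF f hf)
  exact ⟨F, K, inferInstance, inferInstance, inferInstance, inferInstance, inferInstance, hcK,
    hF, hK, ⟨⟨algebraMap F K, N, κ, φ, hN0, hNne, hNι, hNκ, fun f => hφ0 _ ⟨f, rfl⟩, hφ1⟩⟩⟩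

theorem mate_of_card {K : Type} [Field K] [CharP K 2] [Fintype K] (t : ℕ) (ht : 3 ≤ t)
    (hK : Fintype.card K = 2 ^ t) : Mate K := by
  let : Algebra (ZMod 2) K := ZMod.algebra K 2
  have hfin : Module.finrank (ZMod 2) K = t := by
    have h1 := Module.card_eq_pow_finrank (K := ZMod 2) (V := K)
    rw [hK, ZMod.card] at h1
    exact (Nat.pow_right_injective (le_refl 2) h1).symm
  have e : GaloisField 2 t ≃ₗ[ZMod 2] K :=
    LinearEquiv.ofFinrankEq _ _ (by rw [hfin, GaloisField.finrank 2 (by omega)])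
  exact (mate_galois t ht).transport e.toAddEquiv

theorem exists_func (t : ℕ) (ht : 2 ≤ t) :
    ∃ (K : Type) (_ : Field K) (_ : Fintype K) (_ : CharP K 2) (φ : K →+ ZMod 2) (c : K),
      Fintype.card K = 2 ^ t ∧ c ≠ 0 ∧ c ≠ 1 ∧ φ 1 = 0 ∧ φ c = 1 := by
  classical
  let K := GaloisField 2 t
  let : Fintype K := Fintype.ofFinite _
  have hK : Fintype.card K = 2 ^ t := by
    rw [← Nat.card_eq_fintype_card, GaloisField.card 2 t (by omega)]
  obtain ⟨c, hc0, hc1⟩ : ∃ c : K, c ≠ 0 ∧ c ≠ 1 := by
    by_contra hcon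
    push Not at hcon
    have h1 : (Finset.univ : Finset K) ⊆ {0, 1} := by
      intro x _
      simp only [Finset.mem_insert, Finset.mem_singleton]
      by_contra h
      push Not at h
      exact h.2 (hcon x h.1)
    have h2 := Finset.card_le_card h1
    have h3 : ({0, 1} : Finset K).card ≤ 2 := Finset.card_le_two
    rw [Finset.card_univ, hK] at h2
    have h4 : 2 ^ 2 ≤ 2 ^ t := Nat.pow_le_pow_right (by norm_num) ht
    omega
  obtain ⟨φ, hφ0, hφ1⟩ := QuadEx_sep (V := K) (Submodule.span (ZMod 2) {1}) c (by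
    rw [Submodule.mem_span_singleton]
    rintro ⟨s, hs⟩
    rcases zmod2_cases s with rfl | rfl
    · rw [zero_smul] at hs
      exact hc0 hs.symm
    · rw [one_smul] at hs
      exact hc1 hs.symm)
  exact ⟨K, inferInstance, inferInstance, inferInstance, φ, c, hK, hc0, hc1,
    hφ0 1 (Submodule.mem_span_singleton_self 1), hφ1⟩

end Pool.Agent.Lib.MP_db622c_co.CB
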