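import Pool.Agent.Lib.MP_db622c_co.CB.Defs2
import Pool.Agent.Lib.MP_db622c_co.CB.Tens
import Pool.Agent.Lib.MP_db622c_co.CB.QuadEx

/-!
# CB-PackEx: existence of the package

PROOF.

`both_values`.  Let `K` be a finite field of characteristic two, `φ : K →+ ZMod 2` nonzero
(`φ c0 = 1`), `H` a subgroup of `Kˣ` with `card K < (card H) ^ 2`, and `c : Kˣ`.  For `a : K` put
`s a = ∑ h : H, sg (φ (a * h))` (an integer).  Then
`∑ a, s a ^ 2 = ∑ h h', ∑ a, sg (φ (a * (h + h'))) = card K * card H`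
(`sg_add`, and `sum_sg_gen` of `CB.Tens` kills the terms with `h ≠ h'`, as then `h + h' ≠ 0`).
`s 0 = card H`, and `s (c * h0) = s c` for `h0 ∈ H` (reindex the sum), so, the elements `c * h0`
being distinct and nonzero, `card H * s c ^ 2 + card H ^ 2 ≤ card K * card H`, so
`s c ^ 2 < card K < card H ^ 2`.  If `φ (c h) = 0` for all `h ∈ H`, then `s c = card H`; if
`φ (c h) = 1` for all `h`, then `s c = - card H`; contradiction in both cases.  So both values
occur (`φ (c h)` is `0` or `1`).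

`exists_pack`.  Let `e = d * r`, `K = GaloisField 2 e` (`Fintype.ofFinite`), `q = 2 ^ r`,
`u = card Kˣ = 2 ^ e - 1`, and `M = u / (q - 1)`; `q - 1 ∣ u` (`r ∣ e`), and
`M ≥ 2 ^ (e - r) + 1` if `d ≥ 2` (`M (q - 1) = 2 ^ e - 1 ≥ 2 ^ (e - r) (q - 1) + q - 1` as
`2 ^ (e-r) ≥ 2 ^ r`), so `M ^ 2 > 2 ^ (2 (e - r)) ≥ 2 ^ e`.
Let `ζ` be a generator of the cyclic group `Kˣ` and `H` the subgroup generated by `ζ ^ (q - 1)`
(`Subgroup.zpowers`), of order `u / (q - 1) = M` (`orderOf_pow`).  `V = Kˣ ⧸ H`, a commutative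
group of order `q - 1` (`Subgroup.card_eq_card_quotient_mul_card_subgroup`).  `N x` = class of `x`
for `x ≠ 0` (`Units.mk0`), `N 0 = 1`.  `φ` with `φ 1 = 0`, `φ c = 1` from `exists_func`-like
separation (any nonzero functional will do; only `φ ≠ 0` is needed here, e.g. use
`exists_func`, whose field has `2 ^ t` elements, instead of `GaloisField`).  `b D`, `c D`: take any
representative `x` of `D` and apply `both_values` to `c = x`.  Finally `H` has an element `κ ≠ 1`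
(`M ≥ 2`); `θ = κ / (1 + κ)`, so `1 + θ = 1 / (1 + κ)` (characteristic two), and
`θ = κ * (1 + θ)`, `N κ = 1`.
-/

namespace Pool.Agent.Lib.MP_db622c_co.CB

open Pool.Agent.Lib.MP_db622c_co

private theorem packEx_sum {K : Type*} [Field K] [CharP K 2] [Fintype K] (φ : K →+ ZMod 2) (c0 : K)
    (hφ : φ c0 = 1) (H : Subgroup Kˣ) [Fintype H] :
    ∑ a : K, (∑ h : H, sg (φ (a * ((h : Kˣ) : K)))) ^ 2 =
      (Fintype.card K : ℤ) * (Fintype.card H : ℤ) := by
  classical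
  have h1 : ∀ a : K, (∑ h : H, sg (φ (a * ((h : Kˣ) : K)))) ^ 2 =
      ∑ h : H, ∑ h' : H, sg (φ ((((h : Kˣ) : K) + ((h' : Kˣ) : K)) * a)) := by
    intro a
    rw [sq, Finset.sum_mul_sum]
    refine Finset.sum_congr rfl fun h _ => Finset.sum_congr rfl fun h' _ => ?_
    rw [← sg_add, ← map_add]
    congr 2
    ring
  rw [Finset.sum_congr rfl (fun a _ => h1 a), Finset.sum_comm]
  have h2 : ∀ h : H, ∑ a : K, ∑ h' : H, sg (φ ((((h : Kˣ) : K) + ((h' : Kˣ) : K)) * a)) =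
      (Fintype.card K : ℤ) := by
    intro h
    rw [Finset.sum_comm, Finset.sum_eq_single h]
    · have : ∀ a : K, sg (φ ((((h : Kˣ) : K) + ((h : Kˣ) : K)) * a)) = 1 := by
        intro a
        rw [add_self, zero_mul, map_zero]
        rfl
      rw [Finset.sum_congr rfl (fun a _ => this a)]
      simp
    · intro h' _ hne
      refine sum_sg_gen φ c0 hφ _ fun h0 => hne ?_
      have h3 := eq_of_add_eq_zero h0
      exact (Subtype.ext (Units.ext h3)).symm
    · intro hn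
      exact absurd (Finset.mem_univ h) hn
  rw [Finset.sum_congr rfl (fun h _ => h2 h)]
  simp [mul_comm]

private theorem packEx_bound {K : Type*} [Field K] [CharP K 2] [Fintype K] (φ : K →+ ZMod 2)
    (c0 : K) (hφ : φ c0 = 1) (H : Subgroup Kˣ) [Fintype H] (c : Kˣ)
    (hH : Fintype.card K < (Fintype.card H) ^ 2) :
    (∑ h : H, sg (φ ((c : K) * ((h : Kˣ) : K)))) ^ 2 < (Fintype.card H : ℤ) ^ 2 := by
  classical
  set S : K → ℤ := fun a => ∑ h : H, sg (φ (a * ((h : Kˣ) : K))) with hS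
  have hsum := packEx_sum φ c0 hφ H
  have hS0 : S 0 = (Fintype.card H : ℤ) := by
    have : ∀ h : H, sg (φ (0 * ((h : Kˣ) : K))) = 1 := by
      intro h
      rw [zero_mul, map_zero]
      rfl
    show ∑ h : H, sg (φ (0 * ((h : Kˣ) : K))) = _
    rw [Finset.sum_congr rfl (fun h _ => this h)]
    simp
  have hSc : ∀ h0 : H, S ((c : K) * ((h0 : Kˣ) : K)) = S c := by
    intro h0
    show ∑ h : H, sg (φ ((c : K) * ((h0 : Kˣ) : K) * ((h : Kˣ) : K))) =
      ∑ h : H, sg (φ ((c : K) * ((h : Kˣ) : K)))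
    rw [← Equiv.sum_comp (Equiv.mulLeft h0) (fun h : H => sg (φ ((c : K) * ((h : Kˣ) : K))))]
    refine Finset.sum_congr rfl fun h _ => ?_
    rw [Equiv.coe_mulLeft, Subgroup.coe_mul, Units.val_mul, mul_assoc]
  let f : Option H → K := fun o => o.elim 0 (fun h => (c : K) * ((h : Kˣ) : K))
  have hf : Function.Injective f := by
    intro o o' h
    rcases o with _ | h1 <;> rcases o' with _ | h2
    · rfl
    · exact absurd h.symm (mul_ne_zero c.ne_zero (h2 : Kˣ).ne_zero)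
    · exact absurd h (mul_ne_zero c.ne_zero (h1 : Kˣ).ne_zero)
    · have h3 : (c : K) * ((h1 : Kˣ) : K) = (c : K) * ((h2 : Kˣ) : K) := h
      have h4 := mul_left_cancel₀ c.ne_zero h3
      rw [Subtype.ext (Units.ext h4)]
  have hle : ∑ o : Option H, S (f o) ^ 2 ≤ ∑ a : K, S a ^ 2 := by
    have e1 : ∑ o : Option H, S (f o) ^ 2 =
        ∑ a ∈ Finset.univ.map ⟨f, hf⟩, S a ^ 2 := by
      rw [Finset.sum_map]
      rfl
    rw [e1]
    exact Finset.sum_le_univ_sum_of_nonneg fun a => sq_nonneg _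
  have hsum' : ∑ a : K, S a ^ 2 = (Fintype.card K : ℤ) * (Fintype.card H : ℤ) := hsum
  rw [hsum', Fintype.sum_option] at hle
  have e2 : ∑ h : H, S (f (some h)) ^ 2 = (Fintype.card H : ℤ) * S c ^ 2 := by
    rw [Finset.sum_congr rfl (fun h _ => by
      show S (f (some h)) ^ 2 = S c ^ 2
      rw [← hSc h]
      rfl)]
    simp
  have e3 : S (f none) = (Fintype.card H : ℤ) := hS0
  rw [e2, e3] at hle
  have hpos : (0 : ℤ) < Fintype.card H := by exact_mod_cast Fintype.card_pos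
  have h5 : (Fintype.card K : ℤ) < (Fintype.card H : ℤ) ^ 2 := by exact_mod_cast hH
  have h6 : (Fintype.card H : ℤ) * (Fintype.card H + S c ^ 2) ≤
      (Fintype.card H : ℤ) * Fintype.card K := by nlinarith
  have h7 := le_of_mul_le_mul_left h6 hpos
  show S c ^ 2 < _
  linarith

private theorem packEx_two (a : ZMod 2) : a = 0 ∨ a = 1 := by
  revert a
  decide

theorem both_values {K : Type*} [Field K] [CharP K 2] [Fintype K] (φ : K →+ ZMod 2) (c0 : K)
    (hφ : φ c0 = 1) (H : Subgroup Kˣ) (hH : Fintype.card K < (Nat.card H) ^ 2) (c : Kˣ) :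
    (∃ h ∈ H, φ ((c * h : Kˣ) : K) = 0) ∧ (∃ h ∈ H, φ ((c * h : Kˣ) : K) = 1) := by
  classical
  let : Fintype H := Fintype.ofFinite _
  rw [Nat.card_eq_fintype_card] at hH
  have hb := packEx_bound φ c0 hφ H c hH
  constructor
  · by_contra hcon
    push Not at hcon
    have h1 : ∀ h : H, sg (φ ((c : K) * ((h : Kˣ) : K))) = -1 := by
      intro h
      have h2 : φ ((c : K) * ((h : Kˣ) : K)) ≠ 0 := hcon h h.2
      rw [(packEx_two _).resolve_left h2]
      rfl
    rw [Finset.sum_congr rfl (fun h _ => h1 h)] at hb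
    simp at hb
  · by_contra hcon
    push Not at hcon
    have h1 : ∀ h : H, sg (φ ((c : K) * ((h : Kˣ) : K))) = 1 := by
      intro h
      have h2 : φ ((c : K) * ((h : Kˣ) : K)) ≠ 1 := hcon h h.2
      rw [(packEx_two _).resolve_right h2]
      rfl
    rw [Finset.sum_congr rfl (fun h _ => h1 h)] at hb
    simp at hb

private theorem packEx_num (r d : ℕ) (hr : 1 ≤ r) (hd : 2 ≤ d) :
    ∃ M : ℕ, M * (2 ^ r - 1) = 2 ^ (d * r) - 1 ∧ 2 ^ (d * r) < M ^ 2 ∧ 2 ≤ M := by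
  have h1 : 2 ^ r - 1 ∣ 2 ^ (d * r) - 1 := by
    have := Nat.sub_dvd_pow_sub_pow (2 ^ r) 1 d
    rwa [one_pow, ← pow_mul, mul_comm r d] at this
  obtain ⟨M, hM⟩ := h1
  have hM' : M * (2 ^ r - 1) = 2 ^ (d * r) - 1 := by rw [hM, mul_comm]
  obtain ⟨s, hs⟩ : ∃ s, d * r = r + s := ⟨d * r - r, by nlinarith [Nat.sub_add_cancel (Nat.le_mul_of_pos_left r (by omega : 0 < d))]⟩
  have hrs : r ≤ s := by nlinarith
  have hr1 : 2 ≤ 2 ^ r := by
    calc 2 = 2 ^ 1 := (pow_one 2).symm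
      _ ≤ 2 ^ r := Nat.pow_le_pow_right (by norm_num) hr
  have hs1 : 2 ≤ 2 ^ s := by
    calc 2 = 2 ^ 1 := (pow_one 2).symm
      _ ≤ 2 ^ s := Nat.pow_le_pow_right (by norm_num) (by omega)
  have hlt : 2 ^ s < M := by
    by_contra hcon
    push Not at hcon
    rw [hs, pow_add] at hM'
    have h2 : M * (2 ^ r - 1) ≤ 2 ^ s * (2 ^ r - 1) := Nat.mul_le_mul_right _ hcon
    have h3 : 2 ^ s * (2 ^ r - 1) = 2 ^ s * 2 ^ r - 2 ^ s := by
      rw [Nat.mul_sub, mul_one]
    have h4 : 2 ^ r * 2 ^ s = 2 ^ s * 2 ^ r := mul_comm _ _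
    have h5 : 2 * 2 ^ s ≤ 2 ^ r * 2 ^ s := Nat.mul_le_mul_right _ hr1
    omega
  refine ⟨M, hM', ?_, by omega⟩
  calc 2 ^ (d * r) = 2 ^ r * 2 ^ s := by rw [hs, pow_add]
    _ ≤ 2 ^ s * 2 ^ s := Nat.mul_le_mul_right _ (Nat.pow_le_pow_right (by norm_num) hrs)
    _ < M * M := Nat.mul_lt_mul_of_lt_of_lt hlt hlt
    _ = M ^ 2 := (sq M).symm

private theorem packEx_sub {K : Type} [Field K] [Fintype K] (M m : ℕ)
    (hM : M * m = Fintype.card K - 1) (hm : 1 ≤ m) :
    ∃ H : Subgroup Kˣ, Nat.card H = M ∧ Nat.card (Kˣ ⧸ H) = m := by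
  classical
  obtain ⟨ζ, hζ⟩ := IsCyclic.exists_generator (α := Kˣ)
  have ho : orderOf ζ = M * m := by
    rw [orderOf_eq_card_of_forall_mem_zpowers hζ, Nat.card_units, Nat.card_eq_fintype_card, hM]
  have hcard : Nat.card Kˣ = M * m := by
    rw [Nat.card_units, Nat.card_eq_fintype_card, hM]
  have hpos : 0 < Nat.card Kˣ := Nat.card_pos
  have hM0 : 0 < M := Nat.pos_of_ne_zero fun h => by
    rw [hcard, h, zero_mul] at hpos
    exact lt_irrefl _ hpos
  have h1 : orderOf (ζ ^ m) = M := by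
    rw [orderOf_pow_of_dvd (by omega) (by rw [ho]; exact Dvd.intro_left M rfl), ho,
      Nat.mul_div_cancel _ (by omega)]
  refine ⟨Subgroup.zpowers (ζ ^ m), ?_, ?_⟩
  · rw [Nat.card_zpowers, h1]
  · have h2 := Subgroup.card_eq_card_quotient_mul_card_subgroup (Subgroup.zpowers (ζ ^ m))
    rw [Nat.card_zpowers, h1, hcard, mul_comm M m] at h2
    exact (Nat.eq_of_mul_eq_mul_right hM0 h2).symm

theorem exists_pack (r d : ℕ) (hr : 1 ≤ r) (hd : 2 ≤ d) :
    ∃ (K V : Type) (_ : Field K) (_ : CommGroup V) (_ : Fintype K) (_ : Fintype V)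
      (_ : CharP K 2),
      Fintype.card K = 2 ^ (d * r) ∧ Fintype.card V = 2 ^ r - 1 ∧ Nonempty (Pack K V) := by
  classical
  obtain ⟨M, hM1, hM2, hM3⟩ := packEx_num r d hr hd
  obtain ⟨K, hF, hFt, hC, φ, c0, hK, -, -, -, hφ⟩ := exists_func (d * r) (by nlinarith)
  have hr1 : 2 ≤ 2 ^ r := by
    calc 2 = 2 ^ 1 := (pow_one 2).symm
      _ ≤ 2 ^ r := Nat.pow_le_pow_right (by norm_num) hr
  obtain ⟨H, hH1, hH2⟩ := packEx_sub (K := K) M (2 ^ r - 1) (by rw [hM1, hK]) (by omega)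
  have hbv := both_values φ c0 hφ H (by rw [hK, hH1]; exact hM2)
  let : Fintype (Kˣ ⧸ H) := Fintype.ofFinite _
  refine ⟨K, Kˣ ⧸ H, hF, inferInstance, hFt, inferInstance, hC, hK, ?_, ?_⟩
  · rw [← Nat.card_eq_fintype_card, hH2]
  · -- an element of `H` different from `1`
    obtain ⟨κ, hκH, hκ1⟩ : ∃ κ ∈ H, κ ≠ 1 := by
      by_contra hcon
      push Not at hcon
      have : H = ⊥ := (Subgroup.eq_bot_iff_forall H).2 hcon
      rw [this, Subgroup.card_bot] at hH1
      omega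
    have hκ1' : (1 : K) + κ ≠ 0 := by
      intro h
      exact hκ1 (Units.ext (eq_of_add_eq_zero h).symm)
    choose b' hb'H hb'φ using fun c : Kˣ => (hbv c).1
    choose c' hc'H hc'φ using fun c : Kˣ => (hbv c).2
    let N : K → Kˣ ⧸ H := fun x => if h : x = 0 then 1 else QuotientGroup.mk (Units.mk0 x h)
    have hN : ∀ x : Kˣ, N (x : K) = QuotientGroup.mk x := by
      intro x
      show (if h : (x : K) = 0 then 1 else QuotientGroup.mk (Units.mk0 (x : K) h)) = _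
      rw [dif_neg x.ne_zero, Units.mk0_val]
    have hNmul : ∀ x y : K, x ≠ 0 → y ≠ 0 → N (x * y) = N x * N y := by
      intro x y hx hy
      have h1 : x * y = ((Units.mk0 x hx * Units.mk0 y hy : Kˣ) : K) := rfl
      have h2 : x = ((Units.mk0 x hx : Kˣ) : K) := rfl
      have h3 : y = ((Units.mk0 y hy : Kˣ) : K) := rfl
      rw [h1, hN]
      conv_rhs => rw [h2, h3, hN, hN]
      rfl
    have hNr : ∀ (D : Kˣ ⧸ H) (h : Kˣ), h ∈ H → N ((D.out * h : Kˣ) : K) = D := by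
      intro D h hh
      rw [hN, QuotientGroup.mk_mul_of_mem _ hh]
      exact D.out_eq'
    have e1 : (1 : K) + κ / (1 + κ) = 1 / (1 + κ) := by
      rw [eq_div_iff hκ1', add_mul, div_mul_cancel₀ _ hκ1', one_mul, add_assoc, add_self, add_zero]
    have e2 : (κ : K) / (1 + κ) = κ * (1 + κ / (1 + κ)) := by
      rw [e1, mul_one_div]
    have hne2 : (1 : K) + κ / (1 + κ) ≠ 0 := by
      rw [e1]
      exact one_div_ne_zero hκ1'
    refine ⟨⟨N, φ, fun D => ((D.out * b' D.out : Kˣ) : K), fun D => ((D.out * c' D.out : Kˣ) : K),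
      κ / (1 + κ), hNmul, fun D => Units.ne_zero _, fun D => Units.ne_zero _,
      fun D => hNr D _ (hb'H _), fun D => hNr D _ (hc'H _), fun D => hb'φ _, fun D => hc'φ _,
      div_ne_zero κ.ne_zero hκ1', hne2, ?_⟩⟩
    conv_rhs => rw [e2]
    rw [hNmul _ _ κ.ne_zero hne2, hN]
    have h4 : (QuotientGroup.mk κ : Kˣ ⧸ H) = 1 := (QuotientGroup.eq_one_iff κ).2 hκH
    rw [h4, one_mul]

end Pool.Agent.Lib.MP_db622c_co.CB
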