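import Pool.Agent.Lib.MP_db622c_co.CB.StepII2

/-!
# CB-Prod: the product theorem

If the sign compatible one-factorization `g` of `J` and the symmetric Latin square `L` are
orthogonal to the one-factorization `h` of the complete graph on `J` without the edges of the
perfect matching `μ`, then there are two orthogonal one-factorizations on `K × J`, one of them
sign compatible.
-/

namespace Pool.Agent.Lib.MP_db622c_co.CB

open Pool.Agent.Lib.MP_db622c_co

section

variable {K A J X : Type*} [Field K] [Zero A] [CharP K 2]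
  {S : A → J → ℤ} {μ : J → J} {L g : J → J → A} {side : J → ZMod 2} {h : J → J → X}

/-- a package with one level -/
def pack1 (φ : K →+ ZMod 2) (b c θ : K) (hb : b ≠ 0) (hφb : φ b = 0) (hφc : φ c = 1)
    (hθ : θ ≠ 0) (hθ' : 1 + θ ≠ 0) : Pack K Unit where
  N := fun _ => ()
  φ := φ
  b := fun _ => b
  c := fun _ => c
  θ := θ
  N_mul := fun _ _ _ _ => rfl
  b_ne := fun _ => hb
  c_ne := fun _ hc => by rw [hc, map_zero] at hφc; exact absurd hφc (by decide)
  N_b := fun _ => rfl
  N_c := fun _ => rfl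
  φ_b := fun _ => hφb
  φ_c := fun _ => hφc
  θ_ne := hθ
  θ_ne' := hθ'
  N_θ := rfl

theorem exists_T [Fintype A] [Fintype J] (hc : Fintype.card A = Fintype.card J)
    (hg : IsOF g) (hsp : IsSplit S g) (hL : IsLam L μ side) :
    ∃ B : Blow S Unit, B.g = g ∧ (∀ α j a, B.L α j a = L j a) ∧ (∀ i j, B.dir i j) := by
  classical
  have hex : ∀ (i : A) (j : J), ∃ k, i ≠ 0 → k ≠ j ∧ g j k = i := by
    intro i j
    by_cases hi : i = 0
    · exact ⟨j, fun h => absurd hi h⟩
    · obtain ⟨k, hk⟩ := hg.exists_partner hc j i hi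
      exact ⟨k, fun _ => hk⟩
  choose p hp using hex
  have p_ne : ∀ i j, i ≠ 0 → p i j ≠ j := fun i j hi => (hp i j hi).1
  have g_p : ∀ i j, i ≠ 0 → g j (p i j) = i := fun i j hi => (hp i j hi).2
  have p_p : ∀ i j, i ≠ 0 → p i (p i j) = j := by
    intro i j hi
    refine hg.inj (p i j) _ _ (p_ne i _ hi) (p_ne i j hi).symm ?_
    rw [g_p i _ hi, hg.symm, g_p i j hi]
  have p_split : ∀ i j, i ≠ 0 → S i (p i j) = - S i j := by
    intro i j hi
    have h1 := hsp j (p i j) (p_ne i j hi).symm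
    rwa [g_p i j hi] at h1
  exact ⟨{
    g := g
    p := p
    q := p
    L := fun _ => L
    σ := fun _ _ => 1
    dir := fun _ _ => True
    al := fun _ _ => ()
    cc := fun _ _ => 0
    hg := hg
    p_ne := p_ne
    g_p := g_p
    q_q := p_p
    q_split := p_split
    L_symm := fun _ j k => hL.symm j k
    L_inj := fun _ j k k' h => hL.inj j k k' h
    σ_symm := fun _ _ => rfl
    dir_p := fun _ _ _ => Iff.rfl
    dir_q := fun _ _ _ => Iff.rfl
    q_dir := fun _ _ _ _ => rfl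
    al_p := fun _ _ _ _ => rfl
    al_q := fun _ _ _ _ => rfl
    cc_p := fun _ _ _ _ => rfl
    cc_q := fun _ _ _ _ => rfl
    al_inj := fun _ _ _ _ _ h => absurd trivial h
    L_cc := fun _ _ _ h => absurd trivial h
    cc_split := fun _ _ _ h => absurd trivial h }, rfl, fun _ _ _ => rfl, fun _ _ => trivial⟩

/-- the two kinds of units -/
theorem bd_cases' (P : Pack K Unit) (B : Blow S Unit) (hBg : B.g = g)
    (hBL : ∀ α j a, B.L α j a = L j a) (hBd : ∀ i j, B.dir i j) (j a : J) (w : K)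
    (hu : j ≠ a ∨ w ≠ 0) :
    (w = 0 ∧ j ≠ a ∧ B.bd P j a w = (0, g j a)) ∨
      (w ≠ 0 ∧ B.bd P j a w = (B.amp P j a w, L j a)) := by
  rcases B.bd_cases P j a w hu with ⟨hw, hja, hd, e⟩ | ⟨hw, hja, hd, e⟩ |
    ⟨hw, i, hi, e⟩ | ⟨hw, hi, e⟩
  · exact Or.inl ⟨hw, hja, by rw [e, hBg]⟩
  · exact absurd (hBd _ _) hd
  · exact absurd (hBd _ _) hi.2.1
  · refine Or.inr ⟨hw, ?_⟩
    rw [e]
    unfold Blow.cls
    rw [hBL]

theorem amp_eq (P : Pack K Unit) (B : Blow S Unit) (hBL : ∀ α j a, B.L α j a = L j a)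
    {j a j' a' : J} {w w' : K} (hw : w ≠ 0) (hw' : w' ≠ 0) (hs : SP j a j' a')
    (h : B.amp P j a w = B.amp P j' a' w') : w = w' := by
  rcases hs with ⟨h1, h2⟩ | ⟨h1, h2⟩
  · rw [h1, h2] at h
    exact B.amp_inj P j a hw hw' h
  · rw [h1, h2, B.amp_symm P a j] at h
    exact B.amp_inj P j a hw hw' h

/-- The round of an edge. -/
noncomputable def rd1 (h : J → J → X) (μ : J → J) (side : J → ZMod 2) (t : J → J → K)
    (rK : K × ZMod 2 → K × ZMod 2 → K × ZMod 2) (x y : K × J) :
    (K × ZMod 2) ⊕ (K × X) :=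
  open Classical in
  if NB μ x.2 y.2 then
    Sum.inr (x.1 + t x.2 y.2 * (x.1 + y.1), h x.2 y.2)
  else Sum.inl (rK (x.1, side x.2) (y.1, side y.2))

theorem rd1_nb {side : J → ZMod 2} {t : J → J → K}
    {rK : K × ZMod 2 → K × ZMod 2 → K × ZMod 2} {x y : K × J} (hn : NB μ x.2 y.2) :
    rd1 h μ side t rK x y = Sum.inr (x.1 + t x.2 y.2 * (x.1 + y.1), h x.2 y.2) := by
  unfold rd1; rw [if_pos hn]

theorem rd1_b {side : J → ZMod 2} {t : J → J → K}
    {rK : K × ZMod 2 → K × ZMod 2 → K × ZMod 2} {x y : K × J} (hn : ¬ NB μ x.2 y.2) :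
    rd1 h μ side t rK x y = Sum.inl (rK (x.1, side x.2) (y.1, side y.2)) := by
  unfold rd1; rw [if_neg hn]

/-- the zero of the set of rounds -/
@[reducible] def zM1 (K X : Type*) [Zero K] : Zero ((K × ZMod 2) ⊕ (K × X)) := ⟨Sum.inl 0⟩

theorem isOF_rd1 (P : Pack K Unit) (hμ : IsRB g μ) (hL : IsLam L μ side)
    (hh : IsHC h μ) {t : J → J → K} (ht : IsTh P t)
    {rK : K × ZMod 2 → K × ZMod 2 → K × ZMod 2} (r0 : ∀ x y, x ≠ y → rK x y ≠ 0)
    (rs : ∀ x y, rK x y = rK y x) (ri : ∀ x y y', y ≠ x → y' ≠ x → rK x y = rK x y' → y = y') :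
    @IsOF _ _ (zM1 K X) (rd1 h μ side t rK) := by
  let := zM1 K X
  refine ⟨?_, ?_, ?_⟩
  · intro x y hxy hc
    by_cases hn : NB μ x.2 y.2
    · rw [rd1_nb hn] at hc
      exact Sum.inr_ne_inl
        (show (Sum.inr (x.1 + t x.2 y.2 * (x.1 + y.1), h x.2 y.2) :
          (K × ZMod 2) ⊕ (K × X)) = Sum.inl 0 from hc)
    · rw [rd1_b hn] at hc
      have h1 : rK (x.1, side x.2) (y.1, side y.2) = 0 := Sum.inl_injective hc
      exact r0 _ _ (pt_ne hμ hL hxy hn) h1
  · intro x y
    by_cases hn : NB μ x.2 y.2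
    · have hn' := NB_symm hμ.inv hn
      rw [rd1_nb hn, rd1_nb hn']
      have h1 := label_symm (t x.2 y.2) x.1 y.1
      rw [ht.anti x.2 y.2 hn.1.symm, h1, hh.symm]
    · have hn' : ¬ NB μ y.2 x.2 := fun hc => hn (NB_symm hμ.inv hc)
      rw [rd1_b hn, rd1_b hn', rs]
  · intro x y z hy hz hc
    by_cases hn : NB μ x.2 y.2
    · by_cases hn' : NB μ x.2 z.2
      · rw [rd1_nb hn, rd1_nb hn'] at hc
        have h1 := Sum.inr_injective hc
        have h2 : x.1 + t x.2 y.2 * (x.1 + y.1) = x.1 + t x.2 z.2 * (x.1 + z.1) :=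
          (Prod.mk.inj h1).1
        have h3 : h x.2 y.2 = h x.2 z.2 := (Prod.mk.inj h1).2
        have h4 : t x.2 y.2 * (x.1 + y.1) = t x.2 z.2 * (x.1 + z.1) := add_left_cancel h2
        have h5 : y.2 = z.2 := hh.inj _ _ _ hn.1 hn.2 hn'.1 hn'.2 h3
        rw [h5] at h4
        have h6 := mul_left_cancel₀ (ht.ne _ _) h4
        exact Prod.ext (add_left_cancel h6) h5
      · rw [rd1_nb hn, rd1_b hn'] at hc
        exact absurd hc (by simp)
    · by_cases hn' : NB μ x.2 z.2
      · rw [rd1_b hn, rd1_nb hn'] at hc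
        exact absurd hc (by simp)
      · rw [rd1_b hn, rd1_b hn'] at hc
        have h1 := Sum.inl_injective hc
        have h2 := ri _ _ _ (pt_ne hμ hL hy.symm hn).symm (pt_ne hμ hL hz.symm hn').symm h1
        have h3 : y.1 = z.1 := (Prod.mk.inj h2).1
        have h4 : side y.2 = side z.2 := (Prod.mk.inj h2).2
        refine Prod.ext h3 ?_
        have h5 : y.2 = x.2 ∨ y.2 = μ x.2 := by
          unfold NB at hn; tauto
        have h6 : z.2 = x.2 ∨ z.2 = μ x.2 := by
          unfold NB at hn'; tauto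
        rcases h5 with h5 | h5 <;> rcases h6 with h6 | h6
        · rw [h5, h6]
        · rw [h5, h6, hL.side_μ] at h4
          exact absurd h4.symm (zmod2_add_one_ne _)
        · rw [h5, h6, hL.side_μ] at h4
          exact absurd h4 (zmod2_add_one_ne _)
        · rw [h5, h6]

theorem isOrth_rd1 (P : Pack K Unit) (B : Blow S Unit) (hBg : B.g = g)
    (hBL : ∀ α j a, B.L α j a = L j a) (hBd : ∀ i j, B.dir i j)
    (hS : ∀ a j, S a j = 1 ∨ S a j = -1) (hμ : IsRB g μ) (hL : IsLam L μ side)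
    (o1 : ∀ j a j' a', NB μ j a → NB μ j' a' → g j a = g j' a' → h j a = h j' a' → SP j a j' a')
    (o2 : ∀ j a j' a', NB μ j a → NB μ j' a' → L j a = L j' a' → h j a = h j' a' → SP j a j' a')
    {t : J → J → K} (ht : IsTh P t)
    {rK : K × ZMod 2 → K × ZMod 2 → K × ZMod 2}
    (rm : ∀ b, b ≠ 0 → ∀ x x', rK x (x + b) = rK x' (x' + b) → x' = x ∨ x' = x + b) :
    IsOrth (B.G P) (rd1 h μ side t rK) := by
  intro x y x' y' hxy hxy' hg hr
  have hg' : B.bd P x.2 y.2 (x.1 + y.1) = B.bd P x'.2 y'.2 (x'.1 + y'.1) := hg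
  have hu := Blow.unit_ok hxy
  have hu' := Blow.unit_ok hxy'
  have hb := bd_cases' P B hBg hBL hBd x.2 y.2 (x.1 + y.1) hu
  have hb' := bd_cases' P B hBg hBL hBd x'.2 y'.2 (x'.1 + y'.1) hu'
  -- either both units are zero units, or both are regular
  have hkind : (x.1 + y.1 = 0 ∧ x'.1 + y'.1 = 0 ∧ g x.2 y.2 = g x'.2 y'.2 ∧ x.2 ≠ y.2 ∧
      x'.2 ≠ y'.2) ∨
      (x.1 + y.1 ≠ 0 ∧ x'.1 + y'.1 ≠ 0 ∧ L x.2 y.2 = L x'.2 y'.2 ∧
        B.amp P x.2 y.2 (x.1 + y.1) = B.amp P x'.2 y'.2 (x'.1 + y'.1)) := by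
    rcases hb with ⟨hw, hja, e⟩ | ⟨hw, e⟩ <;> rcases hb' with ⟨hw', hja', e'⟩ | ⟨hw', e'⟩
    · rw [e, e'] at hg'
      exact Or.inl ⟨hw, hw', (Prod.mk.inj hg').2, hja, hja'⟩
    · rw [e, e'] at hg'
      exact absurd (Prod.mk.inj hg').1.symm (B.amp_ne P _ _ hw')
    · rw [e, e'] at hg'
      exact absurd (Prod.mk.inj hg').1 (B.amp_ne P _ _ hw)
    · rw [e, e'] at hg'
      exact Or.inr ⟨hw, hw', (Prod.mk.inj hg').2, (Prod.mk.inj hg').1⟩
  by_cases hn : NB μ x.2 y.2
  · by_cases hn' : NB μ x'.2 y'.2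
    · rw [rd1_nb hn, rd1_nb hn'] at hr
      have h1 := Sum.inr_injective hr
      have h2 : x.1 + t x.2 y.2 * (x.1 + y.1) = x'.1 + t x'.2 y'.2 * (x'.1 + y'.1) :=
        (Prod.mk.inj h1).1
      have h3 : h x.2 y.2 = h x'.2 y'.2 := (Prod.mk.inj h1).2
      have h45 : SP x.2 y.2 x'.2 y'.2 ∧ x.1 + y.1 = x'.1 + y'.1 := by
        rcases hkind with ⟨hw, hw', e, -, -⟩ | ⟨hw, hw', e, ea⟩
        · exact ⟨o1 _ _ _ _ hn hn' e h3, hw.trans hw'.symm⟩
        · have hs := o2 _ _ _ _ hn hn' e h3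
          exact ⟨hs, amp_eq P B hBL hw hw' hs ea⟩
      obtain ⟨h4, h5⟩ := h45
      rcases h4 with ⟨h6, h7⟩ | ⟨h6, h7⟩
      · left
        rw [← h5, h6, h7] at h2
        exact Prod.ext (add_right_cancel h2).symm h6
      · right
        rw [← h5, h6, h7, ht.anti x.2 y.2 hn.1.symm] at h2
        refine Prod.ext ?_ h6
        have h8 : x'.1 = x.1 + (x.1 + y.1) := by
          linear_combination -h2 - add_self (x.1 + y.1)
        rw [h8, add_add_self]
    · rw [rd1_nb hn, rd1_b hn'] at hr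
      exact absurd hr (by simp)
  · by_cases hn' : NB μ x'.2 y'.2
    · rw [rd1_b hn, rd1_nb hn'] at hr
      exact absurd hr (by simp)
    · rw [rd1_b hn, rd1_b hn'] at hr
      have h1 := Sum.inl_injective hr
      have hn2 : y.2 = x.2 ∨ y.2 = μ x.2 := by
        unfold NB at hn; tauto
      have hn2' : y'.2 = x'.2 ∨ y'.2 = μ x'.2 := by
        unfold NB at hn'; tauto
      have hsame : ∀ (j : J) (w : K), B.amp P j j w = P.c () / w := by
        intro j w
        unfold Blow.amp Blow.num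
        rw [if_neg]
        intro hc
        rcases hS (B.cls P j j w) j with h1 | h1 <;> rw [h1] at hc <;> norm_num at hc
      -- the two units
      have h23 : x.1 + y.1 = x'.1 + y'.1 ∧
          ((y.2 = x.2 ∧ y'.2 = x'.2 ∧ (x'.2 = x.2 ∨ side x'.2 = side x.2 + 1)) ∨
          (y.2 = μ x.2 ∧ y'.2 = μ x'.2 ∧ (x'.2 = x.2 ∨ x'.2 = μ x.2))) := by
        rcases hkind with ⟨hw, hw', e, hja, hja'⟩ | ⟨hw, hw', e, ea⟩
        · have g1 : y.2 = μ x.2 := by
            rcases hn2 with g | g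
            · exact absurd g.symm hja
            · exact g
          have g2 : y'.2 = μ x'.2 := by
            rcases hn2' with g | g
            · exact absurd g.symm hja'
            · exact g
          rw [g1, g2] at e
          exact ⟨hw.trans hw'.symm, Or.inr ⟨g1, g2, hμ.rb _ _ e⟩⟩
        · rcases hn2 with g1 | g1 <;> rcases hn2' with g2 | g2
          · rw [g1, g2, hsame, hsame, div_eq_div_iff hw hw'] at ea
            refine ⟨(mul_left_cancel₀ (P.c_ne _) ea).symm, Or.inl ⟨g1, g2, ?_⟩⟩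
            rw [g1, g2] at e
            by_cases hj : x'.2 = x.2
            · exact Or.inl hj
            · exact Or.inr (hL.l1 _ _ e (fun hh => hj hh.symm))
          · rw [g1, g2] at e
            exact absurd e (hL.l3 _ _)
          · rw [g1, g2] at e
            exact absurd e.symm (hL.l3 _ _)
          · rw [g1, g2] at e
            have h8 := hL.l2 _ _ e
            refine ⟨?_, Or.inr ⟨g1, g2, h8⟩⟩
            refine amp_eq P B hBL hw hw' ?_ ea
            rcases h8 with h9 | h9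
            · left; exact ⟨h9, by rw [g1, g2, h9]⟩
            · right; exact ⟨by rw [g1, h9], by rw [g2, h9, hμ.inv]⟩
      obtain ⟨h2, h3⟩ := h23
      have key : ∀ e : ZMod 2, side y.2 = side x.2 + e → side y'.2 = side x'.2 + e →
          (x'.1, side x'.2) = (x.1, side x.2) ∨ (x'.1, side x'.2) = (y.1, side y.2) := by
        intro e he he'
        have h4 : (y.1, side y.2) = (x.1, side x.2) + (x.1 + y.1, e) := by
          refine Prod.ext ?_ he
          show y.1 = x.1 + (x.1 + y.1)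
          rw [add_add_self]
        have h5 : (y'.1, side y'.2) = (x'.1, side x'.2) + (x.1 + y.1, e) := by
          refine Prod.ext ?_ he'
          show y'.1 = x'.1 + (x.1 + y.1)
          rw [h2, add_add_self]
        have hb : (x.1 + y.1, e) ≠ (0 : K × ZMod 2) := by
          intro hc
          rw [hc, add_zero] at h4
          exact pt_ne hμ hL hxy hn h4.symm
        rw [h4, h5] at h1
        rw [h4]
        exact rm _ hb _ _ h1
      rcases h3 with ⟨h4, h5, h6⟩ | ⟨h4, h5, h6⟩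
      · have hk := key 0 (by rw [h4, add_zero]) (by rw [h5, add_zero])
        rcases hk with hk | hk
        · left
          have h7 : x'.1 = x.1 := (Prod.mk.inj hk).1
          have h8 : side x'.2 = side x.2 := (Prod.mk.inj hk).2
          rcases h6 with h6 | h6
          · exact Prod.ext h7 h6
          · rw [h6] at h8
            exact absurd h8 (zmod2_add_one_ne _)
        · right
          have h7 : x'.1 = y.1 := (Prod.mk.inj hk).1
          have h8 : side x'.2 = side y.2 := (Prod.mk.inj hk).2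
          rcases h6 with h6 | h6
          · exact Prod.ext h7 (h6.trans h4.symm)
          · rw [h6, h4] at h8
            exact absurd h8 (zmod2_add_one_ne _)
      · have hk := key 1 (by rw [h4, hL.side_μ]) (by rw [h5, hL.side_μ])
        rcases hk with hk | hk
        · left
          have h7 : x'.1 = x.1 := (Prod.mk.inj hk).1
          have h8 : side x'.2 = side x.2 := (Prod.mk.inj hk).2
          rcases h6 with h6 | h6
          · exact Prod.ext h7 h6
          · rw [h6, hL.side_μ] at h8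
            exact absurd h8 (zmod2_add_one_ne _)
        · right
          have h7 : x'.1 = y.1 := (Prod.mk.inj hk).1
          have h8 : side x'.2 = side y.2 := (Prod.mk.inj hk).2
          rcases h6 with h6 | h6
          · rw [h6, h4, hL.side_μ] at h8
            exact absurd h8.symm (zmod2_add_one_ne _)
          · exact Prod.ext h7 (h6.trans h4.symm)

end

/-- The product theorem. -/
theorem hasPD_prod {K A J X : Type} [Field K] [CharP K 2] [Fintype K] [Zero A]
    [Fintype A] [Fintype J] [Fintype X] (φ : K →+ ZMod 2) (b c θ : K) (hb : b ≠ 0)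
    (hφb : φ b = 0) (hφc : φ c = 1) (hθ : θ ≠ 0) (hθ1 : θ ≠ 1) (n : ℕ)
    (hA : Fintype.card A = n) (hJ : Fintype.card J = n) (hX : Fintype.card X + 2 = n)
    {S : A → J → ℤ} (hS : IsH S) {g : J → J → A} (hg : IsOF g) (hsp : IsSplit S g)
    {μ : J → J} (hμ : IsRB g μ) {L : J → J → A} {side : J → ZMod 2} (hL : IsLam L μ side)
    {h : J → J → X} (hh : IsHC h μ)
    (o1 : ∀ j a j' a', NB μ j a → NB μ j' a' → g j a = g j' a' → h j a = h j' a' → SP j a j' a')
    (o2 : ∀ j a j' a', NB μ j a → NB μ j' a' → L j a = L j' a' → h j a = h j' a' → SP j a j' a')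
    (hm : Mate (K × ZMod 2)) : HasPD (Fintype.card K * n) := by
  classical
  obtain ⟨rK, r0, rs, ri, rm⟩ := hm
  obtain ⟨B, hBg, hBL, hBd⟩ := exists_T (hA.trans hJ.symm) hg hsp hL
  have hθ' : 1 + θ ≠ 0 := fun hc => hθ1 (eq_of_add_eq_zero hc).symm
  let P : Pack K Unit := pack1 φ b c θ hb hφb hφc hθ hθ'
  obtain ⟨t, ht⟩ := exists_th (J := J) P
  refine ⟨K × A, K × J, (K × ZMod 2) ⊕ (K × X), inferInstance, zM1 K X, inferInstance,
    inferInstance, inferInstance, tens P.φ S, B.G P, rd1 h μ side t rK, ?_, ?_, ?_,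
    isH_tens P.φ (P.c 1) (P.φ_c 1) hS, B.isOF_G P, isOF_rd1 P hμ hL hh ht r0 rs ri,
    B.isSplit_G P hS.sign, isOrth_rd1 P B hBg hBL hBd hS.sign hμ hL o1 o2 ht rm⟩
  · rw [Fintype.card_prod, hA]
  · rw [Fintype.card_prod, hJ]
  · rw [Fintype.card_sum, Fintype.card_prod, Fintype.card_prod, ZMod.card, ← hX]
    ring

end Pool.Agent.Lib.MP_db622c_co.CB
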