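import Pool.Agent.Lib.MP_db622c_co.CB.BaseOF

/-!
# CB-ToCBHR: orthogonal one-factorizations with signs are complete balanced Howell rotations
-/

namespace Pool.Agent.Lib.MP_db622c_co.CB

open Pool.Agent.Lib.MP_db622c_co

theorem hasCBHR_of_hasPD (n : ℕ) (hn : 0 < n) (h4 : n % 4 = 0) (h : HasPD n) : HasCBHR n := by
  classical
  obtain ⟨A, J, M, _, _, _, _, _, S, g, r, hA, hJ, hM, hS, hg, hr, hs, ho⟩ := h
  have hex : ∀ (b : {a : A // a ≠ 0}) (j : J), ∃ k, k ≠ j ∧ g j k = b.1 :=
    fun b j => hg.exists_partner (hA.trans hJ.symm) j b.1 b.2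
  choose pt hpt using hex
  have hB : Fintype.card {a : A // a ≠ 0} = n - 1 := by
    rw [Fintype.card_subtype_compl, Fintype.card_subtype_eq, hA]
  have hN : Fintype.card {a : M // a ≠ 0} = n - 1 := by
    rw [Fintype.card_subtype_compl, Fintype.card_subtype_eq, hM]
  have huniq : ∀ (b : {a : A // a ≠ 0}) (j k : J), k ≠ j → g j k = b.1 → pt b j = k := by
    intro b j k hkj hk
    exact hg.inj j _ _ (hpt b j).1 hkj ((hpt b j).2.trans hk.symm)
  let lam : Option {a : A // a ≠ 0} → A := fun o => match o with
    | none => 0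
    | some b => b.1
  have hlam : Function.Injective lam := by
    intro o o' hoo
    rcases o with _ | b <;> rcases o' with _ | b'
    · rfl
    · exact absurd hoo.symm b'.2
    · exact absurd hoo b.2
    · exact congrArg some (Subtype.ext hoo)
  have hH : ∀ (o : Option {a : A // a ≠ 0}) (x : J),
      appendOnes (fun (b : {a : A // a ≠ 0}) x => S b.1 x) o x = S (lam o) x := by
    intro o x
    rcases o with _ | b
    · simp [appendOnes, lam, hS.one]
    · rfl
  have hsq : ∀ (a : A) (j : J), S a j * S a j = 1 := by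
    intro a j
    rcases hS.sign a j with h | h <;> simp [h]
  have key : IsCBHR (fun (b : {a : A // a ≠ 0}) (j : J) =>
      (⟨r j (pt b j), hr.ne _ _ (hpt b j).1.symm⟩ : {a : M // a ≠ 0}))
      (fun b j => S b.1 j) := by
    refine ⟨fun b j => hS.sign _ _, ?_, ?_, ?_⟩
    · ext o o'
      rw [Matrix.mul_apply]
      have h1 : ∀ x, appendOnes (fun (b : {a : A // a ≠ 0}) x => S b.1 x) o x
          * (appendOnes (fun (b : {a : A // a ≠ 0}) x => S b.1 x)).transpose x o'
          = S (lam o) x * S (lam o') x := by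
        intro x
        rw [Matrix.transpose_apply, hH, hH]
      rw [Finset.sum_congr rfl (fun x _ => h1 x)]
      by_cases hoo : o = o'
      · subst hoo
        simp [hsq, Matrix.smul_apply]
      · rw [hS.orth _ _ (fun hc => hoo (hlam hc))]
        simp [Matrix.smul_apply, hoo]
    · intro j
      have hinj : Function.Injective (fun b : {a : A // a ≠ 0} =>
          (⟨r j (pt b j), hr.ne _ _ (hpt b j).1.symm⟩ : {a : M // a ≠ 0})) := by
        intro b b' hbb
        have h1 : r j (pt b j) = r j (pt b' j) := congrArg Subtype.val hbb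
        have h2 := hr.inj j _ _ (hpt b j).1 (hpt b' j).1 h1
        apply Subtype.ext
        rw [← (hpt b j).2, ← (hpt b' j).2, h2]
      rw [Fintype.bijective_iff_injective_and_card]
      exact ⟨hinj, by rw [hB, hN]⟩
    · intro j k hjk
      have hne : g j k ≠ 0 := hg.ne j k hjk
      have key2 : ∀ b : {a : A // a ≠ 0}, r j (pt b j) = r k (pt b k) → k = pt b j := by
        intro b hb
        rcases ho j (pt b j) k (pt b k) (hpt b j).1.symm (hpt b k).1.symm
          ((hpt b j).2.trans (hpt b k).2.symm) hb with h1 | h1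
        · exact absurd h1.symm hjk
        · exact h1
      refine ⟨⟨⟨g j k, hne⟩, ?_, ?_⟩, ?_⟩
      · apply Subtype.ext
        show r j (pt ⟨g j k, hne⟩ j) = r k (pt ⟨g j k, hne⟩ k)
        rw [huniq ⟨g j k, hne⟩ j k hjk.symm rfl, huniq ⟨g j k, hne⟩ k j hjk (hg.symm k j), hr.symm]
      · intro b hb
        have h1 := key2 b (congrArg Subtype.val hb)
        apply Subtype.ext
        show b.1 = g j k
        rw [h1, (hpt b j).2]
      · intro b hb
        have h1 := key2 b (congrArg Subtype.val hb)
        have h2 := hs j k hjk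
        have h3 : g j k = b.1 := by rw [h1, (hpt b j).2]
        rw [h3] at h2
        show S b.1 j = - S b.1 k
        rw [h2, neg_neg]
  exact HasCBHR.of_types key n hn h4 hJ hB hN

end Pool.Agent.Lib.MP_db622c_co.CB
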