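import Pool.Agent.Lib.MP_db622c_co.CB.PaleyBase
import Pool.Agent.Lib.MP_db622c_co.CB.Prod
import Pool.Agent.Lib.MP_db622c_co.CB.ToCBHR
import Pool.Agent.Lib.MP_db622c_co.CB.QuadEx

/-!
# CB-PaleyBase2: complete balanced Howell rotations on `2 ^ e * (q + 1)` partnerships
-/

namespace Pool.Agent.Lib.MP_db622c_co.CB

open Pool.Agent.Lib.MP_db622c_co

variable {F : Type} [Field F] [Fintype F] [DecidableEq F]

/-- the classes of the starter `{z, ρ z}`, `z` a square -/
noncomputable def rP (ρ : F) : Option F → Option F → F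
  | none, none => 0
  | none, some x => x
  | some x, none => x
  | some x, some y => if quadraticChar F ((y - x) / (ρ - 1)) = 1 then (y - ρ * x) / (1 - ρ)
      else (x - ρ * y) / (1 - ρ)

section

variable {ρ : F} (hρ : (quadraticChar F ρ : ℤ) = (-1 : ℤ))

include hρ

theorem rho_ne_one : ρ ≠ 1 := by
  intro h
  rw [h, map_one] at hρ
  norm_num at hρ

/-- the form of a pair -/
theorem pair_form (h3 : Fintype.card F % 4 = 3) (p q : Option F) (hpq : p ≠ q) :
    (∃ z t : F, quadraticChar F z = 1 ∧ z ≠ 0 ∧ rP ρ p q = t ∧ gP p q = some ((1 + ρ) * z / 2 + t) ∧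
      ((p = some (z + t) ∧ q = some (ρ * z + t)) ∨ (q = some (z + t) ∧ p = some (ρ * z + t)))) ∨
    (∃ x : F, rP ρ p q = x ∧ gP p q = some x ∧
      ((p = none ∧ q = some x) ∨ (q = none ∧ p = some x))) := by
  have h2 := pb_two h3
  have h1 := rho_ne_one hρ
  have h1' : ρ - 1 ≠ 0 := sub_ne_zero.2 h1
  have h1'' : 1 - ρ ≠ 0 := sub_ne_zero.2 (Ne.symm h1)
  rcases p with _ | x <;> rcases q with _ | y
  · exact absurd rfl hpq
  · exact Or.inr ⟨y, rfl, rfl, Or.inl ⟨rfl, rfl⟩⟩
  · exact Or.inr ⟨x, rfl, rfl, Or.inr ⟨rfl, rfl⟩⟩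
  · left
    have hxy : y - x ≠ 0 := fun h => hpq (congrArg some (sub_eq_zero.1 h).symm)
    have hz : (y - x) / (ρ - 1) ≠ 0 := div_ne_zero hxy h1'
    by_cases h : quadraticChar F ((y - x) / (ρ - 1)) = 1
    · refine ⟨(y - x) / (ρ - 1), (y - ρ * x) / (1 - ρ), h, hz, ?_, ?_, Or.inl ⟨?_, ?_⟩⟩
      · show (if quadraticChar F ((y - x) / (ρ - 1)) = 1 then (y - ρ * x) / (1 - ρ)
          else (x - ρ * y) / (1 - ρ)) = _
        rw [if_pos h]
      · show some ((x + y) / 2) = _
        congr 1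
        field_simp
        ring
      · congr 1
        field_simp
        ring
      · congr 1
        field_simp
        ring
    · have h' : quadraticChar F ((x - y) / (ρ - 1)) = 1 := by
        rcases quadraticChar_dichotomy hz with h4 | h4
        · exact absurd h4 h
        · have h5 : (x - y) / (ρ - 1) = - ((y - x) / (ρ - 1)) := by ring
          rw [h5, pb_chi_neg h3, h4]
          norm_num
      have hz' : (x - y) / (ρ - 1) ≠ 0 := by
        have h5 : (x - y) / (ρ - 1) = - ((y - x) / (ρ - 1)) := by ring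
        rw [h5]; exact neg_ne_zero.2 hz
      refine ⟨(x - y) / (ρ - 1), (x - ρ * y) / (1 - ρ), h', hz', ?_, ?_, Or.inr ⟨?_, ?_⟩⟩
      · show (if quadraticChar F ((y - x) / (ρ - 1)) = 1 then (y - ρ * x) / (1 - ρ)
          else (x - ρ * y) / (1 - ρ)) = _
        rw [if_neg h]
      · show some ((x + y) / 2) = _
        congr 1
        field_simp
        ring
      · congr 1
        field_simp
        ring
      · congr 1
        field_simp
        ring

/-- the pair is determined by one end and the class -/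
theorem rP_eq (h3 : Fintype.card F % 4 = 3) (p q : Option F) (hpq : p ≠ q) :
    q = Option.map (· + rP ρ p q) (muP ρ (Option.map (· - rP ρ p q) p)) := by
  have h0 := rho_ne hρ
  rcases pair_form hρ h3 p q hpq with ⟨z, t, hz, hz0, ht, -, ⟨h1, h2⟩ | ⟨h1, h2⟩⟩ |
    ⟨x, hx, -, ⟨h1, h2⟩ | ⟨h1, h2⟩⟩
  · rw [ht, h1, h2, Option.map_some, add_sub_cancel_right, muP_sq hρ hz0 hz, Option.map_some]
  · rw [ht, h1, h2, Option.map_some, add_sub_cancel_right, muP_nsq hρ (mul_ne_zero h0 hz0)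
      (by rw [map_mul, hρ, hz]; norm_num), inv_mul_cancel_left₀ h0, Option.map_some]
  · rw [hx, h1, h2, Option.map_none]
    show some x = Option.map (· + x) (some 0)
    rw [Option.map_some, zero_add]
  · rw [hx, h1, h2, Option.map_some, sub_self, muP_zero hρ, Option.map_none]

theorem rP_symm (h3 : Fintype.card F % 4 = 3) (p q : Option F) : rP ρ p q = rP ρ q p := by
  by_cases hpq : p = q
  · rw [hpq]
  have h1 := rho_ne_one hρ
  have h1' : ρ - 1 ≠ 0 := sub_ne_zero.2 h1
  rcases p with _ | x <;> rcases q with _ | y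
  · rfl
  · rfl
  · rfl
  · have hxy : y - x ≠ 0 := fun h => hpq (congrArg some (sub_eq_zero.1 h).symm)
    have hz : (y - x) / (ρ - 1) ≠ 0 := div_ne_zero hxy h1'
    have h5 : (x - y) / (ρ - 1) = - ((y - x) / (ρ - 1)) := by ring
    have h6 : quadraticChar F ((x - y) / (ρ - 1)) = - quadraticChar F ((y - x) / (ρ - 1)) := by
      rw [h5, pb_chi_neg h3]
    show (if quadraticChar F ((y - x) / (ρ - 1)) = 1 then (y - ρ * x) / (1 - ρ) else (x - ρ * y) / (1 - ρ)) =
      (if quadraticChar F ((x - y) / (ρ - 1)) = 1 then (x - ρ * y) / (1 - ρ) else (y - ρ * x) / (1 - ρ))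
    rw [h6]
    rcases quadraticChar_dichotomy hz with h | h
    · rw [h, if_pos rfl, if_neg (by norm_num)]
    · rw [h, if_neg (by norm_num), if_pos (by norm_num)]

theorem rP_nz (h3 : Fintype.card F % 4 = 3) {j a : Option F} (h : NB (muP ρ) j a) :
    rP ρ j a ≠ 0 := by
  intro h0
  have h1 := rP_eq hρ h3 j a h.1.symm
  rw [h0] at h1
  have h2 : Option.map (fun x : F => x - 0) j = j := by
    rcases j with _ | x
    · rfl
    · simp
  have h4 : ∀ p : Option F, Option.map (fun x : F => x + 0) p = p := by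
    intro p
    rcases p with _ | x
    · rfl
    · simp
  rw [h2, h4] at h1
  exact h.2 h1

/-- the one-factorization of the rounds, without the class `0` -/
noncomputable def hP (ρ : F) (j a : Option F) : {x : F // x ≠ 0} :=
  if hx : rP ρ j a ≠ 0 then ⟨rP ρ j a, hx⟩ else ⟨1, one_ne_zero⟩

omit hρ in
theorem hP_val {j a : Option F} (h : rP ρ j a ≠ 0) : (hP ρ j a).1 = rP ρ j a := by
  unfold hP
  rw [dif_pos h]

theorem isHC_hP (h3 : Fintype.card F % 4 = 3) : IsHC (hP ρ) (muP ρ) := by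
  refine ⟨?_, ?_⟩
  · intro j k
    unfold hP
    simp only [rP_symm hρ h3 j k]
  · intro j a b ha ha' hb hb' h
    have h1 := rP_nz hρ h3 (⟨ha, ha'⟩ : NB (muP ρ) j a)
    have h2 := rP_nz hρ h3 (⟨hb, hb'⟩ : NB (muP ρ) j b)
    have h4 : rP ρ j a = rP ρ j b := by
      rw [← hP_val h1, ← hP_val h2, h]
    rw [rP_eq hρ h3 j a (Ne.symm ha), rP_eq hρ h3 j b (Ne.symm hb), h4]

theorem orth_gr (h3 : Fintype.card F % 4 = 3) (hρ1 : 1 + ρ ≠ 0) (j a j' a' : Option F)
    (hja : j ≠ a) (hja' : j' ≠ a') (hg : gP j a = gP j' a') (hr : rP ρ j a = rP ρ j' a') :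
    SP j a j' a' := by
  have h2 := pb_two h3
  rcases pair_form hρ h3 j a hja with ⟨z, t, -, hz0, ht, hgt, hp⟩ | ⟨x, hx, hgx, hp⟩
  · rcases pair_form hρ h3 j' a' hja' with ⟨z', t', -, hz0', ht', hgt', hp'⟩ | ⟨x', hx', hgx', hp'⟩
    · have e1 : t = t' := by rw [← ht, ← ht', hr]
      subst e1
      rw [hgt, hgt'] at hg
      have e2 : (1 + ρ) * z / 2 + t = (1 + ρ) * z' / 2 + t := Option.some_injective _ hg
      have e3 : (1 + ρ) * z / 2 = (1 + ρ) * z' / 2 := add_right_cancel e2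
      rw [div_left_inj' h2] at e3
      have e4 : z = z' := mul_left_cancel₀ hρ1 e3
      subst e4
      rcases hp with ⟨p1, p2⟩ | ⟨p1, p2⟩ <;> rcases hp' with ⟨q1, q2⟩ | ⟨q1, q2⟩
      · left; exact ⟨by rw [p1, q1], by rw [p2, q2]⟩
      · right; exact ⟨by rw [p2, q2], by rw [p1, q1]⟩
      · right; exact ⟨by rw [p1, q1], by rw [p2, q2]⟩
      · left; exact ⟨by rw [p2, q2], by rw [p1, q1]⟩
    · exfalso
      have e1 : t = x' := by rw [← ht, ← hx', hr]
      rw [hgt, hgx', ← e1] at hg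
      have e2 : (1 + ρ) * z / 2 + t = t := Option.some_injective _ hg
      have e3 : (1 + ρ) * z / 2 = 0 := by linear_combination e2
      rw [div_eq_zero_iff] at e3
      rcases e3 with e3 | e3
      · rcases mul_eq_zero.1 e3 with e4 | e4
        · exact hρ1 e4
        · exact hz0 e4
      · exact h2 e3
  · rcases pair_form hρ h3 j' a' hja' with ⟨z', t', -, hz0', ht', hgt', hp'⟩ | ⟨x', hx', hgx', hp'⟩
    · exfalso
      have e1 : x = t' := by rw [← hx, ← ht', hr]
      rw [hgx, hgt', e1] at hg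
      have e2 : t' = (1 + ρ) * z' / 2 + t' := Option.some_injective _ hg
      have e3 : (1 + ρ) * z' / 2 = 0 := by linear_combination -e2
      rw [div_eq_zero_iff] at e3
      rcases e3 with e3 | e3
      · rcases mul_eq_zero.1 e3 with e4 | e4
        · exact hρ1 e4
        · exact hz0' e4
      · exact h2 e3
    · have e1 : x = x' := by rw [← hx, ← hx', hr]
      subst e1
      rcases hp with ⟨p1, p2⟩ | ⟨p1, p2⟩ <;> rcases hp' with ⟨q1, q2⟩ | ⟨q1, q2⟩
      · left; exact ⟨by rw [p1, q1], by rw [p2, q2]⟩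
      · right; exact ⟨by rw [p2, q2], by rw [p1, q1]⟩
      · right; exact ⟨by rw [p1, q1], by rw [p2, q2]⟩
      · left; exact ⟨by rw [p2, q2], by rw [p1, q1]⟩

/-- on the edges of the second perfect matching the two classes are proportional -/
theorem gP_nu (h3 : Fintype.card F % 4 = 3) (p : Option F) :
    gP p (muP ρ⁻¹ p) = some (rP ρ p (muP ρ⁻¹ p) / 2) := by
  have h0 := rho_ne hρ
  have hi := chi_inv hρ
  have h1 := rho_ne_one hρ
  have h1' : ρ - 1 ≠ 0 := sub_ne_zero.2 h1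
  have h1'' : 1 - ρ ≠ 0 := sub_ne_zero.2 (Ne.symm h1)
  rcases p with _ | x
  · show some (0 : F) = some (0 / 2)
    rw [zero_div]
  · by_cases hx : x = 0
    · rw [hx, muP_zero hi]
      show some (0 : F) = some (0 / 2)
      rw [zero_div]
    · rcases quadraticChar_dichotomy hx with h | h
      · rw [muP_sq hi hx h]
        show some ((x + ρ⁻¹ * x) / 2) = some ((if quadraticChar F ((ρ⁻¹ * x - x) / (ρ - 1)) = 1 then
          (ρ⁻¹ * x - ρ * x) / (1 - ρ) else (x - ρ * (ρ⁻¹ * x)) / (1 - ρ)) / 2)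
        have e1 : (ρ⁻¹ * x - x) / (ρ - 1) = - (ρ⁻¹ * x) := by
          field_simp
          ring
        rw [e1, pb_chi_neg h3, map_mul, hi, h, if_pos (by norm_num)]
        congr 2
        field_simp
        ring
      · rw [muP_nsq hi hx h, inv_inv]
        show some ((x + ρ * x) / 2) = some ((if quadraticChar F ((ρ * x - x) / (ρ - 1)) = 1 then
          (ρ * x - ρ * x) / (1 - ρ) else (x - ρ * (ρ * x)) / (1 - ρ)) / 2)
        have e1 : (ρ * x - x) / (ρ - 1) = x := by
          field_simp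
        rw [e1, h, if_neg (by norm_num)]
        congr 2
        field_simp
        ring

theorem isLam_P (h3 : Fintype.card F % 4 = 3) (hρ1 : 1 + ρ ≠ 0) :
    IsLam (Lsw gP (muP ρ⁻¹)) (muP ρ) (sdP (F := F)) := by
  have h0 := rho_ne hρ
  have h2 := pb_two h3
  have hi := chi_inv hρ
  have hi1 : 1 + ρ⁻¹ ≠ 0 := by
    intro h
    apply hρ1
    have h4 : ρ * (1 + ρ⁻¹) = 0 := by rw [h, mul_zero]
    rw [mul_add, mul_one, mul_inv_cancel₀ h0] at h4
    rw [add_comm]; exact h4
  refine isLam_Lsw (isOF_gP h3) (isRB_muP hρ h3 hρ1) (isRB_muP hi h3 hi1) (sdP_muP hρ)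
    (sdP_muP hi) none rfl ?_ ?_
  · intro p q hpq
    obtain ⟨z, hz, hz'⟩ := muP_key hi p
    obtain ⟨w, hw, hw'⟩ := muP_key hρ q
    rw [hz, hw] at hpq
    have e1 : (1 + ρ⁻¹) * z / 2 = (1 + ρ) * w / 2 := Option.some_injective _ hpq
    rw [div_left_inj' h2] at e1
    have e2 : w = ρ⁻¹ * z := by
      apply mul_left_cancel₀ hρ1
      rw [← e1]
      field_simp
      ring
    rcases hw' with ⟨-, hw'⟩ | ⟨hw0, hws, -⟩
    · rcases hw' with h | h
      · exact Or.inl h
      · exact Or.inr h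
    · exfalso
      rcases hz' with ⟨hz0, -⟩ | ⟨-, hzs, -⟩
      · rw [hz0, mul_zero] at e2
        exact hw0 e2
      · rw [e2, map_mul, hi, hzs] at hws
        norm_num at hws
  · intro c hc
    rcases c with _ | v
    · exact absurd rfl hc
    · by_cases hy : 2 * v / (1 + ρ) = 0
      · left
        refine ⟨none, ?_⟩
        show some (0 : F) = some v
        rw [div_eq_zero_iff] at hy
        rcases hy with hy | hy
        · rcases mul_eq_zero.1 hy with h | h
          · exact absurd h h2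
          · rw [h]
        · exact absurd hy hρ1
      · rcases quadraticChar_dichotomy hy with h | h
        · right
          refine ⟨some (2 * v / (1 + ρ)), ?_⟩
          rw [gP_muP_sq hρ hy h]
          congr 1
          field_simp
        · left
          refine ⟨some (2 * v / (1 + ρ)), ?_⟩
          rw [gP_muP_nsq hi hy h, inv_inv]
          congr 1
          field_simp
          ring

theorem orth_Lr (h3 : Fintype.card F % 4 = 3) (hρ1 : 1 + ρ ≠ 0) (j a j' a' : Option F)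
    (hn : NB (muP ρ) j a) (hn' : NB (muP ρ) j' a')
    (hg : Lsw gP (muP ρ⁻¹) j a = Lsw gP (muP ρ⁻¹) j' a') (hr : rP ρ j a = rP ρ j' a') :
    SP j a j' a' := by
  have hi := chi_inv hρ
  have h0 := rho_ne hρ
  have hi1 : 1 + ρ⁻¹ ≠ 0 := by
    intro h
    apply hρ1
    have h4 : ρ * (1 + ρ⁻¹) = 0 := by rw [h, mul_zero]
    rw [mul_add, mul_one, mul_inv_cancel₀ h0] at h4
    rw [add_comm]; exact h4
  have hν := isRB_muP hi h3 hi1
  by_cases h1 : a = muP ρ⁻¹ j <;> by_cases h1' : a' = muP ρ⁻¹ j'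
  · rw [h1, h1'] at hr
    have e1 : gP j (muP ρ⁻¹ j) = gP j' (muP ρ⁻¹ j') := by
      rw [gP_nu hρ h3, gP_nu hρ h3, hr]
    rcases hν.rb j j' e1 with e2 | e2
    · left; exact ⟨e2, by rw [h1, h1', e2]⟩
    · right; exact ⟨by rw [h1, e2], by rw [h1', e2, hν.inv]⟩
  · rw [h1, Lsw_sw hν, Lsw_off hn'.1 h1'] at hg
    exact absurd hg.symm ((isOF_gP h3).ne _ _ (Ne.symm hn'.1))
  · rw [h1', Lsw_sw hν, Lsw_off hn.1 h1] at hg
    exact absurd hg ((isOF_gP h3).ne _ _ (Ne.symm hn.1))
  · rw [Lsw_off hn.1 h1, Lsw_off hn'.1 h1'] at hg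
    exact orth_gr hρ h3 hρ1 j a j' a' (Ne.symm hn.1) (Ne.symm hn'.1) hg hr

end

/-- a non-square `ρ ≠ -1` -/
theorem exists_rho (h3 : Fintype.card F % 4 = 3) (h7 : 7 ≤ Fintype.card F) :
    ∃ ρ : F, (quadraticChar F ρ : ℤ) = (-1 : ℤ) ∧ 1 + ρ ≠ 0 := by
  -- `y` with `y ≠ 0, 1, -1`
  have h1 : ({0, 1, -1} : Finset F).card < (Finset.univ : Finset F).card := by
    rw [Finset.card_univ]
    refine lt_of_le_of_lt (Finset.card_le_three) (by omega)
  obtain ⟨y, -, hy⟩ := Finset.exists_mem_notMem_of_card_lt_card h1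
  simp only [Finset.mem_insert, Finset.mem_singleton, not_or] at hy
  obtain ⟨hy0, hy1, hy2⟩ := hy
  refine ⟨- y ^ 2, ?_, ?_⟩
  · rw [pb_chi_neg h3, quadraticChar_sq_one' hy0]
  · intro h
    have h4 : (y - 1) * (y + 1) = 0 := by linear_combination -h
    rcases mul_eq_zero.1 h4 with h5 | h5
    · exact hy1 (sub_eq_zero.1 h5)
    · exact hy2 (eq_neg_of_add_eq_zero_left h5)

/-- the order `2 ^ e * (card F + 1)` -/
theorem hasPD_paley (h3 : Fintype.card F % 4 = 3) (h7 : 7 ≤ Fintype.card F) (e : ℕ) (he : 2 ≤ e)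
    (hm : ∀ (K : Type) [Field K] [CharP K 2] [Fintype K], Fintype.card K = 2 ^ e →
      Mate (K × ZMod 2)) :
    HasPD (2 ^ e * (Fintype.card F + 1)) := by
  obtain ⟨ρ, hρ, hρ1⟩ := exists_rho h3 h7
  obtain ⟨K, _, _, _, φ, c, hK, hc0, hc1, hφ1, hφc⟩ := exists_func e he
  have h1 := hasPD_prod (A := PA F) (J := Option F) (X := {x : F // x ≠ 0}) φ 1 c c one_ne_zero
    hφ1 hφc hc0 hc1 (Fintype.card F + 1) Fintype.card_option Fintype.card_option
    (by
      rw [Fintype.card_subtype_compl, Fintype.card_subtype_eq]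
      omega)
    (isH_SP' h3) (isOF_gP h3) (isSplit_gP h3) (isRB_muP hρ h3 hρ1) (isLam_P hρ h3 hρ1)
    (isHC_hP hρ h3)
    (by
      intro j a j' a' hn hn' hg hh
      refine orth_gr hρ h3 hρ1 j a j' a' (Ne.symm hn.1) (Ne.symm hn'.1) hg ?_
      rw [← hP_val (rP_nz hρ h3 hn), ← hP_val (rP_nz hρ h3 hn'), hh])
    (by
      intro j a j' a' hn hn' hg hh
      refine orth_Lr hρ h3 hρ1 j a j' a' hn hn' hg ?_
      rw [← hP_val (rP_nz hρ h3 hn), ← hP_val (rP_nz hρ h3 hn'), hh])
    (hm K hK)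
  rw [hK] at h1
  exact h1

end Pool.Agent.Lib.MP_db622c_co.CB
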