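import Pool.Agent.Lib.MP_db622c_co.CB.Rank

/-!
# CB-SchedEx: existence of a schedule

PROOF.  Let `n2 = 2 k` (even, `≥ 2`) and `Z = ZMod (2 k)`; there is the ring homomorphism
`par = ZMod.castHom (2 ∣ 2 k) (ZMod 2) : Z →+* ZMod 2`.
`r` from `rank_lam`, `t` from `rank_of`; `R j a = 2 * (r j a : Z)`, `τ j a = (t j a : Z)`.
* `par (R j a) = 0`; for `NB` pairs in the same class of `L`, `R j a = R j' a'` implies `SP`
  (`2 r < 2 k` as naturals, so `2 r = 2 r'`);
* `τ` is injective on the pairs of a class of `g` (`t < k + 1 ≤ 2 k`).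
`V`: `card V = 2 k * card (Sym2 J) + v` with `v` odd, `v ≥ 2 k` (`card V` is odd), so there is
a bijection `e : V ≃ (Sym2 J × Z) ⊕ ZMod v` (or `Fin v`).
For `p : Sym2 J` choose a permutation `ζ p` of `Z` such that for all `j a` with `p = s(j, a)`:
`ζ p (R j a) = τ j a`, and `τ j a ≠ h j a → ζ p (R j a + 1) = h j a` (well defined by the symmetry of
`R, τ, h`; `R ≠ R + 1`, as `par` differs; two prescribed values of a permutation: compose swaps), and
a permutation `ρ' p` of `A` with `ρ' p (L j a) = g j a` (`Equiv.swap (L j a) (g j a)`).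
For a pair `j, a` (symmetric in `j, a`):
* if not `NB μ j a` and not `NB μ a j` (these are equivalent): `σ j a = 1`;
* if `NB μ j a`: `σ j a` maps (under `e`) `(p, z)` to `(p, z + ζ p (R j a) - h j a)` and
  `α : ZMod v` to `α + s`, `s = ((R j a - h j a).val : ℕ) < 2 k`.
`δ (p, z) = z`, `δ α = (α.val : Z)` for `α : ZMod v`.  `al j a = (s(j, a), 0)`,
`ρ (p, z) = ρ' p`, `ρ α = 1`.
`s1`, group `p`: the round class of `j, a` at `(p, z)` is `z + ζ p (R j a)`; injective on a class of
`L`.  `s1`, group `ZMod v`: `(α + s).val = α.val + s - v * ε` with `ε ∈ {0, 1}` (as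
`α.val < v`, `s < 2 k ≤ v`), so the round class is `α.val + R j a - v ε` in `Z`.  Equality for
`j, a` and `j', a'`: apply `par`: `v ε = v ε'` in `ZMod 2`, `v` odd, so `ε = ε'`, so
`R j a = R j' a'`, so `SP`.
`s2`: at `al j a` the round class of `j', a'` is `ζ p (R j' a')`, `p = s(j, a)`.  Suppose it is
`h j a`.  If `τ j a ≠ h j a`, then `R j' a' = R j a + 1`, impossible by `par`.  If
`τ j a = h j a`, then `ζ p (R j a) = h j a`, so `R j' a' = R j a`, so `SP` (same class of `L`).
`s3`: the round class of `j, a` at `al j a` is `ζ p (R j a) = τ j a`.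
`al_inj`: `s(j, a) = s(j', a')` (`Sym2.eq_iff`).
-/

namespace Pool.Agent.Lib.MP_db622c_co.CB

open Pool.Agent.Lib.MP_db622c_co

private theorem exists_perm_two {Z : Type*} [DecidableEq Z] (x x' y u : Z) (hx : x ≠ x') :
    ∃ ζ : Equiv.Perm Z, ζ x = y ∧ (y ≠ u → ζ x' = u) := by
  by_cases hyu : y = u
  · exact ⟨Equiv.swap x y, Equiv.swap_apply_left x y, fun h => absurd hyu h⟩
  · refine ⟨Equiv.swap (Equiv.swap x y x') u * Equiv.swap x y, ?_, fun _ => ?_⟩
    · rw [Equiv.Perm.mul_apply, Equiv.swap_apply_left]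
      apply Equiv.swap_apply_of_ne_of_ne _ hyu
      intro h
      apply hx
      apply (Equiv.swap x y).injective
      rw [Equiv.swap_apply_left]
      exact h
    · rw [Equiv.Perm.mul_apply, Equiv.swap_apply_left]

private theorem SP_of_sym2 {J : Type*} {j a j' a' : J} (h : s(j, a) = s(j', a')) :
    SP j a j' a' := by
  rcases Sym2.eq_iff.1 h with ⟨h1, h2⟩ | ⟨h1, h2⟩
  · exact Or.inl ⟨h1.symm, h2.symm⟩
  · exact Or.inr ⟨h2.symm, h1.symm⟩

private theorem sched_NB_symm {J : Type*} {μ : J → J} (hμ : ∀ j, μ (μ j) = j) {j a : J}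
    (h : NB μ j a) : NB μ a j := by
  refine ⟨h.1.symm, fun hh => h.2 ?_⟩
  rw [hh, hμ]

theorem exists_sched {A J : Type*} [Zero A] [Fintype A] [Fintype J] (V : Type*) [Fintype V]
    (k : ℕ) (hk : 1 ≤ k)
    (hA : Fintype.card A = 2 * k + 2) (hJ : Fintype.card J = 2 * k + 2)
    {L g : J → J → A} {μ : J → J} {side : J → ZMod 2} {h : J → J → ZMod (2 * k)}
    (hμ : ∀ j, μ (μ j) = j) (hL : IsLam L μ side) (hg : IsOF g) (hh : IsHC h μ)
    (hV : Odd (Fintype.card V))
    (hV2 : 2 * k * (Fintype.card (Sym2 J) + 1) ≤ Fintype.card V) :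
    Nonempty (Sched V k μ L g h) := by
  classical
  obtain ⟨r, r_symm, r_lt, r_inj⟩ := rank_lam k hA hJ hμ hL
  obtain ⟨t, t_symm, t_lt, t_inj⟩ := rank_of k hA hJ hg
  haveI : NeZero (2 * k) := ⟨by omega⟩
  obtain ⟨v, hv⟩ : ∃ v, Fintype.card V = Fintype.card (Sym2 J) * (2 * k) + v :=
    ⟨Fintype.card V - Fintype.card (Sym2 J) * (2 * k), by
      have : Fintype.card (Sym2 J) * (2 * k) ≤ Fintype.card V := by nlinarith
      omega⟩
  have hvN : (2 * k) ≤ v := by
    have : (2 * k) * (Fintype.card (Sym2 J) + 1) = Fintype.card (Sym2 J) * (2 * k) + (2 * k) := by ring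
    omega
  have hvodd : Odd v := by
    rw [hv] at hV
    have h1 : Even (Fintype.card (Sym2 J) * (2 * k)) := by
      exact Even.mul_left (even_two_mul k) _
    rcases Nat.even_or_odd v with h2 | h2
    · exact absurd hV (Nat.not_odd_iff_even.2 (h1.add h2))
    · exact h2
  haveI : NeZero v := ⟨by omega⟩
  have hcard : Fintype.card V = Fintype.card ((Sym2 J × ZMod (2 * k)) ⊕ ZMod v) := by
    rw [Fintype.card_sum, Fintype.card_prod, ZMod.card, ZMod.card, hv]
  let e : V ≃ (Sym2 J × ZMod (2 * k)) ⊕ ZMod v := Fintype.equivOfCardEq hcard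
  -- parity
  let par : ZMod (2 * k) →+* ZMod 2 := ZMod.castHom (dvd_mul_right 2 k) (ZMod 2)
  let R : J → J → ZMod (2 * k) := fun j a => 2 * (r j a : ZMod (2 * k))
  let τ : J → J → ZMod (2 * k) := fun j a => (t j a : ZMod (2 * k))
  have hR_symm : ∀ j a, R j a = R a j := fun j a => by
    show 2 * (r j a : ZMod (2 * k)) = 2 * (r a j : ZMod (2 * k))
    rw [r_symm]
  have hτ_symm : ∀ j a, τ j a = τ a j := fun j a => by
    show (t j a : ZMod (2 * k)) = (t a j : ZMod (2 * k))
    rw [t_symm]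
  have hpar : ∀ j a, par (R j a) = 0 := fun j a => by
    show par (2 * (r j a : ZMod (2 * k))) = 0
    rw [map_mul, map_ofNat]
    have : (2 : ZMod 2) = 0 := rfl
    rw [this, zero_mul]
  have hRinj : ∀ j a j' a', NB μ j a → NB μ j' a' → L j a = L j' a' → R j a = R j' a' →
      SP j a j' a' := by
    intro j a j' a' h1 h2 h3 h4
    apply r_inj j a j' a' h1 h2 h3
    have h5 : ((2 * r j a : ℕ) : ZMod (2 * k)) = ((2 * r j' a' : ℕ) : ZMod (2 * k)) := by
      push_cast
      exact h4
    rw [ZMod.natCast_eq_natCast_iff'] at h5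
    have h6 := r_lt j a h1
    have h7 := r_lt j' a' h2
    rw [Nat.mod_eq_of_lt (by omega), Nat.mod_eq_of_lt (by omega)] at h5
    omega
  have hτinj : ∀ j a j' a', a ≠ j → a' ≠ j' → g j a = g j' a' → τ j a = τ j' a' →
      SP j a j' a' := by
    intro j a j' a' h1 h2 h3 h4
    apply t_inj j a j' a' h1 h2 h3
    have h5 : ((t j a : ℕ) : ZMod (2 * k)) = ((t j' a' : ℕ) : ZMod (2 * k)) := h4
    rw [ZMod.natCast_eq_natCast_iff'] at h5
    have h6 := t_lt j a h1
    have h7 := t_lt j' a' h2
    rw [Nat.mod_eq_of_lt (by omega), Nat.mod_eq_of_lt (by omega)] at h5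
    exact h5
  -- the permutations
  have hζ : ∀ p : Sym2 J, ∃ ζ : Equiv.Perm (ZMod (2 * k)), ∀ j a, s(j, a) = p →
      ζ (R j a) = τ j a ∧ (τ j a ≠ h j a → ζ (R j a + 1) = h j a) := by
    intro p
    induction p using Sym2.ind with
    | _ x y =>
      have hne : R x y ≠ R x y + 1 := by
        intro h0
        have h1 := congrArg par h0
        rw [map_add, hpar, map_one, zero_add] at h1
        exact zero_ne_one h1
      obtain ⟨ζ, h1, h2⟩ := exists_perm_two (R x y) (R x y + 1) (τ x y) (h x y) hne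
      refine ⟨ζ, fun j a hja => ?_⟩
      rcases Sym2.eq_iff.1 hja with ⟨e1, e2⟩ | ⟨e1, e2⟩
      · subst e1 e2
        exact ⟨h1, h2⟩
      · subst e1 e2
        rw [hR_symm j a, hτ_symm j a, hh.symm j a]
        exact ⟨h1, h2⟩
  choose ζ hζ1 using hζ
  have hρ : ∀ p : Sym2 J, ∃ π : Equiv.Perm A, ∀ j a, s(j, a) = p → π (L j a) = g j a := by
    intro p
    induction p using Sym2.ind with
    | _ x y =>
      refine ⟨Equiv.swap (L x y) (g x y), fun j a hja => ?_⟩
      rcases Sym2.eq_iff.1 hja with ⟨e1, e2⟩ | ⟨e1, e2⟩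
      · subst e1 e2
        exact Equiv.swap_apply_left _ _
      · subst e1 e2
        rw [hL.symm j a, hg.symm j a]
        exact Equiv.swap_apply_left _ _
  choose ρ' hρ' using hρ
  let c : J → J → Sym2 J → ZMod (2 * k) := fun j a p => ζ p (R j a) - h j a
  let s : J → J → ℕ := fun j a => (R j a - h j a).val
  let σ0 : J → J → Equiv.Perm ((Sym2 J × ZMod (2 * k)) ⊕ ZMod v) := fun j a =>
    Equiv.sumCongr
      (Equiv.prodShear (Equiv.refl (Sym2 J)) (fun p => Equiv.addRight (c j a p)))
      (Equiv.addRight ((s j a : ℕ) : ZMod v))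
  have hc_symm : ∀ j a, c j a = c a j := fun j a => by
    funext p
    show ζ p (R j a) - h j a = ζ p (R a j) - h a j
    rw [hR_symm j a, hh.symm j a]
  have hs_symm : ∀ j a, s j a = s a j := fun j a => by
    show (R j a - h j a).val = (R a j - h a j).val
    rw [hR_symm j a, hh.symm j a]
  have hσ0_symm : ∀ j a, σ0 j a = σ0 a j := fun j a => by
    show Equiv.sumCongr
      (Equiv.prodShear (Equiv.refl (Sym2 J)) (fun p => Equiv.addRight (c j a p)))
      (Equiv.addRight ((s j a : ℕ) : ZMod v)) = Equiv.sumCongr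
      (Equiv.prodShear (Equiv.refl (Sym2 J)) (fun p => Equiv.addRight (c a j p)))
      (Equiv.addRight ((s a j : ℕ) : ZMod v))
    rw [hc_symm j a, hs_symm j a]
  have hσl : ∀ j a p z, σ0 j a (Sum.inl (p, z)) = Sum.inl (p, z + c j a p) := fun j a p z => rfl
  have hσr : ∀ j a α, σ0 j a (Sum.inr α) = Sum.inr (α + ((s j a : ℕ) : ZMod v)) :=
    fun j a α => rfl
  let σ : J → J → Equiv.Perm V := fun j a =>
    if NB μ j a then (e.trans (σ0 j a)).trans e.symm else 1
  let δ : V → ZMod (2 * k) := fun α => Sum.elim (fun x => x.2) (fun β => ((β.val : ℕ) : ZMod (2 * k))) (e α)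
  let ρ : V → Equiv.Perm A := fun α => Sum.elim (fun x => ρ' x.1) (fun _ => 1) (e α)
  have hσNB : ∀ j a α, NB μ j a → σ j a α = e.symm (σ0 j a (e α)) := by
    intro j a α hja
    show (if NB μ j a then (e.trans (σ0 j a)).trans e.symm else 1 : Equiv.Perm V) α = _
    rw [if_pos hja]
    rfl
  have hδσ : ∀ j a α, NB μ j a → δ (σ j a α) =
      Sum.elim (fun x => x.2) (fun β => ((β.val : ℕ) : ZMod (2 * k))) (σ0 j a (e α)) := by
    intro j a α hja
    show Sum.elim (fun x => x.2) (fun β => ((β.val : ℕ) : ZMod (2 * k))) (e (σ j a α)) = _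
    rw [hσNB j a α hja, Equiv.apply_symm_apply]
  have hround : ∀ j a p, NB μ j a → h j a + δ (σ j a (e.symm (Sum.inl (p, 0)))) =
      ζ p (R j a) := by
    intro j a p hja
    rw [hδσ j a _ hja, Equiv.apply_symm_apply, hσl]
    show h j a + (0 + (ζ p (R j a) - h j a)) = ζ p (R j a)
    ring
  refine ⟨{ σ := σ, δ := δ, ρ := ρ, al := fun j a => e.symm (Sum.inl (s(j, a), 0)),
            σ_symm := ?_, σ_same := ?_, σ_μ := ?_, al_symm := ?_, al_inj := ?_, ρ_al := ?_,
            s1 := ?_, s2 := ?_, s3 := ?_ }⟩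
  · intro j a
    show (if NB μ j a then (e.trans (σ0 j a)).trans e.symm else 1 : Equiv.Perm V) =
      (if NB μ a j then (e.trans (σ0 a j)).trans e.symm else 1 : Equiv.Perm V)
    by_cases hja : NB μ j a
    · rw [if_pos hja, if_pos (sched_NB_symm hμ hja), hσ0_symm j a]
    · rw [if_neg hja, if_neg (fun h1 => hja (sched_NB_symm hμ h1))]
  · intro j
    exact if_neg (fun h1 : NB μ j j => h1.1 rfl)
  · intro j
    exact if_neg (fun h1 : NB μ j (μ j) => h1.2 rfl)
  · intro j a
    show e.symm (Sum.inl (s(j, a), 0)) = e.symm (Sum.inl (s(a, j), 0))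
    rw [Sym2.eq_swap]
  · intro j a j' a' h1
    have h2 := e.symm.injective h1
    have h3 := Sum.inl_injective h2
    exact SP_of_sym2 (Prod.mk.inj h3).1
  · intro j a
    show Sum.elim (fun x : Sym2 J × ZMod (2 * k) => ρ' x.1) (fun _ => 1)
      (e (e.symm (Sum.inl (s(j, a), 0)))) (L j a) = g j a
    rw [Equiv.apply_symm_apply]
    exact hρ' s(j, a) j a rfl
  · intro α j a j' a' h1 h2 h3 h4
    rw [hδσ j a α h1, hδσ j' a' α h2] at h4
    rcases hα : e α with ⟨p, z⟩ | β
    · rw [hα, hσl, hσl] at h4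
      have h5 : h j a + (z + (ζ p (R j a) - h j a)) = h j' a' + (z + (ζ p (R j' a') - h j' a')) :=
        h4
      have h6 : ζ p (R j a) = ζ p (R j' a') := by
        have e1 : h j a + (z + (ζ p (R j a) - h j a)) = z + ζ p (R j a) := by ring
        have e2 : h j' a' + (z + (ζ p (R j' a') - h j' a')) = z + ζ p (R j' a') := by ring
        rw [e1, e2] at h5
        exact add_left_cancel h5
      exact hRinj j a j' a' h1 h2 h3 ((ζ p).injective h6)
    · rw [hα, hσr, hσr] at h4
      have key : ∀ j a, ∃ ε : ℕ, ε ≤ 1 ∧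
          h j a + (((β + ((s j a : ℕ) : ZMod v)).val : ℕ) : ZMod (2 * k)) =
            (β.val : ZMod (2 * k)) + R j a - (v : ZMod (2 * k)) * (ε : ZMod (2 * k)) := by
        intro j a
        have hs : s j a < 2 * k := ZMod.val_lt _
        have hsv : (((s j a : ℕ) : ZMod v)).val = s j a := by
          rw [ZMod.val_natCast, Nat.mod_eq_of_lt (by omega)]
        have hβ : β.val < v := ZMod.val_lt β
        refine ⟨(β.val + s j a) / v, ?_, ?_⟩
        · apply Nat.le_of_lt_succ
          rw [Nat.div_lt_iff_lt_mul (by omega)]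
          show β.val + s j a < (1 + 1) * v
          omega
        · rw [ZMod.val_add, hsv]
          have h5 : ((β.val + s j a : ℕ) : ZMod (2 * k)) =
              (((β.val + s j a) % v : ℕ) : ZMod (2 * k)) + (v : ZMod (2 * k)) *
                (((β.val + s j a) / v : ℕ) : ZMod (2 * k)) := by
            conv_lhs => rw [← Nat.mod_add_div (β.val + s j a) v]
            push_cast
            ring
          have h6 : ((s j a : ℕ) : ZMod (2 * k)) = R j a - h j a := ZMod.natCast_zmod_val _
          have h7 : ((β.val + s j a : ℕ) : ZMod (2 * k)) = (β.val : ZMod (2 * k)) + (R j a - h j a) := by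
            rw [Nat.cast_add, h6]
          rw [h7] at h5
          have h8 : (((β.val + s j a) % v : ℕ) : ZMod (2 * k)) = (β.val : ZMod (2 * k)) + (R j a - h j a) -
              (v : ZMod (2 * k)) * (((β.val + s j a) / v : ℕ) : ZMod (2 * k)) := by
            rw [h5]; ring
          rw [h8]
          ring
      obtain ⟨ε, hε, h5⟩ := key j a
      obtain ⟨ε', hε', h6⟩ := key j' a'
      have h7 : (β.val : ZMod (2 * k)) + R j a - (v : ZMod (2 * k)) * (ε : ZMod (2 * k)) =
          (β.val : ZMod (2 * k)) + R j' a' - (v : ZMod (2 * k)) * (ε' : ZMod (2 * k)) := by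
        rw [← h5, ← h6]
        exact h4
      have hv2 : ((v : ℕ) : ZMod 2) = 1 := by
        rw [ZMod.natCast_eq_one_iff_odd]
        exact hvodd
      have h8 := congrArg par h7
      rw [map_sub, map_sub, map_add, map_add, hpar, hpar, map_mul, map_mul, map_natCast,
        map_natCast, map_natCast, map_natCast, hv2, one_mul, one_mul, add_zero] at h8
      have h9 : ((ε : ℕ) : ZMod 2) = ((ε' : ℕ) : ZMod 2) := by
        have := sub_right_injective h8
        exact this
      have h10 : ε = ε' := by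
        rw [ZMod.natCast_eq_natCast_iff'] at h9
        omega
      rw [h10] at h7
      have h11 : R j a = R j' a' := by
        have := sub_left_injective h7
        exact add_left_cancel this
      exact hRinj j a j' a' h1 h2 h3 h11
  · intro j a j' a' h1 h2 h3 h4
    rw [hround j' a' _ h2] at h4
    obtain ⟨z1, z2⟩ := hζ1 s(j, a) j a rfl
    by_cases hτ : τ j a = h j a
    · have h5 : ζ s(j, a) (R j a) = ζ s(j, a) (R j' a') := by
        rw [z1, hτ, h4]
      exact hRinj j a j' a' h1 h2 h3.symm ((ζ _).injective h5)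
    · exfalso
      have h5 : ζ s(j, a) (R j a + 1) = ζ s(j, a) (R j' a') := by
        rw [z2 hτ, h4]
      have h6 := congrArg par ((ζ _).injective h5)
      rw [map_add, hpar, hpar, map_one, zero_add] at h6
      exact one_ne_zero h6
  · intro j a j' a' h1 h2 h3 h4
    rw [hround j a _ h1, hround j' a' _ h2, (hζ1 s(j, a) j a rfl).1,
      (hζ1 s(j', a') j' a' rfl).1] at h4
    exact hτinj j a j' a' h1.1 h2.1 h3 h4

end Pool.Agent.Lib.MP_db622c_co.CB
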