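import Pool.Agent.Lib.MP_db622c_co.CB.Defs2
import Pool.Agent.Lib.MP_db622c_co.CB.BaseOF

/-!
# CB-RB: one-factorizations with a rainbow perfect matching

PROOF.  Concrete model.  Let `E` be a finite field of characteristic two with `2 ^ c` elements
(`GaloisField 2 c`), `c ≥ 2`, `ω : E` with `ω ≠ 0`, `ω ≠ 1` (three elements exist besides ...:
`card E ≥ 4`), `m` odd, `X = ZMod m × ZMod 2`.
`gX : X → X → ZMod m × ZMod 2`:
* `gX p p = (0, 0)`;
* `gX (y, ε) (z, ε) = (y + z, 1)` for `y ≠ z`;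
* `gX (y, 0) (y, 1) = gX (y, 1) (y, 0) = (y + y, 1)`;
* `gX (y, 0) (z, 1) = gX (z, 1) (y, 0) = (z - y, 0)` for `y ≠ z`.
It is symmetric, `gX p q = 0` iff `p = q`, and `gX p q = gX p q'` implies `q = q'` (check the cases;
`(y + z, 1)` with `z ≠ y` is not `(y + y, 1)`; oddness of `m` is not needed here).
Model: `J₀ = E × X`, `A₀ = E × (ZMod m × ZMod 2)`, `g₀ (u, p) (v, q) = (u + v, gX p q)`: `IsOF`.
`μ₀ (v, (y, 0)) = (ω v, (y, 1))`, `μ₀ (v, (y, 1)) = (ω⁻¹ v, (y, 0))`: a fixed point free involution,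
and `g₀ j (μ₀ j) = ((1 + ω) v, (y + y, 1))` for `j = (v, (y, 0))`; as `1 + ω ≠ 0` and `m` is odd
(`double_inj` of `CB.BaseOF`), distinct edges of `μ₀` have distinct classes: `IsRB g₀ μ₀`.
For `u ≠ 0` in `E` the class `(u, (0, 0))` contains the disjoint edges
`{(0,(0,0)), (u,(0,0))}` and `{(0,(0,1)), (u,(0,1))}` and no edge of `μ₀` (second component
`(y + y, 1) ≠ (0, 0)`).

Transport: `exists_rb`: choose bijections `J ≃ J₀`, and `A ≃ A₀` with `0 ↦ 0` (compose with a swap).
`exists_rb_edges`: choose the bijection `J ≃ J₀` with `a, c, b, d ↦` the four points above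
(`exists_perm4` of `CB.BaseOF`), and `A ≃ A₀` with `0 ↦ 0`, `i2 ↦ (u, (0, 0))`.
-/

namespace Pool.Agent.Lib.MP_db622c_co.CB

open Pool.Agent.Lib.MP_db622c_co

/-- the second component of the model -/
def gX {m : ℕ} : ZMod m × Bool → ZMod m × Bool → ZMod m × Bool
  | (y, false), (z, false) => if y = z then (0, false) else (y + z, true)
  | (y, true), (z, true) => if y = z then (0, false) else (y + z, true)
  | (y, false), (z, true) => if y = z then (y + y, true) else (z - y, false)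
  | (y, true), (z, false) => if y = z then (y + y, true) else (y - z, false)

theorem gX_symm {m : ℕ} (p q : ZMod m × Bool) : gX p q = gX q p := by
  obtain ⟨y, a⟩ := p
  obtain ⟨z, b⟩ := q
  by_cases h : y = z
  · subst h
    cases a <;> cases b <;> simp [gX]
  · have h' : z ≠ y := fun e => h e.symm
    cases a <;> cases b <;> simp [gX, h, h', add_comm]

theorem gX_eq_zero {m : ℕ} (p q : ZMod m × Bool) (h : gX p q = (0, false)) : p = q := by
  obtain ⟨y, a⟩ := p
  obtain ⟨z, b⟩ := q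
  by_cases e : y = z
  · subst e
    cases a <;> cases b <;> simp_all [gX]
  · have e' : z - y ≠ 0 := fun h => e (sub_eq_zero.1 h).symm
    have e'' : y - z ≠ 0 := fun h => e (sub_eq_zero.1 h)
    cases a <;> cases b <;> simp_all [gX]

theorem gX_inj {m : ℕ} (p q q' : ZMod m × Bool) (h : gX p q = gX p q') : q = q' := by
  obtain ⟨y, a⟩ := p
  obtain ⟨z, b⟩ := q
  obtain ⟨z', b'⟩ := q'
  by_cases e : y = z
  · subst e
    by_cases e' : y = z'
    · subst e'
      cases a <;> cases b <;> cases b' <;> simp_all [gX]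
    · have e1 : z' - y ≠ 0 := fun h => e' (sub_eq_zero.1 h).symm
      have e2 : y - z' ≠ 0 := fun h => e' (sub_eq_zero.1 h)
      have e3 : (0 : ZMod m) ≠ z' - y := fun h => e1 h.symm
      have e4 : (0 : ZMod m) ≠ y - z' := fun h => e2 h.symm
      cases a <;> cases b <;> cases b' <;> simp_all [gX]
  · have e1 : z - y ≠ 0 := fun h => e (sub_eq_zero.1 h).symm
    have e2 : y - z ≠ 0 := fun h => e (sub_eq_zero.1 h)
    by_cases e' : y = z'
    · subst e'
      have e5 : z ≠ y := fun h => e h.symm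
      cases a <;> cases b <;> cases b' <;> simp_all [gX]
    · have e3 : z' - y ≠ 0 := fun h => e' (sub_eq_zero.1 h).symm
      have e4 : y - z' ≠ 0 := fun h => e' (sub_eq_zero.1 h)
      cases a <;> cases b <;> cases b' <;> simp_all [gX]

/-- the model one-factorization -/
def gM {E : Type*} [Field E] {m : ℕ} (j k : E × (ZMod m × Bool)) : E × (ZMod m × Bool) :=
  (j.1 + k.1, gX j.2 k.2)

/-- the model matching -/
def muM {E : Type*} [Field E] {m : ℕ} (ω : E) (j : E × (ZMod m × Bool)) :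
    E × (ZMod m × Bool) :=
  if j.2.2 = false then (ω * j.1, (j.2.1, true)) else (ω⁻¹ * j.1, (j.2.1, false))

theorem muM_inv {E : Type*} [Field E] {m : ℕ} {ω : E} (h0 : ω ≠ 0)
    (j : E × (ZMod m × Bool)) : muM ω (muM ω j) = j := by
  obtain ⟨v, y, b⟩ := j
  cases b <;> simp [muM, h0]

theorem muM_ne {E : Type*} [Field E] {m : ℕ} (ω : E)
    (j : E × (ZMod m × Bool)) : muM ω j ≠ j := by
  obtain ⟨v, y, b⟩ := j
  cases b <;> simp [muM]

theorem gM_muM {E : Type*} [Field E] {m : ℕ} (ω : E)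
    (j : E × (ZMod m × Bool)) : gM j (muM ω j) =
      (j.1 + (if j.2.2 = false then ω else ω⁻¹) * j.1, (j.2.1 + j.2.1, true)) := by
  obtain ⟨v, y, b⟩ := j
  cases b <;> simp [muM, gM, gX]

theorem muM_rb {E : Type*} [Field E] {m : ℕ} (hm : Odd m) {ω : E} (h0 : ω ≠ 0)
    (h1 : 1 + ω ≠ 0) (j k : E × (ZMod m × Bool)) (h : gM j (muM ω j) = gM k (muM ω k)) :
    k = j ∨ k = muM ω j := by
  rw [gM_muM, gM_muM] at h
  obtain ⟨v, y, b⟩ := j
  obtain ⟨v', y', b'⟩ := k
  simp only [Prod.mk.injEq, and_true] at h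
  obtain ⟨ha, hb⟩ := h
  have hy : y = y' := double_inj hm y y' hb
  subst hy
  cases b <;> cases b'
  · left
    simp only [if_true] at ha
    have : (1 + ω) * v = (1 + ω) * v' := by linear_combination ha
    rw [mul_left_cancel₀ h1 this]
  · right
    simp only [if_true, Bool.true_eq_false, if_false] at ha
    have : (1 + ω) * (ω * v) = (1 + ω) * v' := by
      have e : ω * ω⁻¹ = 1 := mul_inv_cancel₀ h0
      linear_combination ω * ha + v' * e
    rw [← mul_left_cancel₀ h1 this]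
    simp [muM]
  · right
    simp only [if_true, Bool.true_eq_false, if_false] at ha
    have : (1 + ω) * (ω * v') = (1 + ω) * v := by
      have e : ω * ω⁻¹ = 1 := mul_inv_cancel₀ h0
      linear_combination -ω * ha + v * e
    have e2 := mul_left_cancel₀ h1 this
    rw [← e2]
    simp [muM, h0]
  · left
    simp only [Bool.true_eq_false, if_false] at ha
    have : (1 + ω) * v = (1 + ω) * v' := by
      have e : ω * ω⁻¹ = 1 := mul_inv_cancel₀ h0
      linear_combination ω * ha - v * e + v' * e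
    rw [mul_left_cancel₀ h1 this]

/-- transport of the model -/
theorem transport {E : Type*} [Field E] (h2 : ∀ u v : E, u + v = 0 → u = v) {m : ℕ} (hm : Odd m)
    {ω : E} (h0 : ω ≠ 0) (h1 : 1 + ω ≠ 0) {A J : Type*} [Zero A]
    (eA : A ≃ E × (ZMod m × Bool)) (eJ : J ≃ E × (ZMod m × Bool))
    (hz : eA 0 = (0, (0, false))) :
    IsOF (fun j k => eA.symm (gM (eJ j) (eJ k))) ∧
    IsRB (fun j k => eA.symm (gM (eJ j) (eJ k))) (fun j => eJ.symm (muM ω (eJ j))) := by
  refine ⟨⟨?_, ?_, ?_⟩, ⟨?_, ?_, ?_⟩⟩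
  · intro j k hjk h
    have h3 : gM (eJ j) (eJ k) = (0, (0, false)) := by
      rw [← hz]
      exact (Equiv.symm_apply_eq eA).1 h
    apply hjk
    apply eJ.injective
    have h4 := congrArg Prod.fst h3
    have h5 := congrArg Prod.snd h3
    exact Prod.ext (h2 _ _ h4) (gX_eq_zero _ _ h5)
  · intro j k
    simp only [gM]
    rw [gX_symm, add_comm]
  · intro j k k' _ _ h
    have h3 := eA.symm.injective h
    apply eJ.injective
    have h4 := congrArg Prod.fst h3
    have h5 := congrArg Prod.snd h3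
    exact Prod.ext (add_left_cancel h4) (gX_inj _ _ _ h5)
  · intro j
    simp [muM_inv h0]
  · intro j h
    have h3 := (Equiv.symm_apply_eq eJ).1 h
    exact muM_ne ω _ h3
  · intro j k h
    have h3 := eA.symm.injective h
    simp only [Equiv.apply_symm_apply] at h3
    rcases muM_rb hm h0 h1 _ _ h3 with h4 | h4
    · left
      exact eJ.injective h4
    · right
      exact (Equiv.eq_symm_apply eJ).2 h4

/-- an equivalence with a prescribed value -/
theorem exists_equiv1 {α β : Type*} (e : α ≃ β) (a : α) (b : β) : ∃ f : α ≃ β, f a = b := by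
  classical
  exact ⟨e.trans (Equiv.swap (e a) b), by simp⟩

/-- an equivalence with two prescribed values -/
theorem exists_equiv2 {α β : Type*} (e : α ≃ β) (a a' : α) (b b' : β) (ha : a ≠ a')
    (hb : b ≠ b') : ∃ f : α ≃ β, f a = b ∧ f a' = b' := by
  classical
  obtain ⟨f, hf⟩ := exists_equiv1 e a b
  refine ⟨f.trans (Equiv.swap (f a') b'), ?_, ?_⟩
  · rw [Equiv.trans_apply, hf]
    apply Equiv.swap_apply_of_ne_of_ne
    · rw [← hf]
      exact fun h => ha (f.injective h)
    · exact hb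
  · simp

/-- the model field -/
theorem exists_model (c m : ℕ) (hc : 2 ≤ c) (hm : Odd m) {A J : Type*} [Fintype A] [Fintype J]
    (hA : Fintype.card A = 2 ^ (c + 1) * m) (hJ : Fintype.card J = 2 ^ (c + 1) * m) :
    ∃ (E : Type) (_ : Field E) (ω : E), (∀ u v : E, u + v = 0 → u = v) ∧ ω ≠ 0 ∧ 1 + ω ≠ 0 ∧
      Nonempty (A ≃ E × (ZMod m × Bool)) ∧ Nonempty (J ≃ E × (ZMod m × Bool)) := by
  classical
  have : Fact (Nat.Prime 2) := ⟨Nat.prime_two⟩
  have hcard : Nat.card (GaloisField 2 c) = 2 ^ c := GaloisField.card 2 c (by omega)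
  have : Finite (GaloisField 2 c) := Nat.finite_of_card_ne_zero (by rw [hcard]; positivity)
  have : Fintype (GaloisField 2 c) := Fintype.ofFinite _
  have : NeZero m := ⟨by rintro rfl; exact absurd hm (by decide)⟩
  have hc' : Fintype.card (GaloisField 2 c) = 2 ^ c := by
    rw [← Nat.card_eq_fintype_card, hcard]
  have hX : Fintype.card (GaloisField 2 c × (ZMod m × Bool)) = 2 ^ (c + 1) * m := by
    rw [Fintype.card_prod, Fintype.card_prod, hc', ZMod.card, Fintype.card_bool]
    ring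
  have hchar : ∀ u v : GaloisField 2 c, u + v = 0 → u = v := by
    intro u v h
    have := CharTwo.add_self_eq_zero v
    exact add_right_cancel (h.trans this.symm)
  obtain ⟨ω, hω⟩ : ∃ ω : GaloisField 2 c, ω ∉ ({0, 1} : Finset (GaloisField 2 c)) := by
    by_contra hcon
    push Not at hcon
    have h1 : (Finset.univ : Finset (GaloisField 2 c)) ⊆ {0, 1} := fun x _ => hcon x
    have h2 := Finset.card_le_card h1
    have h3 : ({0, 1} : Finset (GaloisField 2 c)).card ≤ 2 := Finset.card_le_two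
    rw [Finset.card_univ, hc'] at h2
    have h4 : 2 ^ 2 ≤ 2 ^ c := Nat.pow_le_pow_right (by norm_num) hc
    omega
  refine ⟨GaloisField 2 c, inferInstance, ω, hchar, ?_, ?_, ?_, ?_⟩
  · intro h
    exact hω (by simp [h])
  · intro h
    exact hω (by simp [← hchar _ _ h])
  · exact Fintype.card_eq.1 (by rw [hA, hX])
  · exact Fintype.card_eq.1 (by rw [hJ, hX])

theorem exists_rb {A J : Type*} [Zero A] [Fintype A] [Fintype J] (c m : ℕ) (hc : 2 ≤ c)
    (hm : Odd m) (hA : Fintype.card A = 2 ^ (c + 1) * m) (hJ : Fintype.card J = 2 ^ (c + 1) * m) :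
    ∃ (g : J → J → A) (μ : J → J), IsOF g ∧ IsRB g μ := by
  obtain ⟨E, _, ω, h2, h0, h1, ⟨eA⟩, ⟨eJ⟩⟩ := exists_model c m hc hm hA hJ
  obtain ⟨fA, hz⟩ := exists_equiv1 eA (0 : A) (0, (0, false))
  exact ⟨_, _, transport h2 hm h0 h1 fA eJ hz⟩

theorem exists_rb_edges {A J : Type*} [Zero A] [Fintype A] [Fintype J] (c m : ℕ) (hc : 2 ≤ c)
    (hm : Odd m) (hA : Fintype.card A = 2 ^ (c + 1) * m) (hJ : Fintype.card J = 2 ^ (c + 1) * m)
    (x y z w : J) (hxy : x ≠ y) (hxz : x ≠ z) (hxw : x ≠ w) (hyz : y ≠ z) (hyw : y ≠ w)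
    (hzw : z ≠ w) (i2 : A) (hi2 : i2 ≠ 0) :
    ∃ (g : J → J → A) (μ : J → J), IsOF g ∧ IsRB g μ ∧ g x z = i2 ∧ g y w = i2 ∧
      ∀ j, g j (μ j) ≠ i2 := by
  obtain ⟨E, _, ω, h2, h0, h1, ⟨eA⟩, ⟨eJ⟩⟩ := exists_model c m hc hm hA hJ
  have hne : ((0, (0, false)) : E × (ZMod m × Bool)) ≠ (1, (0, false)) := by simp
  obtain ⟨fA, hz, hi⟩ := exists_equiv2 eA (0 : A) i2 (0, (0, false)) (1, (0, false))
    (Ne.symm hi2) hne
  obtain ⟨σ, s1, s2, s3, s4⟩ := exists_perm4 (eJ x) (eJ y) (eJ z) (eJ w)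
    ((0, (0, false)) : E × (ZMod m × Bool)) (0, (0, true)) (1, (0, false)) (1, (0, true))
    (fun h => hxy (eJ.injective h)) (fun h => hxz (eJ.injective h))
    (fun h => hxw (eJ.injective h)) (fun h => hyz (eJ.injective h))
    (fun h => hyw (eJ.injective h)) (fun h => hzw (eJ.injective h))
    (by simp) (by simp) (by simp) (by simp) (by simp) (by simp)
  obtain ⟨ho, hr⟩ := transport h2 hm h0 h1 fA (eJ.trans σ) hz
  refine ⟨_, _, ho, hr, ?_, ?_, ?_⟩
  · rw [Equiv.symm_apply_eq, hi]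
    simp only [Equiv.trans_apply, s1, s3]
    simp [gM, gX]
  · rw [Equiv.symm_apply_eq, hi]
    simp only [Equiv.trans_apply, s2, s4]
    simp [gM, gX]
  · intro j h
    simp only [Equiv.symm_apply_eq, Equiv.apply_symm_apply] at h
    rw [hi, gM_muM] at h
    simp at h

end Pool.Agent.Lib.MP_db622c_co.CB
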