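import Pool.Agent.Lib.MP_db622c_co.CB.Defs

/-!
# CB-Rows: rows of a Hadamard matrix with a prescribed pattern on four points

PROOF.  `col_orth`: let `H : Matrix A J ℤ := S` with `card A = card J = n`.  `IsH` says
`H * Hᵀ = n • 1`.  Reindex `A ≃ J` to a square matrix, so also `Hᵀ * H = n • 1` (over `ℚ`:
a right inverse is a left inverse, `Matrix.mul_eq_one_comm`).

`exists_row`: for distinct `a b c d` put
`T = ∑ i, (1 + S i a * S i c) * (1 + S i b * S i d) * (1 - S i a * S i b)`.
Expanding and using `S i x ^ 2 = 1`: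
each term `= 1 + ac + bd + abcd - ab - bc - ad - cd` (products of entries of row `i`), so by
column orthogonality `T = n + ∑ i, S i a * S i b * S i c * S i d`.  The row `0` contributes `+1` to
the last sum and every other row at least `-1`, so `T ≥ n + 1 - (n - 1) = 2 > 0`.  So some row `i`
has a nonzero (positive) term, i.e. `S i a = S i c`, `S i b = S i d`, `S i a = - S i b`; it is not
the row `0`, where all entries are `1`.

`card_pos_eq_card_neg`: for `i ≠ 0` the numbers of `j` with `S i j = 1` and `S i j = -1` agree,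
because `∑ j, S i j * S 0 j = 0`.
-/

namespace Pool.Agent.Lib.MP_db622c_co.CB

open Pool.Agent.Lib.MP_db622c_co

theorem col_orth {A J : Type*} [Zero A] [Fintype A] [Fintype J]
    (hc : Fintype.card A = Fintype.card J) {S : A → J → ℤ} (hS : IsH S) (j k : J) (hjk : j ≠ k) :
    ∑ a, S a j * S a k = 0 := by
  classical
  let e : A ≃ J := Fintype.equivOfCardEq hc
  have hn : (Fintype.card J : ℚ) ≠ 0 := by
    have : 0 < Fintype.card J := Fintype.card_pos_iff.2 ⟨j⟩
    positivity
  let H : Matrix J J ℚ := Matrix.of fun x y => (S (e.symm x) y : ℚ)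
  have h1 : H * ((Fintype.card J : ℚ)⁻¹ • H.transpose) = 1 := by
    ext x y
    rw [Matrix.mul_smul, Matrix.smul_apply, Matrix.mul_apply, smul_eq_mul]
    by_cases hxy : x = y
    · subst hxy
      have h2 : ∑ i, H x i * H.transpose i x = Fintype.card J := by
        have h3 : ∀ i, H x i * H.transpose i x = 1 := by
          intro i
          show (S (e.symm x) i : ℚ) * (S (e.symm x) i : ℚ) = 1
          rcases hS.sign (e.symm x) i with h | h <;> rw [h] <;> norm_num
        rw [Finset.sum_congr rfl (fun i _ => h3 i)]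
        simp
      rw [h2, Matrix.one_apply_eq, inv_mul_cancel₀ hn]
    · have h2 : ∑ i, H x i * H.transpose i y = 0 := by
        have h3 := hS.orth (e.symm x) (e.symm y) (fun h => hxy (e.symm.injective h))
        have h4 : ((∑ i, S (e.symm x) i * S (e.symm y) i : ℤ) : ℚ) = 0 := by rw [h3]; norm_num
        push_cast at h4
        exact h4
      rw [h2, Matrix.one_apply_ne hxy, mul_zero]
  have h2 := mul_eq_one_comm.1 h1
  have h3 := congrFun (congrFun h2 j) k
  rw [Matrix.smul_mul, Matrix.smul_apply, Matrix.mul_apply, smul_eq_mul, Matrix.one_apply_ne hjk,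
    mul_eq_zero] at h3
  rcases h3 with h3 | h3
  · exact absurd h3 (inv_ne_zero hn)
  · have h4 : ∑ x, H.transpose j x * H x k = ((∑ x, S (e.symm x) j * S (e.symm x) k : ℤ) : ℚ) := by
      push_cast
      rfl
    rw [h4] at h3
    have h5 : ∑ x, S (e.symm x) j * S (e.symm x) k = 0 := by exact_mod_cast h3
    rw [← h5]
    exact (Equiv.sum_comp e.symm (fun a => S a j * S a k)).symm

theorem exists_row {A J : Type*} [Zero A] [Fintype A] [Fintype J]
    (hc : Fintype.card A = Fintype.card J) {S : A → J → ℤ} (hS : IsH S)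
    (a b c d : J) (hab : a ≠ b) (hac : a ≠ c) (had : a ≠ d) (hbc : b ≠ c) (hbd : b ≠ d)
    (hcd : c ≠ d) : ∃ i : A, i ≠ 0 ∧ S i a = S i c ∧ S i b = S i d ∧ S i a = - S i b := by
  classical
  by_contra hne
  push Not at hne
  have hterm : ∀ i, (1 + S i a * S i c) * (1 + S i b * S i d) * (1 - S i a * S i b) = 0 := by
    intro i
    by_cases hi : i = 0
    · rw [hi, hS.one a, hS.one b]
      ring
    · have h := hne i hi
      rcases hS.sign i a with h1 | h1 <;> rcases hS.sign i b with h2 | h2 <;>
        rcases hS.sign i c with h3 | h3 <;> rcases hS.sign i d with h4 | h4 <;>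
        rw [h1, h2, h3, h4] at h ⊢ <;> first | (norm_num; done) | (norm_num at h)
  have hexp : ∀ i, (1 + S i a * S i c) * (1 + S i b * S i d) * (1 - S i a * S i b) =
      (1 + S i a * S i b * S i c * S i d) + S i a * S i c + S i b * S i d - S i a * S i b -
        S i b * S i c - S i a * S i d - S i c * S i d := by
    intro i
    rcases hS.sign i a with h1 | h1 <;> rcases hS.sign i b with h2 | h2 <;>
      rcases hS.sign i c with h3 | h3 <;> rcases hS.sign i d with h4 | h4 <;>
      rw [h1, h2, h3, h4] <;> norm_num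
  have hsum : ∑ i, ((1 + S i a * S i b * S i c * S i d) + S i a * S i c + S i b * S i d -
      S i a * S i b - S i b * S i c - S i a * S i d - S i c * S i d) = 0 := by
    refine Finset.sum_eq_zero fun i _ => ?_
    rw [← hexp i, hterm i]
  rw [Finset.sum_sub_distrib, Finset.sum_sub_distrib, Finset.sum_sub_distrib,
    Finset.sum_sub_distrib, Finset.sum_add_distrib, Finset.sum_add_distrib,
    col_orth hc hS a c hac, col_orth hc hS b d hbd, col_orth hc hS a b hab,
    col_orth hc hS b c hbc, col_orth hc hS a d had, col_orth hc hS c d hcd] at hsum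
  have hpos : ∀ i, 0 ≤ 1 + S i a * S i b * S i c * S i d := by
    intro i
    rcases hS.sign i a with h1 | h1 <;> rcases hS.sign i b with h2 | h2 <;>
      rcases hS.sign i c with h3 | h3 <;> rcases hS.sign i d with h4 | h4 <;>
      rw [h1, h2, h3, h4] <;> norm_num
  have h0 : 1 + S 0 a * S 0 b * S 0 c * S 0 d = 2 := by
    rw [hS.one, hS.one, hS.one, hS.one]
    norm_num
  have h1 : 1 + S 0 a * S 0 b * S 0 c * S 0 d ≤ ∑ i, (1 + S i a * S i b * S i c * S i d) :=
    Finset.single_le_sum (f := fun i => 1 + S i a * S i b * S i c * S i d)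
      (fun i _ => hpos i) (Finset.mem_univ 0)
  rw [h0] at h1
  linarith

open Classical in
theorem card_pos_eq_card_neg {A J : Type*} [Zero A] [Fintype J] {S : A → J → ℤ} (hS : IsH S)
    (i : A) (hi : i ≠ 0) :
    (Finset.univ.filter (fun j => S i j = 1)).card
      = (Finset.univ.filter (fun j => S i j = -1)).card := by
  have h1 := hS.orth i 0 hi
  have h2 : ∀ j, S i j * S 0 j = (if S i j = 1 then 1 else 0) - (if S i j = -1 then (1 : ℤ) else 0) := by
    intro j
    rw [hS.one j]
    rcases hS.sign i j with h | h <;> rw [h] <;> norm_num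
  simp_rw [h2] at h1
  rw [Finset.sum_sub_distrib, Finset.sum_boole, Finset.sum_boole] at h1
  have h3 : ((Finset.univ.filter (fun j => S i j = 1)).card : ℤ)
      = ((Finset.univ.filter (fun j => S i j = -1)).card : ℤ) := by linarith
  exact_mod_cast h3

end Pool.Agent.Lib.MP_db622c_co.CB
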