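import Pool.Agent.Lib.MP_db622c_co.CB.StepII

/-!
# CB-StepII2: the rounds of step II
-/

namespace Pool.Agent.Lib.MP_db622c_co.CB

open Pool.Agent.Lib.MP_db622c_co

section

variable {K V A J : Type*} [Field K] [CommGroup V] [Zero A] [CharP K 2]
  {S : A → J → ℤ} {k : ℕ} {μ : J → J} {L g : J → J → A} {side : J → ZMod 2}
  {h : J → J → ZMod (2 * k)}

/-- orientation factors -/
structure IsTh (P : Pack K V) (t : J → J → K) : Prop where
  anti : ∀ j a, j ≠ a → t a j = 1 + t j a
  val : ∀ j a, t j a = P.θ ∨ t j a = 1 + P.θ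

theorem exists_th (P : Pack K V) [Fintype J] : ∃ t : J → J → K, IsTh P t := by
  classical
  let e := Fintype.equivFin J
  refine ⟨fun j a => if e j < e a then P.θ else 1 + P.θ, ?_, ?_⟩
  · intro j a hja
    have h1 : e j ≠ e a := fun hh => hja (e.injective hh)
    rcases lt_or_gt_of_ne h1 with h2 | h2
    · rw [if_pos h2, if_neg (not_lt.2 h2.le)]
    · rw [if_pos h2, if_neg (not_lt.2 h2.le), add_add_self]
  · intro j a
    by_cases h1 : e j < e a
    · left; rw [if_pos h1]
    · right; rw [if_neg h1]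

theorem IsTh.ne {P : Pack K V} {t : J → J → K} (ht : IsTh P t) (j a : J) : t j a ≠ 0 := by
  rcases ht.val j a with h1 | h1 <;> rw [h1]
  · exact P.θ_ne
  · exact P.θ_ne'

theorem IsTh.N {P : Pack K V} {t : J → J → K} (ht : IsTh P t) (j a : J) :
    P.N (t j a) = P.N P.θ := by
  rcases ht.val j a with h1 | h1 <;> rw [h1]
  exact P.N_θ

/-- The round of an edge. -/
noncomputable def rd (P : Pack K V) (Sc : Sched V k μ L g h) (side : J → ZMod 2) (t : J → J → K)
    (rK : K × ZMod 2 → K × ZMod 2 → K × ZMod 2) (x y : K × J) :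
    (K × ZMod 2) ⊕ (K × ZMod (2 * k)) :=
  open Classical in
  if NB μ x.2 y.2 then
    Sum.inr (x.1 + t x.2 y.2 * (x.1 + y.1), rcl P Sc x.2 y.2 (x.1 + y.1))
  else Sum.inl (rK (x.1, side x.2) (y.1, side y.2))

theorem rd_nb {P : Pack K V} {Sc : Sched V k μ L g h} {side : J → ZMod 2} {t : J → J → K}
    {rK : K × ZMod 2 → K × ZMod 2 → K × ZMod 2} {x y : K × J} (hn : NB μ x.2 y.2) :
    rd P Sc side t rK x y =
      Sum.inr (x.1 + t x.2 y.2 * (x.1 + y.1), rcl P Sc x.2 y.2 (x.1 + y.1)) := by
  unfold rd; rw [if_pos hn]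

theorem rd_b {P : Pack K V} {Sc : Sched V k μ L g h} {side : J → ZMod 2} {t : J → J → K}
    {rK : K × ZMod 2 → K × ZMod 2 → K × ZMod 2} {x y : K × J} (hn : ¬ NB μ x.2 y.2) :
    rd P Sc side t rK x y = Sum.inl (rK (x.1, side x.2) (y.1, side y.2)) := by
  unfold rd; rw [if_neg hn]

/-- the zero of the set of rounds -/
def zM (K : Type*) [Zero K] (k : ℕ) : Zero ((K × ZMod 2) ⊕ (K × ZMod (2 * k))) := ⟨Sum.inl 0⟩

theorem rcl_symm (P : Pack K V) (hh : IsHC h μ) (Sc : Sched V k μ L g h) (j a : J) (w : K) :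
    rcl P Sc j a w = rcl P Sc a j w := by
  unfold rcl; rw [hh.symm]

theorem pt_ne (hμ : IsRB g μ) (hL : IsLam L μ side) {x y : K × J} (hxy : x ≠ y)
    (hn : ¬ NB μ x.2 y.2) : (x.1, side x.2) ≠ (y.1, side y.2) := by
  intro hc
  have h1 : x.1 = y.1 := (Prod.mk.inj hc).1
  have h2 : side x.2 = side y.2 := (Prod.mk.inj hc).2
  have h3 : y.2 = x.2 ∨ y.2 = μ x.2 := by
    unfold NB at hn; tauto
  rcases h3 with h3 | h3
  · exact hxy (Prod.ext h1 h3.symm)
  · rw [h3, hL.side_μ] at h2
    exact zmod2_add_one_ne _ h2.symm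

theorem isOF_rd (P : Pack K V) (Sc : Sched V k μ L g h) (hμ : IsRB g μ) (hL : IsLam L μ side)
    (hh : IsHC h μ) {t : J → J → K} (ht : IsTh P t)
    {rK : K × ZMod 2 → K × ZMod 2 → K × ZMod 2} (r0 : ∀ x y, x ≠ y → rK x y ≠ 0)
    (rs : ∀ x y, rK x y = rK y x) (ri : ∀ x y y', y ≠ x → y' ≠ x → rK x y = rK x y' → y = y') :
    @IsOF _ _ (zM K k) (rd P Sc side t rK) := by
  letI := zM K k
  refine ⟨?_, ?_, ?_⟩
  · intro x y hxy hc
    by_cases hn : NB μ x.2 y.2
    · rw [rd_nb hn] at hc
      exact Sum.inr_ne_inl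
        (show (Sum.inr (x.1 + t x.2 y.2 * (x.1 + y.1), rcl P Sc x.2 y.2 (x.1 + y.1)) :
          (K × ZMod 2) ⊕ (K × ZMod (2 * k))) = Sum.inl 0 from hc)
    · rw [rd_b hn] at hc
      have h1 : rK (x.1, side x.2) (y.1, side y.2) = 0 := Sum.inl_injective hc
      exact r0 _ _ (pt_ne hμ hL hxy hn) h1
  · intro x y
    by_cases hn : NB μ x.2 y.2
    · have hn' := NB_symm hμ.inv hn
      rw [rd_nb hn, rd_nb hn']
      have h1 := label_symm (t x.2 y.2) x.1 y.1
      rw [ht.anti x.2 y.2 hn.1.symm, h1, rcl_symm P hh, add_comm x.1 y.1]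
    · have hn' : ¬ NB μ y.2 x.2 := fun hc => hn (NB_symm hμ.inv hc)
      rw [rd_b hn, rd_b hn', rs]
  · intro x y z hy hz hc
    by_cases hn : NB μ x.2 y.2
    · by_cases hn' : NB μ x.2 z.2
      · rw [rd_nb hn, rd_nb hn'] at hc
        have h1 := Sum.inr_injective hc
        have h2 : x.1 + t x.2 y.2 * (x.1 + y.1) = x.1 + t x.2 z.2 * (x.1 + z.1) :=
          congrArg Prod.fst h1
        have h3 : rcl P Sc x.2 y.2 (x.1 + y.1) = rcl P Sc x.2 z.2 (x.1 + z.1) :=
          congrArg Prod.snd h1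
        have h4 : t x.2 y.2 * (x.1 + y.1) = t x.2 z.2 * (x.1 + z.1) := add_left_cancel h2
        have h5 : y.2 = z.2 := by
          by_cases hw : x.1 + y.1 = 0
          · rw [hw, mul_zero] at h4
            have hw' : x.1 + z.1 = 0 := by
              rcases mul_eq_zero.1 h4.symm with h6 | h6
              · exact absurd h6 (ht.ne _ _)
              · exact h6
            rw [hw, hw', rcl_zero, rcl_zero] at h3
            exact hh.inj _ _ _ hn.1 hn.2 hn'.1 hn'.2 h3
          · have hw' : x.1 + z.1 ≠ 0 := by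
              intro hc
              rw [hc, mul_zero] at h4
              rcases mul_eq_zero.1 h4 with h6 | h6
              · exact absurd h6 (ht.ne _ _)
              · exact hw h6
            have h6 := congrArg P.N h4
            rw [P.N_mul _ _ (ht.ne _ _) hw, P.N_mul _ _ (ht.ne _ _) hw', ht.N, ht.N] at h6
            have h7 := mul_left_cancel h6
            unfold rcl at h3
            rw [if_neg hw, if_neg hw', h7] at h3
            exact hh.inj _ _ _ hn.1 hn.2 hn'.1 hn'.2 (add_right_cancel h3)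
        rw [h5] at h4
        have h6 := mul_left_cancel₀ (ht.ne _ _) h4
        exact Prod.ext (add_left_cancel h6) h5
      · rw [rd_nb hn, rd_b hn'] at hc
        exact absurd hc (by simp)
    · by_cases hn' : NB μ x.2 z.2
      · rw [rd_b hn, rd_nb hn'] at hc
        exact absurd hc (by simp)
      · rw [rd_b hn, rd_b hn'] at hc
        have h1 := Sum.inl_injective hc
        have h2 := ri _ _ _ (pt_ne hμ hL hy.symm hn).symm (pt_ne hμ hL hz.symm hn').symm h1
        have h3 : y.1 = z.1 := (Prod.mk.inj h2).1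
        have h4 : side y.2 = side z.2 := (Prod.mk.inj h2).2
        refine Prod.ext h3 ?_
        have h5 : y.2 = x.2 ∨ y.2 = μ x.2 := by
          unfold NB at hn; tauto
        have h6 : z.2 = x.2 ∨ z.2 = μ x.2 := by
          unfold NB at hn'; tauto
        rcases h5 with h5 | h5 <;> rcases h6 with h6 | h6
        · rw [h5, h6]
        · rw [h5, h6, hL.side_μ] at h4
          exact absurd h4.symm (zmod2_add_one_ne _)
        · rw [h5, h6, hL.side_μ] at h4
          exact absurd h4 (zmod2_add_one_ne _)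
        · rw [h5, h6]

theorem isOrth_rd (P : Pack K V) {B : Blow S V} {Sc : Sched V k μ L g h} (hB : IsII B Sc)
    (hS : ∀ a j, S a j = 1 ∨ S a j = -1) (hμ : IsRB g μ) (hL : IsLam L μ side)
    {t : J → J → K} (ht : IsTh P t)
    {rK : K × ZMod 2 → K × ZMod 2 → K × ZMod 2}
    (rm : ∀ b, b ≠ 0 → ∀ x x', rK x (x + b) = rK x' (x' + b) → x' = x ∨ x' = x + b) :
    IsOrth (B.G P) (rd P Sc side t rK) := by
  intro x y x' y' hxy hxy' hg hr
  by_cases hn : NB μ x.2 y.2
  · by_cases hn' : NB μ x'.2 y'.2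
    · rw [rd_nb hn, rd_nb hn'] at hr
      have h1 := Sum.inr_injective hr
      have h2 : x.1 + t x.2 y.2 * (x.1 + y.1) = x'.1 + t x'.2 y'.2 * (x'.1 + y'.1) :=
        congrArg Prod.fst h1
      have h3 : rcl P Sc x.2 y.2 (x.1 + y.1) = rcl P Sc x'.2 y'.2 (x'.1 + y'.1) :=
        congrArg Prod.snd h1
      obtain ⟨h4, h5⟩ := unit_nb P hB hn hn' hg h3
      rcases h4 with ⟨h6, h7⟩ | ⟨h6, h7⟩
      · left
        rw [← h5, h6, h7] at h2
        exact Prod.ext (add_right_cancel h2).symm h6
      · right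
        rw [← h5, h6, h7, ht.anti x.2 y.2 hn.1.symm] at h2
        refine Prod.ext ?_ h6
        have h8 : x'.1 = x.1 + (x.1 + y.1) := by
          linear_combination -h2 - add_self (x.1 + y.1)
        rw [h8, add_add_self]
    · rw [rd_nb hn, rd_b hn'] at hr
      exact absurd hr (by simp)
  · by_cases hn' : NB μ x'.2 y'.2
    · rw [rd_b hn, rd_nb hn'] at hr
      exact absurd hr (by simp)
    · rw [rd_b hn, rd_b hn'] at hr
      have h1 := Sum.inl_injective hr
      obtain ⟨h2, h3⟩ := unit_block P hB hS hL hμ hn hn' (Blow.unit_ok hxy) (Blow.unit_ok hxy') hg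
      have key : ∀ e : ZMod 2, side y.2 = side x.2 + e → side y'.2 = side x'.2 + e →
          (x'.1, side x'.2) = (x.1, side x.2) ∨ (x'.1, side x'.2) = (y.1, side y.2) := by
        intro e he he'
        have h4 : (y.1, side y.2) = (x.1, side x.2) + (x.1 + y.1, e) := by
          refine Prod.ext ?_ he
          show y.1 = x.1 + (x.1 + y.1)
          rw [add_add_self]
        have h5 : (y'.1, side y'.2) = (x'.1, side x'.2) + (x.1 + y.1, e) := by
          refine Prod.ext ?_ he'
          show y'.1 = x'.1 + (x.1 + y.1)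
          rw [h2, add_add_self]
        have hb : (x.1 + y.1, e) ≠ (0 : K × ZMod 2) := by
          intro hc
          rw [hc, add_zero] at h4
          exact pt_ne hμ hL hxy hn h4.symm
        rw [h4, h5] at h1
        rw [h4]
        exact rm _ hb _ _ h1
      rcases h3 with ⟨h4, h5, h6⟩ | ⟨h4, h5, h6⟩
      · have hk := key 0 (by rw [h4, add_zero]) (by rw [h5, add_zero])
        rcases hk with hk | hk
        · left
          have h7 : x'.1 = x.1 := (Prod.mk.inj hk).1
          have h8 : side x'.2 = side x.2 := (Prod.mk.inj hk).2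
          rcases h6 with h6 | h6
          · exact Prod.ext h7 h6
          · rw [h6] at h8
            exact absurd h8 (zmod2_add_one_ne _)
        · right
          have h7 : x'.1 = y.1 := (Prod.mk.inj hk).1
          have h8 : side x'.2 = side y.2 := (Prod.mk.inj hk).2
          rcases h6 with h6 | h6
          · exact Prod.ext h7 (h6.trans h4.symm)
          · rw [h6, h4] at h8
            exact absurd h8 (zmod2_add_one_ne _)
      · have hk := key 1 (by rw [h4, hL.side_μ]) (by rw [h5, hL.side_μ])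
        rcases hk with hk | hk
        · left
          have h7 : x'.1 = x.1 := (Prod.mk.inj hk).1
          have h8 : side x'.2 = side x.2 := (Prod.mk.inj hk).2
          rcases h6 with h6 | h6
          · exact Prod.ext h7 h6
          · rw [h6, hL.side_μ] at h8
            exact absurd h8 (zmod2_add_one_ne _)
        · right
          have h7 : x'.1 = y.1 := (Prod.mk.inj hk).1
          have h8 : side x'.2 = side y.2 := (Prod.mk.inj hk).2
          rcases h6 with h6 | h6
          · rw [h6, h4, hL.side_μ] at h8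
            exact absurd h8.symm (zmod2_add_one_ne _)
          · exact Prod.ext h7 (h6.trans h4.symm)

end

/-- Step II. -/
theorem stepII {K V A J : Type} [Field K] [CharP K 2] [Fintype K] [CommGroup V] [Zero A]
    [Fintype A] [Fintype J] (P : Pack K V) (k : ℕ) (hk : 1 ≤ k)
    (hA : Fintype.card A = 2 * k + 2) (hJ : Fintype.card J = 2 * k + 2)
    {S : A → J → ℤ} (hS : IsH S) {g : J → J → A} (hg : IsOF g) (hsp : IsSplit S g)
    {μ : J → J} (hμ : IsRB g μ) {L : J → J → A} {side : J → ZMod 2} (hL : IsLam L μ side)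
    {h : J → J → ZMod (2 * k)} (hh : IsHC h μ) (Sc : Sched V k μ L g h)
    (hm : Mate (K × ZMod 2)) : HasPD (Fintype.card K * (2 * k + 2)) := by
  classical
  obtain ⟨rK, r0, rs, ri, rm⟩ := hm
  obtain ⟨B, hB⟩ := exists_II (hA.trans hJ.symm) hg hsp hμ.inv hL Sc
  obtain ⟨t, ht⟩ := exists_th (J := J) P
  have : NeZero (2 * k) := ⟨by omega⟩
  refine ⟨K × A, K × J, (K × ZMod 2) ⊕ (K × ZMod (2 * k)), inferInstance, zM K k, inferInstance,
    inferInstance, inferInstance, tens P.φ S, B.G P, rd P Sc side t rK, ?_, ?_, ?_,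
    isH_tens P.φ (P.c 1) (P.φ_c 1) hS, B.isOF_G P, isOF_rd P Sc hμ hL hh ht r0 rs ri,
    B.isSplit_G P hS.sign, isOrth_rd P hB hS.sign hμ hL ht rm⟩
  · rw [Fintype.card_prod, hA]
  · rw [Fintype.card_prod, hJ]
  · rw [Fintype.card_sum, Fintype.card_prod, Fintype.card_prod, ZMod.card, ZMod.card]
    ring

end Pool.Agent.Lib.MP_db622c_co.CB
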