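import Pool.Agent.Lib.MP_db622c_co.CB.Blow
import Pool.Agent.Lib.MP_db622c_co.CB.RB
import Pool.Agent.Lib.MP_db622c_co.CB.Rows
import Pool.Agent.Lib.MP_db622c_co.CB.Match
import Pool.Agent.Lib.MP_db622c_co.CB.StepII2

/-!
# CB-StepI: from a Hadamard matrix to a sign compatible one-factorization with a rainbow
perfect matching
-/

namespace Pool.Agent.Lib.MP_db622c_co.CB

open Pool.Agent.Lib.MP_db622c_co

/-- representatives of the orbits of two commuting involutions -/
theorem exists_rep {J : Type*} (p f : J → J) (hp : ∀ j, p (p j) = j) (hf : ∀ j, f (f j) = j)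
    (hc : ∀ j, f (p j) = p (f j)) :
    ∃ rep : J → J, (∀ j, rep (p j) = rep j) ∧ (∀ j, rep (f j) = rep j) ∧
      ∀ j, j = rep j ∨ j = p (rep j) ∨ j = f (rep j) ∨ j = p (f (rep j)) := by
  classical
  let r : Setoid J :=
    { r := fun x y => x = y ∨ x = p y ∨ x = f y ∨ x = p (f y)
      iseqv := by
        refine ⟨fun x => Or.inl rfl, ?_, ?_⟩
        · rintro x y (h | h | h | h)
          · exact Or.inl h.symm
          · exact Or.inr (Or.inl (by rw [h, hp]))
          · exact Or.inr (Or.inr (Or.inl (by rw [h, hf])))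
          · exact Or.inr (Or.inr (Or.inr (by rw [h, hc, hf, hp])))
        · rintro x y z (h | h | h | h) (h' | h' | h' | h') <;> rw [h, h'] <;>
            simp [hp, hf, hc] }
  refine ⟨fun j => (Quotient.mk r j).out, ?_, ?_, ?_⟩
  · intro j
    exact congrArg Quotient.out (Quotient.sound (s := r) (Or.inr (Or.inl rfl)))
  · intro j
    exact congrArg Quotient.out (Quotient.sound (s := r) (Or.inr (Or.inr (Or.inl rfl))))
  · intro j
    have h := Setoid.symm' r (Quotient.mk_out (s := r) j)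
    exact h

section

variable {V A J : Type} [Zero A] [Fintype A] [Fintype J] [Fintype V]

/-- The blow-up data of step I. -/
theorem exists_I (c m : ℕ) (hc : 2 ≤ c) (hm : Odd m)
    (hA : Fintype.card A = 2 ^ (c + 1) * m) (hJ : Fintype.card J = 2 ^ (c + 1) * m)
    {S : A → J → ℤ} (hS : IsH S) (hV : Fintype.card A * Fintype.card J ≤ Fintype.card V) :
    ∃ (B : Blow S V) (μ0 : J → J) (μ : V → J → J), IsRB B.g μ0 ∧ (∀ α, IsRB (B.L α) (μ α)) ∧
      (∀ j k, B.σ j k = 1) ∧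
      (∀ i j, i ≠ 0 → ¬ B.dir i j → ∀ j', B.L (B.al i j) j' (μ (B.al i j) j') ≠ B.cc i j) ∧
      (∀ i j i' j', i ≠ 0 → i' ≠ 0 → ¬ B.dir i j → ¬ B.dir i' j' → B.al i j = B.al i' j' →
        i = i') := by
  classical
  have hAJ : Fintype.card A = Fintype.card J := hA.trans hJ.symm
  obtain ⟨g, μ0, hg, hμ0⟩ := exists_rb (A := A) (J := J) c m hc hm hA hJ
  -- partners
  have hex : ∀ (i : A) (j : J), ∃ k, i ≠ 0 → k ≠ j ∧ g j k = i := by
    intro i j
    by_cases hi : i = 0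
    · exact ⟨j, fun h => absurd hi h⟩
    · obtain ⟨k, hk⟩ := hg.exists_partner hAJ j i hi
      exact ⟨k, fun _ => hk⟩
  choose p hp using hex
  have p_ne : ∀ i j, i ≠ 0 → p i j ≠ j := fun i j hi => (hp i j hi).1
  have g_p : ∀ i j, i ≠ 0 → g j (p i j) = i := fun i j hi => (hp i j hi).2
  have p_p : ∀ i j, i ≠ 0 → p i (p i j) = j := by
    intro i j hi
    refine hg.inj (p i j) _ _ (p_ne i _ hi) (p_ne i j hi).symm ?_
    rw [g_p i _ hi, hg.symm, g_p i j hi]
  -- the matchings of the boards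
  have hex2 : ∀ i : A, ∃ f : J → J, i ≠ 0 → (∀ j, f (f j) = j) ∧ (∀ j, S i (f j) = - S i j) ∧
      (∀ j, f (p i j) = p i (f j)) ∧ (∀ j, S i (p i j) = - S i j → f j = p i j) := by
    intro i
    by_cases hi : i = 0
    · exact ⟨id, fun h => absurd hi h⟩
    · obtain ⟨f, hf⟩ := exists_match (S i) (hS.sign i) (card_pos_eq_card_neg hS i hi) (p i)
        (fun j => p_p i j hi) (fun j => p_ne i j hi)
      exact ⟨f, fun _ => hf⟩
  choose f hf using hex2
  have f_f : ∀ i j, i ≠ 0 → f i (f i j) = j := fun i j hi => (hf i hi).1 j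
  have f_s : ∀ i j, i ≠ 0 → S i (f i j) = - S i j := fun i j hi => (hf i hi).2.1 j
  have f_p : ∀ i j, i ≠ 0 → f i (p i j) = p i (f i j) := fun i j hi => (hf i hi).2.2.1 j
  have f_d : ∀ i j, i ≠ 0 → S i (p i j) = - S i j → f i j = p i j :=
    fun i j hi => (hf i hi).2.2.2 j
  -- representatives
  have hex3 : ∀ i : A, ∃ rep : J → J, i ≠ 0 → (∀ j, rep (p i j) = rep j) ∧
      (∀ j, rep (f i j) = rep j) ∧
      ∀ j, j = rep j ∨ j = p i (rep j) ∨ j = f i (rep j) ∨ j = p i (f i (rep j)) := by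
    intro i
    by_cases hi : i = 0
    · exact ⟨id, fun h => absurd hi h⟩
    · obtain ⟨rep, hrep⟩ := exists_rep (p i) (f i) (fun j => p_p i j hi) (fun j => f_f i j hi)
        (fun j => f_p i j hi)
      exact ⟨rep, fun _ => hrep⟩
  choose rep hrep using hex3
  let D : A → J → Prop := fun i j => S i (p i j) = - S i j
  have D_p : ∀ i j, i ≠ 0 → (D i (p i j) ↔ D i j) := by
    intro i j hi
    show S i (p i (p i j)) = - S i (p i j) ↔ S i (p i j) = - S i j
    rw [p_p i j hi]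
    constructor <;> intro h <;> rw [h, neg_neg]
  have D_f : ∀ i j, i ≠ 0 → (D i (f i j) ↔ D i j) := by
    intro i j hi
    show S i (p i (f i j)) = - S i (f i j) ↔ S i (p i j) = - S i j
    rw [← f_p i j hi, f_s i _ hi, f_s i j hi]
    constructor
    · intro h; exact neg_injective h
    · intro h; rw [h]
  have D_rep : ∀ i j, i ≠ 0 → (D i (rep i j) ↔ D i j) := by
    intro i j hi
    rcases (hrep i hi).2.2 j with h | h | h | h
    · nth_rewrite 2 [h]; exact Iff.rfl
    · nth_rewrite 2 [h]; exact (D_p i _ hi).symm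
    · nth_rewrite 2 [h]; exact (D_f i _ hi).symm
    · nth_rewrite 2 [h]; exact ((D_p i _ hi).trans (D_f i _ hi)).symm
  -- columns
  have hcard : Fintype.card (A × J) ≤ Fintype.card V := by
    rw [Fintype.card_prod]; exact hV
  obtain ⟨ι⟩ := Function.Embedding.nonempty_of_card_le hcard
  -- distinct points
  have hdis : ∀ i x, i ≠ 0 → ¬ D i x → x ≠ p i x ∧ x ≠ f i x ∧ x ≠ p i (f i x) ∧
      p i x ≠ f i x ∧ p i x ≠ p i (f i x) ∧ f i x ≠ p i (f i x) := by
    intro i x hi hd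
    have h1 : S i (p i x) = S i x := by
      have hd' : ¬ S i (p i x) = - S i x := hd
      rcases hS.sign i (p i x) with h | h <;> rcases hS.sign i x with h' | h' <;>
        rw [h, h'] at hd' ⊢ <;> simp at hd'
    have h2 : S i (f i x) = - S i x := f_s i x hi
    have h3 : S i (p i (f i x)) = - S i x := by
      rw [← f_p i x hi, f_s i _ hi, h1]
    have h4 : S i x ≠ - S i x := by
      rcases hS.sign i x with h | h <;> rw [h] <;> norm_num
    refine ⟨(p_ne i x hi).symm, ?_, ?_, ?_, ?_, (p_ne i _ hi).symm⟩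
    · intro h; exact h4 (by rw [← h2, ← h])
    · intro h; exact h4 (by rw [← h3, ← h])
    · intro h; exact h4 (by rw [← h2, ← h, h1])
    · intro h; exact h4 (by rw [← h3, ← h, h1])
  -- rows of the trades
  have hex4 : ∀ (i : A) (x : J), ∃ a : A, i ≠ 0 → ¬ D i x → a ≠ 0 ∧ S a x = S a (f i x) ∧
      S a (p i x) = S a (p i (f i x)) ∧ S a x = - S a (p i x) := by
    intro i x
    by_cases hi : i ≠ 0 ∧ ¬ D i x
    · obtain ⟨d1, d2, d3, d4, d5, d6⟩ := hdis i x hi.1 hi.2
      obtain ⟨a, ha⟩ := exists_row hAJ hS x (p i x) (f i x) (p i (f i x)) d1 d2 d3 d4 d5 d6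
      exact ⟨a, fun _ _ => ha⟩
    · exact ⟨0, fun h h' => absurd ⟨h, h'⟩ hi⟩
  choose row hrow using hex4
  -- one-factorizations of the columns
  have hex5 : ∀ α : V, ∃ (G : J → J → A) (μ : J → J), IsOF G ∧ IsRB G μ ∧
      ∀ i x, ι (i, x) = α → i ≠ 0 → ¬ D i x → G x (f i x) = row i x ∧
        G (p i x) (p i (f i x)) = row i x ∧ ∀ j, G j (μ j) ≠ row i x := by
    intro α
    by_cases h : ∃ i x, ι (i, x) = α ∧ i ≠ 0 ∧ ¬ D i x
    · obtain ⟨i, x, hα, hi, hd⟩ := h
      obtain ⟨d1, d2, d3, d4, d5, d6⟩ := hdis i x hi hd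
      obtain ⟨G, μ, h1, h2, h3, h4, h5⟩ := exists_rb_edges (A := A) (J := J) c m hc hm hA hJ
        x (p i x) (f i x) (p i (f i x)) d1 d2 d3 d4 d5 d6 (row i x) (hrow i x hi hd).1
      refine ⟨G, μ, h1, h2, ?_⟩
      intro i' x' hα' _ _
      have h6 : (i', x') = (i, x) := ι.injective (hα'.trans hα.symm)
      obtain ⟨rfl, rfl⟩ := Prod.mk.inj h6
      exact ⟨h3, h4, h5⟩
    · exact ⟨g, μ0, hg, hμ0, fun i x h1 h2 h3 => absurd ⟨i, x, h1, h2, h3⟩ h⟩
  choose G μ hG hGμ hGe using hex5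
  refine ⟨{
    g := g
    p := p
    q := f
    L := fun α j k => if j = k then 0 else G α j k
    σ := fun _ _ => 1
    dir := D
    al := fun i j => ι (i, rep i j)
    cc := fun i j => row i (rep i j)
    hg := hg
    p_ne := p_ne
    g_p := g_p
    q_q := f_f
    q_split := f_s
    L_symm := ?_
    L_inj := ?_
    σ_symm := fun _ _ => rfl
    dir_p := D_p
    dir_q := D_f
    q_dir := fun i j hi hd => f_d i j hi hd
    al_p := ?_
    al_q := ?_
    cc_p := ?_
    cc_q := ?_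
    al_inj := ?_
    L_cc := ?_
    cc_split := ?_ }, μ0, μ, hμ0, ?_, fun _ _ => rfl, ?_, ?_⟩
  · intro α j k
    by_cases h : j = k
    · simp [h]
    · rw [if_neg h, if_neg (Ne.symm h), (hG α).symm]
  · intro α j k k' h
    by_cases h1 : j = k <;> by_cases h2 : j = k'
    · rw [← h1, ← h2]
    · rw [if_pos h1, if_neg h2] at h
      exact absurd h.symm ((hG α).ne _ _ h2)
    · rw [if_neg h1, if_pos h2] at h
      exact absurd h ((hG α).ne _ _ h1)
    · rw [if_neg h1, if_neg h2] at h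
      exact (hG α).inj j k k' (Ne.symm h1) (Ne.symm h2) h
  · intro i j hi _
    show ι (i, rep i (p i j)) = ι (i, rep i j)
    rw [(hrep i hi).1]
  · intro i j hi _
    show ι (i, rep i (f i j)) = ι (i, rep i j)
    rw [(hrep i hi).2.1]
  · intro i j hi _
    show row i (rep i (p i j)) = row i (rep i j)
    rw [(hrep i hi).1]
  · intro i j hi _
    show row i (rep i (f i j)) = row i (rep i j)
    rw [(hrep i hi).2.1]
  · intro i i' j _ _ _ _ h
    exact (Prod.mk.inj (ι.injective h)).1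
  · intro i j hi hd
    have hd' : ¬ D i (rep i j) := fun h => hd ((D_rep i j hi).1 h)
    obtain ⟨h1, h2, -⟩ := hGe (ι (i, rep i j)) i (rep i j) rfl hi hd'
    have h3 : j ≠ f i j := (hdis i j hi hd).2.1
    show (if j = f i j then 0 else G (ι (i, rep i j)) j (f i j)) = row i (rep i j)
    rw [if_neg h3]
    have h4 := (hrep i hi).2.2 j
    generalize rep i j = x at *
    have hs := (hG (ι (i, x))).symm
    rcases h4 with h | h | h | h <;> rw [h]
    · exact h1
    · rw [f_p i x hi]; exact h2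
    · rw [f_f i x hi, hs]; exact h1
    · rw [f_p i _ hi, f_f i x hi, hs]; exact h2
  · intro i j hi hd
    have hd' : ¬ D i (rep i j) := fun h => hd ((D_rep i j hi).1 h)
    obtain ⟨-, r1, r2, r3⟩ := hrow i (rep i j) hi hd'
    show S (row i (rep i j)) (p i j) = - S (row i (rep i j)) j
    have h4 := (hrep i hi).2.2 j
    generalize rep i j = x at *
    rcases h4 with h | h | h | h <;> rw [h]
    · rw [r3, neg_neg]
    · rw [p_p i x hi]; exact r3
    · rw [← r2, ← r1, r3, neg_neg]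
    · rw [p_p i _ hi, ← r2, ← r1]; exact r3
  · intro α
    refine ⟨(hGμ α).inv, (hGμ α).ne, ?_⟩
    intro j k h
    have h1 : j ≠ μ α j := ((hGμ α).ne j).symm
    have h2 : k ≠ μ α k := ((hGμ α).ne k).symm
    simp only [if_neg h1, if_neg h2] at h
    exact (hGμ α).rb j k h
  · intro i j hi hd j'
    have hd' : ¬ D i (rep i j) := fun h => hd ((D_rep i j hi).1 h)
    obtain ⟨-, -, h1⟩ := hGe (ι (i, rep i j)) i (rep i j) rfl hi hd'
    have h2 : j' ≠ μ (ι (i, rep i j)) j' := ((hGμ _).ne j').symm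
    show (if j' = μ (ι (i, rep i j)) j' then 0 else G (ι (i, rep i j)) j'
      (μ (ι (i, rep i j)) j')) ≠ row i (rep i j)
    rw [if_neg h2]
    exact h1 j'
  · intro i j i' j' _ _ _ _ h
    exact (Prod.mk.inj (ι.injective h)).1

end

section

variable {K V A J : Type} [Field K] [CommGroup V] [Zero A] [CharP K 2]
  {S : A → J → ℤ}

/-- the unit `(j, k; w)` belongs to the perfect matching of the blow-up -/
def UM (P : Pack K V) (μ0 : J → J) (μ : V → J → J) (j k : J) (w : K) : Prop :=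
  (w = 0 ∧ k = μ0 j) ∨ (w ≠ 0 ∧ k = μ (P.N w) j)

theorem unit_rb (P : Pack K V) (B : Blow S V) {μ0 : J → J} {μ : V → J → J}
    (h0 : IsRB B.g μ0) (h1 : ∀ α, IsRB (B.L α) (μ α)) (hσ : ∀ j k, B.σ j k = 1)
    (hav : ∀ i j, i ≠ 0 → ¬ B.dir i j → ∀ j', B.L (B.al i j) j' (μ (B.al i j) j') ≠ B.cc i j)
    (hal : ∀ i j i' j', i ≠ 0 → i' ≠ 0 → ¬ B.dir i j → ¬ B.dir i' j' → B.al i j = B.al i' j' →
      i = i') {j k j' k' : J} {w w' : K} (hu : UM P μ0 μ j k w) (hu' : UM P μ0 μ j' k' w')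
    (hb : B.bd P j k w = B.bd P j' k' w') : SP j k j' k' ∧ w = w' := by
  have hcol : ∀ (j k : J) (w : K), B.col P j k w = P.N w := by
    intro j k w
    unfold Blow.col
    rw [hσ]; rfl
  have hne : ∀ (j k : J) (w : K), UM P μ0 μ j k w → j ≠ k := by
    intro j k w h
    rcases h with ⟨-, h⟩ | ⟨-, h⟩ <;> rw [h]
    · exact (h0.ne j).symm
    · exact ((h1 _).ne j).symm
  have hw0 : ∀ (j k : J) (w : K), UM P μ0 μ j k w → w = 0 → k = μ0 j := by
    intro j k w h hw
    rcases h with ⟨-, h⟩ | ⟨h', -⟩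
    · exact h
    · exact absurd hw h'
  have hw1 : ∀ (j k : J) (w : K), UM P μ0 μ j k w → w ≠ 0 → k = μ (P.N w) j := by
    intro j k w h hw
    rcases h with ⟨h', -⟩ | ⟨-, h⟩
    · exact absurd h' hw
    · exact h
  have hnm : ∀ (j k : J) (w : K) (i : A), UM P μ0 μ j k w → w ≠ 0 → ¬ B.mv P j k w i := by
    intro j k w i h hw hi
    obtain ⟨g0, g1, g2, g3, -⟩ := hi
    have h2 := B.L_cc i j g0 g1
    rw [g3, hw1 j k w h hw] at h2
    rw [hcol] at g2
    rw [← g2] at h2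
    exact hav i j g0 g1 j h2
  have hzr : ∀ (j k j' k' : J) (w' : K), j ≠ k → ¬ B.dir (B.g j k) j → UM P μ0 μ j' k' w' →
      w' ≠ 0 → (P.b (B.al (B.g j k) j)⁻¹, B.cc (B.g j k) j) =
        (B.amp P j' k' w', B.cls P j' k' w') → False := by
    intro j k j' k' w' hjk hd hu' hw' hbb
    have g1 : P.b (B.al (B.g j k) j)⁻¹ = B.amp P j' k' w' := congrArg Prod.fst hbb
    have g2 : B.cc (B.g j k) j = B.cls P j' k' w' := congrArg Prod.snd hbb
    have g3 : B.al (B.g j k) j = B.col P j' k' w' := by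
      have h4 := B.N_amp P j' k' hw'
      rw [← g1, P.N_b] at h4
      exact inv_injective h4
    unfold Blow.cls at g2
    rw [← g3, hw1 j' k' w' hu' hw', ← hcol j' k' w', ← g3] at g2
    exact hav _ _ (B.g_ne hjk) hd j' g2.symm
  rcases B.bd_cases P j k w (Or.inl (hne _ _ _ hu)) with ⟨hw, hjk, hd, e⟩ | ⟨hw, hjk, hd, e⟩ |
    ⟨hw, i, hi, e⟩ | ⟨hw, hi, e⟩
  · rcases B.bd_cases P j' k' w' (Or.inl (hne _ _ _ hu')) with ⟨hw', hjk', hd', e'⟩ |
      ⟨hw', hjk', hd', e'⟩ | ⟨hw', i', hi', e'⟩ | ⟨hw', hi', e'⟩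
    · rw [e, e'] at hb
      have g1 := hw0 _ _ _ hu hw
      have g2 := hw0 _ _ _ hu' hw'
      have g3 : B.g j k = B.g j' k' := congrArg Prod.snd hb
      rw [g1, g2] at g3
      refine ⟨?_, hw.trans hw'.symm⟩
      rcases h0.rb j j' g3 with g4 | g4
      · left; exact ⟨g4, by rw [g1, g2, g4]⟩
      · right; exact ⟨by rw [g1, g4], by rw [g2, g4, h0.inv]⟩
    · rw [e, e'] at hb
      exact absurd (congrArg Prod.fst hb).symm (P.b_ne _)
    · exact absurd hi' (hnm _ _ _ _ hu' hw')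
    · rw [e, e'] at hb
      exact absurd (congrArg Prod.fst hb).symm (B.amp_ne P _ _ hw')
  · rcases B.bd_cases P j' k' w' (Or.inl (hne _ _ _ hu')) with ⟨hw', hjk', hd', e'⟩ |
      ⟨hw', hjk', hd', e'⟩ | ⟨hw', i', hi', e'⟩ | ⟨hw', hi', e'⟩
    · rw [e, e'] at hb
      exact absurd (congrArg Prod.fst hb) (P.b_ne _)
    · rw [e, e'] at hb
      have g0 : P.b (B.al (B.g j k) j)⁻¹ = P.b (B.al (B.g j' k') j')⁻¹ := congrArg Prod.fst hb
      have g0' : B.al (B.g j k) j = B.al (B.g j' k') j' := by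
        have h5 := congrArg P.N g0
        rw [P.N_b, P.N_b] at h5
        exact inv_injective h5
      have g1 := hw0 _ _ _ hu hw
      have g2 := hw0 _ _ _ hu' hw'
      have g3 : B.g j k = B.g j' k' := hal _ _ _ _ (B.g_ne hjk) (B.g_ne hjk') hd hd' g0'
      rw [g1, g2] at g3
      refine ⟨?_, hw.trans hw'.symm⟩
      rcases h0.rb j j' g3 with g4 | g4
      · left; exact ⟨g4, by rw [g1, g2, g4]⟩
      · right; exact ⟨by rw [g1, g4], by rw [g2, g4, h0.inv]⟩
    · exact absurd hi' (hnm _ _ _ _ hu' hw')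
    · rw [e, e'] at hb
      exact (hzr _ _ _ _ _ hjk hd hu' hw' hb).elim
  · exact absurd hi (hnm _ _ _ _ hu hw)
  · rcases B.bd_cases P j' k' w' (Or.inl (hne _ _ _ hu')) with ⟨hw', hjk', hd', e'⟩ |
      ⟨hw', hjk', hd', e'⟩ | ⟨hw', i', hi', e'⟩ | ⟨hw', hi', e'⟩
    · rw [e, e'] at hb
      exact absurd (congrArg Prod.fst hb) (B.amp_ne P _ _ hw)
    · rw [e, e'] at hb
      exact (hzr _ _ _ _ _ hjk' hd' hu hw hb.symm).elim
    · exact absurd hi' (hnm _ _ _ _ hu' hw')
    · rw [e, e'] at hb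
      have g3 : B.amp P j k w = B.amp P j' k' w' := congrArg Prod.fst hb
      have g4 : B.cls P j k w = B.cls P j' k' w' := congrArg Prod.snd hb
      have g5 := B.col_of_amp P hw hw' g3
      have g1 := hw1 _ _ _ hu hw
      have g2 := hw1 _ _ _ hu' hw'
      unfold Blow.cls at g4
      rw [g5, hcol] at g4
      rw [hcol, hcol] at g5
      rw [g5] at g1
      rw [g1, g2] at g4
      have hsp : SP j k j' k' := by
        rcases (h1 _).rb j j' g4 with g6 | g6
        · left; exact ⟨g6, by rw [g1, g2, g6]⟩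
        · right; exact ⟨by rw [g1, g6], by rw [g2, g6, (h1 _).inv]⟩
      refine ⟨hsp, ?_⟩
      rcases hsp with ⟨g6, g7⟩ | ⟨g6, g7⟩
      · rw [g6, g7] at g3
        exact B.amp_inj P j k hw hw' g3
      · rw [g6, g7, B.amp_symm P k j] at g3
        exact B.amp_inj P j k hw hw' g3

end

/-- Step I. -/
theorem stepI {K V : Type} [Field K] [CharP K 2] [Fintype K] [CommGroup V] [Fintype V]
    (P : Pack K V) (c m : ℕ) (hc : 2 ≤ c) (hm : Odd m)
    (hH : HasHad (2 ^ (c + 1) * m)) (hV : (2 ^ (c + 1) * m) ^ 2 ≤ Fintype.card V) :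
    HasSR (Fintype.card K * (2 ^ (c + 1) * m)) := by
  classical
  obtain ⟨A, J, _, _, _, S, hA, hJ, hS⟩ := hH
  obtain ⟨B, μ0, μ, h0, h1, hσ, hav, hal⟩ := exists_I (V := V) c m hc hm hA hJ hS
    (by rw [hA, hJ, ← sq]; exact hV)
  obtain ⟨t, ht⟩ := exists_th (J := J) P
  -- the matching
  let kk : K → J → J := fun x j => if x = 0 then μ0 j else μ (P.N x / P.N P.θ) j
  have kk_ne : ∀ x j, kk x j ≠ j := by
    intro x j
    by_cases hx : x = 0
    · simp only [kk, hx, if_true]; exact h0.ne j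
    · simp only [kk, hx, if_false]; exact (h1 _).ne j
  let M : K × J → K × J := fun x => (x.1 + x.1 / t x.2 (kk x.1 x.2), kk x.1 x.2)
  have hw : ∀ x : K × J, x.1 + (M x).1 = x.1 / t x.2 (kk x.1 x.2) := fun x =>
    add_add_self x.1 _
  have hx1 : ∀ x : K × J, (M x).1 = t (kk x.1 x.2) x.2 * (x.1 / t x.2 (kk x.1 x.2)) := by
    intro x
    have h2 := ht.ne x.2 (kk x.1 x.2)
    show x.1 + x.1 / t x.2 (kk x.1 x.2) = _
    rw [ht.anti x.2 _ (kk_ne x.1 x.2).symm, add_mul, one_mul, mul_div_cancel₀ _ h2]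
    ring
  have hU : ∀ x : K × J, UM P μ0 μ x.2 (M x).2 (x.1 + (M x).1) := by
    intro x
    rw [hw x]
    by_cases hx : x.1 = 0
    · left
      refine ⟨by rw [hx, zero_div], ?_⟩
      show kk x.1 x.2 = μ0 x.2
      simp only [kk, hx, if_true]
    · right
      refine ⟨div_ne_zero hx (ht.ne _ _), ?_⟩
      rw [P.N_div hx (ht.ne _ _), ht.N]
      show kk x.1 x.2 = _
      simp only [kk, hx, if_false]
  have hMM : ∀ x, M (M x) = x := by
    intro x
    have h2 : kk (M x).1 (kk x.1 x.2) = x.2 := by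
      by_cases hx : x.1 = 0
      · have h3 : (M x).1 = 0 := by rw [hx1, hx, zero_div, mul_zero]
        simp only [kk, h3, hx, if_true]
        exact h0.inv _
      · have h3 : x.1 / t x.2 (kk x.1 x.2) ≠ 0 := div_ne_zero hx (ht.ne _ _)
        have h4 : (M x).1 ≠ 0 := by rw [hx1]; exact mul_ne_zero (ht.ne _ _) h3
        have h5 : P.N (M x).1 = P.N x.1 := by
          rw [hx1, P.N_mul _ _ (ht.ne _ _) h3, P.N_div hx (ht.ne _ _), ht.N, ht.N,
            mul_div_cancel]
        have h6 : kk x.1 x.2 = μ (P.N x.1 / P.N P.θ) x.2 := by simp only [kk, hx, if_false]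
        have h7 : ∀ j, kk (M x).1 j = μ (P.N x.1 / P.N P.θ) j := by
          intro j
          simp only [kk, h4, if_false, h5]
        rw [h7, h6]
        exact (h1 _).inv _
    refine Prod.ext ?_ h2
    show (M x).1 + (M x).1 / t (kk x.1 x.2) (kk (M x).1 (kk x.1 x.2)) = x.1
    rw [h2]
    have h3 := hx1 x
    have h4 : (M x).1 / t (kk x.1 x.2) x.2 = x.1 / t x.2 (kk x.1 x.2) := by
      rw [h3, mul_div_cancel_left₀ _ (ht.ne _ _)]
    rw [h4]
    show x.1 + x.1 / t x.2 (kk x.1 x.2) + x.1 / t x.2 (kk x.1 x.2) = x.1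
    rw [add_assoc, add_self, add_zero]
  refine ⟨K × A, K × J, inferInstance, inferInstance, inferInstance, tens P.φ S, B.G P, M,
    ?_, ?_, isH_tens P.φ (P.c 1) (P.φ_c 1) hS, B.isOF_G P, B.isSplit_G P hS.sign, hMM, ?_, ?_⟩
  · rw [Fintype.card_prod, hA]
  · rw [Fintype.card_prod, hJ]
  · intro x h2
    exact kk_ne x.1 x.2 (congrArg Prod.snd h2)
  · intro x y hxy
    obtain ⟨h2, h3⟩ := unit_rb P B h0 h1 hσ hav hal (hU x) (hU y) hxy
    -- `x.1 = t * w`
    have hx2 : ∀ x : K × J, x.1 = t x.2 (M x).2 * (x.1 + (M x).1) := by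
      intro x
      rw [hw x]
      show x.1 = t x.2 (kk x.1 x.2) * (x.1 / t x.2 (kk x.1 x.2))
      rw [mul_div_cancel₀ _ (ht.ne _ _)]
    rcases h2 with ⟨h4, h5⟩ | ⟨h4, h5⟩
    · left
      refine Prod.ext ?_ h4
      rw [hx2 y, hx2 x, h4, h5, h3]
    · right
      refine Prod.ext ?_ h4
      rw [hx2 y, h4, h5, ← h3, hw x]
      exact (hx1 x).symm

end Pool.Agent.Lib.MP_db622c_co.CB
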