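import Pool.Agent.Lib.MP_db622c_co.CB.ToCBHR
import Pool.Agent.Lib.MP_db622c_co.CB.HadAll
import Pool.Agent.Lib.MP_db622c_co.CB.PackEx
import Pool.Agent.Lib.MP_db622c_co.CB.HC
import Pool.Agent.Lib.MP_db622c_co.CB.LamProd
import Pool.Agent.Lib.MP_db622c_co.CB.SchedEx
import Pool.Agent.Lib.MP_db622c_co.CB.StepI
import Pool.Agent.Lib.MP_db622c_co.CB.PaleyBase2

/-!
# CB-Fin: complete balanced Howell rotations on `2 ^ t * m` partnerships, `t` large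
-/

namespace Pool.Agent.Lib.MP_db622c_co.CB

open Pool.Agent.Lib.MP_db622c_co

theorem hasHad_double {n : ℕ} (h : HasHad n) : HasHad (2 * n) := by
  obtain ⟨A, J, _, _, _, S, hA, hJ, hS⟩ := h
  refine ⟨ZMod 2 × A, ZMod 2 × J, inferInstance, inferInstance, inferInstance,
    tens (AddMonoidHom.id (ZMod 2)) S, ?_, ?_, isH_tens _ 1 rfl hS⟩
  · rw [Fintype.card_prod, hA, ZMod.card]
  · rw [Fintype.card_prod, hJ, ZMod.card]

theorem hasHad_pow (m s j : ℕ) (h : HasHad (2 ^ s * m)) : HasHad (2 ^ (s + j) * m) := by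
  induction j with
  | zero => exact h
  | succ j ih =>
    have h1 := hasHad_double ih
    have h2 : 2 * (2 ^ (s + j) * m) = 2 ^ (s + (j + 1)) * m := by ring
    rwa [h2] at h1

theorem mate_prod {K : Type} [Field K] [CharP K 2] [Fintype K] (t : ℕ) (ht : 2 ≤ t)
    (hK : Fintype.card K = 2 ^ t) : Mate (K × ZMod 2) := by
  let : Algebra (ZMod 2) K := ZMod.algebra K 2
  have h1 : Module.finrank (ZMod 2) K = t := by
    have h1 := Module.card_eq_pow_finrank (K := ZMod 2) (V := K)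
    rw [hK, ZMod.card] at h1
    exact (Nat.pow_right_injective (le_refl 2) h1).symm
  have h2 : Module.finrank (ZMod 2) (K × ZMod 2) = t + 1 := by
    rw [Module.finrank_prod, h1, Module.finrank_self]
  have h3 : Module.finrank (ZMod 2) (GaloisField 2 (t + 1)) = t + 1 :=
    GaloisField.finrank 2 (by omega)
  have e : GaloisField 2 (t + 1) ≃ₗ[ZMod 2] (K × ZMod 2) :=
    LinearEquiv.ofFinrankEq _ _ (h3.trans h2.symm)
  exact Mate.transport e.toAddEquiv (mate_galois (t + 1) (by omega))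

/-- Step I with numbers. -/
theorem hasSR_of_hasHad (c m r : ℕ) (hc : 2 ≤ c) (hm : Odd m) (h : HasHad (2 ^ (c + 1) * m))
    (hr : (2 ^ (c + 1) * m) ^ 2 < 2 ^ r) : HasSR (2 ^ (c + 1 + 2 * r) * m) := by
  have hr1 : 1 ≤ r := by
    by_contra h0
    have : r = 0 := by omega
    subst this
    have h2 : 0 < (2 ^ (c + 1) * m) ^ 2 := by
      have := hm.pos
      positivity
    omega
  obtain ⟨K, V, _, _, _, _, _, hK, hV, ⟨P⟩⟩ := exists_pack r 2 hr1 (le_refl 2)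
  have h1 := stepI P c m hc hm h (by rw [hV]; omega)
  rw [hK] at h1
  have h2 : 2 ^ (2 * r) * (2 ^ (c + 1) * m) = 2 ^ (c + 1 + 2 * r) * m := by
    rw [pow_add 2 (c + 1) (2 * r)]; ring
  rwa [h2] at h1

/-- Step II with numbers. -/
theorem hasCBHR_of_hasSR (s m r d : ℕ) (hs : Odd s) (h3 : 3 ≤ s) (hm : Odd m)
    (h : HasSR (2 ^ s * m)) (hd : 2 ≤ d) (hr : (2 ^ s * m) ^ 3 ≤ 2 ^ r) :
    HasCBHR (2 ^ (s + d * r) * m) := by
  classical
  obtain ⟨A, J, _, _, _, S, g, μ, hA, hJ, hS, hg, hsp, hμ⟩ := h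
  have hmp := hm.pos
  -- `n = 2 k + 2`
  obtain ⟨k, hk⟩ : ∃ k, 2 ^ s * m = 2 * k + 2 := by
    have h1 : 2 ^ s = 2 * 2 ^ (s - 1) := by
      rw [← pow_succ']; congr 1; omega
    have h2 : 0 < 2 ^ (s - 1) * m := by positivity
    exact ⟨2 ^ (s - 1) * m - 1, by rw [h1, mul_assoc]; omega⟩
  have hn8 : 8 ≤ 2 ^ s * m := by
    have h1 : 2 ^ 3 ≤ 2 ^ s := Nat.pow_le_pow_right (by norm_num) h3
    calc 8 = 2 ^ 3 * 1 := by norm_num
      _ ≤ 2 ^ s * m := Nat.mul_le_mul h1 hmp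
  have hk1 : 1 ≤ k := by omega
  have hr1 : 1 ≤ r := by
    by_contra h0
    have : r = 0 := by omega
    subst this
    have h2 : 8 ^ 3 ≤ (2 ^ s * m) ^ 3 := Nat.pow_le_pow_left hn8 3
    omega
  obtain ⟨L, side, hL⟩ := exists_lam (A := A) (J := J) s m hs h3 hm hA hJ μ hμ.inv hμ.ne
  obtain ⟨h, hh⟩ := exists_hc k hk1 (hJ.trans hk) μ hμ.inv hμ.ne
  obtain ⟨K, V, _, _, _, _, _, hK, hV, ⟨P⟩⟩ := exists_pack r d hr1 hd
  have hVodd : Odd (Fintype.card V) := by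
    rw [hV]
    exact Nat.Even.sub_odd (Nat.one_le_two_pow) ((Nat.even_pow.2 ⟨even_two, by omega⟩)) odd_one
  have hV2 : 2 * k * (Fintype.card (Sym2 J) + 1) ≤ Fintype.card V := by
    rw [hV, Sym2.card, hJ, hk]
    rw [hk] at hr
    have h1 : (2 * k + 2 + 1).choose 2 = (k + 1) * (2 * k + 3) := by
      rw [Nat.choose_two_right]
      have : (2 * k + 2 + 1) * (2 * k + 2 + 1 - 1) = (k + 1) * (2 * k + 3) * 2 := by
        rw [Nat.add_sub_cancel]; ring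
      rw [this, Nat.mul_div_cancel _ (by norm_num)]
    rw [h1]
    have h2 : 2 * k * ((k + 1) * (2 * k + 3) + 1) + 1 ≤ (2 * k + 2) ^ 3 := by
      nlinarith [sq_nonneg k, Nat.zero_le (k ^ 3)]
    omega
  obtain ⟨Sc⟩ := exists_sched V k hk1 (hA.trans hk) (hJ.trans hk) hμ.inv hL hg hh hVodd hV2
  have hdr : 2 ≤ d * r := by nlinarith
  have h1 := stepII P k hk1 (hA.trans hk) (hJ.trans hk) hS hg hsp hμ hL hh Sc
    (mate_prod (d * r) hdr hK)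
  rw [hK, ← hk] at h1
  have h2 : 2 ^ (d * r) * (2 ^ s * m) = 2 ^ (s + d * r) * m := by
    rw [pow_add 2 s (d * r)]; ring
  rw [h2] at h1
  refine hasCBHR_of_hasPD _ (by positivity) ?_ h1
  have h4 : 2 ^ (s + d * r) = 4 * 2 ^ (s + d * r - 2) := by
    rw [show (4 : ℕ) = 2 ^ 2 by norm_num, ← pow_add]; congr 1; omega
  rw [h4, mul_assoc]
  exact Nat.mul_mod_right 4 _

/-- odd `m ≥ 3` -/
theorem hasCBHR_odd (m : ℕ) (hm : Odd m) (h3 : 3 ≤ m) (t : ℕ) (ht : 2 ^ 209 * m ^ 199 ≤ 2 ^ t) :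
    HasCBHR (2 ^ t * m) := by
  obtain ⟨s', hs2, hs3, hH⟩ := exists_hasHad m hm h3
  -- `c + 1` odd, `c + 1 ≤ s' + 2`
  obtain ⟨c, hc1, hc2, hc3⟩ : ∃ c, s' ≤ c + 1 ∧ c + 1 ≤ s' + 1 ∧ True := ⟨s', by omega, by omega,
    trivial⟩
  obtain ⟨c, hc, hco, hcs, hcs'⟩ : ∃ c, 2 ≤ c ∧ Odd (c + 1) ∧ s' ≤ c + 1 ∧ c + 1 ≤ s' + 2 := by
    rcases Nat.even_or_odd s' with h | h
    · exact ⟨s', hs2, h.add_one, by omega, by omega⟩
    · exact ⟨s' + 1, by omega, by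
        have : s' + 1 + 1 = s' + 2 := rfl
        rw [this]; exact h.add_even even_two, by omega, by omega⟩
  have hH' : HasHad (2 ^ (c + 1) * m) := by
    have h1 := hasHad_pow m s' (c + 1 - s') hH
    rwa [show s' + (c + 1 - s') = c + 1 by omega] at h1
  -- `2 ^ μ ≥ m`
  let μ := Nat.clog 2 m
  have hμ1 : m ≤ 2 ^ μ := Nat.le_pow_clog (by norm_num) m
  have hμ2 : 2 ^ μ ≤ 2 * m := by
    have h1 : 2 ^ (μ - 1) < m := Nat.pow_pred_clog_lt_self (by norm_num) (by omega)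
    have h2 : 1 ≤ μ := Nat.clog_pos (by norm_num) (by omega)
    have h4 : 2 ^ μ = 2 * 2 ^ (μ - 1) := by rw [← pow_succ']; congr 1; omega
    omega
  have hs4 : 2 ^ (c + 1) ≤ 4 * m ^ 3 := by
    calc 2 ^ (c + 1) ≤ 2 ^ (s' + 2) := Nat.pow_le_pow_right (by norm_num) hcs'
      _ = 4 * 2 ^ s' := by rw [pow_add]; ring
      _ ≤ 4 * m ^ 3 := Nat.mul_le_mul_left _ hs3
  -- the exponents
  have hT : 50 * (c + 1) + 49 * μ + 60 ≤ t := by
    have h1 : 2 ^ (50 * (c + 1) + 49 * μ + 60) ≤ 2 ^ t := by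
      refine le_trans ?_ ht
      calc 2 ^ (50 * (c + 1) + 49 * μ + 60) = (2 ^ (c + 1)) ^ 50 * (2 ^ μ) ^ 49 * 2 ^ 60 := by
            rw [pow_add, pow_add, ← pow_mul, ← pow_mul, mul_comm (c + 1) 50, mul_comm μ 49]
        _ ≤ (4 * m ^ 3) ^ 50 * (2 * m) ^ 49 * 2 ^ 60 :=
            Nat.mul_le_mul_right _ (Nat.mul_le_mul (Nat.pow_le_pow_left hs4 50)
              (Nat.pow_le_pow_left hμ2 49))
        _ = 2 ^ 209 * m ^ 199 := by ring
    exact (Nat.pow_le_pow_iff_right (by norm_num : 1 < 2)).1 h1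
  -- step I, any `r₁ ≥ 2 (c + 1 + μ) + 1`
  have stI : ∀ r1, 2 * (c + 1 + μ) + 1 ≤ r1 → HasSR (2 ^ (c + 1 + 2 * r1) * m) := by
    intro r1 hr1
    refine hasSR_of_hasHad c m r1 hc hm hH' ?_
    calc (2 ^ (c + 1) * m) ^ 2 ≤ (2 ^ (c + 1) * 2 ^ μ) ^ 2 :=
          Nat.pow_le_pow_left (Nat.mul_le_mul_left _ hμ1) 2
      _ = 2 ^ (2 * (c + 1 + μ)) := by rw [← pow_add, ← pow_mul, mul_comm]
      _ < 2 ^ r1 := Nat.pow_lt_pow_right (by norm_num) (by omega)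
  -- step II
  have stII : ∀ s r d, Odd s → c + 1 ≤ s → (∃ r1, 2 * (c + 1 + μ) + 1 ≤ r1 ∧ s = c + 1 + 2 * r1) →
      2 ≤ d → 3 * (s + μ) ≤ r → t = s + d * r → HasCBHR (2 ^ t * m) := by
    intro s r d hso hcs hs hd hr hts
    obtain ⟨r1, hr1, hs⟩ := hs
    have h1 := stI r1 hr1
    rw [← hs] at h1
    rw [hts]
    refine hasCBHR_of_hasSR s m r d hso (by omega) hm h1 hd ?_
    calc (2 ^ s * m) ^ 3 ≤ (2 ^ s * 2 ^ μ) ^ 3 :=
          Nat.pow_le_pow_left (Nat.mul_le_mul_left _ hμ1) 3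
      _ = 2 ^ (3 * (s + μ)) := by rw [← pow_add, ← pow_mul, mul_comm]
      _ ≤ 2 ^ r := Nat.pow_le_pow_right (by norm_num) hr
  obtain ⟨b, hb⟩ := hco
  rcases Nat.even_or_odd' t with ⟨t', ht' | ht'⟩
  · -- `t` even: `d = 3`, `s = c + 1 + 2 r₁ ≡ t` modulo `3`
    obtain ⟨e, he, q, hq⟩ : ∃ e, e < 3 ∧ ∃ q,
        t = c + 1 + 2 * (2 * (c + 1 + μ) + 1 + e) + 3 * q := by
      refine ⟨(2 * (t - (c + 1 + 2 * (2 * (c + 1 + μ) + 1)))) % 3, Nat.mod_lt _ (by norm_num),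
        (t - (c + 1 + 2 * (2 * (c + 1 + μ) + 1)) -
          2 * ((2 * (t - (c + 1 + 2 * (2 * (c + 1 + μ) + 1)))) % 3)) / 3, ?_⟩
      omega
    refine stII (c + 1 + 2 * (2 * (c + 1 + μ) + 1 + e)) q 3 ⟨b + (2 * (c + 1 + μ) + 1 + e),
      by omega⟩ (by omega) ⟨_, by omega, rfl⟩ (by norm_num) (by omega) hq
  · -- `t` odd: `d = 2`
    refine stII (c + 1 + 2 * (2 * (c + 1 + μ) + 1)) (t' - (b + (2 * (c + 1 + μ) + 1))) 2
      ⟨b + (2 * (c + 1 + μ) + 1), by omega⟩ (by omega) ⟨_, le_refl _, rfl⟩ (le_refl 2)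
      (by omega) (by omega)

theorem hasCBHR_all (m : ℕ) (hm : 1 ≤ m) (t : ℕ) (ht : 2 ^ 209 * m ^ 199 ≤ 2 ^ t) :
    HasCBHR (2 ^ t * m) := by
  obtain ⟨a, m', hm', rfl⟩ : ∃ a m', Odd m' ∧ m = 2 ^ a * m' := by
    obtain ⟨a, m', h1, h2⟩ := Nat.exists_eq_two_pow_mul_odd (n := m) (by omega)
    exact ⟨a, m', h1, h2⟩
  have h1 : 2 ^ t * (2 ^ a * m') = 2 ^ (t + a) * m' := by rw [pow_add]; ring
  rw [h1]
  have hpos : 1 ≤ 2 ^ a := Nat.one_le_two_pow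
  have hm'pos := hm'.pos
  have h2 : 2 ^ 209 * m' ^ 199 ≤ 2 ^ (t + a) := by
    calc 2 ^ 209 * m' ^ 199 ≤ 2 ^ 209 * (2 ^ a * m') ^ 199 :=
          Nat.mul_le_mul_left _ (Nat.pow_le_pow_left (Nat.le_mul_of_pos_left _ hpos) _)
      _ ≤ 2 ^ t := ht
      _ ≤ 2 ^ (t + a) := Nat.pow_le_pow_right (by norm_num) (by omega)
  by_cases hm3 : 3 ≤ m'
  · exact hasCBHR_odd m' hm' hm3 (t + a) h2
  · have hm1 : m' = 1 := by
      obtain ⟨b, hb⟩ := hm'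
      omega
    subst hm1
    rw [mul_one]
    refine hasCBHR_two_pow (t + a) ?_
    have h4 : 2 ^ 209 ≤ 2 ^ (t + a) := by simpa using h2
    have h5 := (Nat.pow_le_pow_iff_right (by norm_num : 1 < 2)).1 h4
    omega

/-- the orders `2 ^ e * (q + 1)` -/
theorem hasCBHR_paley (q e : ℕ) (hq : IsPrimePow q) (h3 : q % 4 = 3) (h7 : 7 ≤ q) (he : 2 ≤ e) :
    HasCBHR (2 ^ e * (q + 1)) := by
  classical
  obtain ⟨p, n, hp, hn, rfl⟩ := (isPrimePow_nat_iff _).1 hq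
  have : Fact p.Prime := ⟨hp⟩
  let F := GaloisField p n
  let : Fintype F := Fintype.ofFinite _
  have hF : Fintype.card F = p ^ n := by
    rw [← Nat.card_eq_fintype_card]
    exact GaloisField.card p n (by omega)
  have h1 := hasPD_paley (F := F) (by rw [hF]; exact h3) (by rw [hF]; exact h7) e he
    (fun K _ _ _ hK => mate_prod e he hK)
  rw [hF] at h1
  refine hasCBHR_of_hasPD _ (by positivity) ?_ h1
  obtain ⟨f, rfl⟩ : ∃ f, e = f + 2 := ⟨e - 2, by omega⟩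
  rw [pow_add, show (2 : ℕ) ^ 2 = 4 by norm_num, mul_assoc, mul_comm, mul_assoc]
  exact Nat.mul_mod_right 4 _

/-- keeping the exact power of a prime in `2 ^ t * m - 1` -/
theorem not_primePow_shift (m t T p b : ℕ) (hp : p.Prime) (hb : b ≠ 0)
    (h1 : p ^ b ∣ 2 ^ t * m - 1) (h2 : ¬ p ^ (b + 1) ∣ 2 ^ t * m - 1) (hx : 1 ≤ 2 ^ t * m)
    (hT0 : 0 < T) (hT : 2 ^ T ≡ 1 [MOD p ^ (b + 1)]) :
    ¬ IsPrimePow (2 ^ (t + T) * m - 1) := by
  intro hX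
  obtain ⟨q, c, hq, hc, hqc⟩ := (isPrimePow_nat_iff _).1 hX
  have hXx : 2 ^ (t + T) * m ≡ 2 ^ t * m [MOD p ^ (b + 1)] := by
    have h6 : 2 ^ (t + T) * m = 2 ^ T * (2 ^ t * m) := by
      rw [pow_add]; ring
    rw [h6]
    calc 2 ^ T * (2 ^ t * m) ≡ 1 * (2 ^ t * m) [MOD p ^ (b + 1)] := Nat.ModEq.mul_right _ hT
      _ = 2 ^ t * m := one_mul _
  have hXgt : 2 ^ t * m < 2 ^ (t + T) * m := by
    have h3 : 0 < m := by
      rcases Nat.eq_zero_or_pos m with h | h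
      · rw [h, mul_zero] at hx; omega
      · exact h
    exact Nat.mul_lt_mul_of_pos_right (Nat.pow_lt_pow_right (by norm_num) (by omega)) h3
  have hdvd : p ^ (b + 1) ∣ (2 ^ (t + T) * m - 1) - (2 ^ t * m - 1) := by
    have h7 := (Nat.modEq_iff_dvd' hXgt.le).1 hXx.symm
    have h8 : (2 ^ (t + T) * m - 1) - (2 ^ t * m - 1) = 2 ^ (t + T) * m - 2 ^ t * m := by omega
    rw [h8]; exact h7
  have hle : 2 ^ t * m - 1 ≤ 2 ^ (t + T) * m - 1 := by omega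
  have hdvd2 : p ^ b ∣ 2 ^ (t + T) * m - 1 := by
    have h9 := Nat.dvd_add ((pow_dvd_pow p (Nat.le_succ b)).trans hdvd) h1
    rwa [Nat.sub_add_cancel hle] at h9
  have hpq : p = q := by
    have h10 : p ∣ q ^ c := by
      rw [hqc]; exact (dvd_pow_self p hb).trans hdvd2
    exact (Nat.prime_dvd_prime_iff_eq hp hq).1 (hp.dvd_of_dvd_pow h10)
  subst hpq
  have hx1 : p ^ b ≤ 2 ^ t * m - 1 := by
    refine Nat.le_of_dvd ?_ h1
    rcases Nat.eq_zero_or_pos (2 ^ t * m - 1) with h | h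
    · exfalso; apply h2; rw [h]; exact dvd_zero _
    · exact h
  have hbc : b < c := by
    apply (Nat.pow_lt_pow_iff_right hp.one_lt).1
    omega
  apply h2
  have h12 : p ^ (b + 1) ∣ 2 ^ (t + T) * m - 1 := by
    rw [← hqc]; exact pow_dvd_pow p hbc
  have h14 : 2 ^ t * m - 1 =
      (2 ^ (t + T) * m - 1) - ((2 ^ (t + T) * m - 1) - (2 ^ t * m - 1)) := by omega
  rw [h14]
  exact Nat.dvd_sub h12 hdvd

/-- infinitely many of these orders `n` have neither `n - 1` nor `n / 2 - 1` a prime power -/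
theorem exists_not_primePow (m : ℕ) (hm : 1 ≤ m) (t0 : ℕ) :
    ∃ t, t0 ≤ t ∧ ¬ IsPrimePow (2 ^ t * m - 1) ∧ ¬ IsPrimePow (2 ^ (t - 1) * m - 1) := by
  have key : ∀ t, 2 ≤ t → ∃ p b, Nat.Prime p ∧ b ≠ 0 ∧ p ≠ 2 ∧ p ^ b ∣ 2 ^ t * m - 1 ∧
      ¬ p ^ (b + 1) ∣ 2 ^ t * m - 1 := by
    intro t ht
    have h4 : 4 ≤ 2 ^ t * m := by
      have h1 : 2 ^ 2 ≤ 2 ^ t := Nat.pow_le_pow_right (by norm_num) ht
      calc 4 = 2 ^ 2 * 1 := by norm_num
        _ ≤ _ := Nat.mul_le_mul h1 hm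
    have hne : 2 ^ t * m - 1 ≠ 1 := by omega
    have hp := Nat.minFac_prime hne
    have hd := Nat.minFac_dvd (2 ^ t * m - 1)
    have hfin : FiniteMultiplicity (Nat.minFac (2 ^ t * m - 1)) (2 ^ t * m - 1) :=
      Nat.finiteMultiplicity_iff.2 ⟨hp.ne_one, by omega⟩
    refine ⟨_, multiplicity (Nat.minFac (2 ^ t * m - 1)) (2 ^ t * m - 1), hp, ?_, ?_,
      pow_multiplicity_dvd _ _, hfin.not_pow_dvd_of_multiplicity_lt (Nat.lt_succ_self _)⟩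
    · have h5 := (hfin.pow_dvd_iff_le_multiplicity (k := 1)).1 (by rwa [pow_one])
      omega
    · intro h2
      rw [h2] at hd
      have heven : 2 ∣ 2 ^ t * m := Dvd.dvd.mul_right (dvd_pow_self 2 (by omega)) m
      omega
  obtain ⟨p, b, hp, hb, hp2, h1, h2⟩ := key (t0 + 3) (by omega)
  obtain ⟨q, c, hq, hc, hq2, h3, h4⟩ := key (t0 + 2) (by omega)
  have hpos : ∀ t, 1 ≤ 2 ^ t * m := fun t => Nat.mul_pos (pow_pos (by norm_num) _) hm
  have hcop : Nat.Coprime 2 (p ^ (b + 1)) :=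
    Nat.Coprime.pow_right _ ((Nat.coprime_primes Nat.prime_two hp).2 (Ne.symm hp2))
  have hcoq : Nat.Coprime 2 (q ^ (c + 1)) :=
    Nat.Coprime.pow_right _ ((Nat.coprime_primes Nat.prime_two hq).2 (Ne.symm hq2))
  set P := Nat.totient (p ^ (b + 1)) with hP
  set Q := Nat.totient (q ^ (c + 1)) with hQ
  have hP0 : 0 < P := Nat.totient_pos.2 (pow_pos hp.pos _)
  have hQ0 : 0 < Q := Nat.totient_pos.2 (pow_pos hq.pos _)
  have hT0 : 0 < P * Q := Nat.mul_pos hP0 hQ0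
  have e1 : 2 ^ (P * Q) ≡ 1 [MOD p ^ (b + 1)] := by
    rw [pow_mul]
    calc (2 ^ P) ^ Q ≡ 1 ^ Q [MOD p ^ (b + 1)] := Nat.ModEq.pow _ (Nat.ModEq.pow_totient hcop)
      _ = 1 := one_pow _
  have e2 : 2 ^ (P * Q) ≡ 1 [MOD q ^ (c + 1)] := by
    rw [mul_comm, pow_mul]
    calc (2 ^ Q) ^ P ≡ 1 ^ P [MOD q ^ (c + 1)] := Nat.ModEq.pow _ (Nat.ModEq.pow_totient hcoq)
      _ = 1 := one_pow _
  refine ⟨t0 + 3 + P * Q, by omega,
    not_primePow_shift m (t0 + 3) (P * Q) p b hp hb h1 h2 (hpos _) hT0 e1, ?_⟩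
  have h5 : t0 + 3 + P * Q - 1 = t0 + 2 + P * Q := by omega
  rw [h5]
  exact not_primePow_shift m (t0 + 2) (P * Q) q c hq hc h3 h4 (hpos _) hT0 e2

/-- all `q`, the case `q = 3` being the powers of two -/
theorem hasCBHR_paley_all (q e : ℕ) (hq : IsPrimePow q) (h3 : q % 4 = 3) (he : 2 ≤ e) :
    HasCBHR (2 ^ e * (q + 1)) := by
  by_cases h7 : 7 ≤ q
  · exact hasCBHR_paley q e hq h3 h7 he
  · have h : q = 3 := by omega
    subst h
    have h1 : 2 ^ e * (3 + 1) = 2 ^ (e + 2) := by rw [pow_add]; norm_num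
    rw [h1]
    exact hasCBHR_two_pow (e + 2) (by omega)

end Pool.Agent.Lib.MP_db622c_co.CB
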