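import Pool.Agent.Lib.MP_db622c_co.CB.Defs2

/-!
# CB-LamOf: symmetric Latin squares from two rainbow perfect matchings
-/

namespace Pool.Agent.Lib.MP_db622c_co.CB

open Pool.Agent.Lib.MP_db622c_co

open Classical in
/-- switch the diagonal with the perfect matching `ν` -/
noncomputable def Lsw {A J : Type*} [Zero A] (g : J → J → A) (ν : J → J) (p q : J) : A :=
  if q = p then g p (ν p) else if q = ν p then 0 else g p q

section

variable {A J : Type*} [Zero A] {g : J → J → A} {ν : J → J}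

theorem Lsw_diag (p : J) : Lsw g ν p p = g p (ν p) := by
  simp [Lsw]

theorem Lsw_sw (hν : IsRB g ν) (p : J) : Lsw g ν p (ν p) = 0 := by
  unfold Lsw
  rw [if_neg (hν.ne p), if_pos rfl]

theorem Lsw_off {p q : J} (h1 : q ≠ p) (h2 : q ≠ ν p) : Lsw g ν p q = g p q := by
  unfold Lsw
  rw [if_neg h1, if_neg h2]

theorem isLam_Lsw (hg : IsOF g) {μ : J → J} (hμ : IsRB g μ) (hν : IsRB g ν)
    {side : J → ZMod 2} (sμ : ∀ j, side (μ j) = side j + 1) (sν : ∀ j, side (ν j) = side j + 1)
    (p0 : J) (h0 : ν p0 = μ p0)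
    (hd : ∀ p q, g p (ν p) = g q (μ q) → (q = p0 ∨ q = μ p0))
    (hs : ∀ c, c ≠ 0 → (∃ p, g p (ν p) = c) ∨ (∃ p, g p (μ p) = c)) :
    IsLam (Lsw g ν) μ side := by
  have h0' : ν (μ p0) = μ (μ p0) := by
    rw [hμ.inv, ← h0, hν.inv]
  have hcom : ∀ q, (q = p0 ∨ q = μ p0) → ν q = μ q := by
    intro q hq
    rcases hq with h | h
    · rw [h]; exact h0
    · rw [h]; exact h0'
  have hcom' : ∀ q, ν q = μ q → (q = p0 ∨ q = μ p0) := by
    intro q hq
    exact hd q q (by rw [hq])
  have gne : ∀ p, g p (ν p) ≠ 0 := fun p => hg.ne _ _ (hν.ne p).symm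
  have gne' : ∀ p, g p (μ p) ≠ 0 := fun p => hg.ne _ _ (hμ.ne p).symm
  have Lμ : ∀ q, ν q ≠ μ q → Lsw g ν q (μ q) = g q (μ q) := by
    intro q hq
    exact Lsw_off (hμ.ne q) (Ne.symm hq)
  have Lμ0 : ∀ q, ν q = μ q → Lsw g ν q (μ q) = 0 := by
    intro q hq
    rw [← hq]; exact Lsw_sw hν q
  refine ⟨?_, ?_, sμ, ?_, ?_, ?_, ?_⟩
  · intro p q
    by_cases h1 : q = p
    · rw [h1]
    · by_cases h2 : q = ν p
      · rw [h2, Lsw_sw hν]
        have h3 : Lsw g ν (ν p) (ν (ν p)) = 0 := Lsw_sw hν (ν p)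
        rw [hν.inv] at h3
        exact h3.symm
      · have h3 : p ≠ ν q := by
          intro h; apply h2; rw [h, hν.inv]
        rw [Lsw_off h1 h2, Lsw_off (Ne.symm h1) h3, hg.symm]
  · intro p q q' h
    by_cases h1 : q = p
    · by_cases h1' : q' = p
      · rw [h1, h1']
      · exfalso
        rw [h1, Lsw_diag] at h
        by_cases h2' : q' = ν p
        · rw [h2', Lsw_sw hν] at h
          exact gne p h
        · rw [Lsw_off h1' h2'] at h
          exact h2' (hg.inj p _ _ (hν.ne p) h1' h).symm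
    · by_cases h1' : q' = p
      · exfalso
        rw [h1', Lsw_diag] at h
        by_cases h2 : q = ν p
        · rw [h2, Lsw_sw hν] at h
          exact gne p h.symm
        · rw [Lsw_off h1 h2] at h
          exact h2 (hg.inj p _ _ h1 (hν.ne p) h)
      · by_cases h2 : q = ν p
        · by_cases h2' : q' = ν p
          · rw [h2, h2']
          · rw [h2, Lsw_sw hν, Lsw_off h1' h2'] at h
            exact absurd h.symm (hg.ne _ _ (Ne.symm h1'))
        · by_cases h2' : q' = ν p
          · rw [h2', Lsw_sw hν, Lsw_off h1 h2] at h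
            exact absurd h (hg.ne _ _ (Ne.symm h1))
          · rw [Lsw_off h1 h2, Lsw_off h1' h2'] at h
            exact hg.inj p _ _ h1 h1' h
  · intro c
    by_cases hc : c = 0
    · refine ⟨p0, μ p0, (hμ.ne p0).symm, Or.inr ?_, Or.inr ?_⟩
      · rw [hc]; exact Lμ0 p0 h0
      · rw [hc]; exact Lμ0 (μ p0) h0'
    · rcases hs c hc with ⟨p, hp⟩ | ⟨p, hp⟩
      · refine ⟨p, ν p, (hν.ne p).symm, Or.inl ?_, Or.inl ?_⟩
        · rw [Lsw_diag]; exact hp
        · rw [Lsw_diag, hν.inv, hg.symm]; exact hp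
      · by_cases hpp : ν p = μ p
        · refine ⟨p, ν p, (hν.ne p).symm, Or.inl ?_, Or.inl ?_⟩
          · rw [Lsw_diag, hpp]; exact hp
          · rw [Lsw_diag, hν.inv, hg.symm, hpp]; exact hp
        · refine ⟨p, μ p, (hμ.ne p).symm, Or.inr ?_, Or.inr ?_⟩
          · rw [Lμ p hpp]; exact hp
          · have hpp' : ν (μ p) ≠ μ (μ p) := by
              intro h
              apply hpp
              rw [hμ.inv] at h
              rw [← h, hν.inv, h]
            rw [Lμ _ hpp', hμ.inv, hg.symm]; exact hp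
  · intro j k h hjk
    rw [Lsw_diag, Lsw_diag] at h
    rcases hν.rb j k h with h1 | h1
    · exact absurd h1.symm hjk
    · rw [h1, sν]
  · intro j k h
    by_cases hj : ν j = μ j
    · rw [Lμ0 j hj] at h
      by_cases hk : ν k = μ k
      · have h1 := hcom' j hj
        have h2 := hcom' k hk
        rcases h1 with h1 | h1 <;> rcases h2 with h2 | h2
        · left; rw [h1, h2]
        · right; rw [h1, h2]
        · right; rw [h1, h2, hμ.inv]
        · left; rw [h1, h2]
      · rw [Lμ k hk] at h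
        exact absurd h.symm (gne' k)
    · rw [Lμ j hj] at h
      by_cases hk : ν k = μ k
      · rw [Lμ0 k hk] at h
        exact absurd h (gne' j)
      · rw [Lμ k hk] at h
        exact hμ.rb j k h
  · intro j k h
    rw [Lsw_diag] at h
    by_cases hk : ν k = μ k
    · rw [Lμ0 k hk] at h
      exact gne j h
    · rw [Lμ k hk] at h
      exact hk (hcom k (hd j k h))

end

end Pool.Agent.Lib.MP_db622c_co.CB
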