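import Mathlib

/-!
# CB-Pop: a colouring of the cycles of `x ↦ - 2 x` modulo `2 ^ s - 1`, `s` odd

PROOF.  Let `M = 2 ^ s - 1`, `s` odd, `s ≥ 3`.  For `n : ℕ` let `pc n` be the number of ones in
the binary expansion of `n` (`(Nat.digits 2 n).sum`).  Facts:
* `pc (2 n) = pc n`, `pc (2 n + 1) = pc n + 1`;
* `pc (n + 2 ^ t) = pc n + 1` for `n < 2 ^ t` (induction on `t`);
* `pc (2 ^ t - 1 - n) + pc n = t` for `n < 2 ^ t` (induction on `t`:
  `2 ^ (t+1) - 1 - (2 y + b) = 2 (2 ^ t - 1 - y) + (1 - b)`).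
For `x : ZMod M`, `x ≠ 0`, put `P x = pc x.val` (`0 < x.val < M`).
* `P (2 x) = P x`: if `v = x.val < 2 ^ (s-1)` then `2 v ≤ 2 ^ s - 2 = M - 1`, so `(2 x).val = 2 v`;
  otherwise `v = w + 2 ^ (s-1)` with `w < 2 ^ (s - 1)` and `(2 x).val = 2 v - M = 2 w + 1`
  (it is `< M`, as `v < M`), and `pc (2 w + 1) = pc w + 1 = pc v`.
* `P (- x) = s - P x`: `(- x).val = M - v = 2 ^ s - 1 - v`.
* So `P (- 2 x) + P x = s`, an odd number.
Put `side x = if s < 2 * P x then 1 else 0`.  As `s` is odd, exactly one of `s < 2 P x`,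
`s < 2 (s - P x)` holds; so `side (- 2 x) = side x + 1` in `ZMod 2`.
-/

namespace Pool.Agent.Lib.MP_db622c_co.CB

/-- The number of ones in the binary expansion. -/
def popc (n : ℕ) : ℕ := (Nat.digits 2 n).sum

theorem popc_zero : popc 0 = 0 := by simp [popc]

theorem popc_step (n : ℕ) : popc n = n % 2 + popc (n / 2) := by
  rcases Nat.eq_zero_or_pos n with h | h
  · subst h
    simp [popc]
  · unfold popc
    rw [Nat.digits_def' (by norm_num) h, List.sum_cons]

theorem popc_two_mul (n : ℕ) : popc (2 * n) = popc n := by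
  rw [popc_step (2 * n)]
  have h1 : 2 * n % 2 = 0 := by omega
  have h2 : 2 * n / 2 = n := by omega
  rw [h1, h2, zero_add]

theorem popc_two_mul_add_one (n : ℕ) : popc (2 * n + 1) = popc n + 1 := by
  rw [popc_step (2 * n + 1)]
  have h1 : (2 * n + 1) % 2 = 1 := by omega
  have h2 : (2 * n + 1) / 2 = n := by omega
  rw [h1, h2, add_comm]

theorem popc_add_pow (t : ℕ) : ∀ n, n < 2 ^ t → popc (n + 2 ^ t) = popc n + 1 := by
  induction t with
  | zero =>
    intro n hn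
    have h0 : n = 0 := by simpa using hn
    subst h0
    have h1 := popc_two_mul_add_one 0
    simpa [popc_zero] using h1
  | succ t ih =>
    intro n hn
    have hp : 2 ^ (t + 1) = 2 * 2 ^ t := by rw [pow_succ]; ring
    have hy : n / 2 < 2 ^ t := by omega
    have hi := ih (n / 2) hy
    rw [popc_step (n + 2 ^ (t + 1)), popc_step n]
    have h1 : (n + 2 ^ (t + 1)) % 2 = n % 2 := by omega
    have h2 : (n + 2 ^ (t + 1)) / 2 = n / 2 + 2 ^ t := by omega
    rw [h1, h2, hi, add_assoc]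

theorem popc_compl (t : ℕ) : ∀ n, n < 2 ^ t → popc (2 ^ t - 1 - n) + popc n = t := by
  induction t with
  | zero =>
    intro n hn
    have h0 : n = 0 := by simpa using hn
    subst h0
    simp [popc_zero]
  | succ t ih =>
    intro n hn
    have hp : 2 ^ (t + 1) = 2 * 2 ^ t := by rw [pow_succ]; ring
    have hy : n / 2 < 2 ^ t := by omega
    have hi := ih (n / 2) hy
    rw [popc_step (2 ^ (t + 1) - 1 - n), popc_step n]
    have h1 : (2 ^ (t + 1) - 1 - n) % 2 + n % 2 = 1 := by omega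
    have h2 : (2 ^ (t + 1) - 1 - n) / 2 = 2 ^ t - 1 - n / 2 := by omega
    rw [h2]
    omega

theorem exists_side (s : ℕ) (hs : Odd s) (h3 : 3 ≤ s) :
    ∃ side : ZMod (2 ^ s - 1) → ZMod 2, ∀ x, x ≠ 0 → side (-2 * x) = side x + 1 := by
  obtain ⟨u, hu⟩ : ∃ u, s = u + 1 := ⟨s - 1, by omega⟩
  have hpow : 2 ^ s = 2 * 2 ^ u := by rw [hu, pow_succ]; ring
  have hbig : 8 ≤ 2 ^ s := by
    calc 8 = 2 ^ 3 := by norm_num
      _ ≤ 2 ^ s := Nat.pow_le_pow_right (by norm_num) h3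
  have hne : NeZero (2 ^ s - 1) := ⟨by omega⟩
  refine ⟨fun x => if s < 2 * popc x.val then 1 else 0, ?_⟩
  intro x hx
  have hv : x.val < 2 ^ s - 1 := ZMod.val_lt x
  have hv0 : x.val ≠ 0 := by
    intro h
    exact hx ((ZMod.val_eq_zero x).1 h)
  have hcast : ((2 * x.val : ℕ) : ZMod (2 ^ s - 1)) = 2 * x := by
    push_cast
    rw [ZMod.natCast_zmod_val]
  have hval2 : (2 * x).val = 2 * x.val % (2 ^ s - 1) := by
    rw [← hcast, ZMod.val_natCast]
  have hP2 : popc (2 * x).val = popc x.val ∧ (2 * x).val ≠ 0 := by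
    rcases lt_or_ge x.val (2 ^ u) with h | h
    · have h1 : 2 * x.val < 2 ^ s - 1 := by omega
      rw [hval2, Nat.mod_eq_of_lt h1]
      exact ⟨popc_two_mul _, by omega⟩
    · obtain ⟨w, hw⟩ : ∃ w, x.val = w + 2 ^ u := ⟨x.val - 2 ^ u, by omega⟩
      have hwlt : w < 2 ^ u := by omega
      have h1 : 2 * x.val = (2 * w + 1) + (2 ^ s - 1) := by omega
      have h2 : 2 * x.val % (2 ^ s - 1) = 2 * w + 1 := by
        rw [h1, Nat.add_mod_right]
        exact Nat.mod_eq_of_lt (by omega)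
      rw [hval2, h2, hw]
      refine ⟨?_, by omega⟩
      rw [popc_two_mul_add_one, popc_add_pow u w hwlt]
  have hneg : (-2 * x).val = 2 ^ s - 1 - (2 * x).val := by
    have h0 : (2 * x) ≠ 0 := by
      intro h
      apply hP2.2
      rw [h]
      exact ZMod.val_zero
    have h1 : (-2 * x) = -(2 * x) := by ring
    rw [h1, ZMod.neg_val, if_neg h0]
  have hlt2 : (2 * x).val < 2 ^ s := by
    have := ZMod.val_lt (2 * x)
    omega
  have hsum := popc_compl s (2 * x).val hlt2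
  rw [← hneg, hP2.1] at hsum
  obtain ⟨k, hk⟩ := hs
  have h11 : (1 : ZMod 2) + 1 = 0 := by decide
  dsimp only
  by_cases h : s < 2 * popc x.val
  · have h' : ¬ s < 2 * popc (-2 * x).val := by omega
    rw [if_pos h, if_neg h', h11]
  · have h' : s < 2 * popc (-2 * x).val := by omega
    rw [if_neg h, if_pos h', zero_add]

/-- `2` and `3` are invertible modulo `2 ^ s - 1`, `s` odd.  (`2 ^ s = 1`; and
`3 ∣ 2 ^ s - 1` would give `s` even, as `2 ^ s ≡ 2 (mod 3)` for odd `s`.) -/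
theorem isUnit_two (s : ℕ) (hs : Odd s) (h3 : 3 ≤ s) : IsUnit (2 : ZMod (2 ^ s - 1)) := by
  have hc : Nat.Coprime 2 (2 ^ s - 1) := by
    rw [Nat.Prime.coprime_iff_not_dvd Nat.prime_two]
    obtain ⟨u, hu⟩ : ∃ u, s = u + 1 := ⟨s - 1, by omega⟩
    have hpow : 2 ^ s = 2 * 2 ^ u := by rw [hu, pow_succ]; ring
    have hpos : 0 < 2 ^ u := by positivity
    omega
  have h := (ZMod.isUnit_iff_coprime 2 (2 ^ s - 1)).2 hc
  simpa using h

theorem isUnit_three (s : ℕ) (hs : Odd s) (h3 : 3 ≤ s) : IsUnit (3 : ZMod (2 ^ s - 1)) := by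
  have hc : Nat.Coprime 3 (2 ^ s - 1) := by
    rw [Nat.Prime.coprime_iff_not_dvd Nat.prime_three]
    obtain ⟨k, hk⟩ := hs
    have hpow : 2 ^ s = 2 * 4 ^ k := by
      rw [hk, pow_succ, pow_mul]
      norm_num
      ring
    have hmod : 4 ^ k % 3 = 1 := by
      rw [Nat.pow_mod]
      norm_num
    omega
  have h := (ZMod.isUnit_iff_coprime 3 (2 ^ s - 1)).2 hc
  simpa using h

end Pool.Agent.Lib.MP_db622c_co.CB
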