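import Pool.Agent.Lib.MP_db622c_co.CB.Defs2
import Pool.Agent.Lib.MP_db622c_co.CB.BaseOF
import Pool.Agent.Lib.MP_db622c_co.CB.Pop

/-!
# CB-LamPow: the symmetric Latin square with sides, order `2 ^ s`, `s` odd

PROOF.  `M = 2 ^ s - 1` (odd), `J = Option (ZMod M)` (`none = ∞`), `g = ofClass` (`CB.BaseOF`):
`g (some x) (some y) = x + y`, `g (some x) none = x + x`; `ofClass_symm`, `ofClass_inj`.
`T x = - 2 * x`, a bijection of `ZMod M` fixing `0`, with inverse `T' x = - 2⁻¹ * x`
(`isUnit_two`).  `side` from `exists_side`, modified: `side (some 0) = 0`, `side none = 1`,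
`side (some x) = side₀ x` for `x ≠ 0`.
For `x ≠ 0` with `side x = 0`: `ν (some x) = some (T x)`, `μ (some x) = some (T' x)`; for `x ≠ 0`
with `side x = 1`: `ν (some x) = some (T' x)`, `μ (some x) = some (T x)`.  `ν (some 0) = μ (some 0) =
none`, `ν none = μ none = some 0`.  Both are involutions that change the side (the side of `T x` and
of `T' x` is that of `x` plus one), hence without fixed points.  `μ p ≠ ν p` for `p = some x`,
`x ≠ 0`: `T x ≠ T' x`, as `T (T x) = 4 x ≠ x` by `isUnit_three`.
`L p p = some (g p (ν p))`, `L p (ν p) = none`, `L p q = some (g p q)` otherwise.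

Edges `{x, T x}`, `x ≠ 0`: `g = x + T x = - x`.  So
* `g p (ν p) = - x` if `{p, ν p} = {x, T x}`, `side x = 0`, `x ≠ 0`; it is `0` if `p = some 0` or
  `p = none`;
* `g p (μ p) = - x` if `{p, μ p} = {x, T x}`, `side x = 1`, `x ≠ 0`; `L` is `some` of it.
`symm`: `ν` is an involution.  `inj`: `L p q = L p q'`: cases `q = p`, `q = ν p`, other
(`ofClass_inj` with `ν p ≠ p`).  `side_μ`: above.
`l0`: `c = none`: `j = some 0`, `j' = none` (`L (some 0) none = none`, `μ (some 0) = none`).
`c = some z`: let `x = - z`.  If `x = 0`: `j = some 0`, `j' = none` (both diagonal entries are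
`some 0`).  If `x ≠ 0`, `side x = 0`: `j = some x`, `j' = some (T x)` (diagonal entries `- x`).  If
`x ≠ 0`, `side x = 1`: the same two points, `L x (μ x) = - x` and `L (T x) (μ (T x)) = - x`.
`l1`: `L p p = L q q` gives `{p, ν p} = {q, ν q}` by the formula for `g p (ν p)`, so
`q = ν p` if `q ≠ p`, of the other side.
`l2`: the classes `- x` (`x ≠ 0`, `side x = 1`) and `none` (for `{0, ∞}`) are distinct for distinct
edges of `μ`.
`l3`: diagonal symbols are `some (- x)` with `x = 0` or `side x = 0`; symbols at `μ` are `none` or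
`some (- x)` with `x ≠ 0`, `side x = 1`.
-/

namespace Pool.Agent.Lib.MP_db622c_co.CB

open Pool.Agent.Lib.MP_db622c_co

section LamAux

variable {e : ℕ} (i2 : ZMod e) (sd : ZMod e → ZMod 2)

/-- the matching `ν` -/
noncomputable def lamNu : Option (ZMod e) → Option (ZMod e)
  | none => some 0
  | some x => by
      classical
      exact if x = 0 then none else if sd x = 0 then some (-2 * x) else some (-(i2 * x))

/-- the matching `μ` -/
noncomputable def lamMu : Option (ZMod e) → Option (ZMod e)
  | none => some 0
  | some x => by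
      classical
      exact if x = 0 then none else if sd x = 0 then some (-(i2 * x)) else some (-2 * x)

/-- the sides -/
noncomputable def lamSide : Option (ZMod e) → ZMod 2
  | none => 1
  | some x => by
      classical
      exact if x = 0 then 0 else sd x

/-- the Latin square -/
noncomputable def lamL (p q : Option (ZMod e)) : Option (ZMod e) := by
  classical
  exact if q = p then some (ofClass p (lamNu i2 sd p))
    else if q = lamNu i2 sd p then none else some (ofClass p q)

theorem zmod2_cases (a : ZMod 2) : a = 0 ∨ a = 1 := by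
  revert a; decide

theorem zmod2_ne {a : ZMod 2} (h : a ≠ 0) : a = 1 := (zmod2_cases a).resolve_left h

theorem lam_aux (he : Odd e) (h2 : 2 * i2 = 1) (h3 : ∀ x : ZMod e, 3 * x = 0 → x = 0)
    (hsd : ∀ x, x ≠ 0 → sd (-2 * x) = sd x + 1) :
    (∀ j, lamMu i2 sd (lamMu i2 sd j) = j) ∧ (∀ j, lamMu i2 sd j ≠ j) ∧
      IsLam (lamL i2 sd) (lamMu i2 sd) (lamSide sd) := by
  classical
  have h11 : (1 : ZMod 2) + 1 = 0 := by decide
  have h10 : (1 : ZMod 2) ≠ 0 := by decide
  have hTT' : ∀ x : ZMod e, -2 * (-(i2 * x)) = x := fun x => by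
    linear_combination x * h2
  have hT'T : ∀ x : ZMod e, -(i2 * (-2 * x)) = x := fun x => by
    linear_combination x * h2
  have hT0 : ∀ x : ZMod e, x ≠ 0 → -2 * x ≠ 0 := fun x hx h => hx (by
    have := hT'T x; rw [h] at this; simpa using this.symm)
  have hT'0 : ∀ x : ZMod e, x ≠ 0 → -(i2 * x) ≠ 0 := fun x hx h => hx (by
    have := hTT' x; rw [h] at this; simpa using this.symm)
  have hsT' : ∀ x, x ≠ 0 → sd (-(i2 * x)) = sd x + 1 := fun x hx => by
    have := hsd _ (hT'0 x hx)
    rw [hTT'] at this
    rw [this, add_assoc, h11, add_zero]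
  have hTne : ∀ x : ZMod e, x ≠ 0 → -2 * x ≠ x := fun x hx h => hx (h3 x (by
    linear_combination -h))
  have hT'ne : ∀ x : ZMod e, x ≠ 0 → -(i2 * x) ≠ x := fun x hx h => by
    apply hTne x hx
    have := hTT' x
    rw [h] at this
    exact this
  have hne : ∀ x : ZMod e, x ≠ 0 → -2 * x ≠ -(i2 * x) := fun x hx h => hx (h3 x (by
    have h' : -2 * (-2 * x) = x := by rw [h, hTT']
    linear_combination h'))
  have hi0 : ∀ x : ZMod e, x ≠ 0 → i2 * x ≠ 0 := fun x hx h => hT'0 x hx (by rw [h, neg_zero])
  -- values of the matchings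
  have nu0 : lamNu i2 sd (some 0) = none := by simp [lamNu]
  have mu0 : lamMu i2 sd (some 0) = none := by simp [lamMu]
  have nun : lamNu i2 sd none = some 0 := rfl
  have mun : lamMu i2 sd none = some 0 := rfl
  have nuA : ∀ x, x ≠ 0 → sd x = 0 → lamNu i2 sd (some x) = some (-2 * x) := fun x hx h => by
    simp [lamNu, hx, h]
  have nuB : ∀ x, x ≠ 0 → sd x = 1 → lamNu i2 sd (some x) = some (-(i2 * x)) := fun x hx h => by
    simp [lamNu, hx, h]
  have muA : ∀ x, x ≠ 0 → sd x = 0 → lamMu i2 sd (some x) = some (-(i2 * x)) := fun x hx h => by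
    simp [lamMu, hx, h]
  have muB : ∀ x, x ≠ 0 → sd x = 1 → lamMu i2 sd (some x) = some (-2 * x) := fun x hx h => by
    simp [lamMu, hx, h]
  have sd0 : lamSide sd (some (0 : ZMod e)) = 0 := by simp [lamSide]
  have sdn : lamSide sd (none : Option (ZMod e)) = 1 := rfl
  have sdx : ∀ x, x ≠ 0 → lamSide sd (some x) = sd x := fun x hx => by simp [lamSide, hx]
  have nuinv : ∀ p, lamNu i2 sd (lamNu i2 sd p) = p := by
    rintro (_ | x)
    · rw [nun, nu0]
    · by_cases hx : x = 0
      · subst hx; rw [nu0, nun]
      · rcases zmod2_cases (sd x) with h | h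
        · rw [nuA x hx h, nuB _ (hT0 x hx) (by rw [hsd x hx, h, zero_add]), hT'T]
        · rw [nuB x hx h, nuA _ (hT'0 x hx) (by rw [hsT' x hx, h, h11]), hTT']
  have muinv : ∀ p, lamMu i2 sd (lamMu i2 sd p) = p := by
    rintro (_ | x)
    · rw [mun, mu0]
    · by_cases hx : x = 0
      · subst hx; rw [mu0, mun]
      · rcases zmod2_cases (sd x) with h | h
        · rw [muA x hx h, muB _ (hT'0 x hx) (by rw [hsT' x hx, h, zero_add]), hTT']
        · rw [muB x hx h, muA _ (hT0 x hx) (by rw [hsd x hx, h, h11]), hT'T]
  have nune : ∀ p, lamNu i2 sd p ≠ p := by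
    rintro (_ | x)
    · rw [nun]; simp
    · by_cases hx : x = 0
      · subst hx; rw [nu0]; simp
      · rcases zmod2_cases (sd x) with h | h
        · rw [nuA x hx h]; simpa using hTne x hx
        · rw [nuB x hx h]; simpa using hT'ne x hx
  have mune : ∀ p, lamMu i2 sd p ≠ p := by
    rintro (_ | x)
    · rw [mun]; simp
    · by_cases hx : x = 0
      · subst hx; rw [mu0]; simp
      · rcases zmod2_cases (sd x) with h | h
        · rw [muA x hx h]; simpa using hT'ne x hx
        · rw [muB x hx h]; simpa using hTne x hx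
  -- values of L
  have Ldiag : ∀ p, lamL i2 sd p p = some (ofClass p (lamNu i2 sd p)) := fun p => by
    simp [lamL]
  have Lnu : ∀ p, lamL i2 sd p (lamNu i2 sd p) = none := fun p => by
    simp [lamL, nune p]
  have Loth : ∀ p q, q ≠ p → q ≠ lamNu i2 sd p → lamL i2 sd p q = some (ofClass p q) :=
    fun p q h h' => by simp [lamL, h, h']
  have dg0 : lamL i2 sd (some 0) (some 0) = some 0 := by rw [Ldiag, nu0]; simp [ofClass]
  have dgn : lamL i2 sd none none = some 0 := by rw [Ldiag, nun]; simp [ofClass]
  have dgA : ∀ x, x ≠ 0 → sd x = 0 → lamL i2 sd (some x) (some x) = some (-x) := fun x hx h => by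
    rw [Ldiag, nuA x hx h]
    show some (x + -2 * x) = some (-x)
    congr 1; ring
  have dgB : ∀ x, x ≠ 0 → sd x = 1 → lamL i2 sd (some x) (some x) = some (i2 * x) :=
    fun x hx h => by
    rw [Ldiag, nuB x hx h]
    show some (x + -(i2 * x)) = some (i2 * x)
    congr 1; linear_combination -x * h2
  have mg0 : lamL i2 sd (some 0) (lamMu i2 sd (some 0)) = none := by
    have h := Lnu (some 0)
    rw [nu0] at h
    rw [mu0]; exact h
  have mgn : lamL i2 sd none (lamMu i2 sd none) = none := by
    rw [mun, ← nun]; exact Lnu _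
  have mgA : ∀ x, x ≠ 0 → sd x = 0 →
      lamL i2 sd (some x) (lamMu i2 sd (some x)) = some (i2 * x) := fun x hx h => by
    rw [muA x hx h, Loth _ _ (by simpa using hT'ne x hx)
      (by rw [nuA x hx h]; simpa using (hne x hx).symm)]
    show some (x + -(i2 * x)) = some (i2 * x)
    congr 1; linear_combination -x * h2
  have mgB : ∀ x, x ≠ 0 → sd x = 1 →
      lamL i2 sd (some x) (lamMu i2 sd (some x)) = some (-x) := fun x hx h => by
    rw [muB x hx h, Loth _ _ (by simpa using hTne x hx)
      (by rw [nuB x hx h]; simpa using hne x hx)]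
    show some (x + -2 * x) = some (-x)
    congr 1; ring
  have i2inj : ∀ x y : ZMod e, i2 * x = i2 * y → x = y := fun x y h => by
    linear_combination 2 * h - x * h2 + y * h2
  refine ⟨muinv, mune, ⟨?_, ?_, ?_, ?_, ?_, ?_, ?_⟩⟩
  · -- symm
    intro p q
    by_cases hpq : q = p
    · subst hpq; rfl
    · by_cases hn : q = lamNu i2 sd p
      · subst hn
        rw [Lnu]
        have := Lnu (lamNu i2 sd p)
        rw [nuinv] at this
        exact this.symm
      · have hn' : p ≠ lamNu i2 sd q := fun h => hn (by
          rw [h, nuinv])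
        rw [Loth p q hpq hn, Loth q p (Ne.symm hpq) hn', ofClass_symm]
  · -- inj
    intro p q q' h
    by_cases hq : q = p
    · by_cases hq' : q' = p
      · rw [hq, hq']
      · by_cases hn : q' = lamNu i2 sd p
        · rw [hq, hn, Ldiag, Lnu] at h
          simp at h
        · rw [hq, Ldiag, Loth p q' hq' hn, Option.some.injEq] at h
          exact absurd (ofClass_inj he p _ _ (nune p) hq' h).symm hn
    · by_cases hn : q = lamNu i2 sd p
      · by_cases hq' : q' = p
        · rw [hn, hq', Ldiag, Lnu] at h
          simp at h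
        · by_cases hn' : q' = lamNu i2 sd p
          · rw [hn, hn']
          · rw [hn, Lnu, Loth p q' hq' hn'] at h
            simp at h
      · by_cases hq' : q' = p
        · rw [hq', Ldiag, Loth p q hq hn, Option.some.injEq] at h
          exact absurd (ofClass_inj he p _ _ hq (nune p) h) hn
        · by_cases hn' : q' = lamNu i2 sd p
          · rw [hn', Lnu, Loth p q hq hn] at h
            simp at h
          · rw [Loth p q hq hn, Loth p q' hq' hn', Option.some.injEq] at h
            exact ofClass_inj he p _ _ hq hq' h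
  · -- side_μ
    rintro (_ | x)
    · rw [mun, sd0, sdn, h11]
    · by_cases hx : x = 0
      · subst hx; rw [mu0, sd0, sdn, zero_add]
      · rcases zmod2_cases (sd x) with h | h
        · rw [muA x hx h, sdx _ (hT'0 x hx), sdx x hx, hsT' x hx]
        · rw [muB x hx h, sdx _ (hT0 x hx), sdx x hx, hsd x hx]
  · -- l0
    rintro (_ | z)
    · exact ⟨some 0, none, by simp, Or.inr mg0, Or.inr mgn⟩
    · by_cases hz : z = 0
      · subst hz
        exact ⟨some 0, none, by simp, Or.inl dg0, Or.inl dgn⟩
      · have hx : -z ≠ 0 := neg_ne_zero.2 hz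
        have hne' : (some (-z) : Option (ZMod e)) ≠ some (-2 * (-z)) := fun h =>
          hTne _ hx (Option.some.inj h).symm
        have e1 : i2 * (-2 * (-z)) = z := by linear_combination z * h2
        rcases zmod2_cases (sd (-z)) with h | h
        · refine ⟨some (-z), some (-2 * (-z)), hne', Or.inl ?_, Or.inl ?_⟩
          · rw [dgA _ hx h, neg_neg]
          · rw [dgB _ (hT0 _ hx) (by rw [hsd _ hx, h, zero_add]), e1]
        · refine ⟨some (-z), some (-2 * (-z)), hne', Or.inr ?_, Or.inr ?_⟩
          · rw [mgB _ hx h, neg_neg]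
          · rw [mgA _ (hT0 _ hx) (by rw [hsd _ hx, h, h11]), e1]
  · -- l1
    have key : ∀ j k, lamL i2 sd j j = lamL i2 sd k k → lamSide sd j = lamSide sd k → j = k := by
      rintro (_ | x) (_ | y) h hs
      · rfl
      · exfalso
        by_cases hy : y = 0
        · subst hy; rw [sd0, sdn] at hs; exact h10 hs
        · rcases zmod2_cases (sd y) with hh | hh
          · rw [sdn, sdx y hy, hh] at hs; exact h10 hs
          · rw [dgn, dgB y hy hh, Option.some.injEq] at h
            exact hi0 y hy h.symm
      · exfalso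
        by_cases hy : x = 0
        · subst hy; rw [sd0, sdn] at hs; exact h10 hs.symm
        · rcases zmod2_cases (sd x) with hh | hh
          · rw [sdn, sdx x hy, hh] at hs; exact h10 hs.symm
          · rw [dgn, dgB x hy hh, Option.some.injEq] at h
            exact hi0 x hy h
      · by_cases hx : x = 0
        · by_cases hy : y = 0
          · rw [hx, hy]
          · exfalso
            subst hx
            rcases zmod2_cases (sd y) with hh | hh
            · rw [dg0, dgA y hy hh, Option.some.injEq] at h
              exact hy (neg_eq_zero.1 h.symm)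
            · rw [sd0, sdx y hy, hh] at hs; exact h10 hs.symm
        · by_cases hy : y = 0
          · exfalso
            subst hy
            rcases zmod2_cases (sd x) with hh | hh
            · rw [dg0, dgA x hx hh, Option.some.injEq] at h
              exact hx (neg_eq_zero.1 h)
            · rw [sd0, sdx x hx, hh] at hs; exact h10 hs
          · rw [sdx x hx, sdx y hy] at hs
            rcases zmod2_cases (sd x) with hh | hh
            · rw [dgA x hx hh, dgA y hy (hs ▸ hh), Option.some.injEq] at h
              rw [neg_injective h]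
            · rw [dgB x hx hh, dgB y hy (hs ▸ hh), Option.some.injEq] at h
              rw [i2inj _ _ h]
    intro j k h hjk
    have h1 : lamSide sd j ≠ lamSide sd k := fun h' => hjk (key j k h h')
    generalize lamSide sd j = a at h1
    generalize lamSide sd k = b at h1
    revert a b; decide
  · -- l2
    rintro (_ | x) (_ | y) h
    · exact Or.inl rfl
    · by_cases hy : y = 0
      · subst hy; exact Or.inr mun.symm
      · exfalso
        rcases zmod2_cases (sd y) with hh | hh
        · rw [mgn, mgA y hy hh] at h; simp at h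
        · rw [mgn, mgB y hy hh] at h; simp at h
    · by_cases hx : x = 0
      · subst hx; exact Or.inr mu0.symm
      · exfalso
        rcases zmod2_cases (sd x) with hh | hh
        · rw [mgn, mgA x hx hh] at h; simp at h
        · rw [mgn, mgB x hx hh] at h; simp at h
    · by_cases hx : x = 0
      · by_cases hy : y = 0
        · left; rw [hx, hy]
        · exfalso
          subst hx
          rcases zmod2_cases (sd y) with hh | hh
          · rw [mg0, mgA y hy hh] at h; simp at h
          · rw [mg0, mgB y hy hh] at h; simp at h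
      · by_cases hy : y = 0
        · exfalso
          subst hy
          rcases zmod2_cases (sd x) with hh | hh
          · rw [mg0, mgA x hx hh] at h; simp at h
          · rw [mg0, mgB x hx hh] at h; simp at h
        · rcases zmod2_cases (sd x) with hh | hh <;> rcases zmod2_cases (sd y) with kk | kk
          · left
            rw [mgA x hx hh, mgA y hy kk, Option.some.injEq] at h
            rw [i2inj _ _ h]
          · right
            rw [mgA x hx hh, mgB y hy kk, Option.some.injEq] at h
            rw [muA x hx hh, h, neg_neg]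
          · right
            rw [mgB x hx hh, mgA y hy kk, Option.some.injEq] at h
            rw [muB x hx hh]
            congr 1
            linear_combination -2 * h - y * h2
          · left
            rw [mgB x hx hh, mgB y hy kk, Option.some.injEq] at h
            rw [neg_injective h]
  · -- l3
    intro j k h
    obtain ⟨u, hu, hu'⟩ : ∃ u, lamL i2 sd j j = some (-u) ∧ (u = 0 ∨ (u ≠ 0 ∧ sd u = 0)) := by
      rcases j with _ | x
      · exact ⟨0, by rw [dgn, neg_zero], Or.inl rfl⟩
      · by_cases hx : x = 0
        · subst hx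
          exact ⟨0, by rw [dg0, neg_zero], Or.inl rfl⟩
        · rcases zmod2_cases (sd x) with hh | hh
          · exact ⟨x, dgA x hx hh, Or.inr ⟨hx, hh⟩⟩
          · exact ⟨-(i2 * x), by rw [dgB x hx hh, neg_neg],
              Or.inr ⟨hT'0 x hx, by rw [hsT' x hx, hh, h11]⟩⟩
    have hk : lamL i2 sd k (lamMu i2 sd k) = none ∨
        ∃ w, lamL i2 sd k (lamMu i2 sd k) = some (-w) ∧ w ≠ 0 ∧ sd w = 1 := by
      rcases k with _ | x
      · exact Or.inl mgn
      · by_cases hx : x = 0
        · subst hx
          exact Or.inl mg0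
        · right
          rcases zmod2_cases (sd x) with hh | hh
          · exact ⟨-(i2 * x), by rw [mgA x hx hh, neg_neg],
              hT'0 x hx, by rw [hsT' x hx, hh, zero_add]⟩
          · exact ⟨x, mgB x hx hh, hx, hh⟩
    rw [h] at hu
    rcases hk with hk | ⟨w, hw, hw0, hw1⟩
    · rw [hk] at hu; simp at hu
    · rw [hw, Option.some.injEq] at hu
      have := neg_injective hu
      subst this
      rcases hu' with hu' | ⟨_, hu'⟩
      · exact hw0 hu'
      · rw [hu'] at hw1; exact h10 hw1.symm

end LamAux

theorem lam_pow (s : ℕ) (hs : Odd s) (h3 : 3 ≤ s) :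
    ∃ (L : Option (ZMod (2 ^ s - 1)) → Option (ZMod (2 ^ s - 1)) → Option (ZMod (2 ^ s - 1)))
      (μ : Option (ZMod (2 ^ s - 1)) → Option (ZMod (2 ^ s - 1)))
      (side : Option (ZMod (2 ^ s - 1)) → ZMod 2),
      (∀ j, μ (μ j) = j) ∧ (∀ j, μ j ≠ j) ∧ IsLam L μ side := by
  obtain ⟨sd, hsd⟩ := exists_side s hs h3
  have hu2 := isUnit_two s hs h3
  have hu3 := isUnit_three s hs h3
  obtain ⟨i2, hi2⟩ := hu2.exists_right_inv
  have he : Odd (2 ^ s - 1) := by
    obtain ⟨u, hu⟩ : ∃ u, s = u + 1 := ⟨s - 1, by omega⟩
    have hpow : 2 ^ s = 2 * 2 ^ u := by rw [hu, pow_succ]; ring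
    have hpos : 0 < 2 ^ u := by positivity
    exact ⟨2 ^ u - 1, by omega⟩
  obtain ⟨h1, h2, h4⟩ := lam_aux i2 sd he hi2 (fun x hx => (hu3.mul_right_eq_zero).1 hx) hsd
  exact ⟨_, _, _, h1, h2, h4⟩

end Pool.Agent.Lib.MP_db622c_co.CB
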