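import Mathlib

/-!
# CB-OD: orthogonal designs of order `2 ^ t` with three or four variables

`IsOD w M`: `M i` (`i : Fin v`) are square matrices with entries `0, 1, -1`, at every position
exactly one of them is nonzero, `M i * (M i)ᵀ = w i • 1` and
`M i * (M k)ᵀ + M k * (M i)ᵀ = 0` for `i ≠ k`.

PROOF.
* `od_double`: `M i ↦ M i ⊗ₖ Q`, `Q = !![1, 1; 1, -1]` (`Q * Qᵀ = 2 • 1`), weights double.
* `od_split`: from `(a, b, c)` to `(a, a, 2 b, 2 c)` in order `2 n`: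
  `A ⊗ₖ 1, A ⊗ₖ P, B ⊗ₖ Q, C ⊗ₖ Q` with `P = !![0, 1; -1, 0]`.  Used: `Pᵀ = - P`, `P * Pᵀ = 1`,
  `Q` and `P * Qᵀ` are symmetric, the supports of `1` and `P` partition the positions, `Q` has full
  support.  (`(A ⊗ 1) (B ⊗ Q)ᵀ + (B ⊗ Q) (A ⊗ 1)ᵀ = A Bᵀ ⊗ Qᵀ + B Aᵀ ⊗ Q = A Bᵀ ⊗ (Qᵀ - Q) = 0`.)
* merging: the sum of two of the matrices of a design is again a member (weights add).
* `exists_od3` by induction on `t`.  `t = 0`: one of the weights is `1`, the others `0`.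
  `t + 1`, `a + b + c = 2 ^ (t + 1)`: if all three are even, double.  Otherwise exactly two are odd;
  by permuting the variables `a`, `b` odd, `a ≤ b`, `c` even.  Take `(a, (b - a) / 2, c / 2)` in order
  `2 ^ t`, split: `(a, a, b - a, c)`, merge the second and the third: `(a, b, c)`.
* `exists_od4`: `(b, b, a, c)` with `a`, `c` even and `2 b + a + c = 2 ^ (t + 1)`: split
  `(b, a / 2, c / 2)`.
-/

namespace Pool.Agent.Lib.MP_db622c_co.CB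

structure IsOD {ι v : Type*} [Fintype ι] [DecidableEq ι] (w : v → ℕ) (M : v → Matrix ι ι ℤ) :
    Prop where
  entry : ∀ i x y, M i x y = 0 ∨ M i x y = 1 ∨ M i x y = -1
  supp : ∀ x y, ∃! i, M i x y ≠ 0
  self : ∀ i, M i * (M i).transpose = (w i : ℤ) • (1 : Matrix ι ι ℤ)
  anti : ∀ i k, i ≠ k → M i * (M k).transpose + M k * (M i).transpose = 0

open Matrix Kronecker

/-- The Hadamard matrix of order two. -/
def QQ : Matrix (Fin 2) (Fin 2) ℤ := !![1, 1; 1, -1]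

/-- The skew matrix of order two. -/
def PP : Matrix (Fin 2) (Fin 2) ℤ := !![0, 1; -1, 0]

theorem QQ_mul : QQ * QQᵀ = (2 : ℤ) • (1 : Matrix (Fin 2) (Fin 2) ℤ) := by decide

theorem PP_mul : PP * PPᵀ = (1 : Matrix (Fin 2) (Fin 2) ℤ) := by decide

theorem QQ_symm : QQᵀ = QQ := by decide

theorem PP_skew : PPᵀ = -PP := by decide

theorem PQ_symm : PP * QQᵀ = QQ * PPᵀ := by decide

theorem QQ_entry (s u : Fin 2) : QQ s u = 1 ∨ QQ s u = -1 := by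
  revert s u; decide

theorem PP_entry (s u : Fin 2) : PP s u = 0 ∨ PP s u = 1 ∨ PP s u = -1 := by
  revert s u; decide

theorem one_entry (s u : Fin 2) : (1 : Matrix (Fin 2) (Fin 2) ℤ) s u = 0 ∨
    (1 : Matrix (Fin 2) (Fin 2) ℤ) s u = 1 ∨ (1 : Matrix (Fin 2) (Fin 2) ℤ) s u = -1 := by
  revert s u; decide

theorem one_PP (s u : Fin 2) : ((1 : Matrix (Fin 2) (Fin 2) ℤ) s u ≠ 0 ∧ PP s u = 0) ∨
    ((1 : Matrix (Fin 2) (Fin 2) ℤ) s u = 0 ∧ PP s u ≠ 0) := by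
  revert s u; decide

theorem sgn_mul {a b : ℤ} (ha : a = 0 ∨ a = 1 ∨ a = -1) (hb : b = 0 ∨ b = 1 ∨ b = -1) :
    a * b = 0 ∨ a * b = 1 ∨ a * b = -1 := by
  rcases ha with rfl | rfl | rfl <;> rcases hb with rfl | rfl | rfl <;> decide

section gen

variable {ι : Type*} [Fintype ι] [DecidableEq ι]

theorem kk (A B : Matrix ι ι ℤ) (R S : Matrix (Fin 2) (Fin 2) ℤ) :
    (A ⊗ₖ R) * (B ⊗ₖ S)ᵀ = (A * Bᵀ) ⊗ₖ (R * Sᵀ) := by
  rw [Matrix.mul_kronecker_mul]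
  congr 1

theorem od_double {v : Type*} {w : v → ℕ} {M : v → Matrix ι ι ℤ} (h : IsOD w M) :
    IsOD (fun i => 2 * w i) (fun i => M i ⊗ₖ QQ) where
  entry := by
    rintro i ⟨x, s⟩ ⟨y, u⟩
    exact sgn_mul (h.entry i x y) (Or.inr (QQ_entry s u))
  supp := by
    rintro ⟨x, s⟩ ⟨y, u⟩
    have hQ : QQ s u ≠ 0 := by
      rcases QQ_entry s u with hq | hq <;> rw [hq] <;> decide
    obtain ⟨i, hi, hu⟩ := h.supp x y
    refine ⟨i, mul_ne_zero hi hQ, fun k hk => hu k ?_⟩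
    exact left_ne_zero_of_mul hk
  self := by
    intro i
    rw [kk, h.self i, QQ_mul, Matrix.smul_kronecker, Matrix.kronecker_smul,
      Matrix.one_kronecker_one, smul_smul]
    congr 1
    push_cast
    ring
  anti := by
    intro i k hik
    rw [kk, kk, ← Matrix.add_kronecker, h.anti i k hik, Matrix.zero_kronecker]

theorem od_perm {v v' : Type*} {w : v → ℕ} {M : v → Matrix ι ι ℤ} (h : IsOD w M) (σ : v' ≃ v) :
    IsOD (fun i => w (σ i)) (fun i => M (σ i)) where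
  entry i x y := h.entry (σ i) x y
  supp x y := by
    obtain ⟨i, hi, hu⟩ := h.supp x y
    refine ⟨σ.symm i, by simpa using hi, fun k hk => ?_⟩
    rw [← hu (σ k) hk, Equiv.symm_apply_apply]
  self i := h.self (σ i)
  anti i k hik := h.anti (σ i) (σ k) (fun e => hik (σ.injective e))

theorem existsUnique_of4 {p : Fin 4 → Prop}
    (h : (p 0 ∧ ¬ p 1 ∧ ¬ p 2 ∧ ¬ p 3) ∨ (¬ p 0 ∧ p 1 ∧ ¬ p 2 ∧ ¬ p 3) ∨
      (¬ p 0 ∧ ¬ p 1 ∧ p 2 ∧ ¬ p 3) ∨ (¬ p 0 ∧ ¬ p 1 ∧ ¬ p 2 ∧ p 3)) : ∃! i, p i := by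
  rcases h with ⟨h0, h1, h2, h3⟩ | ⟨h0, h1, h2, h3⟩ | ⟨h0, h1, h2, h3⟩ | ⟨h0, h1, h2, h3⟩
  · refine ⟨0, h0, fun k hk => ?_⟩
    fin_cases k
    · rfl
    · exact absurd hk h1
    · exact absurd hk h2
    · exact absurd hk h3
  · refine ⟨1, h1, fun k hk => ?_⟩
    fin_cases k
    · exact absurd hk h0
    · rfl
    · exact absurd hk h2
    · exact absurd hk h3
  · refine ⟨2, h2, fun k hk => ?_⟩
    fin_cases k
    · exact absurd hk h0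
    · exact absurd hk h1
    · rfl
    · exact absurd hk h3
  · refine ⟨3, h3, fun k hk => ?_⟩
    fin_cases k
    · exact absurd hk h0
    · exact absurd hk h1
    · exact absurd hk h2
    · rfl

theorem existsUnique_of3 {p : Fin 3 → Prop}
    (h : (p 0 ∧ ¬ p 1 ∧ ¬ p 2) ∨ (¬ p 0 ∧ p 1 ∧ ¬ p 2) ∨
      (¬ p 0 ∧ ¬ p 1 ∧ p 2)) : ∃! i, p i := by
  rcases h with ⟨h0, h1, h2⟩ | ⟨h0, h1, h2⟩ | ⟨h0, h1, h2⟩
  · refine ⟨0, h0, fun k hk => ?_⟩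
    fin_cases k
    · rfl
    · exact absurd hk h1
    · exact absurd hk h2
  · refine ⟨1, h1, fun k hk => ?_⟩
    fin_cases k
    · exact absurd hk h0
    · rfl
    · exact absurd hk h2
  · refine ⟨2, h2, fun k hk => ?_⟩
    fin_cases k
    · exact absurd hk h0
    · exact absurd hk h1
    · rfl

/-- Exactly one of three, from a unique existence statement. -/
theorem exactly3 {p : Fin 3 → Prop} (h : ∃! i, p i) :
    (p 0 ∧ ¬ p 1 ∧ ¬ p 2) ∨ (¬ p 0 ∧ p 1 ∧ ¬ p 2) ∨ (¬ p 0 ∧ ¬ p 1 ∧ p 2) := by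
  obtain ⟨i, hi, hu⟩ := h
  have hn : ∀ k, k ≠ i → ¬ p k := fun k hk hp => hk (hu k hp)
  fin_cases i
  · exact Or.inl ⟨hi, hn 1 (by decide), hn 2 (by decide)⟩
  · exact Or.inr (Or.inl ⟨hn 0 (by decide), hi, hn 2 (by decide)⟩)
  · exact Or.inr (Or.inr ⟨hn 0 (by decide), hn 1 (by decide), hi⟩)

/-- Exactly one of four, from a unique existence statement. -/
theorem exactly4 {p : Fin 4 → Prop} (h : ∃! i, p i) :
    (p 0 ∧ ¬ p 1 ∧ ¬ p 2 ∧ ¬ p 3) ∨ (¬ p 0 ∧ p 1 ∧ ¬ p 2 ∧ ¬ p 3) ∨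
      (¬ p 0 ∧ ¬ p 1 ∧ p 2 ∧ ¬ p 3) ∨ (¬ p 0 ∧ ¬ p 1 ∧ ¬ p 2 ∧ p 3) := by
  obtain ⟨i, hi, hu⟩ := h
  have hn : ∀ k, k ≠ i → ¬ p k := fun k hk hp => hk (hu k hp)
  fin_cases i
  · exact Or.inl ⟨hi, hn 1 (by decide), hn 2 (by decide), hn 3 (by decide)⟩
  · exact Or.inr (Or.inl ⟨hn 0 (by decide), hi, hn 2 (by decide), hn 3 (by decide)⟩)
  · exact Or.inr (Or.inr (Or.inl ⟨hn 0 (by decide), hn 1 (by decide), hi, hn 3 (by decide)⟩))
  · exact Or.inr (Or.inr (Or.inr ⟨hn 0 (by decide), hn 1 (by decide), hn 2 (by decide), hi⟩))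

theorem od_split {a b c : ℕ} {M : Fin 3 → Matrix ι ι ℤ} (h : IsOD ![a, b, c] M) :
    IsOD ![a, a, 2 * b, 2 * c] ![M 0 ⊗ₖ (1 : Matrix (Fin 2) (Fin 2) ℤ), M 0 ⊗ₖ PP,
      M 1 ⊗ₖ QQ, M 2 ⊗ₖ QQ] := by
  have s0 : M 0 * (M 0)ᵀ = (a : ℤ) • (1 : Matrix ι ι ℤ) := h.self 0
  have s1 : M 1 * (M 1)ᵀ = (b : ℤ) • (1 : Matrix ι ι ℤ) := h.self 1
  have s2 : M 2 * (M 2)ᵀ = (c : ℤ) • (1 : Matrix ι ι ℤ) := h.self 2
  have a01 := h.anti 0 1 (by decide)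
  have a02 := h.anti 0 2 (by decide)
  have a12 := h.anti 1 2 (by decide)
  have z1 : (M 0 ⊗ₖ (1 : Matrix (Fin 2) (Fin 2) ℤ)) * (M 0 ⊗ₖ PP)ᵀ +
      (M 0 ⊗ₖ PP) * (M 0 ⊗ₖ (1 : Matrix (Fin 2) (Fin 2) ℤ))ᵀ = 0 := by
    rw [kk, kk, ← Matrix.kronecker_add, PP_skew, Matrix.transpose_one, Matrix.one_mul,
      Matrix.mul_one, neg_add_cancel, Matrix.kronecker_zero]
  have z2 : ∀ k, M 0 * (M k)ᵀ + M k * (M 0)ᵀ = 0 →
      (M 0 ⊗ₖ (1 : Matrix (Fin 2) (Fin 2) ℤ)) * (M k ⊗ₖ QQ)ᵀ +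
      (M k ⊗ₖ QQ) * (M 0 ⊗ₖ (1 : Matrix (Fin 2) (Fin 2) ℤ))ᵀ = 0 := by
    intro k hk
    rw [kk, kk, QQ_symm, Matrix.transpose_one, Matrix.one_mul, Matrix.mul_one,
      ← Matrix.add_kronecker, hk, Matrix.zero_kronecker]
  have z3 : ∀ k, M 0 * (M k)ᵀ + M k * (M 0)ᵀ = 0 →
      (M 0 ⊗ₖ PP) * (M k ⊗ₖ QQ)ᵀ + (M k ⊗ₖ QQ) * (M 0 ⊗ₖ PP)ᵀ = 0 := by
    intro k hk
    rw [kk, kk, PQ_symm, ← Matrix.add_kronecker, hk, Matrix.zero_kronecker]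
  have z4 : (M 1 ⊗ₖ QQ) * (M 2 ⊗ₖ QQ)ᵀ + (M 2 ⊗ₖ QQ) * (M 1 ⊗ₖ QQ)ᵀ = 0 := by
    rw [kk, kk, ← Matrix.add_kronecker, a12, Matrix.zero_kronecker]
  have sw : ∀ {X Y : Matrix (ι × Fin 2) (ι × Fin 2) ℤ}, X * Yᵀ + Y * Xᵀ = 0 →
      Y * Xᵀ + X * Yᵀ = 0 := fun e => by rw [add_comm]; exact e
  refine ⟨?_, ?_, ?_, ?_⟩
  · intro i
    fin_cases i
    · rintro ⟨x, s⟩ ⟨y, u⟩
      exact sgn_mul (h.entry 0 x y) (one_entry s u)
    · rintro ⟨x, s⟩ ⟨y, u⟩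
      exact sgn_mul (h.entry 0 x y) (PP_entry s u)
    · rintro ⟨x, s⟩ ⟨y, u⟩
      exact sgn_mul (h.entry 1 x y) (Or.inr (QQ_entry s u))
    · rintro ⟨x, s⟩ ⟨y, u⟩
      exact sgn_mul (h.entry 2 x y) (Or.inr (QQ_entry s u))
  · rintro ⟨x, s⟩ ⟨y, u⟩
    have hQ : QQ s u ≠ 0 := by
      rcases QQ_entry s u with hq | hq <;> rw [hq] <;> decide
    apply existsUnique_of4
    show ((M 0 x y * (1 : Matrix (Fin 2) (Fin 2) ℤ) s u ≠ 0) ∧ ¬ (M 0 x y * PP s u ≠ 0) ∧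
        ¬ (M 1 x y * QQ s u ≠ 0) ∧ ¬ (M 2 x y * QQ s u ≠ 0)) ∨
      (¬ (M 0 x y * (1 : Matrix (Fin 2) (Fin 2) ℤ) s u ≠ 0) ∧ (M 0 x y * PP s u ≠ 0) ∧
        ¬ (M 1 x y * QQ s u ≠ 0) ∧ ¬ (M 2 x y * QQ s u ≠ 0)) ∨
      (¬ (M 0 x y * (1 : Matrix (Fin 2) (Fin 2) ℤ) s u ≠ 0) ∧ ¬ (M 0 x y * PP s u ≠ 0) ∧
        (M 1 x y * QQ s u ≠ 0) ∧ ¬ (M 2 x y * QQ s u ≠ 0)) ∨
      (¬ (M 0 x y * (1 : Matrix (Fin 2) (Fin 2) ℤ) s u ≠ 0) ∧ ¬ (M 0 x y * PP s u ≠ 0) ∧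
        ¬ (M 1 x y * QQ s u ≠ 0) ∧ (M 2 x y * QQ s u ≠ 0))
    have e := exactly3 (h.supp x y)
    have f := one_PP s u
    generalize M 0 x y = m0 at *
    generalize M 1 x y = m1 at *
    generalize M 2 x y = m2 at *
    generalize QQ s u = q at *
    generalize PP s u = p at *
    generalize (1 : Matrix (Fin 2) (Fin 2) ℤ) s u = o at *
    simp only [ne_eq, mul_eq_zero, not_or, not_not, hQ, or_false, not_false_eq_true, and_true] at *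
    tauto
  · intro i
    fin_cases i
    · show (M 0 ⊗ₖ (1 : Matrix (Fin 2) (Fin 2) ℤ)) * (M 0 ⊗ₖ (1 : Matrix (Fin 2) (Fin 2) ℤ))ᵀ =
        (a : ℤ) • 1
      rw [kk, s0, Matrix.transpose_one, Matrix.one_mul, Matrix.smul_kronecker,
        Matrix.one_kronecker_one]
    · show (M 0 ⊗ₖ PP) * (M 0 ⊗ₖ PP)ᵀ = (a : ℤ) • 1
      rw [kk, s0, PP_mul, Matrix.smul_kronecker, Matrix.one_kronecker_one]
    · show (M 1 ⊗ₖ QQ) * (M 1 ⊗ₖ QQ)ᵀ = ((2 * b : ℕ) : ℤ) • 1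
      rw [kk, s1, QQ_mul, Matrix.smul_kronecker, Matrix.kronecker_smul,
        Matrix.one_kronecker_one, smul_smul]
      congr 1
      push_cast
      ring
    · show (M 2 ⊗ₖ QQ) * (M 2 ⊗ₖ QQ)ᵀ = ((2 * c : ℕ) : ℤ) • 1
      rw [kk, s2, QQ_mul, Matrix.smul_kronecker, Matrix.kronecker_smul,
        Matrix.one_kronecker_one, smul_smul]
      congr 1
      push_cast
      ring
  · intro i k hik
    fin_cases i <;> fin_cases k
    · exact absurd rfl hik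
    · exact z1
    · exact z2 1 a01
    · exact z2 2 a02
    · exact sw z1
    · exact absurd rfl hik
    · exact z3 1 a01
    · exact z3 2 a02
    · exact sw (z2 1 a01)
    · exact sw (z3 1 a01)
    · exact absurd rfl hik
    · exact z4
    · exact sw (z2 2 a02)
    · exact sw (z3 2 a02)
    · exact sw z4
    · exact absurd rfl hik

theorem od_merge {a b c d : ℕ} {M : Fin 4 → Matrix ι ι ℤ} (h : IsOD ![a, b, c, d] M) :
    IsOD ![a, b + c, d] ![M 0, M 1 + M 2, M 3] := by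
  have s0 : M 0 * (M 0)ᵀ = (a : ℤ) • (1 : Matrix ι ι ℤ) := h.self 0
  have s1 : M 1 * (M 1)ᵀ = (b : ℤ) • (1 : Matrix ι ι ℤ) := h.self 1
  have s2 : M 2 * (M 2)ᵀ = (c : ℤ) • (1 : Matrix ι ι ℤ) := h.self 2
  have s3 : M 3 * (M 3)ᵀ = (d : ℤ) • (1 : Matrix ι ι ℤ) := h.self 3
  have a01 := h.anti 0 1 (by decide)
  have a02 := h.anti 0 2 (by decide)
  have a03 := h.anti 0 3 (by decide)
  have a12 := h.anti 1 2 (by decide)
  have a13 := h.anti 1 3 (by decide)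
  have a23 := h.anti 2 3 (by decide)
  have sw : ∀ {X Y : Matrix ι ι ℤ}, X * Yᵀ + Y * Xᵀ = 0 →
      Y * Xᵀ + X * Yᵀ = 0 := fun e => by rw [add_comm]; exact e
  have z1 : M 0 * (M 1 + M 2)ᵀ + (M 1 + M 2) * (M 0)ᵀ = 0 := by
    rw [Matrix.transpose_add, Matrix.mul_add, Matrix.add_mul]
    calc M 0 * (M 1)ᵀ + M 0 * (M 2)ᵀ + (M 1 * (M 0)ᵀ + M 2 * (M 0)ᵀ)
        = (M 0 * (M 1)ᵀ + M 1 * (M 0)ᵀ) + (M 0 * (M 2)ᵀ + M 2 * (M 0)ᵀ) := by abel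
      _ = 0 := by rw [a01, a02, add_zero]
  have z2 : (M 1 + M 2) * (M 3)ᵀ + M 3 * (M 1 + M 2)ᵀ = 0 := by
    rw [Matrix.transpose_add, Matrix.mul_add, Matrix.add_mul]
    calc M 1 * (M 3)ᵀ + M 2 * (M 3)ᵀ + (M 3 * (M 1)ᵀ + M 3 * (M 2)ᵀ)
        = (M 1 * (M 3)ᵀ + M 3 * (M 1)ᵀ) + (M 2 * (M 3)ᵀ + M 3 * (M 2)ᵀ) := by abel
      _ = 0 := by rw [a13, a23, add_zero]
  refine ⟨?_, ?_, ?_, ?_⟩
  · intro i
    fin_cases i
    · intro x y
      exact h.entry 0 x y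
    · intro x y
      show M 1 x y + M 2 x y = 0 ∨ M 1 x y + M 2 x y = 1 ∨ M 1 x y + M 2 x y = -1
      have e := exactly4 (h.supp x y)
      have h1 := h.entry 1 x y
      have h2 := h.entry 2 x y
      rcases e with ⟨-, e1, e2, -⟩ | ⟨-, e1, e2, -⟩ | ⟨-, e1, e2, -⟩ | ⟨-, e1, e2, -⟩
      · rw [not_not.1 e1, not_not.1 e2]; decide
      · rw [not_not.1 e2, add_zero]; exact h1
      · rw [not_not.1 e1, zero_add]; exact h2
      · rw [not_not.1 e1, not_not.1 e2]; decide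
    · intro x y
      exact h.entry 3 x y
  · intro x y
    apply existsUnique_of3
    show ((M 0 x y ≠ 0) ∧ ¬ (M 1 x y + M 2 x y ≠ 0) ∧ ¬ (M 3 x y ≠ 0)) ∨
      (¬ (M 0 x y ≠ 0) ∧ (M 1 x y + M 2 x y ≠ 0) ∧ ¬ (M 3 x y ≠ 0)) ∨
      (¬ (M 0 x y ≠ 0) ∧ ¬ (M 1 x y + M 2 x y ≠ 0) ∧ (M 3 x y ≠ 0))
    have e := exactly4 (h.supp x y)
    rcases e with ⟨e0, e1, e2, e3⟩ | ⟨e0, e1, e2, e3⟩ | ⟨e0, e1, e2, e3⟩ | ⟨e0, e1, e2, e3⟩
    · refine Or.inl ⟨e0, ?_, e3⟩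
      rw [not_not.1 e1, not_not.1 e2]; decide
    · refine Or.inr (Or.inl ⟨e0, ?_, e3⟩)
      rw [not_not.1 e2, add_zero]; exact e1
    · refine Or.inr (Or.inl ⟨e0, ?_, e3⟩)
      rw [not_not.1 e1, zero_add]; exact e2
    · refine Or.inr (Or.inr ⟨e0, ?_, e3⟩)
      rw [not_not.1 e1, not_not.1 e2]; decide
  · intro i
    fin_cases i
    · exact s0
    · show (M 1 + M 2) * (M 1 + M 2)ᵀ = ((b + c : ℕ) : ℤ) • (1 : Matrix ι ι ℤ)
      rw [Matrix.transpose_add, Matrix.mul_add, Matrix.add_mul, Matrix.add_mul]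
      calc M 1 * (M 1)ᵀ + M 2 * (M 1)ᵀ + (M 1 * (M 2)ᵀ + M 2 * (M 2)ᵀ)
          = M 1 * (M 1)ᵀ + M 2 * (M 2)ᵀ + (M 1 * (M 2)ᵀ + M 2 * (M 1)ᵀ) := by abel
        _ = ((b + c : ℕ) : ℤ) • (1 : Matrix ι ι ℤ) := by
          rw [s1, s2, a12, add_zero, ← add_smul]
          push_cast
          rfl
    · exact s3
  · intro i k hik
    fin_cases i <;> fin_cases k
    · exact absurd rfl hik
    · exact z1
    · exact a03
    · exact sw z1
    · exact absurd rfl hik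
    · exact z2
    · exact sw a03
    · exact sw z2
    · exact absurd rfl hik

end gen

/-- The existence statement, as a predicate of the order and of the weights. -/
def Ex3 (n a b c : ℕ) : Prop :=
  ∃ (ι : Type) (_ : Fintype ι) (_ : DecidableEq ι) (M : Fin 3 → Matrix ι ι ℤ),
      Fintype.card ι = n ∧ IsOD ![a, b, c] M

theorem Ex3.perm {n a b c a' b' c' : ℕ} (h : Ex3 n a b c) (σ : Fin 3 ≃ Fin 3)
    (e : (fun i => ![a, b, c] (σ i)) = ![a', b', c']) : Ex3 n a' b' c' := by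
  obtain ⟨ι, i1, i2, M, hc, hM⟩ := h
  refine ⟨ι, i1, i2, fun i => M (σ i), hc, ?_⟩
  have := od_perm hM σ
  rw [e] at this
  exact this

theorem Ex3.swap01 {n a b c : ℕ} (h : Ex3 n a b c) : Ex3 n b a c := by
  refine h.perm (Equiv.swap 0 1) ?_
  funext i
  fin_cases i <;> rfl

theorem Ex3.swap12 {n a b c : ℕ} (h : Ex3 n a b c) : Ex3 n a c b := by
  refine h.perm (Equiv.swap 1 2) ?_
  funext i
  fin_cases i <;> rfl

theorem Ex3.double {n a b c : ℕ} (h : Ex3 n a b c) : Ex3 (2 * n) (2 * a) (2 * b) (2 * c) := by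
  obtain ⟨ι, i1, i2, M, hc, hM⟩ := h
  refine ⟨ι × Fin 2, inferInstance, inferInstance, fun i => M i ⊗ₖ QQ, ?_, ?_⟩
  · rw [Fintype.card_prod, hc, Fintype.card_fin, mul_comm]
  · have := od_double hM
    have e : (fun i => 2 * ![a, b, c] i) = ![2 * a, 2 * b, 2 * c] := by
      funext i
      fin_cases i <;> rfl
    rw [e] at this
    exact this

theorem Ex3.split {n a b c : ℕ} (h : Ex3 n a b c) :
    ∃ (ι : Type) (_ : Fintype ι) (_ : DecidableEq ι) (M : Fin 4 → Matrix ι ι ℤ),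
      Fintype.card ι = 2 * n ∧ IsOD ![a, a, 2 * b, 2 * c] M := by
  obtain ⟨ι, i1, i2, M, hc, hM⟩ := h
  refine ⟨ι × Fin 2, inferInstance, inferInstance, _, ?_, od_split hM⟩
  rw [Fintype.card_prod, hc, Fintype.card_fin, mul_comm]

theorem Ex3.splitMerge {n a b c : ℕ} (h : Ex3 n a b c) : Ex3 (2 * n) a (a + 2 * b) (2 * c) := by
  obtain ⟨ι, i1, i2, M, hc, hM⟩ := h.split
  exact ⟨ι, i1, i2, _, hc, od_merge hM⟩

theorem Ex3.base : Ex3 1 1 0 0 := by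
  refine ⟨Fin 1, inferInstance, inferInstance, ![1, 0, 0], by simp, ?_⟩
  refine ⟨?_, ?_, ?_, ?_⟩
  · decide
  · intro x y
    apply existsUnique_of3
    left
    revert x y
    decide
  · intro i
    fin_cases i <;> decide
  · intro i k _
    fin_cases i <;> fin_cases k <;> first | decide | (exact absurd rfl (by assumption))

theorem ex3_all (t : ℕ) : ∀ a b c : ℕ, a + b + c = 2 ^ t → Ex3 (2 ^ t) a b c := by
  induction t with
  | zero =>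
    intro a b c h
    rw [pow_zero] at h ⊢
    have : (a = 1 ∧ b = 0 ∧ c = 0) ∨ (a = 0 ∧ b = 1 ∧ c = 0) ∨ (a = 0 ∧ b = 0 ∧ c = 1) := by
      omega
    rcases this with ⟨rfl, rfl, rfl⟩ | ⟨rfl, rfl, rfl⟩ | ⟨rfl, rfl, rfl⟩
    · exact Ex3.base
    · exact Ex3.base.swap01
    · exact Ex3.base.swap01.swap12
  | succ t ih =>
    -- the case `a`, `b` odd, `a ≤ b`, `c` even
    have main : ∀ a b c : ℕ, a + b + c = 2 ^ (t + 1) → a ≤ b → (b - a) % 2 = 0 → c % 2 = 0 →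
        Ex3 (2 ^ (t + 1)) a b c := by
      intro a b c h hab h1 h2
      have hp : 2 ^ (t + 1) = 2 * 2 ^ t := by rw [pow_succ, mul_comm]
      have h3 : a + (b - a) / 2 + c / 2 = 2 ^ t := by omega
      have h4 := (ih _ _ _ h3).splitMerge
      have e1 : a + 2 * ((b - a) / 2) = b := by omega
      have e2 : 2 * (c / 2) = c := by omega
      rw [e1, e2, ← hp] at h4
      exact h4
    have main2 : ∀ a b c : ℕ, a + b + c = 2 ^ (t + 1) → (a + b) % 2 = 0 → c % 2 = 0 →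
        Ex3 (2 ^ (t + 1)) a b c := by
      intro a b c h h1 h2
      rcases le_total a b with hab | hab
      · exact main a b c h hab (by omega) h2
      · exact (main b a c (by omega) hab (by omega) h2).swap01
    intro a b c h
    have hp : 2 ^ (t + 1) = 2 * 2 ^ t := by rw [pow_succ, mul_comm]
    have hcases : c % 2 = 0 ∨ b % 2 = 0 ∨ a % 2 = 0 := by omega
    rcases hcases with h1 | h1 | h1
    · exact main2 a b c h (by omega) h1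
    · exact (main2 a c b (by omega) (by omega) h1).swap12
    · exact (main2 c b a (by omega) (by omega) h1).swap12.swap01.swap12

theorem exists_od3 (t a b c : ℕ) (h : a + b + c = 2 ^ t) :
    ∃ (ι : Type) (_ : Fintype ι) (_ : DecidableEq ι) (M : Fin 3 → Matrix ι ι ℤ),
      Fintype.card ι = 2 ^ t ∧ IsOD ![a, b, c] M :=
  ex3_all t a b c h

theorem exists_od4 (t a b c : ℕ) (h : 2 * b + 2 * a + 2 * c = 2 ^ (t + 1)) :
    ∃ (ι : Type) (_ : Fintype ι) (_ : DecidableEq ι) (M : Fin 4 → Matrix ι ι ℤ),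
      Fintype.card ι = 2 ^ (t + 1) ∧ IsOD ![b, b, 2 * a, 2 * c] M := by
  have hp : 2 ^ (t + 1) = 2 * 2 ^ t := by rw [pow_succ, mul_comm]
  have h3 : b + a + c = 2 ^ t := by omega
  have h4 := (ex3_all t b a c h3).split
  rw [← hp] at h4
  exact h4

end Pool.Agent.Lib.MP_db622c_co.CB
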