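import Pool.Agent.Lib.MP_db622c_co.CB.LamOf

/-!
# CB-PaleyBase: the base of order `q + 1`, `q` a prime power, `q ≡ 3 (mod 4)`
-/

namespace Pool.Agent.Lib.MP_db622c_co.CB

open Pool.Agent.Lib.MP_db622c_co

/-- the boards: the row of ones (`none`) and the translates of the Paley row -/
def PA (F : Type) : Type := Option F

instance (F : Type) : Zero (PA F) := ⟨none⟩
instance (F : Type) [Fintype F] : Fintype (PA F) := inferInstanceAs (Fintype (Option F))

variable {F : Type} [Field F] [Fintype F] [DecidableEq F]

theorem pb_char (h3 : Fintype.card F % 4 = 3) : ringChar F ≠ 2 := by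
  intro h
  have h1 := FiniteField.even_card_of_char_two h
  omega

theorem pb_neg (h3 : Fintype.card F % 4 = 3) : quadraticChar F (-1) = -1 := by
  have h1 : (-1 : F) ≠ 0 := neg_ne_zero.2 one_ne_zero
  rcases quadraticChar_dichotomy h1 with h | h
  · exfalso
    have h2 := (quadraticChar_one_iff_isSquare h1).1 h
    exact (FiniteField.isSquare_neg_one_iff.1 h2) h3
  · exact h

theorem pb_two (h3 : Fintype.card F % 4 = 3) : (2 : F) ≠ 0 :=
  Ring.two_ne_zero (pb_char h3)

theorem pb_chi_neg (h3 : Fintype.card F % 4 = 3) (x : F) : quadraticChar F (-x) = - quadraticChar F x := by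
  rw [neg_eq_neg_one_mul, map_mul, pb_neg h3, neg_one_mul]

theorem pb_sum (h3 : Fintype.card F % 4 = 3) (s : F) : ∑ x : F, quadraticChar F (x - s) = 0 := by
  rw [← quadraticChar_sum_zero (pb_char h3)]
  exact Fintype.sum_equiv (Equiv.subRight s) _ _ (fun z => rfl)

theorem pb_corr (h3 : Fintype.card F % 4 = 3) {c : F} (hc : c ≠ 0) :
    ∑ z : F, quadraticChar F z * quadraticChar F (z + c) = -1 := by
  have h1 : jacobiSum (quadraticChar F) (quadraticChar F)⁻¹ = - quadraticChar F (-1) :=
    jacobiSum_nontrivial_inv (quadraticChar_ne_one (pb_char h3))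
  rw [(quadraticChar_isQuadratic F).inv, jacobiSum] at h1
  have hc' : (-c : F) ≠ 0 := neg_ne_zero.2 hc
  have h2 : ∑ z : F, quadraticChar F z * quadraticChar F (z + c) = ∑ x : F, quadraticChar F (-1) * (quadraticChar F x * quadraticChar F (1 - x)) := by
    refine (Fintype.sum_equiv (Equiv.mulLeft₀ (-c) hc') _ _ (fun x => ?_)).symm
    have e1 : (Equiv.mulLeft₀ (-c) hc') x = -1 * (c * x) := by
      simp
    have e2 : (-1 * (c * x) + c : F) = c * (1 - x) := by ring
    rw [e1, e2, map_mul, map_mul, map_mul]
    have h3 := quadraticChar_sq_one (F := F) hc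
    rw [pow_two] at h3
    linear_combination (-(quadraticChar F (-1) * (quadraticChar F x * quadraticChar F (1 - x)))) * h3
  rw [h2, ← Finset.mul_sum, h1, pb_neg h3]
  norm_num

/-- The Paley matrix. -/
def SP' : PA F → Option F → ℤ
  | none, _ => 1
  | some _, none => 1
  | some s, some x => quadraticChar F (x - s) - (if x = s then 1 else 0)

theorem SP'_self (s : F) : SP' (some s) (some s) = -1 := by
  simp [SP']

theorem SP'_ne {s x : F} (h : x ≠ s) : SP' (some s) (some x) = quadraticChar F (x - s) := by
  simp [SP', h]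

theorem isH_SP' (h3 : Fintype.card F % 4 = 3) : IsH (SP' (F := F)) := by
  refine ⟨?_, ?_, ?_⟩
  · intro a j
    rcases a with _ | s
    · exact Or.inl rfl
    · rcases j with _ | x
      · exact Or.inl rfl
      · by_cases h : x = s
        · right; rw [h]; exact SP'_self s
        · rw [SP'_ne h]
          exact quadraticChar_dichotomy (sub_ne_zero.2 h)
  · intro j; rfl
  · have key1 : ∀ s : F, ∑ j : Option F, SP' (F := F) none j * SP' (some s) j = 0 := by
      intro s
      rw [Fintype.sum_option]
      have h1 : ∀ x : F, SP' (F := F) none (some x) * SP' (some s) (some x)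
          = quadraticChar F (x - s) - (if x = s then 1 else 0) := by
        intro x
        show 1 * _ = _
        rw [one_mul]; rfl
      rw [Finset.sum_congr rfl (fun x _ => h1 x), Finset.sum_sub_distrib, pb_sum h3,
        Finset.sum_ite_eq' Finset.univ s]
      simp [SP']
    have key2 : ∀ s s' : F, s ≠ s' →
        ∑ j : Option F, SP' (F := F) (some s) j * SP' (some s') j = 0 := by
      intro s s' hss
      rw [Fintype.sum_option]
      have h1 : ∀ x : F, SP' (F := F) (some s) (some x) * SP' (some s') (some x)
          = quadraticChar F (x - s) * quadraticChar F (x - s') - (if x = s then quadraticChar F (s - s') else 0)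
            - (if x = s' then quadraticChar F (s' - s) else 0) := by
        intro x
        show (quadraticChar F (x - s) - (if x = s then 1 else 0)) * (quadraticChar F (x - s') - (if x = s' then 1 else 0)) = _
        by_cases h1 : x = s
        · have h2 : x ≠ s' := fun h => hss (h1.symm.trans h)
          have h4 : s ≠ s' := hss
          subst h1
          simp [h4]
        · by_cases h2 : x = s'
          · subst h2
            simp [h1]
          · simp [h1, h2]
      rw [Finset.sum_congr rfl (fun x _ => h1 x), Finset.sum_sub_distrib, Finset.sum_sub_distrib,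
        Finset.sum_ite_eq' Finset.univ s, Finset.sum_ite_eq' Finset.univ s']
      have h2 : ∑ x : F, quadraticChar F (x - s) * quadraticChar F (x - s') = -1 := by
        rw [← pb_corr h3 (sub_ne_zero.2 hss)]
        refine Fintype.sum_equiv (Equiv.subRight s) _ _ (fun x => ?_)
        show quadraticChar F (x - s) * quadraticChar F (x - s') = quadraticChar F (x - s) * quadraticChar F (x - s + (s - s'))
        congr 2; ring
      have h4 : quadraticChar F (s' - s) = - quadraticChar F (s - s') := by
        rw [← neg_sub s s', pb_chi_neg h3]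
      rw [h2, h4]
      simp [SP']
    intro a b hab
    rcases a with _ | s <;> rcases b with _ | s'
    · exact absurd rfl hab
    · exact key1 s'
    · rw [← key1 s]
      exact Finset.sum_congr rfl (fun j _ => mul_comm _ _)
    · exact key2 s s' (fun h => hab (congrArg some h))

/-- the patterned one-factorization -/
def gP : Option F → Option F → PA F
  | none, none => none
  | none, some x => some x
  | some x, none => some x
  | some x, some y => some ((x + y) / 2)

theorem isOF_gP (h3 : Fintype.card F % 4 = 3) : IsOF (gP (F := F)) := by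
  have h2 := pb_two h3
  refine ⟨?_, ?_, ?_⟩
  · intro j k hjk
    rcases j with _ | x <;> rcases k with _ | y
    · exact absurd rfl hjk
    · exact fun h => Option.some_ne_none _ h
    · exact fun h => Option.some_ne_none _ h
    · exact fun h => Option.some_ne_none _ h
  · intro j k
    rcases j with _ | x <;> rcases k with _ | y
    · rfl
    · rfl
    · rfl
    · show some ((x + y) / 2) = some ((y + x) / 2)
      rw [add_comm]
  · intro j k k' hk hk' h
    rcases j with _ | x <;> rcases k with _ | y <;> rcases k' with _ | z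
    · rfl
    · exact absurd rfl hk
    · exact absurd rfl hk'
    · have h4 : some y = some z := h
      exact h4
    · rfl
    · exfalso
      have h4 : x = (x + z) / 2 := Option.some_injective _ h
      rw [eq_div_iff h2] at h4
      apply hk'
      have : z = x := by linear_combination -h4
      rw [this]
    · exfalso
      have h4 : (x + y) / 2 = x := Option.some_injective _ h
      rw [div_eq_iff h2] at h4
      apply hk
      have : y = x := by linear_combination h4
      rw [this]
    · have h4 : (x + y) / 2 = (x + z) / 2 := Option.some_injective _ h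
      rw [div_left_inj' h2] at h4
      rw [add_left_cancel h4]

theorem isSplit_gP (h3 : Fintype.card F % 4 = 3) : IsSplit (SP' (F := F)) gP := by
  have h2 := pb_two h3
  intro j k hjk
  rcases j with _ | x <;> rcases k with _ | y
  · exact absurd rfl hjk
  · show SP' (some y) (some y) = - SP' (some y) none
    rw [SP'_self]; rfl
  · show SP' (some x) none = - SP' (some x) (some x)
    rw [SP'_self]; rfl
  · show SP' (some ((x + y) / 2)) (some y) = - SP' (some ((x + y) / 2)) (some x)
    have hxy : x ≠ y := fun h => hjk (congrArg some h)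
    have h4 : y ≠ (x + y) / 2 := by
      intro h
      rw [eq_div_iff h2] at h
      exact hxy (by linear_combination -h)
    have h5 : x ≠ (x + y) / 2 := by
      intro h
      rw [eq_div_iff h2] at h
      exact hxy (by linear_combination h)
    rw [SP'_ne h4, SP'_ne h5, ← pb_chi_neg h3]
    congr 1
    field_simp
    ring

/-- the perfect matching `{x, ρ x}`, `x` a square, and `{0, ∞}` -/
def muP (ρ : F) : Option F → Option F
  | none => some 0
  | some x => if x = 0 then none else if quadraticChar F x = 1 then some (ρ * x) else some (ρ⁻¹ * x)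

/-- the side of a point -/
def sdP : Option F → ZMod 2
  | none => 1
  | some x => if x = 0 then 0 else if quadraticChar F x = 1 then 0 else 1

section

variable {ρ : F} (hρ : (quadraticChar F ρ : ℤ) = (-1 : ℤ))

include hρ

theorem rho_ne : ρ ≠ 0 := by
  intro h
  rw [h, quadraticChar_zero] at hρ
  norm_num at hρ

theorem chi_inv : quadraticChar F ρ⁻¹ = -1 := by
  have h1 := rho_ne hρ
  have h2 : quadraticChar F ρ * quadraticChar F ρ⁻¹ = 1 := by
    rw [← map_mul, mul_inv_cancel₀ h1, map_one]
  rw [hρ] at h2
  linarith

theorem muP_sq {x : F} (hx : x ≠ 0) (h : quadraticChar F x = 1) : muP ρ (some x) = some (ρ * x) := by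
  simp [muP, hx, h]

theorem muP_nsq {x : F} (hx : x ≠ 0) (h : quadraticChar F x = -1) : muP ρ (some x) = some (ρ⁻¹ * x) := by
  have h1 : ¬ (-1 : ℤ) = 1 := by norm_num
  simp [muP, hx, h, h1]

theorem muP_zero : muP ρ (some 0) = none := by
  simp [muP]

theorem muP_inv (p : Option F) : muP ρ (muP ρ p) = p := by
  have h0 := rho_ne hρ
  rcases p with _ | x
  · exact muP_zero hρ
  · by_cases hx : x = 0
    · rw [hx, muP_zero hρ]; rfl
    · rcases quadraticChar_dichotomy hx with h | h
      · rw [muP_sq hρ hx h, muP_nsq hρ (mul_ne_zero h0 hx) (by rw [map_mul, hρ, h]; norm_num),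
          inv_mul_cancel_left₀ h0]
      · rw [muP_nsq hρ hx h, muP_sq hρ (mul_ne_zero (inv_ne_zero h0) hx)
          (by rw [map_mul, chi_inv hρ, h]; norm_num), mul_inv_cancel_left₀ h0]

theorem sdP_muP (p : Option F) : sdP (muP ρ p) = sdP p + 1 := by
  have h0 := rho_ne hρ
  rcases p with _ | x
  · show sdP (some 0) = _
    simp only [sdP, if_true]
    decide
  · by_cases hx : x = 0
    · rw [hx, muP_zero hρ]
      simp only [sdP, if_true]
      decide
    · have h1 : ¬ (-1 : ℤ) = 1 := by norm_num
      rcases quadraticChar_dichotomy hx with h | h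
      · have h2 : quadraticChar F (ρ * x) = -1 := by rw [map_mul, hρ, h]; norm_num
        have h3 : ρ * x ≠ 0 := mul_ne_zero h0 hx
        rw [muP_sq hρ hx h]
        simp only [sdP, h3, hx, h, h2, if_false, if_true, h1]
        decide
      · have h2 : quadraticChar F (ρ⁻¹ * x) = 1 := by rw [map_mul, chi_inv hρ, h]; norm_num
        have h3 : ρ⁻¹ * x ≠ 0 := mul_ne_zero (inv_ne_zero h0) hx
        rw [muP_nsq hρ hx h]
        simp only [sdP, h3, hx, h, h2, if_false, if_true, h1]
        decide

theorem muP_ne (p : Option F) : muP ρ p ≠ p := by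
  intro h
  have h1 := sdP_muP hρ p
  rw [h] at h1
  exact absurd h1.symm (by generalize sdP p = a; revert a; decide)

/-- the value of `gP` on the edges of `muP` -/
theorem gP_muP_sq {x : F} (hx : x ≠ 0) (h : quadraticChar F x = 1) :
    gP (some x) (muP ρ (some x)) = some ((1 + ρ) * x / 2) := by
  rw [muP_sq hρ hx h]
  show some ((x + ρ * x) / 2) = _
  congr 2; ring

theorem gP_muP_nsq {x : F} (hx : x ≠ 0) (h : quadraticChar F x = -1) :
    gP (some x) (muP ρ (some x)) = some ((1 + ρ) * (ρ⁻¹ * x) / 2) := by
  have h0 := rho_ne hρ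
  rw [muP_nsq hρ hx h]
  show some ((x + ρ⁻¹ * x) / 2) = _
  congr 2
  field_simp
  ring

/-- normal form: the class of the edge of `muP` at `p` -/
theorem muP_key (p : Option F) : ∃ z : F, gP p (muP ρ p) = some ((1 + ρ) * z / 2) ∧
      ((z = 0 ∧ (p = none ∨ p = some 0)) ∨ (z ≠ 0 ∧ quadraticChar F z = 1 ∧
        (p = some z ∨ p = some (ρ * z)))) := by
  have h0 := rho_ne hρ
  rcases p with _ | x
  · refine ⟨0, ?_, Or.inl ⟨rfl, Or.inl rfl⟩⟩
    show some 0 = _
    rw [mul_zero, zero_div]
  · by_cases hx : x = 0
    · refine ⟨0, ?_, Or.inl ⟨rfl, Or.inr (by rw [hx])⟩⟩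
      rw [hx, muP_zero hρ]
      show some 0 = _
      rw [mul_zero, zero_div]
    · rcases quadraticChar_dichotomy hx with h | h
      · exact ⟨x, gP_muP_sq hρ hx h, Or.inr ⟨hx, h, Or.inl rfl⟩⟩
      · refine ⟨ρ⁻¹ * x, gP_muP_nsq hρ hx h, Or.inr ⟨mul_ne_zero (inv_ne_zero h0) hx,
          by rw [map_mul, chi_inv hρ, h]; norm_num, Or.inr ?_⟩⟩
        rw [mul_inv_cancel_left₀ h0]

theorem isRB_muP (h3 : Fintype.card F % 4 = 3) (hρ1 : 1 + ρ ≠ 0) :
    IsRB (gP (F := F)) (muP ρ) := by
  have h0 := rho_ne hρ
  have h2 := pb_two h3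
  refine ⟨muP_inv hρ, muP_ne hρ, ?_⟩
  have key := muP_key hρ
  intro j k h
  obtain ⟨z, hz, hz'⟩ := key j
  obtain ⟨z', hk, hk'⟩ := key k
  rw [hz, hk] at h
  have h4 : (1 + ρ) * z / 2 = (1 + ρ) * z' / 2 := Option.some_injective _ h
  rw [div_left_inj' h2] at h4
  have h5 : z = z' := mul_left_cancel₀ hρ1 h4
  subst h5
  rcases hz' with ⟨e0, e1⟩ | ⟨e0, e2, e1⟩
  · rcases hk' with ⟨-, f1⟩ | ⟨f0, -, -⟩
    · rcases e1 with e1 | e1 <;> rcases f1 with f1 | f1 <;> rw [e1, f1]
      · left; rfl
      · right; rfl
      · right; rw [muP_zero hρ]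
      · left; rfl
    · exact absurd e0 f0
  · rcases hk' with ⟨f0, -⟩ | ⟨-, -, f1⟩
    · exact absurd f0 e0
    · have hn : quadraticChar F (ρ * z) = -1 := by rw [map_mul, hρ, e2]; norm_num
      rcases e1 with e1 | e1 <;> rcases f1 with f1 | f1 <;> rw [e1, f1]
      · left; rfl
      · right; rw [muP_sq hρ e0 e2]
      · right; rw [muP_nsq hρ (mul_ne_zero h0 e0) hn, inv_mul_cancel_left₀ h0]
      · left; rfl

end

end Pool.Agent.Lib.MP_db622c_co.CB
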