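import Pool.Agent.Lib.MP_db622c_co.CB.OD

/-!
# CB-Plug: plugging commuting symmetric matrices into an orthogonal design

`(∑ M i ⊗ X i) (∑ M k ⊗ X k)ᵀ = ∑ i, (M i * (M i)ᵀ) ⊗ X i ^ 2
  + ∑_{i ≠ k} (M i * (M k)ᵀ) ⊗ (X i * X k)`; the second sum vanishes because
`M i (M k)ᵀ + M k (M i)ᵀ = 0` and `X i X k = X k X i` (e.g. twice the double sum over `i, k` is
`∑ i k, (M i (M k)ᵀ + M k (M i)ᵀ) ⊗ (X i X k)`, which has only the diagonal terms left).
Entries: at the position `((x, u), (y, v))` the entry is `∑ i, M i x y * X i u v`, exactly one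
`M i x y` is nonzero (`= ±1`), so the entry is `±1`.
-/

namespace Pool.Agent.Lib.MP_db622c_co.CB

/-- `H` is a Hadamard matrix -/
def IsHad {ι : Type*} [Fintype ι] [DecidableEq ι] (H : Matrix ι ι ℤ) : Prop :=
  (∀ x y, H x y = 1 ∨ H x y = -1) ∧
    H * H.transpose = (Fintype.card ι : ℤ) • (1 : Matrix ι ι ℤ)

theorem plug {ι κ v : Type*} [Fintype ι] [DecidableEq ι] [Fintype κ] [DecidableEq κ] [Fintype v]
    [DecidableEq v] (w : v → ℕ) (M : v → Matrix ι ι ℤ) (hM : IsOD w M)
    (X : v → Matrix κ κ ℤ) (hX : ∀ i x y, X i x y = 1 ∨ X i x y = -1)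
    (hsym : ∀ i, (X i).transpose = X i) (hcomm : ∀ i k, X i * X k = X k * X i)
    (hsum : ∑ i, (w i : ℤ) • (X i * X i)
      = ((Fintype.card ι * Fintype.card κ : ℕ) : ℤ) • (1 : Matrix κ κ ℤ)) :
    IsHad (∑ i, Matrix.kroneckerMap (· * ·) (M i) (X i)) := by
  refine ⟨?_, ?_⟩
  · rintro ⟨x, u⟩ ⟨y, z⟩
    obtain ⟨i, hi, huniq⟩ := hM.supp x y
    rw [Matrix.sum_apply, Finset.sum_eq_single i]
    · rw [Matrix.kroneckerMap_apply]
      rcases hM.entry i x y with h | h | h
      · exact absurd h hi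
      · rw [h, one_mul]; exact hX i u z
      · rw [h]
        rcases hX i u z with h2 | h2 <;> rw [h2] <;> norm_num
    · intro k _ hk
      rw [Matrix.kroneckerMap_apply]
      have : M k x y = 0 := by
        by_contra h
        exact hk (huniq k h)
      rw [this, zero_mul]
    · intro h
      exact absurd (Finset.mem_univ _) h
  · have htr : (∑ i, Matrix.kroneckerMap (· * ·) (M i) (X i)).transpose =
        ∑ i, Matrix.kroneckerMap (· * ·) (M i).transpose (X i) := by
      rw [Matrix.transpose_sum]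
      refine Finset.sum_congr rfl fun i _ => ?_
      rw [← Matrix.kroneckerMap_transpose, hsym]
    rw [htr, Finset.sum_mul_sum]
    have h1 : ∀ i k, Matrix.kroneckerMap (· * ·) (M i) (X i) *
        Matrix.kroneckerMap (· * ·) (M k).transpose (X k) =
        Matrix.kroneckerMap (· * ·) (M i * (M k).transpose) (X i * X k) := fun i k =>
      (Matrix.mul_kronecker_mul (M i) (M k).transpose (X i) (X k)).symm
    simp_rw [h1]
    obtain ⟨T, hT⟩ : ∃ T : v → v → Matrix (ι × κ) (ι × κ) ℤ, ∀ i k, T i k =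
      Matrix.kroneckerMap (· * ·) (M i * (M k).transpose) (X i * X k) := ⟨_, fun _ _ => rfl⟩
    simp_rw [← hT]
    have h2 : ∀ i k, i ≠ k → T i k + T k i = 0 := by
      intro i k hik
      rw [hT, hT, hcomm k i]
      have h3 := Matrix.kroneckerMap_add_left (· * ·) (fun a b c => add_mul a b c)
        (M i * (M k).transpose) (M k * (M i).transpose) (X i * X k)
      rw [← h3, hM.anti i k hik]
      ext p q
      simp
    have h3 : (2 : ℤ) • ∑ i, ∑ k, T i k = (2 : ℤ) • ∑ i, T i i := by
      have h4 : (2 : ℤ) • ∑ i, ∑ k, T i k = ∑ i, ∑ k, (T i k + T k i) := by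
        rw [two_smul]
        simp_rw [Finset.sum_add_distrib]
        congr 1
        exact Finset.sum_comm
      rw [h4, Finset.smul_sum]
      refine Finset.sum_congr rfl fun i _ => ?_
      rw [Finset.sum_eq_single i]
      · rw [two_smul]
      · intro k _ hk
        exact h2 i k (Ne.symm hk)
      · intro h
        exact absurd (Finset.mem_univ _) h
    have h5 : ∑ i, ∑ k, T i k = ∑ i, T i i := by
      ext p q
      have h6 := congrFun (congrFun h3 p) q
      rw [Matrix.smul_apply, Matrix.smul_apply, smul_eq_mul, smul_eq_mul] at h6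
      linarith
    rw [h5]
    have h7 : ∀ i, T i i = Matrix.kroneckerMap (· * ·) (1 : Matrix ι ι ℤ)
        ((w i : ℤ) • (X i * X i)) := by
      intro i
      rw [hT, hM.self i]
      ext ⟨x, u⟩ ⟨y, z⟩
      simp only [Matrix.kroneckerMap_apply, Matrix.smul_apply, smul_eq_mul]
      ring
    simp_rw [h7]
    have h8 : ∑ i, Matrix.kroneckerMap (· * ·) (1 : Matrix ι ι ℤ) ((w i : ℤ) • (X i * X i)) =
        Matrix.kroneckerMap (· * ·) (1 : Matrix ι ι ℤ) (∑ i, (w i : ℤ) • (X i * X i)) := by
      ext ⟨x, u⟩ ⟨y, z⟩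
      rw [Matrix.sum_apply]
      simp only [Matrix.kroneckerMap_apply]
      rw [Matrix.sum_apply, Finset.mul_sum]
    rw [h8, hsum, Fintype.card_prod]
    ext ⟨x, u⟩ ⟨y, z⟩
    simp only [Matrix.kroneckerMap_apply, Matrix.smul_apply, smul_eq_mul]
    by_cases hxy : x = y
    · subst hxy
      by_cases huz : u = z
      · subst huz
        simp
      · rw [Matrix.one_apply_ne huz, Matrix.one_apply_ne (fun h => huz (Prod.ext_iff.1 h).2)]
        ring
    · rw [Matrix.one_apply_ne hxy, Matrix.one_apply_ne (fun h => hxy (Prod.ext_iff.1 h).1)]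
      ring

/-- the Kronecker product of two Hadamard matrices -/
theorem IsHad.kronecker {ι κ : Type*} [Fintype ι] [DecidableEq ι] [Fintype κ] [DecidableEq κ]
    {H : Matrix ι ι ℤ} {L : Matrix κ κ ℤ} (hH : IsHad H) (hL : IsHad L) :
    IsHad (Matrix.kroneckerMap (· * ·) H L) := by
  refine ⟨?_, ?_⟩
  · rintro ⟨x, u⟩ ⟨y, z⟩
    rw [Matrix.kroneckerMap_apply]
    rcases hH.1 x y with h | h <;> rcases hL.1 u z with h2 | h2 <;> rw [h, h2] <;> norm_num
  · rw [← Matrix.kroneckerMap_transpose]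
    have h1 : Matrix.kroneckerMap (· * ·) H L *
        Matrix.kroneckerMap (· * ·) H.transpose L.transpose =
        Matrix.kroneckerMap (· * ·) (H * H.transpose) (L * L.transpose) :=
      (Matrix.mul_kronecker_mul H H.transpose L L.transpose).symm
    rw [h1, hH.2, hL.2, Fintype.card_prod]
    ext ⟨x, u⟩ ⟨y, z⟩
    simp only [Matrix.kroneckerMap_apply, Matrix.smul_apply, smul_eq_mul]
    by_cases hxy : x = y
    · subst hxy
      by_cases huz : u = z
      · subst huz
        simp
      · rw [Matrix.one_apply_ne huz, Matrix.one_apply_ne (fun h => huz (Prod.ext_iff.1 h).2)]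
        ring
    · rw [Matrix.one_apply_ne hxy, Matrix.one_apply_ne (fun h => hxy (Prod.ext_iff.1 h).1)]
      ring

end Pool.Agent.Lib.MP_db622c_co.CB
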