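import Pool.Agent.Lib.MP_db622c_co.CB.Defs2
import Pool.Agent.Lib.MP_db622c_co.CB.BaseOF
import Pool.Agent.Lib.MP_db622c_co.CB.Match

/-!
# CB-Rank: numbering the pairs in the classes

PROOF.  `rank_lam`.  For `c : A` let `q : J → J` be the partner in the class `c`: `L j (q j) = c`
(it exists: `L j` is injective, so bijective, as `card A = card J`); `q (q j) = j` by `symm` and
`inj`.  Let `U = {j // q j ≠ j ∧ q j ≠ μ j}`, i.e. `NB μ j (q j)`; `q` maps `U` to itself
(`NB μ (q j) j`: `j ≠ q j`, and `j = μ (q j)` would give `q j = μ j`), without fixed points.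
`card U ≤ 2 k`: the two points `j ≠ j'` of `l0` for `c` are not in `U`: `L j j = c` means
`q j = j`; `L j (μ j) = c` means `q j = μ j`; and `card J = 2 k + 2`.  `match_coord` (`CB.Match`) on
`U` gives `e : U ≃ Fin t × Bool` with `e (q x) = ((e x).1, !(e x).2)`; `2 t = card U ≤ 2 k`, so
`t ≤ k`.  Let `f_c : J → ℕ`, `f_c j = (e ⟨j, _⟩).1` for `j ∈ U`, `0` otherwise: `f_c j < k` on `U`,
`f_c (q j) = f_c j`, and `f_c j = f_c j'` with `j, j' ∈ U` implies `j' = j` or `j' = q j`.
Put `r j a = f_{L j a} j` .  If `NB μ j a` then with `c = L j a` we have `a = q j`, `j ∈ U`.  So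
`r j a < k`, `r a j = f_c a = f_c (q j) = r j a`; if `L j a = L j' a' = c` and `r j a = r j' a'` then
`j' = j` (so `a' = q j = a`) or `j' = q j = a` (so `a' = q (q j) = j`).
(For the symmetry at pairs with `¬ NB μ j a` put `r j a = 0` there: use an `if`.)

`rank_of`.  The same with `g` and the partner function in the class `i ≠ 0` (`exists_partner` of
`CB.BaseOF`): a fixed point free involution of all of `J`, `card J = 2 k + 2`, so `t = k + 1`.
-/

namespace Pool.Agent.Lib.MP_db622c_co.CB

open Pool.Agent.Lib.MP_db622c_co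

/-- Coordinates for an involution `q` without fixed points on the set `U`. -/
theorem inv_rank {J : Type*} [Fintype J] (k : ℕ) (q : J → J) (U : J → Prop)
    (hq : ∀ j, U j → q (q j) = j) (hU : ∀ j, U j → U (q j)) (hne : ∀ j, U j → q j ≠ j)
    (hcard : Nat.card {j // U j} ≤ 2 * k) :
    ∃ f : J → ℕ, (∀ j, U j → f j < k) ∧ (∀ j, U j → f (q j) = f j) ∧
      ∀ j j', U j → U j' → f j = f j' → j' = j ∨ j' = q j := by
  classical
  let p : {j // U j} → {j // U j} := fun x => ⟨q x.1, hU x.1 x.2⟩
  have hp : ∀ x, p (p x) = x := fun x => Subtype.ext (hq x.1 x.2)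
  have hp1 : ∀ x, p x ≠ x := fun x h => hne x.1 x.2 (congrArg Subtype.val h)
  obtain ⟨m, e, he⟩ := match_coord p hp hp1
  have hm : Nat.card {j // U j} = m * 2 := by
    rw [Nat.card_eq_fintype_card, Fintype.card_congr e, Fintype.card_prod, Fintype.card_fin,
      Fintype.card_bool]
  have hmk : m ≤ k := by omega
  have hf : ∀ j (h : U j), (if h : U j then ((e ⟨j, h⟩).1 : ℕ) else 0) = ((e ⟨j, h⟩).1 : ℕ) :=
    fun j h => dif_pos h
  refine ⟨fun j => if h : U j then ((e ⟨j, h⟩).1 : ℕ) else 0, ?_, ?_, ?_⟩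
  · intro j h
    dsimp only
    rw [hf j h]
    exact lt_of_lt_of_le (e ⟨j, h⟩).1.2 hmk
  · intro j h
    dsimp only
    rw [hf j h, hf (q j) (hU j h)]
    have h1 := he ⟨j, h⟩
    have h2 : p ⟨j, h⟩ = ⟨q j, hU j h⟩ := rfl
    rw [h2] at h1
    rw [h1]
  · intro j j' h h' hjj
    dsimp only at hjj
    rw [hf j h, hf j' h'] at hjj
    have h1 : (e ⟨j, h⟩).1 = (e ⟨j', h'⟩).1 := Fin.ext hjj
    rcases Bool.eq_or_eq_not (e ⟨j', h'⟩).2 (e ⟨j, h⟩).2 with h2 | h2
    · left
      have h3 : e ⟨j', h'⟩ = e ⟨j, h⟩ := Prod.ext h1.symm h2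
      exact congrArg Subtype.val (e.injective h3)
    · right
      have h3 : e ⟨j', h'⟩ = e (p ⟨j, h⟩) := by
        rw [he ⟨j, h⟩]
        exact Prod.ext h1.symm h2
      exact congrArg Subtype.val (e.injective h3)

theorem rank_NB_symm {J : Type*} {μ : J → J} (hμ : ∀ j, μ (μ j) = j) {j a : J} (h : NB μ j a) :
    NB μ a j := by
  refine ⟨fun h1 => h.1 h1.symm, fun h1 => h.2 ?_⟩
  rw [h1, hμ]

theorem rank_lam {A J : Type*} [Fintype A] [Fintype J] (k : ℕ)
    (hA : Fintype.card A = 2 * k + 2) (hJ : Fintype.card J = 2 * k + 2)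
    {L : J → J → A} {μ : J → J} {side : J → ZMod 2} (hμ : ∀ j, μ (μ j) = j)
    (hL : IsLam L μ side) :
    ∃ r : J → J → ℕ, (∀ j a, r j a = r a j) ∧ (∀ j a, NB μ j a → r j a < k) ∧
      ∀ j a j' a', NB μ j a → NB μ j' a' → L j a = L j' a' → r j a = r j' a' → SP j a j' a' := by
  classical
  have hsurj : ∀ j, Function.Surjective (L j) := by
    intro j
    have hi : Function.Injective (L j) := fun a b h => hL.inj j a b h
    exact ((Fintype.bijective_iff_injective_and_card (L j)).2 ⟨hi, by rw [hA, hJ]⟩).2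
  choose q hq using fun (c : A) (j : J) => hsurj j c
  -- `hq c j : L j (q c j) = c`
  have hqu : ∀ c j a, L j a = c → a = q c j := fun c j a h => hL.inj j _ _ (by rw [h, hq])
  have hqq : ∀ c j, q c (q c j) = j := by
    intro c j
    exact (hqu c (q c j) j (by rw [hL.symm, hq])).symm
  have key : ∀ c : A, ∃ f : J → ℕ, (∀ j, NB μ j (q c j) → f j < k) ∧
      (∀ j, NB μ j (q c j) → f (q c j) = f j) ∧
      ∀ j j', NB μ j (q c j) → NB μ j' (q c j') → f j = f j' → j' = j ∨ j' = q c j := by
    intro c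
    apply inv_rank k (q c) (fun j => NB μ j (q c j))
    · intro j _
      exact hqq c j
    · intro j h
      have h1 := rank_NB_symm hμ h
      rw [hqq]
      exact h1
    · intro j h
      exact h.1
    · obtain ⟨j, j', hjj, h1, h2⟩ := hL.l0 c
      have h1' : ¬ NB μ j (q c j) := by
        rintro ⟨h3, h4⟩
        rcases h1 with h1 | h1
        · exact h3 (hqu c j j h1).symm
        · exact h4 (hqu c j (μ j) h1).symm
      have h2' : ¬ NB μ j' (q c j') := by
        rintro ⟨h3, h4⟩
        rcases h2 with h2 | h2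
        · exact h3 (hqu c j' j' h2).symm
        · exact h4 (hqu c j' (μ j') h2).symm
      rw [Nat.card_eq_fintype_card, Fintype.card_subtype]
      have hsub : (Finset.univ.filter (fun i => NB μ i (q c i))) ⊆
          (Finset.univ.erase j).erase j' := by
        intro i hi
        have hi' := (Finset.mem_filter.1 hi).2
        refine Finset.mem_erase.2 ⟨?_, Finset.mem_erase.2 ⟨?_, Finset.mem_univ i⟩⟩
        · intro h
          rw [h] at hi'
          exact h2' hi'
        · intro h
          rw [h] at hi'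
          exact h1' hi'
      have hc := Finset.card_le_card hsub
      rw [Finset.card_erase_of_mem (Finset.mem_erase.2 ⟨hjj.symm, Finset.mem_univ _⟩),
        Finset.card_erase_of_mem (Finset.mem_univ _), Finset.card_univ, hJ] at hc
      omega
  choose f hf1 hf2 hf3 using key
  refine ⟨fun j a => if NB μ j a then f (L j a) j else 0, ?_, ?_, ?_⟩
  · intro j a
    dsimp only
    by_cases h : NB μ j a
    · have h' : NB μ a j := rank_NB_symm hμ h
      rw [if_pos h, if_pos h', hL.symm a j]
      have ha : a = q (L j a) j := hqu (L j a) j a rfl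
      have h1 : NB μ j (q (L j a) j) := by rw [← ha]; exact h
      have h2 := hf2 (L j a) j h1
      rw [← ha] at h2
      exact h2.symm
    · have h' : ¬ NB μ a j := fun h' => h (rank_NB_symm hμ h')
      rw [if_neg h, if_neg h']
  · intro j a h
    dsimp only
    rw [if_pos h]
    have ha : a = q (L j a) j := hqu (L j a) j a rfl
    apply hf1 (L j a) j
    rw [← ha]
    exact h
  · intro j a j' a' h h' hc hr
    dsimp only at hr
    rw [if_pos h, if_pos h', ← hc] at hr
    have ha : a = q (L j a) j := hqu (L j a) j a rfl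
    have ha' : a' = q (L j a) j' := hqu (L j a) j' a' hc.symm
    have h1 : NB μ j (q (L j a) j) := by rw [← ha]; exact h
    have h2 : NB μ j' (q (L j a) j') := by rw [← ha']; exact h'
    rcases hf3 (L j a) j j' h1 h2 hr with h3 | h3
    · left
      refine ⟨h3, ?_⟩
      rw [ha', h3]
      exact ha.symm
    · right
      refine ⟨?_, ?_⟩
      · rw [h3]
        exact ha.symm
      · rw [ha', h3, hqq]

theorem rank_of {A J : Type*} [Zero A] [Fintype A] [Fintype J] (k : ℕ)
    (hA : Fintype.card A = 2 * k + 2) (hJ : Fintype.card J = 2 * k + 2)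
    {g : J → J → A} (hg : IsOF g) :
    ∃ r : J → J → ℕ, (∀ j a, r j a = r a j) ∧ (∀ j a, a ≠ j → r j a < k + 1) ∧
      ∀ j a j' a', a ≠ j → a' ≠ j' → g j a = g j' a' → r j a = r j' a' → SP j a j' a' := by
  classical
  have hAJ : Fintype.card A = Fintype.card J := by rw [hA, hJ]
  have hex : ∀ (c : A) (j : J), ∃ a, c ≠ 0 → a ≠ j ∧ g j a = c := by
    intro c j
    by_cases hc : c = 0
    · exact ⟨j, fun h => absurd hc h⟩
    · obtain ⟨a, ha⟩ := hg.exists_partner hAJ j c hc
      exact ⟨a, fun _ => ha⟩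
  choose q hq using hex
  have hqu : ∀ c j a, c ≠ 0 → a ≠ j → g j a = c → a = q c j := by
    intro c j a hc ha h
    exact hg.inj j a (q c j) ha (hq c j hc).1 (by rw [h, (hq c j hc).2])
  have hqq : ∀ c j, c ≠ 0 → q c (q c j) = j := by
    intro c j hc
    refine (hqu c (q c j) j hc (hq c j hc).1.symm ?_).symm
    rw [hg.symm, (hq c j hc).2]
  have key : ∀ c : A, ∃ f : J → ℕ, (∀ j, c ≠ 0 → f j < k + 1) ∧
      (∀ j, c ≠ 0 → f (q c j) = f j) ∧
      ∀ j j', c ≠ 0 → c ≠ 0 → f j = f j' → j' = j ∨ j' = q c j := by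
    intro c
    apply inv_rank (k + 1) (q c) (fun _ => c ≠ 0)
    · intro j h
      exact hqq c j h
    · intro j h
      exact h
    · intro j h
      exact (hq c j h).1
    · rw [Nat.card_eq_fintype_card]
      have h1 := Fintype.card_subtype_le (fun _ : J => c ≠ 0)
      rw [hJ] at h1
      omega
  choose f hf1 hf2 hf3 using key
  refine ⟨fun j a => if a ≠ j then f (g j a) j else 0, ?_, ?_, ?_⟩
  · intro j a
    dsimp only
    by_cases h : a ≠ j
    · have h' : j ≠ a := h.symm
      rw [if_pos h, if_pos h', hg.symm a j]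
      have hc : g j a ≠ 0 := hg.ne j a h'
      have ha : a = q (g j a) j := hqu (g j a) j a hc h rfl
      have h2 := hf2 (g j a) j hc
      rw [← ha] at h2
      exact h2.symm
    · have h' : ¬ j ≠ a := fun h' => h h'.symm
      rw [if_neg h, if_neg h']
  · intro j a h
    dsimp only
    rw [if_pos h]
    exact hf1 (g j a) j (hg.ne j a h.symm)
  · intro j a j' a' h h' hc hr
    dsimp only at hr
    rw [if_pos h, if_pos h', ← hc] at hr
    have hc0 : g j a ≠ 0 := hg.ne j a h.symm
    have ha : a = q (g j a) j := hqu (g j a) j a hc0 h rfl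
    have ha' : a' = q (g j a) j' := hqu (g j a) j' a' hc0 h' hc.symm
    rcases hf3 (g j a) j j' hc0 hc0 hr with h3 | h3
    · left
      refine ⟨h3, ?_⟩
      rw [ha', h3]
      exact ha.symm
    · right
      refine ⟨?_, ?_⟩
      · rw [h3]
        exact ha.symm
      · rw [ha', h3, hqq _ _ hc0]

end Pool.Agent.Lib.MP_db622c_co.CB
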