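import Pool.Agent.Lib.MP_db622c_co.CB.Blow
import Pool.Agent.Lib.MP_db622c_co.CB.BaseOF

/-!
# CB-StepII: from a sign compatible one-factorization with a rainbow perfect matching and a
schedule to a pair of orthogonal one-factorizations
-/

namespace Pool.Agent.Lib.MP_db622c_co.CB

open Pool.Agent.Lib.MP_db622c_co

theorem zmod2_add_one_ne (a : ZMod 2) : a + 1 ≠ a := by
  revert a; decide

theorem zmod2_self (a : ZMod 2) : a + a = 0 := by
  revert a; decide

theorem NB_symm {J : Type*} {μ : J → J} (hμ : ∀ j, μ (μ j) = j) {j a : J} (h : NB μ j a) :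
    NB μ a j := by
  refine ⟨h.1.symm, ?_⟩
  intro hc
  apply h.2
  rw [hc, hμ]

section

variable {K V A J : Type*} [Field K] [CommGroup V] [Zero A]

open Classical in
/-- The blow-up data of step II. -/
noncomputable def blowII [Fintype A] [Fintype J] (hc : Fintype.card A = Fintype.card J)
    {S : A → J → ℤ} {g : J → J → A} (hg : IsOF g) (hsp : IsSplit S g)
    {k : ℕ} {μ : J → J} (hμ : ∀ j, μ (μ j) = j) {L : J → J → A} {side : J → ZMod 2}
    (hL : IsLam L μ side) {h : J → J → ZMod (2 * k)} (Sc : Sched V k μ L g h) : Blow S V :=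
  let p : A → J → J := fun i j => if hi : i ≠ 0 then (hg.exists_partner hc j i hi).choose else j
  have p_ne : ∀ i j, i ≠ 0 → p i j ≠ j := by
    intro i j hi
    have h1 := (hg.exists_partner hc j i hi).choose_spec.1
    simp only [p, hi, ne_eq, not_false_eq_true, dif_pos]
    exact h1
  have g_p : ∀ i j, i ≠ 0 → g j (p i j) = i := by
    intro i j hi
    have h1 := (hg.exists_partner hc j i hi).choose_spec.2
    simp only [p, hi, ne_eq, not_false_eq_true, dif_pos]
    exact h1
  have p_p : ∀ i j, i ≠ 0 → p i (p i j) = j := by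
    intro i j hi
    refine hg.inj (p i j) _ _ (p_ne i _ hi) (p_ne i j hi).symm ?_
    rw [g_p i _ hi, hg.symm, g_p i j hi]
  have p_split : ∀ i j, i ≠ 0 → S i (p i j) = - S i j := by
    intro i j hi
    have h1 := hsp j (p i j) (p_ne i j hi).symm
    rwa [g_p i j hi] at h1
  { g := g
    p := p
    q := p
    L := fun α j a => Sc.ρ α (L j a)
    σ := Sc.σ
    dir := fun i j => p i j = μ j
    al := fun i j => Sc.al j (p i j)
    cc := fun i _ => i
    hg := hg
    p_ne := p_ne
    g_p := g_p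
    q_q := p_p
    q_split := p_split
    L_symm := fun α j a => by rw [hL.symm]
    L_inj := fun α j a b hab => hL.inj j a b ((Sc.ρ α).injective hab)
    σ_symm := Sc.σ_symm
    dir_p := by
      intro i j hi
      show p i (p i j) = μ (p i j) ↔ p i j = μ j
      rw [p_p i j hi]
      constructor
      · intro h1
        rw [h1, hμ, ← h1]
      · intro h1
        rw [h1, hμ]
    dir_q := by
      intro i j hi
      show p i (p i j) = μ (p i j) ↔ p i j = μ j
      rw [p_p i j hi]
      constructor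
      · intro h1
        rw [h1, hμ, ← h1]
      · intro h1
        rw [h1, hμ]
    q_dir := fun i j _ _ => rfl
    al_p := by
      intro i j hi _
      show Sc.al (p i j) (p i (p i j)) = Sc.al j (p i j)
      rw [p_p i j hi, Sc.al_symm]
    al_q := by
      intro i j hi _
      show Sc.al (p i j) (p i (p i j)) = Sc.al j (p i j)
      rw [p_p i j hi, Sc.al_symm]
    cc_p := fun _ _ _ _ => rfl
    cc_q := fun _ _ _ _ => rfl
    al_inj := by
      intro i i' j hi hi' _ _ hh
      have h1 : p i' j = p i j := by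
        rcases Sc.al_inj _ _ _ _ hh with h1 | h1
        · exact h1.2
        · exact h1.2.trans h1.1
      rw [← g_p i j hi, ← g_p i' j hi', h1]
    L_cc := by
      intro i j hi _
      show Sc.ρ (Sc.al j (p i j)) (L j (p i j)) = i
      rw [Sc.ρ_al, g_p i j hi]
    cc_split := fun i j hi _ => p_split i j hi }

/-- The properties of the blow-up data of step II. -/
structure IsII {S : A → J → ℤ} {k : ℕ} {μ : J → J} {L g : J → J → A}
    {h : J → J → ZMod (2 * k)} (B : Blow S V) (Sc : Sched V k μ L g h) : Prop where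
  hq : ∀ i j, B.q i j = B.p i j
  hL : ∀ α j a, B.L α j a = Sc.ρ α (L j a)
  hσ : ∀ j a, B.σ j a = Sc.σ j a
  hd : ∀ i j, B.dir i j ↔ B.p i j = μ j
  ha : ∀ i j, B.al i j = Sc.al j (B.p i j)
  hg : B.g = g
  hc : ∀ i j, B.cc i j = i

theorem exists_II [Fintype A] [Fintype J] (hc : Fintype.card A = Fintype.card J)
    {S : A → J → ℤ} {g : J → J → A} (hg : IsOF g) (hsp : IsSplit S g)
    {k : ℕ} {μ : J → J} (hμ : ∀ j, μ (μ j) = j) {L : J → J → A} {side : J → ZMod 2}
    (hL : IsLam L μ side) {h : J → J → ZMod (2 * k)} (Sc : Sched V k μ L g h) :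
    ∃ B : Blow S V, IsII B Sc :=
  ⟨blowII hc hg hsp hμ hL Sc, ⟨fun _ _ => rfl, fun _ _ _ => rfl, fun _ _ => rfl,
    fun _ _ => Iff.rfl, fun _ _ => rfl, rfl, fun _ _ => rfl⟩⟩

theorem SP.symm {j a j' a' : J} (h : SP j a j' a') : SP j' a' j a := by
  rcases h with ⟨h1, h2⟩ | ⟨h1, h2⟩
  · exact Or.inl ⟨h1.symm, h2.symm⟩
  · exact Or.inr ⟨h2.symm, h1.symm⟩

section units

variable {S : A → J → ℤ} {k : ℕ} {μ : J → J} {L g : J → J → A} {side : J → ZMod 2}
  {h : J → J → ZMod (2 * k)} {B : Blow S V} {Sc : Sched V k μ L g h}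

open Classical in
/-- the round class of a unit -/
noncomputable def rcl (P : Pack K V) (Sc : Sched V k μ L g h) (j a : J) (w : K) :
    ZMod (2 * k) :=
  h j a + (if w = 0 then 0 else Sc.δ (P.N w))

theorem rcl_zero (P : Pack K V) (Sc : Sched V k μ L g h) (j a : J) :
    rcl P Sc j a 0 = h j a := by
  simp [rcl]

theorem rcl_col (P : Pack K V) (hB : IsII B Sc) (j a : J) {w : K} (hw : w ≠ 0) :
    rcl P Sc j a w = h j a + Sc.δ (Sc.σ j a (B.col P j a w)) := by
  unfold rcl Blow.col
  rw [if_neg hw, hB.hσ, Equiv.apply_symm_apply]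

/-- two units outside the blocks with the same board and the same round class coincide -/
theorem unit_nb (P : Pack K V) (hB : IsII B Sc) {j a j' a' : J} {w w' : K} (hn : NB μ j a)
    (hn' : NB μ j' a') (hb : B.bd P j a w = B.bd P j' a' w')
    (hr : rcl P Sc j a w = rcl P Sc j' a' w') : SP j a j' a' ∧ w = w' := by
  have hja : j ≠ a := hn.1.symm
  have hja' : j' ≠ a' := hn'.1.symm
  have hal : ∀ (j a : J), j ≠ a → B.al (B.g j a) j = Sc.al j a := by
    intro j a hja
    rw [hB.ha, B.p_eq hja]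
  have hmv : ∀ (j a : J) (w : K) (i : A), B.mv P j a w i → B.g j a = i ∧ B.al i j = Sc.al j a := by
    intro j a w i hi
    have h1 := hi.2.2.2.1
    rw [hB.hq] at h1
    have h2 := B.g_p i j hi.1
    rw [h1] at h2
    exact ⟨h2, by rw [hB.ha, h1]⟩
  -- the amplitudes of the same pair
  have hamp : SP j a j' a' → w ≠ 0 → w' ≠ 0 → B.amp P j a w = B.amp P j' a' w' → w = w' := by
    intro hs hw hw' hh
    rcases hs with ⟨h1, h2⟩ | ⟨h1, h2⟩
    · rw [h1, h2] at hh
      exact B.amp_inj P j a hw hw' hh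
    · rw [h1, h2, B.amp_symm P a j] at hh
      exact B.amp_inj P j a hw hw' hh
  -- moved zero unit against regular unit
  have hzr : ∀ (j a j' a' : J) (w' : K), NB μ j a → NB μ j' a' → w' ≠ 0 →
      (∀ i, ¬ B.mv P j' a' w' i) → ¬ B.dir (B.g j a) j →
      (P.b (B.al (B.g j a) j)⁻¹, B.cc (B.g j a) j) = (B.amp P j' a' w', B.cls P j' a' w') →
      h j a = rcl P Sc j' a' w' → False := by
    intro j a j' a' w' hn hn' hw' hi hd hbb hrr
    have hja : j ≠ a := hn.1.symm
    have h1 : P.b (Sc.al j a)⁻¹ = B.amp P j' a' w' := by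
      rw [← hal j a hja]; exact congrArg Prod.fst hbb
    have h2 : B.g j a = B.cls P j' a' w' := by
      have := congrArg Prod.snd hbb
      rw [hB.hc] at this
      exact this
    have h3 : Sc.al j a = B.col P j' a' w' := by
      have h4 := B.N_amp P j' a' hw'
      rw [← h1, P.N_b] at h4
      exact inv_injective h4
    have h4 : L j' a' = L j a := by
      unfold Blow.cls at h2
      rw [hB.hL, ← h3, hB.hg, ← Sc.ρ_al j a] at h2
      exact ((Sc.ρ _).injective h2).symm
    rw [rcl_col P hB j' a' hw', ← h3] at hrr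
    have hsp := Sc.s2 j a j' a' hn hn' h4 hrr.symm
    have hmv' : B.mv P j a w' (B.g j a) := by
      refine ⟨B.g_ne hja, hd, ?_, ?_, ?_⟩
      · rw [hal j a hja, h3]
        rcases hsp with ⟨h5, h6⟩ | ⟨h5, h6⟩
        · rw [h5, h6]
        · rw [h5, h6, B.col_symm]
      · rw [hB.hq, B.p_eq hja]
      · rw [hal j a hja, h1]
        rcases hsp with ⟨h5, h6⟩ | ⟨h5, h6⟩
        · rw [h5, h6]
        · rw [h5, h6, B.amp_symm]
    rcases hsp with ⟨h5, h6⟩ | ⟨h5, h6⟩
    · rw [h5, h6] at hi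
      exact hi _ hmv'
    · rw [h5, h6] at hi
      exact hi _ (B.mv_symm P hmv')
  have hnd : ∀ (j a : J), NB μ j a → ¬ B.dir (B.g j a) j := by
    intro j a hn hd
    rw [hB.hd, B.p_eq hn.1.symm] at hd
    exact hn.2 hd
  rcases B.bd_cases P j a w (Or.inl hja) with ⟨hw, -, hd, e⟩ | ⟨hw, -, hd, e⟩ |
    ⟨hw, i, hi, e⟩ | ⟨hw, hi, e⟩
  · exact absurd hd (hnd j a hn)
  · rcases B.bd_cases P j' a' w' (Or.inl hja') with ⟨hw', -, hd', e'⟩ | ⟨hw', -, hd', e'⟩ |
      ⟨hw', i', hi', e'⟩ | ⟨hw', hi', e'⟩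
    · exact absurd hd' (hnd j' a' hn')
    · rw [e, e'] at hb
      have h1 : P.b (B.al (B.g j a) j)⁻¹ = P.b (B.al (B.g j' a') j')⁻¹ := congrArg Prod.fst hb
      rw [hal j a hja, hal j' a' hja'] at h1
      have h2 : Sc.al j a = Sc.al j' a' := by
        have h5 := congrArg P.N h1
        rw [P.N_b, P.N_b] at h5
        exact inv_injective h5
      exact ⟨Sc.al_inj _ _ _ _ h2, hw.trans hw'.symm⟩
    · rw [e, e'] at hb
      exact absurd (congrArg Prod.fst hb) (P.b_ne _)
    · rw [e, e'] at hb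
      rw [hw, rcl_zero] at hr
      exact (hzr j a j' a' w' hn hn' hw' hi' hd hb hr).elim
  · rcases B.bd_cases P j' a' w' (Or.inl hja') with ⟨hw', -, hd', e'⟩ | ⟨hw', -, hd', e'⟩ |
      ⟨hw', i', hi', e'⟩ | ⟨hw', hi', e'⟩
    · exact absurd hd' (hnd j' a' hn')
    · rw [e, e'] at hb
      exact absurd (congrArg Prod.fst hb).symm (P.b_ne _)
    · rw [e, e'] at hb
      have h1 : i = i' := congrArg Prod.snd hb
      subst h1
      obtain ⟨h2, h3⟩ := hmv j a w i hi
      obtain ⟨h2', h3'⟩ := hmv j' a' w' i hi'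
      rw [rcl_col P hB j a hw, rcl_col P hB j' a' hw', ← hi.2.2.1, ← hi'.2.2.1, h3, h3'] at hr
      have h4 : g j a = g j' a' := by
        rw [← hB.hg, h2, h2']
      have hsp := Sc.s3 j a j' a' hn hn' h4 hr
      refine ⟨hsp, hamp hsp hw hw' ?_⟩
      rw [hi.2.2.2.2, hi'.2.2.2.2, h3, h3']
      rcases hsp with ⟨h5, h6⟩ | ⟨h5, h6⟩
      · rw [h5, h6]
      · rw [h5, h6, Sc.al_symm]
    · rw [e, e'] at hb
      exact absurd (congrArg Prod.fst hb).symm (B.amp_ne P _ _ hw')
  · rcases B.bd_cases P j' a' w' (Or.inl hja') with ⟨hw', -, hd', e'⟩ | ⟨hw', -, hd', e'⟩ |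
      ⟨hw', i', hi', e'⟩ | ⟨hw', hi', e'⟩
    · exact absurd hd' (hnd j' a' hn')
    · rw [e, e'] at hb
      rw [hw', rcl_zero] at hr
      exact (hzr j' a' j a w hn' hn hw hi hd' hb.symm hr.symm).elim
    · rw [e, e'] at hb
      exact absurd (congrArg Prod.fst hb) (B.amp_ne P _ _ hw)
    · rw [e, e'] at hb
      have h3 : B.amp P j a w = B.amp P j' a' w' := congrArg Prod.fst hb
      have h4 : B.cls P j a w = B.cls P j' a' w' := congrArg Prod.snd hb
      have h5 := B.col_of_amp P hw hw' h3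
      have h6 : L j a = L j' a' := by
        unfold Blow.cls at h4
        rw [hB.hL, hB.hL, h5] at h4
        exact (Sc.ρ _).injective h4
      rw [rcl_col P hB j a hw, rcl_col P hB j' a' hw', h5] at hr
      have hsp := Sc.s1 _ j a j' a' hn hn' h6 hr
      exact ⟨hsp, hamp hsp hw hw' h3⟩

/-- two units inside the blocks with the same board -/
theorem unit_block (P : Pack K V) (hB : IsII B Sc) (hS : ∀ a j, S a j = 1 ∨ S a j = -1)
    (hL : IsLam L μ side) (hμ : IsRB g μ) {j a j' a' : J} {w w' : K}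
    (hn : ¬ NB μ j a) (hn' : ¬ NB μ j' a') (hu : j ≠ a ∨ w ≠ 0) (hu' : j' ≠ a' ∨ w' ≠ 0)
    (hb : B.bd P j a w = B.bd P j' a' w') :
    w = w' ∧ ((a = j ∧ a' = j' ∧ (j' = j ∨ side j' = side j + 1)) ∨
      (a = μ j ∧ a' = μ j' ∧ (j' = j ∨ j' = μ j))) := by
  -- block units are direct or regular
  have hk : ∀ (j a : J) (w : K), ¬ NB μ j a → (j ≠ a ∨ w ≠ 0) →
      (w = 0 ∧ a = μ j ∧ B.bd P j a w = (0, g j a)) ∨
      (w ≠ 0 ∧ B.bd P j a w = (B.amp P j a w, B.cls P j a w)) := by
    intro j a w hn hu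
    have hn2 : a = j ∨ a = μ j := by
      unfold NB at hn
      tauto
    rcases B.bd_cases P j a w hu with ⟨hw, hja, hd, e⟩ | ⟨hw, hja, hd, e⟩ |
      ⟨hw, i, hi, e⟩ | ⟨hw, hi, e⟩
    · left
      refine ⟨hw, ?_, by rw [e, hB.hg]⟩
      rcases hn2 with h1 | h1
      · exact absurd h1.symm hja
      · exact h1
    · exfalso
      rw [hB.hd, B.p_eq hja] at hd
      rcases hn2 with h1 | h1
      · exact hja h1.symm
      · exact hd h1
    · exfalso
      obtain ⟨h0, h1, -, h3, -⟩ := hi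
      rw [hB.hd] at h1
      rw [hB.hq] at h3
      rcases hn2 with h4 | h4
      · exact B.p_ne i j h0 (h3.trans h4)
      · exact h1 (h3.trans h4)
    · exact Or.inr ⟨hw, e⟩
  have hcol : ∀ (j a : J) (w : K), ¬ NB μ j a → B.col P j a w = P.N w := by
    intro j a w hn
    have hn2 : a = j ∨ a = μ j := by
      unfold NB at hn
      tauto
    unfold Blow.col
    rw [hB.hσ]
    rcases hn2 with h1 | h1
    · rw [h1, Sc.σ_same]; rfl
    · rw [h1, Sc.σ_μ]; rfl
  have hsame : ∀ (j : J) (w : K), B.amp P j j w = P.c (P.N w / B.col P j j w) / w := by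
    intro j w
    unfold Blow.amp Blow.num
    rw [if_neg]
    intro hc
    rcases hS (B.cls P j j w) j with h1 | h1 <;> rw [h1] at hc <;> norm_num at hc
  have hn2 : a = j ∨ a = μ j := by
    unfold NB at hn
    tauto
  have hn2' : a' = j' ∨ a' = μ j' := by
    unfold NB at hn'
    tauto
  rcases hk j a w hn hu with ⟨hw, h1, e⟩ | ⟨hw, e⟩
  · rcases hk j' a' w' hn' hu' with ⟨hw', h1', e'⟩ | ⟨hw', e'⟩
    · refine ⟨hw.trans hw'.symm, Or.inr ⟨h1, h1', ?_⟩⟩
      rw [e, e', h1, h1'] at hb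
      exact hμ.rb j j' (congrArg Prod.snd hb)
    · rw [e, e'] at hb
      exact absurd (congrArg Prod.fst hb).symm (B.amp_ne P _ _ hw')
  · rcases hk j' a' w' hn' hu' with ⟨hw', h1', e'⟩ | ⟨hw', e'⟩
    · rw [e, e'] at hb
      exact absurd (congrArg Prod.fst hb) (B.amp_ne P _ _ hw)
    · rw [e, e'] at hb
      have h3 : B.amp P j a w = B.amp P j' a' w' := congrArg Prod.fst hb
      have h4 : B.cls P j a w = B.cls P j' a' w' := congrArg Prod.snd hb
      have h5 := B.col_of_amp P hw hw' h3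
      have h6 : L j a = L j' a' := by
        unfold Blow.cls at h4
        rw [hB.hL, hB.hL, h5] at h4
        exact (Sc.ρ _).injective h4
      have h7 : P.N w = P.N w' := by
        rw [← hcol j a w hn, ← hcol j' a' w' hn', h5]
      rcases hn2 with g1 | g1 <;> rcases hn2' with g2 | g2
      · subst g1; subst g2
        rw [hsame, hsame, h5, h7] at h3
        have h8 : w = w' := by
          rw [div_eq_div_iff hw hw'] at h3
          exact (mul_left_cancel₀ (P.c_ne _) h3).symm
        refine ⟨h8, Or.inl ⟨rfl, rfl, ?_⟩⟩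
        by_cases hj : a' = a
        · exact Or.inl hj
        · exact Or.inr (hL.l1 a a' h6 (fun hh => hj hh.symm))
      · rw [g1, g2] at h6
        exact absurd h6 (hL.l3 _ _)
      · rw [g1, g2] at h6
        exact absurd h6.symm (hL.l3 _ _)
      · rw [g1, g2] at h6
        have h8 := hL.l2 _ _ h6
        refine ⟨?_, Or.inr ⟨g1, g2, h8⟩⟩
        rw [g1, g2] at h3
        rcases h8 with h9 | h9
        · rw [h9] at h3
          exact B.amp_inj P _ _ hw hw' h3
        · rw [h9, hμ.inv, B.amp_symm P (μ j) j] at h3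
          exact B.amp_inj P _ _ hw hw' h3

end units

end

end Pool.Agent.Lib.MP_db622c_co.CB
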